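import Mathlib

/-!
# ISY-OsgA: holomorphic maps into `C(K, F)`

`K` compact, `F` a complex Banach space, `V ⊆ ℂ` open. A continuous map `Φ : ℂ → C(K, F)` (on `V`)
all of whose values `t ↦ Φ t θ` are holomorphic on `V` is holomorphic on `V`: the Cauchy integral of `Φ` is analytic
and agrees with `Φ` pointwise by Cauchy's formula.
-/

set_option autoImplicit false

open Set Topology

namespace Pool.Agent.ISY

theorem differentiableOn_continuousMap {K F : Type} [TopologicalSpace K] [CompactSpace K]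
    [NormedAddCommGroup F] [NormedSpace ℂ F] [CompleteSpace F] {V : Set ℂ} (hV : IsOpen V)
    {Φ : ℂ → C(K, F)} (hc : ContinuousOn Φ V)
    (hd : ∀ θ : K, DifferentiableOn ℂ (fun t => Φ t θ) V) : DifferentiableOn ℂ Φ V := by
  intro t₀ ht₀
  obtain ⟨r, hr, hrV⟩ := Metric.nhds_basis_closedBall.mem_iff.1 (hV.mem_nhds ht₀)
  obtain ⟨R, hR⟩ : ∃ R : NNReal, (R : ℝ) = r := ⟨⟨r, hr.le⟩, rfl⟩
  have hR0 : 0 < R := by
    have : (0 : ℝ) < R := by rw [hR]; exact hr
    exact_mod_cast this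
  rw [← hR] at hr hrV
  have hsph : Metric.sphere t₀ (R : ℝ) ⊆ V := Metric.sphere_subset_closedBall.trans hrV
  have hci : CircleIntegrable Φ t₀ R := (hc.mono hsph).circleIntegrable hr.le
  have hps := hasFPowerSeriesOn_cauchy_integral hci hR0
  have hΨ : ∀ t ∈ Metric.ball t₀ (R : ℝ),
      (2 * Real.pi * Complex.I : ℂ)⁻¹ • ∮ z in C(t₀, R), (z - t)⁻¹ • Φ z = Φ t := by
    intro t ht
    have hcont : ContinuousOn (fun z : ℂ => (z - t)⁻¹ • Φ z) (Metric.sphere t₀ (R : ℝ)) := by
      refine ContinuousOn.smul (ContinuousOn.inv₀ (continuousOn_id.sub continuousOn_const) ?_) (hc.mono hsph)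
      intro z hz h0
      have h1 : z = t := sub_eq_zero.1 h0
      rw [h1, Metric.mem_sphere] at hz
      rw [Metric.mem_ball] at ht
      exact ht.ne hz
    have hint : CircleIntegrable (fun z : ℂ => (z - t)⁻¹ • Φ z) t₀ R := hcont.circleIntegrable hr.le
    ext θ
    obtain ⟨ev, hev⟩ : ∃ ev : C(K, F) →L[ℂ] F, ∀ f, ev f = f θ :=
      ⟨ContinuousMap.evalCLM ℂ θ, fun f => rfl⟩
    have e1 : ev (∮ z in C(t₀, R), (z - t)⁻¹ • Φ z) = ∮ z in C(t₀, R), (z - t)⁻¹ • Φ z θ := by
      unfold circleIntegral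
      rw [← ContinuousLinearMap.intervalIntegral_comp_comm _ hint.out]
      refine intervalIntegral.integral_congr fun s _ => ?_
      show ev (deriv (circleMap t₀ R) s • ((circleMap t₀ R s - t)⁻¹ • Φ (circleMap t₀ R s))) = _
      rw [ev.map_smul, ev.map_smul, hev]
    have e2 : ((2 * Real.pi * Complex.I : ℂ)⁻¹ • ∮ z in C(t₀, R), (z - t)⁻¹ • Φ z θ) = Φ t θ :=
      Complex.two_pi_I_inv_smul_circleIntegral_sub_inv_smul_of_differentiable_on_off_countable
        (f := fun z => Φ z θ) Set.countable_empty ht ((hd θ).continuousOn.mono hrV)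
        (fun x hx => (hd θ x (hrV (Metric.ball_subset_closedBall hx.1))).differentiableAt
          (hV.mem_nhds (hrV (Metric.ball_subset_closedBall hx.1))))
    rw [← hev, ev.map_smul, e1, e2]
  have hda : DifferentiableAt ℂ
      (fun w => (2 * Real.pi * Complex.I : ℂ)⁻¹ • ∮ z in C(t₀, R), (z - w)⁻¹ • Φ z) t₀ :=
    hps.analyticAt.differentiableAt
  have heq : Φ =ᶠ[𝓝 t₀]
      (fun w => (2 * Real.pi * Complex.I : ℂ)⁻¹ • ∮ z in C(t₀, R), (z - w)⁻¹ • Φ z) := by
    filter_upwards [Metric.ball_mem_nhds t₀ hr] with t ht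
    exact (hΨ t ht).symm
  exact (hda.congr_of_eventuallyEq heq).differentiableWithinAt

end Pool.Agent.ISY
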