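import Pool.Agent.ISY.Osg
import Pool.Agent.ISY.OsgA

/-!
# ISY-OsgB: Osgood's lemma for `ℂ × E`

Cauchy's formula in the first variable: `f (z, w) = B (κ z) (Φ w)` with analytic maps `κ`, `Φ` into spaces of
continuous functions and a bounded bilinear map `B` (integration over the circle).
-/

set_option autoImplicit false

open Set Topology

namespace Pool.Agent.ISY

private theorem osgb_curry {X K G : Type} [TopologicalSpace X] [TopologicalSpace K]
    [TopologicalSpace G] [Zero G] {S : Set X} {g : X → K → G}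
    (hg : ContinuousOn (fun p : X × K => g p.1 p.2) (S ×ˢ univ)) :
    ∃ Φ : X → C(K, G), ContinuousOn Φ S ∧ ∀ x ∈ S, ∀ θ, Φ x θ = g x θ := by
  classical
  have h1 : Continuous fun p : S × K => g p.1 p.2 :=
    hg.comp_continuous (f := fun p : S × K => ((p.1 : X), p.2)) (by fun_prop)
      (fun p => ⟨p.1.2, trivial⟩)
  refine ⟨fun x => if h : x ∈ S then
    (ContinuousMap.curry ⟨fun p : S × K => g p.1 p.2, h1⟩) ⟨x, h⟩ else 0, ?_, ?_⟩
  · rw [continuousOn_iff_continuous_domRestrict]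
    have h2 : S.domRestrict (fun x => if h : x ∈ S then
        (ContinuousMap.curry ⟨fun p : S × K => g p.1 p.2, h1⟩) ⟨x, h⟩ else 0) =
        ContinuousMap.curry ⟨fun p : S × K => g p.1 p.2, h1⟩ := by
      funext x
      show (if h : (x : X) ∈ S then
        (ContinuousMap.curry ⟨fun p : S × K => g p.1 p.2, h1⟩) ⟨x, h⟩ else 0) = _
      rw [dif_pos x.2]
    rw [h2]
    exact ContinuousMap.continuous _
  · intro x hx θ
    show (if h : x ∈ S then
        (ContinuousMap.curry ⟨fun p : S × K => g p.1 p.2, h1⟩) ⟨x, h⟩ else 0) θ = _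
    rw [dif_pos hx]
    rfl

private theorem osgb_pi : (0 : ℝ) ≤ 2 * Real.pi := Real.two_pi_pos.le

private theorem osgb_B (F : Type) [NormedAddCommGroup F] [NormedSpace ℂ F] [CompleteSpace F] :
    ∃ B : C(Icc (0 : ℝ) (2 * Real.pi), ℂ) →L[ℂ] C(Icc (0 : ℝ) (2 * Real.pi), F) →L[ℂ] F,
      ∀ κ φ, B κ φ = ∫ θ in (0 : ℝ)..2 * Real.pi,
        κ (projIcc 0 (2 * Real.pi) osgb_pi θ) • φ (projIcc 0 (2 * Real.pi) osgb_pi θ) := by
  have hp : Continuous (projIcc 0 (2 * Real.pi) osgb_pi) := continuous_projIcc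
  have hi : ∀ (κ : C(Icc (0 : ℝ) (2 * Real.pi), ℂ)) (φ : C(Icc (0 : ℝ) (2 * Real.pi), F)),
      IntervalIntegrable (fun θ => κ (projIcc 0 (2 * Real.pi) osgb_pi θ) •
        φ (projIcc 0 (2 * Real.pi) osgb_pi θ)) MeasureTheory.volume 0 (2 * Real.pi) := fun κ φ =>
    ((κ.continuous.comp hp).smul (φ.continuous.comp hp)).intervalIntegrable _ _
  refine ⟨LinearMap.mkContinuous₂ (LinearMap.mk₂ ℂ (fun κ φ => ∫ θ in (0 : ℝ)..2 * Real.pi,
    κ (projIcc 0 (2 * Real.pi) osgb_pi θ) • φ (projIcc 0 (2 * Real.pi) osgb_pi θ))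
    ?_ ?_ ?_ ?_) (2 * Real.pi) ?_, fun κ φ => rfl⟩
  · intro κ κ' φ
    rw [← intervalIntegral.integral_add (hi κ φ) (hi κ' φ)]
    refine intervalIntegral.integral_congr fun θ _ => ?_
    exact add_smul _ _ _
  · intro c κ φ
    rw [← intervalIntegral.integral_smul]
    refine intervalIntegral.integral_congr fun θ _ => ?_
    exact smul_assoc c (κ (projIcc 0 (2 * Real.pi) osgb_pi θ))
      (φ (projIcc 0 (2 * Real.pi) osgb_pi θ))
  · intro κ φ φ'
    rw [← intervalIntegral.integral_add (hi κ φ) (hi κ φ')]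
    refine intervalIntegral.integral_congr fun θ _ => ?_
    exact smul_add _ _ _
  · intro c κ φ
    rw [← intervalIntegral.integral_smul]
    refine intervalIntegral.integral_congr fun θ _ => ?_
    exact smul_comm (κ (projIcc 0 (2 * Real.pi) osgb_pi θ)) c
      (φ (projIcc 0 (2 * Real.pi) osgb_pi θ))
  · intro κ φ
    have h1 : ∀ θ ∈ uIoc (0 : ℝ) (2 * Real.pi), ‖κ (projIcc 0 (2 * Real.pi) osgb_pi θ) •
        φ (projIcc 0 (2 * Real.pi) osgb_pi θ)‖ ≤ ‖κ‖ * ‖φ‖ := by
      intro θ _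
      rw [norm_smul]
      exact mul_le_mul (κ.norm_coe_le_norm _) (φ.norm_coe_le_norm _) (norm_nonneg _)
        (norm_nonneg _)
    have h2 := intervalIntegral.norm_integral_le_of_norm_le_const h1
    rw [sub_zero, abs_of_nonneg osgb_pi] at h2
    refine h2.trans (le_of_eq ?_)
    ring

/-- the kernel of Cauchy's formula as a map into the continuous functions -/
private theorem osgb_kernel (z₀ : ℂ) {r : ℝ} (hr : 0 < r) :
    ∃ κ : ℂ → C(Icc (0 : ℝ) (2 * Real.pi), ℂ), AnalyticOnNhd ℂ κ (Metric.ball z₀ r) ∧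
      ∀ z ∈ Metric.ball z₀ r, ∀ θ : Icc (0 : ℝ) (2 * Real.pi),
        κ z θ = (2 * Real.pi * Complex.I : ℂ)⁻¹ * (deriv (circleMap z₀ r) θ *
          (circleMap z₀ r θ - z)⁻¹) := by
  have hne : ∀ z ∈ Metric.ball z₀ r, ∀ θ : ℝ, circleMap z₀ r θ - z ≠ 0 := by
    intro z hz θ h0
    have h1 : circleMap z₀ r θ ∈ Metric.ball z₀ r := by
      rw [sub_eq_zero.1 h0]
      exact hz
    have h2 := circleMap_mem_sphere z₀ hr.le θ
    rw [Metric.mem_sphere] at h2
    rw [Metric.mem_ball, h2] at h1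
    exact lt_irrefl _ h1
  have hc : ContinuousOn (fun p : ℂ × Icc (0 : ℝ) (2 * Real.pi) =>
      (2 * Real.pi * Complex.I : ℂ)⁻¹ * (deriv (circleMap z₀ r) p.2 *
          (circleMap z₀ r p.2 - p.1)⁻¹)) (Metric.ball z₀ r ×ˢ univ) := by
    have hd : Continuous fun p : ℂ × Icc (0 : ℝ) (2 * Real.pi) => deriv (circleMap z₀ r) p.2 := by
      have h1 : deriv (circleMap z₀ r) = fun θ => circleMap 0 r θ * Complex.I := by
        funext θ
        exact deriv_circleMap z₀ r θ
      rw [h1]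
      exact ((continuous_circleMap 0 r).comp
        (continuous_subtype_val.comp continuous_snd)).mul continuous_const
    have hs : Continuous fun p : ℂ × Icc (0 : ℝ) (2 * Real.pi) => circleMap z₀ r p.2 - p.1 :=
      ((continuous_circleMap z₀ r).comp
        (continuous_subtype_val.comp continuous_snd)).sub continuous_fst
    exact continuousOn_const.mul (hd.continuousOn.mul
      (hs.continuousOn.inv₀ fun p hp => hne p.1 hp.1 p.2))
  obtain ⟨κ, h1, h2⟩ := osgb_curry (g := fun (z : ℂ) (θ : Icc (0 : ℝ) (2 * Real.pi)) =>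
    (2 * Real.pi * Complex.I : ℂ)⁻¹ * (deriv (circleMap z₀ r) θ * (circleMap z₀ r θ - z)⁻¹)) hc
  refine ⟨κ, ?_, h2⟩
  refine DifferentiableOn.analyticOnNhd ?_ Metric.isOpen_ball
  refine differentiableOn_continuousMap Metric.isOpen_ball h1 fun θ => ?_
  have h3 : DifferentiableOn ℂ (fun z : ℂ => (2 * Real.pi * Complex.I : ℂ)⁻¹ *
      (deriv (circleMap z₀ r) θ * (circleMap z₀ r θ - z)⁻¹)) (Metric.ball z₀ r) := by
    intro z hz
    refine DifferentiableAt.differentiableWithinAt ?_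
    refine DifferentiableAt.const_mul (DifferentiableAt.const_mul ?_ _) _
    exact DifferentiableAt.inv (by fun_prop) (hne z hz θ)
  exact h3.congr fun z hz => h2 z hz θ

theorem osg_prod (E : Type) [NormedAddCommGroup E] [NormedSpace ℂ E] [FiniteDimensional ℂ E]
    (h : Osg E) : Osg (ℂ × E) := by
  intro F _ _ _ U f hU hf hd p₀ hp₀
  obtain ⟨z₀, w₀⟩ := p₀
  obtain ⟨r, hr, hrU⟩ := Metric.nhds_basis_closedBall.mem_iff.1 (hU.mem_nhds hp₀)
  rw [← closedBall_prod_same] at hrU
  have hzU : ∀ θ : ℝ, ∀ w ∈ Metric.ball w₀ r, (circleMap z₀ r θ, w) ∈ U := fun θ w hw =>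
    hrU ⟨Metric.sphere_subset_closedBall (circleMap_mem_sphere z₀ hr.le θ),
      Metric.ball_subset_closedBall hw⟩
  -- the map into the continuous functions on the circle
  have hc : ContinuousOn (fun p : E × Icc (0 : ℝ) (2 * Real.pi) => f (circleMap z₀ r p.2, p.1))
      (Metric.ball w₀ r ×ˢ univ) := by
    refine hf.comp (Continuous.continuousOn ?_) fun p hp => hzU p.2 p.1 hp.1
    exact ((continuous_circleMap z₀ r).comp
        (continuous_subtype_val.comp continuous_snd)).prodMk continuous_fst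
  obtain ⟨Φ, hΦc, hΦ⟩ := osgb_curry
    (g := fun (w : E) (θ : Icc (0 : ℝ) (2 * Real.pi)) => f (circleMap z₀ r θ, w)) hc
  have hline : ∀ (x h : ℂ × E) (t : ℂ), x + t • h ∈ U →
      DifferentiableAt ℂ (fun s : ℂ => f (x + s • h)) t := by
    intro x h t ht
    have h1 := hd _ ht h
    have h2 : (fun s : ℂ => f (x + s • h)) =
        (fun s : ℂ => f (x + t • h + s • h)) ∘ fun s : ℂ => s - t := by
      funext s
      show f (x + s • h) = f (x + t • h + (s - t) • h)
      congr 1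
      rw [add_assoc, ← add_smul]
      congr 2
      ring
    rw [h2]
    refine DifferentiableAt.comp t ?_ (by fun_prop)
    rw [sub_self]
    exact h1
  have hΦa : AnalyticOnNhd ℂ Φ (Metric.ball w₀ r) := by
    refine h C(Icc (0 : ℝ) (2 * Real.pi), F) _ Φ Metric.isOpen_ball hΦc ?_
    intro w hw e
    have hcl : Continuous fun t : ℂ => w + t • e := by fun_prop
    have hV : IsOpen {t : ℂ | w + t • e ∈ Metric.ball w₀ r} := Metric.isOpen_ball.preimage hcl
    have h0 : (0 : ℂ) ∈ {t : ℂ | w + t • e ∈ Metric.ball w₀ r} := by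
      show w + (0 : ℂ) • e ∈ Metric.ball w₀ r
      rw [zero_smul, add_zero]
      exact hw
    have key : DifferentiableOn ℂ (fun t : ℂ => Φ (w + t • e))
        {t : ℂ | w + t • e ∈ Metric.ball w₀ r} := by
      refine differentiableOn_continuousMap hV (hΦc.comp hcl.continuousOn fun t ht => ht) ?_
      intro θ
      have h1 : DifferentiableOn ℂ (fun t : ℂ => f ((circleMap z₀ r θ, w) + t • ((0 : ℂ), e)))
          {t : ℂ | w + t • e ∈ Metric.ball w₀ r} := by
        intro t ht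
        refine (hline _ _ t ?_).differentiableWithinAt
        have h2 : ((circleMap z₀ r θ, w) : ℂ × E) + t • ((0 : ℂ), e) =
            (circleMap z₀ r θ, w + t • e) := by
          rw [Prod.smul_mk, smul_zero, Prod.mk_add_mk, add_zero]
        rw [h2]
        exact hzU θ _ ht
      refine h1.congr fun t ht => ?_
      have h2 : ((circleMap z₀ r θ, w) : ℂ × E) + t • ((0 : ℂ), e) =
          (circleMap z₀ r θ, w + t • e) := by
        rw [Prod.smul_mk, smul_zero, Prod.mk_add_mk, add_zero]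
      rw [h2]
      exact hΦ _ ht θ
    exact (key 0 h0).differentiableAt (hV.mem_nhds h0)
  obtain ⟨κ, hκa, hκ⟩ := osgb_kernel z₀ hr
  obtain ⟨B, hB⟩ := osgb_B F
  -- Cauchy's formula
  have hformula : ∀ z ∈ Metric.ball z₀ r, ∀ w ∈ Metric.ball w₀ r, f (z, w) = B (κ z) (Φ w) := by
    intro z hz w hw
    have h1 : DifferentiableOn ℂ (fun ζ : ℂ => f (ζ, w)) (Metric.closedBall z₀ r) := by
      have h2 : DifferentiableOn ℂ (fun ζ : ℂ => f (((0 : ℂ), w) + ζ • ((1 : ℂ), (0 : E))))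
          (Metric.closedBall z₀ r) := by
        intro ζ hζ
        refine (hline _ _ ζ ?_).differentiableWithinAt
        have h3 : (((0 : ℂ), w) : ℂ × E) + ζ • ((1 : ℂ), (0 : E)) = (ζ, w) := by
          rw [Prod.smul_mk, smul_zero, Prod.mk_add_mk, add_zero, zero_add, smul_eq_mul, mul_one]
        rw [h3]
        exact hrU ⟨hζ, Metric.ball_subset_closedBall hw⟩
      refine h2.congr fun ζ _ => ?_
      have h3 : (((0 : ℂ), w) : ℂ × E) + ζ • ((1 : ℂ), (0 : E)) = (ζ, w) := by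
        rw [Prod.smul_mk, smul_zero, Prod.mk_add_mk, add_zero, zero_add, smul_eq_mul, mul_one]
      rw [h3]
    have h2 := ((h1.mono Metric.closure_ball_subset_closedBall).diffContOnCl
      ).two_pi_i_inv_smul_circleIntegral_sub_inv_smul hz
    rw [← h2, hB]
    show (2 * Real.pi * Complex.I : ℂ)⁻¹ • (∫ θ in (0 : ℝ)..2 * Real.pi,
      deriv (circleMap z₀ r) θ • ((circleMap z₀ r θ - z)⁻¹ • f (circleMap z₀ r θ, w))) = _
    rw [← intervalIntegral.integral_smul]
    refine intervalIntegral.integral_congr fun θ hθ => ?_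
    rw [uIcc_of_le osgb_pi] at hθ
    show (2 * Real.pi * Complex.I : ℂ)⁻¹ • deriv (circleMap z₀ r) θ •
      ((circleMap z₀ r θ - z)⁻¹ • f (circleMap z₀ r θ, w)) =
      κ z (projIcc 0 (2 * Real.pi) osgb_pi θ) • Φ w (projIcc 0 (2 * Real.pi) osgb_pi θ)
    rw [projIcc_of_mem osgb_pi hθ, hκ z hz, hΦ w hw, smul_smul, smul_smul]
    congr 1
    ring
  have hfin : AnalyticAt ℂ (fun p : ℂ × E => B (κ p.1) (Φ p.2)) (z₀, w₀) := by
    have h1 : AnalyticAt ℂ (fun p : ℂ × E => κ p.1) (z₀, w₀) :=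
      (hκa z₀ (Metric.mem_ball_self hr)).comp analyticAt_fst
    have h2 : AnalyticAt ℂ (fun p : ℂ × E => Φ p.2) (z₀, w₀) :=
      (hΦa w₀ (Metric.mem_ball_self hr)).comp analyticAt_snd
    exact (B.analyticAt_bilinear (κ z₀, Φ w₀)).comp₂ h1 h2
  refine hfin.congr ?_
  have hn : Metric.ball z₀ r ×ˢ Metric.ball w₀ r ∈ 𝓝 ((z₀, w₀) : ℂ × E) :=
    prod_mem_nhds (Metric.ball_mem_nhds z₀ hr) (Metric.ball_mem_nhds w₀ hr)
  filter_upwards [hn] with p hp
  exact (hformula p.1 hp.1 p.2 hp.2).symm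

end Pool.Agent.ISY
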