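import Pool.Agent.ISY.Osg
import Pool.Agent.ISY.OsgB

/-!
# ISY-OsgC: Osgood's lemma in finite dimension; limits of holomorphic maps are holomorphic

Uses `osg_prod` (ISY-OsgB, take it as given).

Plan for `osg`: (a) `Osg` is invariant under continuous linear equivalences `E ≃L[ℂ] E'` (compose `f` with
the equivalence); (b) it is trivial for a subsingleton `E` (a map from a subsingleton is constant, or
`U = ∅`); (c) by induction on `n`, `Osg (Fin n → ℂ)`: `Fin (n+1) → ℂ ≃L ℂ × (Fin n → ℂ)`
(`ContinuousLinearEquiv`, e.g. from `Fin.consEquiv`/`Fin.insertNthEquiv`, or simply: both have the same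
finite dimension, `ContinuousLinearEquiv.ofFinrankEq`/`FiniteDimensional.nonempty_continuousLinearEquiv_of_finrank_eq`);
(d) `E ≃L[ℂ] (Fin (finrank ℂ E) → ℂ)` by the same lemma. (Or do the induction directly on `finrank ℂ E`
using (a), (b) and `osg_prod`.)

Plan for `analyticOnNhd_of_tendsto`: `g` is continuous on `U` (`TendstoLocallyUniformlyOn.continuousOn`, the
`f i` are eventually continuous); for `x ∈ U` and `h : E` the set `{t : ℂ | x + t • h ∈ U}` is open and
contains `0`, and `t ↦ f i (x + t • h)` converges to `t ↦ g (x + t • h)` locally uniformly on it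
(`TendstoLocallyUniformlyOn.comp`), so the limit is differentiable
(`TendstoLocallyUniformlyOn.differentiableOn`). Apply `osg`.
-/

set_option autoImplicit false

open Set Topology Filter

namespace Pool.Agent.ISY

private theorem osg_equiv {E E' : Type} [NormedAddCommGroup E] [NormedSpace ℂ E]
    [NormedAddCommGroup E'] [NormedSpace ℂ E'] (e : E ≃L[ℂ] E') (h : Osg E') : Osg E := by
  intro F _ _ _ U f hU hc hd
  have h1 : AnalyticOnNhd ℂ (fun y => f (e.symm y)) (e.symm ⁻¹' U) := by
    refine h F (e.symm ⁻¹' U) (fun y => f (e.symm y)) (hU.preimage e.symm.continuous)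
      (hc.comp e.symm.continuous.continuousOn fun y hy => hy) ?_
    intro y hy k
    have h2 := hd (e.symm y) hy (e.symm k)
    have h3 : (fun t : ℂ => f (e.symm (y + t • k))) = fun t : ℂ => f (e.symm y + t • e.symm k) := by
      funext t
      rw [map_add, map_smul]
    rw [h3]
    exact h2
  intro x hx
  have hx' : e x ∈ e.symm ⁻¹' U := by
    show e.symm (e x) ∈ U
    rw [e.symm_apply_apply]
    exact hx
  have h4 : AnalyticAt ℂ (fun x => (fun y => f (e.symm y)) (e x)) x :=
    (h1 (e x) hx').comp (e.toContinuousLinearMap.analyticAt x)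
  have h5 : (fun x => (fun y => f (e.symm y)) (e x)) = f := by
    funext x
    show f (e.symm (e x)) = f x
    rw [e.symm_apply_apply]
  rw [h5] at h4
  exact h4

private theorem osg_sub (E : Type) [NormedAddCommGroup E] [NormedSpace ℂ E] [Subsingleton E] :
    Osg E := by
  intro F _ _ _ U f _ _ _ x _
  have h5 : f = fun _ => f x := by
    funext y
    rw [Subsingleton.elim y x]
  rw [h5]
  exact analyticAt_const

private theorem osg_fin : ∀ n : ℕ, Osg (Fin n → ℂ) := by
  intro n
  induction n with
  | zero => exact osg_sub _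
  | succ n ih =>
    have h1 : Osg (ℂ × (Fin n → ℂ)) := osg_prod _ ih
    have h2 : Module.finrank ℂ (Fin (n + 1) → ℂ) = Module.finrank ℂ (ℂ × (Fin n → ℂ)) := by
      rw [Module.finrank_prod, Module.finrank_fin_fun, Module.finrank_fin_fun, Module.finrank_self]
      omega
    exact osg_equiv (ContinuousLinearEquiv.ofFinrankEq h2) h1

theorem osg (E : Type) [NormedAddCommGroup E] [NormedSpace ℂ E] [FiniteDimensional ℂ E] :
    Osg E := by
  have h2 : Module.finrank ℂ E = Module.finrank ℂ (Fin (Module.finrank ℂ E) → ℂ) := by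
    rw [Module.finrank_fin_fun]
  exact osg_equiv (ContinuousLinearEquiv.ofFinrankEq h2) (osg_fin _)

theorem analyticOnNhd_of_tendsto {E F : Type} [NormedAddCommGroup E] [NormedSpace ℂ E]
    [FiniteDimensional ℂ E] [NormedAddCommGroup F] [NormedSpace ℂ F] [CompleteSpace F] {U : Set E}
    (hU : IsOpen U) {ι : Type} {l : Filter ι} [l.NeBot] {f : ι → E → F} {g : E → F}
    (hf : ∀ᶠ i in l, AnalyticOnNhd ℂ (f i) U) (h : TendstoLocallyUniformlyOn f g l U) :
    AnalyticOnNhd ℂ g U := by
  refine osg E F U g hU (h.continuousOn (hf.mono fun i hi => hi.continuousOn).frequently) ?_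
  intro x hx k
  have hc : Continuous fun t : ℂ => x + t • k := by fun_prop
  have hV : IsOpen ((fun t : ℂ => x + t • k) ⁻¹' U) := hU.preimage hc
  have h0 : (0 : ℂ) ∈ (fun t : ℂ => x + t • k) ⁻¹' U := by
    show x + (0 : ℂ) • k ∈ U
    rw [zero_smul, add_zero]
    exact hx
  have h1 := h.comp (fun t : ℂ => x + t • k) (t := (fun t : ℂ => x + t • k) ⁻¹' U)
    (fun t ht => ht) hc.continuousOn
  have h2 : DifferentiableOn ℂ (g ∘ fun t : ℂ => x + t • k) ((fun t : ℂ => x + t • k) ⁻¹' U) := by
    refine h1.differentiableOn ?_ hV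
    refine hf.mono fun i hi => ?_
    intro t ht
    have h3 : DifferentiableAt ℂ (f i) (x + t • k) := (hi _ ht).differentiableAt
    have h4 : DifferentiableAt ℂ (fun t : ℂ => x + t • k) t := by fun_prop
    exact (DifferentiableAt.comp (g := f i) t h3 h4).differentiableWithinAt
  exact (h2 0 h0).differentiableAt (hV.mem_nhds h0)

end Pool.Agent.ISY
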