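import Mathlib

/-!
# ISY-Ab: abstract fibred actions (definitions)

`G` is a topological group acting on `X` and on `Y`, `π : X → Y` is equivariant. `Vert Y f`: `f` acts
trivially on the base `Y`. `IdOn π f b`: `f` is the identity on the fibre over `b`.
-/

set_option autoImplicit false

open Set Topology Filter

namespace Pool.Agent.ISY

/-- `f` acts trivially on the base -/
def Vert (Y : Type) {G : Type} [Group G] [MulAction G Y] (f : G) : Prop := ∀ y : Y, f • y = y

/-- `f` is the identity on the fibre over `b` -/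
def IdOn {G X Y : Type} [Group G] [MulAction G X] (π : X → Y) (f : G) (b : Y) : Prop :=
  ∀ x, π x = b → f • x = x

/-- an equivariant fibration with open orbit maps -/
structure Fibr (G : Type) {X Y : Type} [Group G] [TopologicalSpace G] [TopologicalSpace X]
    [TopologicalSpace Y] [MulAction G X] [MulAction G Y] (π : X → Y) : Prop where
  cont : Continuous π
  surj : Function.Surjective π
  equi : ∀ (g : G) (x : X), π (g • x) = g • π x
  hopX : ∀ x : X, IsOpenMap (fun g : G => g • x)
  hopY : ∀ y : Y, IsOpenMap (fun g : G => g • y)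
  trX : ∀ x x' : X, ∃ g : G, g • x = x'
  faithful : ∀ g : G, (∀ x : X, g • x = x) → g = 1

/-- what is used about the action on the base -/
structure BaseOK (G Y : Type) [Group G] [MulAction G Y] [TopologicalSpace Y] : Prop where
  /-- the stabilizer of a point acts through an abelian group -/
  ab : ∀ (b : Y) (g h : G), g • b = b → h • b = b → ∀ y : Y, g • h • y = h • g • y
  /-- a fixed point of a nontrivial map is isolated -/
  iso : ∀ (b : Y) (r : G), r • b = b → ¬ Vert Y r → ∀ᶠ y in 𝓝[≠] b, r • y ≠ y
  /-- the conjugates of a nontrivial map fixing `b` send `b` everywhere -/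
  conj : ∀ (b : Y) (r : G), r • b = b → ¬ Vert Y r → ∀ v : Y, ∃ g : G, (g * r * g⁻¹) • b = v
  /-- no isolated points -/
  noniso : ∀ b : Y, (𝓝[≠] b).NeBot

/-- identity principle along the fibres -/
def FibId (G : Type) {X Y : Type} [Group G] [MulAction G X] [MulAction G Y] [TopologicalSpace Y]
    (π : X → Y) : Prop :=
  ∀ (b : Y) (f : G), Vert Y f → (∃ᶠ z in 𝓝[≠] b, IdOn π f z) → f = 1

/-- a good abelian normal subgroup: vertical, open in the group of vertical elements, containing every
vertical element which is the identity on some fibre -/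
structure GoodA {G X Y : Type} [Group G] [TopologicalSpace G] [MulAction G X] [MulAction G Y]
    (π : X → Y) (A : Subgroup G) : Prop where
  normal : ∀ g : G, ∀ a ∈ A, g * a * g⁻¹ ∈ A
  comm : ∀ a ∈ A, ∀ a' ∈ A, a * a' = a' * a
  vert : ∀ a ∈ A, Vert Y a
  nhd : ∃ W ∈ 𝓝 (1 : G), ∀ f ∈ W, Vert Y f → f ∈ A
  ker : ∀ (f : G) (b : Y), Vert Y f → IdOn π f b → f ∈ A

/-- coordinates on the fibres, with values in the punctured plane -/
structure FibCs (G : Type) {X Y : Type} [Group G] [MulAction G X] [MulAction G Y] [TopologicalSpace X]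
    (π : X → Y) (U : Y → X → ℂ) : Prop where
  emb : ∀ y, IsEmbedding (fun x : (π ⁻¹' {y} : Set X) => U y x)
  bij : ∀ y, BijOn (U y) (π ⁻¹' {y}) {0}ᶜ
  act : ∀ (g : G) (y : Y),
    (∃ c : ℂ, c ≠ 0 ∧ ∀ x, π x = y → U (g • y) (g • x) = c * U y x) ∨
    (∃ c : ℂ, c ≠ 0 ∧ ∀ x, π x = y → U (g • y) (g • x) = c / U y x)

/-- coordinates on the fibres, with values in the plane -/
structure FibC (G : Type) {X Y : Type} [Group G] [MulAction G X] [MulAction G Y] [TopologicalSpace X]
    (π : X → Y) (U : Y → X → ℂ) : Prop where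
  emb : ∀ y, IsEmbedding (fun x : (π ⁻¹' {y} : Set X) => U y x)
  bij : ∀ y, BijOn (U y) (π ⁻¹' {y}) univ
  act : ∀ (g : G) (y : Y), ∃ α β : ℂ, α ≠ 0 ∧
    ∀ x, π x = y → U (g • y) (g • x) = α * U y x + β

/-- the homeomorphism given by an element -/
def toC {G X : Type} [Group G] [TopologicalSpace X] [MulAction G X] [ContinuousConstSMul G X]
    (g : G) : C(X, X) := ⟨fun x => g • x, continuous_const_smul g⟩

/-- `G` has the compact-open topology and is closed among the homeomorphisms, together with their inverses -/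
structure LimOK (G X : Type) [Group G] [TopologicalSpace G] [TopologicalSpace X] [MulAction G X]
    [ContinuousConstSMul G X] : Prop where
  ind : IsInducing (toC : G → C(X, X))
  lim : ∀ φ ψ : C(X, X), (φ, ψ) ∈ closure (range (fun g : G => ((toC g, toC g⁻¹) : C(X, X) × C(X, X)))) →
    ∃ g : G, (toC g : C(X, X)) = φ

end Pool.Agent.ISY
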