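import Mathlib

/-!
# ISY-Arens: inversion is continuous in the compact-open topology

Mathlib only, self-contained. `F i`, `F' i` are mutually inverse homeomorphisms of `X`, locally compact,
locally connected, T2; if `F i → f` in the compact-open topology and `f` has the continuous inverse `f'`,
then `F' i → f'` (Arens).

Plan. `ContinuousMap.tendsto_nhds_compactOpen` (names in `Mathlib/Topology/CompactOpen.lean`): for `K`
compact, `O` open, `MapsTo f' K O`, show `∀ᶠ i in l, MapsTo (F' i) K O`. It is enough to find for every
`y ∈ K` a neighbourhood `C` of `y` with `∀ᶠ i in l, MapsTo (F' i) C O` (`IsCompact.induction_on` or a finite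
subcover). Let `x := f' y ∈ O`. Let `D` be an open neighbourhood of `x` with compact closure in `O`; `f '' D`
is an open neighbourhood of `y` (`= f' ⁻¹' D`). Let `C` be a closed connected neighbourhood of `y` with
`C ⊆ f' ⁻¹' D` (closure of an open connected neighbourhood whose closure lies in `f' ⁻¹' D`: X is regular,
locally connected). The frontier `∂D = closure D \ D` is compact and `f` maps it into the open set `Cᶜ`
(if `f z ∈ C` then `z = f' (f z) ∈ D`). So eventually `MapsTo (F i) ∂D Cᶜ`, and eventually `F i x ∈ C`
(`f x = y ∈ interior C`). For such `i` the set `F' i '' C` is connected, contains `x = F' i (F i x) ∈ D`, and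
does not meet `∂D` (`z = F' i c ∈ ∂D` gives `F i z = c ∈ C`, no). A connected set that meets the open set
`D` and does not meet its frontier lies in `D` (`IsPreconnected.subset_of_frontier..`; or it is covered by
the disjoint open sets `D` and `(closure D)ᶜ`). So `F' i '' C ⊆ D ⊆ O`.
-/

set_option autoImplicit false

open Set Topology Filter

namespace Pool.Agent.ISY

private theorem arens_local {X : Type} [TopologicalSpace X] [T2Space X] [LocallyCompactSpace X]
    [LocallyConnectedSpace X] {ι : Type} {l : Filter ι} {F F' : ι → C(X, X)} {f f' : C(X, X)}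
    (h1 : ∀ i x, F' i (F i x) = x) (h2 : ∀ i x, F i (F' i x) = x)
    (h3 : ∀ x, f' (f x) = x) (h4 : ∀ x, f (f' x) = x) (h : Tendsto F l (𝓝 f))
    {O : Set X} (hO : IsOpen O) {y : X} (hy : f' y ∈ O) :
    ∃ C ∈ 𝓝 y, ∀ᶠ i in l, MapsTo (F' i) C O := by
  obtain ⟨D, hDo, hxD, hDO, hDc⟩ := exists_open_between_and_isCompact_closure
    (isCompact_singleton (x := f' y)) hO (singleton_subset_iff.2 hy)
  have hxD' : f' y ∈ D := singleton_subset_iff.1 hxD
  have hW : IsOpen (f' ⁻¹' D) := hDo.preimage f'.continuous
  obtain ⟨V, hVo, hyV, hVW, -⟩ := exists_open_between_and_isCompact_closure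
    (isCompact_singleton (x := y)) hW (singleton_subset_iff.2 (show y ∈ f' ⁻¹' D from hxD'))
  have hyV' : y ∈ V := singleton_subset_iff.1 hyV
  have hUo : IsOpen (connectedComponentIn V y) := hVo.connectedComponentIn
  have hyU : y ∈ connectedComponentIn V y := mem_connectedComponentIn hyV'
  have hCp : IsPreconnected (closure (connectedComponentIn V y)) :=
    isPreconnected_connectedComponentIn.closure
  have hCW : closure (connectedComponentIn V y) ⊆ f' ⁻¹' D :=
    (closure_mono (connectedComponentIn_subset V y)).trans hVW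
  refine ⟨closure (connectedComponentIn V y),
    mem_of_superset (hUo.mem_nhds hyU) subset_closure, ?_⟩
  rw [ContinuousMap.tendsto_nhds_compactOpen] at h
  have e1 := h (closure D \ D) (hDc.diff hDo) (closure (connectedComponentIn V y))ᶜ
    isClosed_closure.isOpen_compl (by
      intro z hz hzC
      have h5 : f' (f z) ∈ D := hCW hzC
      rw [h3] at h5
      exact hz.2 h5)
  have e2 := h {f' y} isCompact_singleton (connectedComponentIn V y) hUo (by
      intro z hz
      rw [mem_singleton_iff] at hz
      rw [hz, h4]
      exact hyU)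
  filter_upwards [e1, e2] with i k1 k2
  have k3 : F i (f' y) ∈ connectedComponentIn V y := k2 (mem_singleton _)
  have k4 : IsPreconnected (F' i '' closure (connectedComponentIn V y)) :=
    hCp.image _ (F' i).continuous.continuousOn
  have k5 : F' i '' closure (connectedComponentIn V y) ⊆ D ∪ (closure D)ᶜ := by
    rintro _ ⟨c, hc, rfl⟩
    by_cases hD : F' i c ∈ D
    · exact Or.inl hD
    · refine Or.inr fun hcl => ?_
      have h6 := k1 ⟨hcl, hD⟩
      rw [h2] at h6
      exact h6 hc
  have k6 : F' i '' closure (connectedComponentIn V y) ⊆ D := by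
    refine k4.subset_left_of_subset_union hDo isClosed_closure.isOpen_compl ?_ k5 ?_
    · exact disjoint_compl_right.mono_left subset_closure
    · refine ⟨f' y, ⟨F i (f' y), subset_closure k3, h1 i _⟩, hxD'⟩
  intro c hc
  exact hDO (subset_closure (k6 ⟨c, hc, rfl⟩))

theorem tendsto_inverse {X : Type} [TopologicalSpace X] [T2Space X] [LocallyCompactSpace X]
    [LocallyConnectedSpace X] {ι : Type} {l : Filter ι} {F F' : ι → C(X, X)} {f f' : C(X, X)}
    (h1 : ∀ i x, F' i (F i x) = x) (h2 : ∀ i x, F i (F' i x) = x)
    (h3 : ∀ x, f' (f x) = x) (h4 : ∀ x, f (f' x) = x) (h : Tendsto F l (𝓝 f)) :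
    Tendsto F' l (𝓝 f') := by
  rw [ContinuousMap.tendsto_nhds_compactOpen]
  intro K hK O hO hKO
  refine hK.induction_on (p := fun s => ∀ᶠ i in l, MapsTo (F' i) s O) ?_ ?_ ?_ ?_
  · exact Eventually.of_forall fun i => mapsTo_empty _ _
  · intro s t hst ht
    filter_upwards [ht] with i hi
    exact hi.mono_left hst
  · intro s t hs ht
    filter_upwards [hs, ht] with i h5 h6
    exact h5.union h6
  · intro y hy
    obtain ⟨C, hC, h5⟩ := arens_local h1 h2 h3 h4 h hO (hKO hy)
    exact ⟨C, mem_nhdsWithin_of_mem_nhds hC, h5⟩

end Pool.Agent.ISY
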