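import Pool.Agent.ISY.Mod
import Pool.Agent.EAC.PA.AInj

/-!
# ISY-AutC: automorphisms of the plane

Plan. Let `g z := γ z - γ 0`, an entire bijection with `g 0 = 0`; it is a homeomorphism of `ℂ` (open mapping
theorem: a nonconstant entire map is open, `AnalyticOnNhd.is_constant_or_isOpen`; or
`Equiv.toHomeomorphOfContinuousOpen`), so `‖g z‖ → ∞` at infinity (`Homeomorph.isClosedEmbedding`,
`tendsto_norm_cocompact_atTop`). `g` is injective so `deriv g 0 ≠ 0`
(`Pool.Agent.EAC.PA.deriv_ne_zero_of_injOn`, import `Pool.Agent.EAC.PA.AInj`, on main), and the function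
`k z := (dslope g 0 z)⁻¹` (i.e. `z / g z`) is entire: `dslope g 0` is entire and has no zero. `‖k z‖ ≤ ‖z‖` for `‖z‖`
large (there `‖g z‖ ≥ 1`), so by Cauchy's estimate on circles of radius `R → ∞` (`Complex.norm_deriv_le_of_forall_mem_sphere_norm_le`)
`‖deriv k z‖` is bounded and by Liouville `deriv k` is constant (or estimate the second derivative directly),
so `k z = a + b z`. `k` has no zero so `b = 0`, so `g z = z / a`.
-/

set_option autoImplicit false

open Set Topology Metric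

namespace Pool.Agent.ISY

theorem aut_plane {γ : ℂ → ℂ} (hγ : AutF univ γ) :
    ∃ α β : ℂ, α ≠ 0 ∧ ∀ z, γ z = α * z + β := by
  obtain ⟨hd0, hb0⟩ := hγ
  have hd : Differentiable ℂ γ := differentiableOn_univ.1 hd0
  have hbij : Function.Bijective γ := bijOn_univ.1 hb0
  obtain ⟨g, hg⟩ : ∃ g : ℂ → ℂ, g = fun z => γ z - γ 0 := ⟨_, rfl⟩
  have hgd : Differentiable ℂ g := by
    rw [hg]
    exact hd.sub_const _
  have hgi : Function.Injective g := by
    intro x y hxy
    rw [hg] at hxy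
    exact hbij.1 (sub_left_injective hxy)
  have hg0 : g 0 = 0 := by
    rw [hg]
    exact sub_self _
  -- lower bound away from the origin
  obtain ⟨ε, hε, hlow⟩ : ∃ ε : ℝ, 0 < ε ∧ ∀ z : ℂ, 1 ≤ ‖z‖ → ε ≤ ‖g z‖ := by
    have hA : AnalyticOnNhd ℂ g univ := hgd.differentiableOn.analyticOnNhd isOpen_univ
    have hop : IsOpen (g '' ball 0 1) := by
      rcases hA.is_constant_or_isOpen isPreconnected_univ with ⟨w, hw⟩ | h1
      · exfalso
        have h2 : g 0 = g 1 := by rw [hw 0 (mem_univ _), hw 1 (mem_univ _)]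
        exact zero_ne_one (hgi h2)
      · exact h1 _ (subset_univ _) isOpen_ball
    have h0 : (0 : ℂ) ∈ g '' ball 0 1 := ⟨0, mem_ball_self one_pos, hg0⟩
    obtain ⟨ε, hε, hsub⟩ := Metric.isOpen_iff.1 hop 0 h0
    refine ⟨ε, hε, fun z hz => ?_⟩
    by_contra hcon
    have h1 : g z ∈ ball (0 : ℂ) ε := by
      rw [mem_ball_zero_iff]
      exact not_le.1 hcon
    obtain ⟨w, hw, hwz⟩ := hsub h1
    have h2 : w = z := hgi hwz
    rw [h2, mem_ball_zero_iff] at hw
    linarith
  have hder : deriv g 0 ≠ 0 :=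
    Pool.Agent.EAC.PA.deriv_ne_zero_of_injOn one_pos hgd.differentiableOn hgi.injOn
  have hds : Differentiable ℂ (dslope g 0) := by
    rw [← differentiableOn_univ, Complex.differentiableOn_dslope Filter.univ_mem]
    exact hgd.differentiableOn
  have hds_ne : ∀ z : ℂ, z ≠ 0 → dslope g 0 z = g z / z := by
    intro z hz
    rw [dslope_of_ne g hz, slope_def_field, hg0, sub_zero, sub_zero]
  have hgz : ∀ z : ℂ, z ≠ 0 → g z ≠ 0 := by
    intro z hz h1
    rw [← hg0] at h1
    exact hz (hgi h1)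
  have hds0 : ∀ z : ℂ, dslope g 0 z ≠ 0 := by
    intro z
    by_cases hz : z = 0
    · rw [hz, dslope_same]
      exact hder
    · rw [hds_ne z hz]
      exact div_ne_zero (hgz z hz) hz
  obtain ⟨k, hk⟩ : ∃ k : ℂ → ℂ, k = fun z => (dslope g 0 z)⁻¹ := ⟨_, rfl⟩
  have hkd : Differentiable ℂ k := by
    rw [hk]
    exact hds.inv hds0
  have hk0 : ∀ z, k z ≠ 0 := by
    intro z
    rw [hk]
    exact inv_ne_zero (hds0 z)
  have hkb : ∀ z : ℂ, 1 ≤ ‖z‖ → ‖k z‖ ≤ ‖z‖ / ε := by
    intro z hz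
    have hz0 : z ≠ 0 := by
      rintro rfl
      rw [norm_zero] at hz
      linarith
    rw [hk]
    show ‖(dslope g 0 z)⁻¹‖ ≤ ‖z‖ / ε
    rw [hds_ne z hz0, inv_div, norm_div]
    exact div_le_div_of_nonneg_left (norm_nonneg _) hε (hlow z hz)
  have hdk : Differentiable ℂ (deriv k) := by
    rw [← differentiableOn_univ]
    exact hkd.differentiableOn.deriv isOpen_univ
  have hbd : ∀ c : ℂ, ‖deriv k c‖ ≤ 2 / ε := by
    intro c
    have hR : 0 < ‖c‖ + 1 := by positivity
    have h1 : ∀ z ∈ sphere c (‖c‖ + 1), ‖k z‖ ≤ 2 * (‖c‖ + 1) / ε := by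
      intro z hz
      rw [mem_sphere_iff_norm] at hz
      have h2 : ‖z - c‖ ≤ ‖z‖ + ‖c‖ := norm_sub_le _ _
      have h3 : ‖z‖ ≤ ‖z - c‖ + ‖c‖ := by
        have := norm_add_le (z - c) c
        rwa [sub_add_cancel] at this
      refine (hkb z (by linarith)).trans ?_
      exact div_le_div_of_nonneg_right (by linarith) hε.le
    have h2 := Complex.norm_deriv_le_of_forall_mem_sphere_norm_le hR (hkd.diffContOnCl) h1
    refine h2.trans (le_of_eq ?_)
    field_simp
  obtain ⟨b, hb⟩ := hdk.exists_const_forall_eq_of_bounded (by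
    rw [isBounded_iff_forall_norm_le]
    refine ⟨2 / ε, ?_⟩
    rintro _ ⟨c, rfl⟩
    exact hbd c)
  have hlin : ∀ z, k z = k 0 + b * z := by
    have h1 : Differentiable ℂ (fun z => k z - b * z) := hkd.sub (differentiable_id.const_mul b)
    have h2 : ∀ z, deriv (fun z => k z - b * z) z = 0 := by
      intro z
      have h3 : HasDerivAt (fun z => k z - b * z) (deriv k z - b * 1) z :=
        (hkd z).hasDerivAt.sub ((hasDerivAt_id z).const_mul b)
      rw [h3.deriv, hb z]
      ring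
    intro z
    have h4 := is_const_of_deriv_eq_zero h1 h2 z 0
    have h5 : k z - b * z = k 0 - b * 0 := h4
    rw [mul_zero, sub_zero] at h5
    rw [← h5]
    ring
  have hb0 : b = 0 := by
    by_contra hne
    have h1 := hlin (-(k 0) / b)
    apply hk0 (-(k 0) / b)
    rw [h1]
    field_simp
    ring
  have hconst : ∀ z, k z = k 0 := by
    intro z
    rw [hlin z, hb0, zero_mul, add_zero]
  refine ⟨(k 0)⁻¹, γ 0, inv_ne_zero (hk0 0), fun z => ?_⟩
  have hgzz : g z = (k 0)⁻¹ * z := by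
    by_cases hz : z = 0
    · rw [hz, hg0, mul_zero]
    · have h1 := hconst z
      have h2 : k z = z / g z := by
        rw [hk]
        show (dslope g 0 z)⁻¹ = z / g z
        rw [hds_ne z hz, inv_div]
      rw [← h1, h2, inv_div, div_mul_cancel₀ _ hz]
  have h3 : g z = γ z - γ 0 := by rw [hg]
  rw [← hgzz, h3]
  ring

end Pool.Agent.ISY
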