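import Pool.Agent.ISY.AutC

/-!
# ISY-AutCs: automorphisms of the punctured plane

Uses `aut_plane` (ISY-AutC).
-/

set_option autoImplicit false

open Set Topology Metric

namespace Pool.Agent.ISY

private theorem cs_nhds {γ : ℂ → ℂ} (hγ : AutF {0}ᶜ γ) {z₁ : ℂ} (hz₁ : z₁ ≠ 0) :
    𝓝 (γ z₁) ≤ Filter.map γ (𝓝 z₁) := by
  have hmem : ({0}ᶜ : Set ℂ) ∈ 𝓝 z₁ := isOpen_compl_singleton.mem_nhds hz₁
  have han : AnalyticAt ℂ γ z₁ := hγ.1.analyticAt hmem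
  rcases han.eventually_constant_or_nhds_le_map_nhds with h | h
  · exfalso
    have h1 : ∀ᶠ z in 𝓝[≠] z₁, γ z = γ z₁ ∧ z ∈ ({0}ᶜ : Set ℂ) ∧ z ≠ z₁ := by
      filter_upwards [nhdsWithin_le_nhds h, nhdsWithin_le_nhds hmem, self_mem_nhdsWithin] with
        z h2 h3 h4 using ⟨h2, h3, h4⟩
    obtain ⟨z, h2, h3, h4⟩ := h1.exists
    exact h4 (hγ.2.injOn h3 hz₁ h2)
  · exact h

private theorem cs_core {γ : ℂ → ℂ} (hγ : AutF {0}ᶜ γ) (h0 : Filter.Tendsto γ (𝓝[≠] 0) (𝓝 0)) :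
    ∃ c : ℂ, c ≠ 0 ∧ ∀ z, z ≠ 0 → γ z = c * z := by
  have hne : ∀ z, z ≠ 0 → Function.update γ 0 0 z = γ z := fun z hz => Function.update_of_ne hz _ _
  have h00 : Function.update γ 0 0 0 = (0 : ℂ) := Function.update_self _ _ _
  have hd : DifferentiableOn ℂ (Function.update γ 0 0) univ := by
    refine (Complex.differentiableOn_compl_singleton_and_continuousAt_iff
      (Filter.univ_mem : (univ : Set ℂ) ∈ 𝓝 (0 : ℂ))).1 ⟨?_, ?_⟩
    · have h1 : (univ \ {0} : Set ℂ) = {0}ᶜ := (compl_eq_univ_sdiff _).symm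
      rw [h1]
      exact hγ.1.congr fun z hz => hne z hz
    · exact continuousAt_update_same.2 h0
  have hb : BijOn (Function.update γ 0 0) univ univ := by
    refine ⟨mapsTo_univ _ _, ?_, ?_⟩
    · intro z _ w _ h
      by_cases hz : z = 0
      · by_cases hw : w = 0
        · rw [hz, hw]
        · rw [hz, h00, hne w hw] at h
          exact absurd h.symm (hγ.2.mapsTo hw)
      · by_cases hw : w = 0
        · rw [hw, h00, hne z hz] at h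
          exact absurd h (hγ.2.mapsTo hz)
        · rw [hne z hz, hne w hw] at h
          exact hγ.2.injOn hz hw h
    · intro w _
      by_cases hw : w = 0
      · exact ⟨0, mem_univ _, by rw [h00, hw]⟩
      · obtain ⟨z, hz, rfl⟩ := hγ.2.surjOn hw
        exact ⟨z, mem_univ _, hne z hz⟩
  obtain ⟨α, β, hα, h⟩ := aut_plane (γ := Function.update γ 0 0) ⟨hd, hb⟩
  have hβ : β = 0 := by
    have h1 := h 0
    rw [h00, mul_zero, zero_add] at h1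
    exact h1.symm
  refine ⟨α, hα, fun z hz => ?_⟩
  rw [← hne z hz, h z, hβ, add_zero]

private theorem cs_lim {γ : ℂ → ℂ} (hγ : AutF {0}ᶜ γ) {b : ℂ} (hb : Filter.Tendsto γ (𝓝[≠] 0) (𝓝 b)) :
    b = 0 := by
  by_contra hcon
  obtain ⟨z₁, hz₁, rfl⟩ := hγ.2.surjOn hcon
  have hz₁' : z₁ ≠ 0 := hz₁
  have hpos : 0 < ‖z₁‖ := norm_pos_iff.2 hz₁'
  have hV : {z : ℂ | ‖z₁‖ / 2 < ‖z‖} ∈ 𝓝 z₁ :=
    (isOpen_lt continuous_const continuous_norm).mem_nhds (by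
      show ‖z₁‖ / 2 < ‖z₁‖
      linarith)
  have h1 : γ '' {z : ℂ | ‖z₁‖ / 2 < ‖z‖} ∈ 𝓝 (γ z₁) := cs_nhds hγ hz₁' (Filter.image_mem_map hV)
  have h2 := hb h1
  have h3 : ball (0 : ℂ) (‖z₁‖ / 2) ∈ 𝓝[≠] (0 : ℂ) :=
    nhdsWithin_le_nhds (ball_mem_nhds _ (by linarith))
  have h4 : ∀ᶠ z in 𝓝[≠] (0 : ℂ), γ z ∈ γ '' {z : ℂ | ‖z₁‖ / 2 < ‖z‖} ∧ z ∈ ball (0 : ℂ) (‖z₁‖ / 2) ∧ z ≠ 0 := by
    filter_upwards [h2, h3, self_mem_nhdsWithin] with z h5 h6 h7 using ⟨h5, h6, h7⟩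
  obtain ⟨z, ⟨v, hv, hvz⟩, h6, h7⟩ := h4.exists
  have hv0 : v ≠ 0 := by
    rintro rfl
    have h8 : ‖z₁‖ / 2 < ‖(0 : ℂ)‖ := hv
    rw [norm_zero] at h8
    linarith
  have h9 : v = z := hγ.2.injOn hv0 h7 hvz
  rw [h9] at hv
  have h10 : ‖z₁‖ / 2 < ‖z‖ := hv
  rw [mem_ball_zero_iff] at h6
  linarith

theorem aut_punctured {γ : ℂ → ℂ} (hγ : AutF {0}ᶜ γ) :
    (∃ c : ℂ, c ≠ 0 ∧ ∀ z, z ≠ 0 → γ z = c * z) ∨ (∃ c : ℂ, c ≠ 0 ∧ ∀ z, z ≠ 0 → γ z = c / z) := by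
  have hV : {z : ℂ | 1 / 2 < ‖z‖} ∈ 𝓝 (1 : ℂ) :=
    (isOpen_lt continuous_const continuous_norm).mem_nhds (by
      show (1 : ℝ) / 2 < ‖(1 : ℂ)‖
      rw [norm_one]
      norm_num)
  have h1 : γ '' {z : ℂ | 1 / 2 < ‖z‖} ∈ 𝓝 (γ 1) := cs_nhds hγ one_ne_zero (Filter.image_mem_map hV)
  obtain ⟨ε, hε, hball⟩ := Metric.mem_nhds_iff.1 h1
  have hball0 : ball (0 : ℂ) (1 / 2) ∈ 𝓝[≠] (0 : ℂ) := nhdsWithin_le_nhds (ball_mem_nhds _ (by norm_num))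
  have hfar : ∀ᶠ z in 𝓝[≠] (0 : ℂ), z ≠ 0 ∧ ε ≤ ‖γ z - γ 1‖ := by
    filter_upwards [hball0, self_mem_nhdsWithin] with z h2 h3
    refine ⟨h3, ?_⟩
    by_contra hcon
    have h4 : γ z ∈ ball (γ 1) ε := by
      rw [mem_ball, dist_eq_norm]
      exact not_le.1 hcon
    obtain ⟨v, hv, hvz⟩ := hball h4
    have h8 : (1 : ℝ) / 2 < ‖v‖ := hv
    have hv0 : v ≠ 0 := by
      rintro rfl
      rw [norm_zero] at h8
      linarith
    have h9 : v = z := hγ.2.injOn hv0 h3 hvz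
    rw [h9] at h8
    rw [mem_ball_zero_iff] at h2
    linarith
  have hd : ∀ᶠ z in 𝓝[≠] (0 : ℂ), DifferentiableAt ℂ (fun z => (γ z - γ 1)⁻¹) z := by
    filter_upwards [hfar] with z hz
    have h2 : DifferentiableAt ℂ γ z := (hγ.1 z hz.1).differentiableAt (isOpen_compl_singleton.mem_nhds hz.1)
    refine (h2.sub_const _).inv ?_
    intro h3
    have h4 := hz.2
    rw [h3, norm_zero] at h4
    linarith
  have hbd : Filter.IsBoundedUnder (· ≤ ·) (𝓝[≠] (0 : ℂ))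
      fun z => ‖(fun z => (γ z - γ 1)⁻¹) z - (fun z => (γ z - γ 1)⁻¹) 0‖ := by
    refine ⟨ε⁻¹ + ‖(γ 0 - γ 1)⁻¹‖, ?_⟩
    rw [Filter.eventually_map]
    filter_upwards [hfar] with z hz
    refine (norm_sub_le _ _).trans ?_
    refine add_le_add ?_ le_rfl
    show ‖(γ z - γ 1)⁻¹‖ ≤ ε⁻¹
    rw [norm_inv]
    exact inv_anti₀ hε hz.2
  have hlim := Complex.tendsto_limUnder_of_differentiable_on_punctured_nhds_of_bounded_under hd hbd
  obtain ⟨b, hlim⟩ : ∃ b : ℂ, Filter.Tendsto (fun z => (γ z - γ 1)⁻¹) (𝓝[≠] 0) (𝓝 b) := ⟨_, hlim⟩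
  by_cases hb : b = 0
  · right
    subst hb
    have hinv : AutF {0}ᶜ (fun z => (γ z)⁻¹) := by
      refine ⟨hγ.1.inv fun z hz => hγ.2.mapsTo hz, ?_, ?_, ?_⟩
      · intro z hz
        exact inv_ne_zero (hγ.2.mapsTo hz)
      · intro z hz w hw h
        exact hγ.2.injOn hz hw (inv_injective h)
      · intro w hw
        obtain ⟨z, hz, hzw⟩ := hγ.2.surjOn (show w⁻¹ ∈ ({0}ᶜ : Set ℂ) from inv_ne_zero hw)
        exact ⟨z, hz, by show (γ z)⁻¹ = w; rw [hzw, inv_inv]⟩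
    have ht : Filter.Tendsto (fun z => (γ z)⁻¹) (𝓝[≠] 0) (𝓝 0) := by
      have h2 : Filter.Tendsto (fun z => (γ z - γ 1)⁻¹ / (γ 1 * (γ z - γ 1)⁻¹ + 1)) (𝓝[≠] 0)
          (𝓝 (0 / (γ 1 * 0 + 1))) := by
        refine hlim.div ((hlim.const_mul _).add_const 1) ?_
        rw [mul_zero, zero_add]
        exact one_ne_zero
      rw [zero_div] at h2
      refine h2.congr' ?_
      filter_upwards [hfar] with z hz
      have h3 : γ z - γ 1 ≠ 0 := by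
        intro h3
        have h4 := hz.2
        rw [h3, norm_zero] at h4
        linarith
      have h5 : γ z ≠ 0 := hγ.2.mapsTo hz.1
      have h6 : γ 1 * (γ z - γ 1)⁻¹ + 1 = γ z * (γ z - γ 1)⁻¹ := by
        field_simp
        ring
      rw [h6]
      field_simp
    obtain ⟨c, hc, h⟩ := cs_core hinv ht
    refine ⟨c⁻¹, inv_ne_zero hc, fun z hz => ?_⟩
    have h2 : (γ z)⁻¹ = c * z := h z hz
    rw [← inv_inv (γ z), h2, mul_inv, div_eq_mul_inv]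
  · left
    have ht : Filter.Tendsto γ (𝓝[≠] 0) (𝓝 (γ 1 + b⁻¹)) := by
      have h2 : Filter.Tendsto (fun z => γ 1 + ((γ z - γ 1)⁻¹)⁻¹) (𝓝[≠] 0) (𝓝 (γ 1 + b⁻¹)) :=
        (hlim.inv₀ hb).const_add _
      refine h2.congr fun z => ?_
      rw [inv_inv]
      ring
    have h3 := cs_lim hγ ht
    rw [h3] at ht
    exact cs_core hγ ht

end Pool.Agent.ISY
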