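import Pool.Agent.ISY.Mod
import Pool.Agent.EAC.PA.AInj

/-!
# ISY-AutD: automorphisms of the disc

* `exists_tau`: `τ z = (z + b) / (1 + conj b * z)`, `τ' z = (z - b) / (1 - conj b * z)`.
* `aut_disc_fix`: `γ` and its inverse (holomorphic: derivative nonzero by
  `Pool.Agent.EAC.PA.deriv_ne_zero_of_injOn`, import `Pool.Agent.EAC.PA.AInj`, on main, and the inverse function
  theorem; or avoid the inverse: for `0 < r < 1` ...) satisfy Schwarz' lemma
  (`Complex.norm_le_norm_of_mapsTo_ball` / `Complex.dist_le_dist_of_mapsTo_ball_self`), so `‖γ z‖ = ‖z‖`, so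
  `z ↦ γ z / z` has constant modulus, so is constant (`Complex.affine_of_mapsTo_ball_of_exists_norm_dslope_eq_div`
  in `Mathlib/Analysis/Complex/Schwarz.lean`).
* `aut_disc`: let `b = γ 0`, `τ, τ'` as above; `τ' ∘ γ` fixes `0`, so is a rotation `λ z`, `‖λ‖ = 1`, and
  `γ z = τ (λ z) = (λ z + b) / (1 + conj b * λ * z)`. With `μ² = λ`, `s = 1 / √(1 - ‖b‖²)`: `p = s μ`,
  `q = s b μ⁻¹`, `conj p = s μ⁻¹`, `conj q = s conj b μ`.
-/

set_option autoImplicit false

open Set Topology Metric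
open scoped ComplexConjugate

namespace Pool.Agent.ISY

private noncomputable def mo (b z : ℂ) : ℂ := (z + b) / (1 + conj b * z)

private theorem mo_den {b z : ℂ} (hb : b ∈ ball (0 : ℂ) 1) (hz : z ∈ ball (0 : ℂ) 1) :
    1 + conj b * z ≠ 0 := by
  rw [mem_ball_zero_iff] at hb hz
  intro h
  have h1 : conj b * z = -1 := by linear_combination h
  have h2 : ‖b‖ * ‖z‖ = 1 := by
    have h3 := congrArg norm h1
    rwa [norm_mul, norm_neg, norm_one, RCLike.norm_conj] at h3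
  have h4 := norm_nonneg b
  have h5 := norm_nonneg z
  nlinarith

private theorem mo_neg {b : ℂ} (hb : b ∈ ball (0 : ℂ) 1) : -b ∈ ball (0 : ℂ) 1 := by
  rw [mem_ball_zero_iff] at hb ⊢
  rwa [norm_neg]

private theorem mo_maps {b z : ℂ} (hb : b ∈ ball (0 : ℂ) 1) (hz : z ∈ ball (0 : ℂ) 1) :
    mo b z ∈ ball (0 : ℂ) 1 := by
  have hD := mo_den hb hz
  rw [mem_ball_zero_iff] at hb hz ⊢
  unfold mo
  rw [norm_div, div_lt_one (norm_pos_iff.2 hD)]
  apply lt_of_pow_lt_pow_left₀ 2 (norm_nonneg _)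
  rw [Complex.sq_norm, Complex.sq_norm]
  have h1 : Complex.normSq (1 + conj b * z) - Complex.normSq (z + b) =
      (1 - Complex.normSq b) * (1 - Complex.normSq z) := by
    simp only [Complex.normSq_apply, Complex.add_re, Complex.add_im, Complex.mul_re, Complex.mul_im,
      Complex.conj_re, Complex.conj_im, Complex.one_re, Complex.one_im]
    ring
  have h2 : Complex.normSq b < 1 := by
    rw [← Complex.sq_norm]
    have := norm_nonneg b
    nlinarith
  have h3 : Complex.normSq z < 1 := by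
    rw [← Complex.sq_norm]
    have := norm_nonneg z
    nlinarith
  have h4 : 0 < (1 - Complex.normSq b) * (1 - Complex.normSq z) :=
    mul_pos (by linarith) (by linarith)
  linarith

private theorem mo_inv {b z : ℂ} (hb : b ∈ ball (0 : ℂ) 1) (hz : z ∈ ball (0 : ℂ) 1) :
    mo (-b) (mo b z) = z := by
  have h1 : 1 + conj (-b) * mo b z ≠ 0 := mo_den (mo_neg hb) (mo_maps hb hz)
  have hD := mo_den hb hz
  have e : mo (-b) (mo b z) = (mo b z + -b) / (1 + conj (-b) * mo b z) := rfl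
  have hw : mo b z * (1 + conj b * z) = z + b := by
    unfold mo
    rw [div_mul_cancel₀ _ hD]
  rw [e, div_eq_iff h1, map_neg]
  linear_combination hw

private theorem mo_aut {b : ℂ} (hb : b ∈ ball (0 : ℂ) 1) : AutF (ball 0 1) (mo b) := by
  constructor
  · unfold mo
    refine DifferentiableOn.div ?_ ?_ fun z hz => mo_den hb hz
    · exact (differentiable_id.add_const b).differentiableOn
    · exact ((differentiable_id.const_mul (conj b)).const_add 1).differentiableOn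
  · have h : InvOn (mo (-b)) (mo b) (ball 0 1) (ball 0 1) := by
      refine ⟨fun z hz => mo_inv hb hz, fun z hz => ?_⟩
      have h1 := mo_inv (mo_neg hb) hz
      rwa [neg_neg] at h1
    exact h.bijOn (fun z hz => mo_maps hb hz) (fun z hz => mo_maps (mo_neg hb) hz)

theorem exists_tau {b : ℂ} (hb : b ∈ ball (0 : ℂ) 1) :
    ∃ τ τ' : ℂ → ℂ, AutF (ball 0 1) τ ∧ AutF (ball 0 1) τ' ∧ τ 0 = b ∧ τ' b = 0 ∧
      (∀ z ∈ ball (0 : ℂ) 1, τ' (τ z) = z) ∧ (∀ z ∈ ball (0 : ℂ) 1, τ (τ' z) = z) ∧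
      (∀ z ∈ ball (0 : ℂ) 1, τ z = (z + b) / (1 + conj b * z)) ∧
      (∀ z ∈ ball (0 : ℂ) 1, τ' z = (z - b) / (1 - conj b * z)) := by
  refine ⟨mo b, mo (-b), mo_aut hb, mo_aut (mo_neg hb), ?_, ?_, fun z hz => mo_inv hb hz, ?_,
    fun z _ => rfl, ?_⟩
  · unfold mo
    rw [mul_zero, add_zero, zero_add, div_one]
  · unfold mo
    rw [add_neg_cancel, zero_div]
  · intro z hz
    have h1 := mo_inv (mo_neg hb) hz
    rwa [neg_neg] at h1
  · intro z _
    unfold mo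
    rw [map_neg, neg_mul, ← sub_eq_add_neg, ← sub_eq_add_neg]

theorem aut_disc_fix {γ : ℂ → ℂ} (hγ : AutF (ball 0 1) γ) (h0 : γ 0 = 0) :
    ∃ l : ℂ, ‖l‖ = 1 ∧ ∀ z ∈ ball (0 : ℂ) 1, γ z = l * z := by
  obtain ⟨hd, hb⟩ := hγ
  obtain ⟨δ, hδ⟩ : ∃ δ : ℂ → ℂ, δ = Function.invFunOn γ (ball 0 1) := ⟨_, rfl⟩
  have hleft : ∀ z ∈ ball (0 : ℂ) 1, δ (γ z) = z := by
    intro z hz
    rw [hδ]
    exact hb.injOn.leftInvOn_invFunOn hz
  have hdδ : DifferentiableOn ℂ δ (ball 0 1) := by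
    intro w hw
    obtain ⟨z, hz, rfl⟩ := hb.surjOn hw
    have hnz : ball (0 : ℂ) 1 ∈ 𝓝 z := isOpen_ball.mem_nhds hz
    obtain ⟨r, hr, hsub⟩ := Metric.isOpen_iff.1 isOpen_ball z hz
    have hne : deriv γ z ≠ 0 :=
      Pool.Agent.EAC.PA.deriv_ne_zero_of_injOn hr (hd.mono hsub) (hb.injOn.mono hsub)
    have hs : HasStrictDerivAt γ (deriv γ z) z := (hd.analyticAt hnz).hasStrictDerivAt
    have h1 : HasStrictDerivAt δ (deriv γ z)⁻¹ (γ z) :=
      hs.to_local_left_inverse hne (Filter.eventually_of_mem hnz hleft)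
    exact h1.hasDerivAt.differentiableAt.differentiableWithinAt
  have hmγ : MapsTo γ (ball 0 1) (closedBall 0 1) := fun z hz => ball_subset_closedBall (hb.mapsTo hz)
  have hmδ : MapsTo δ (ball 0 1) (closedBall 0 1) := by
    intro w hw
    obtain ⟨z, hz, rfl⟩ := hb.surjOn hw
    rw [hleft z hz]
    exact ball_subset_closedBall hz
  have h0b : (0 : ℂ) ∈ ball (0 : ℂ) 1 := mem_ball_self one_pos
  have hδ0 : δ 0 = 0 := by
    have := hleft 0 h0b
    rwa [h0] at this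
  have hnorm : ∀ z ∈ ball (0 : ℂ) 1, ‖γ z‖ = ‖z‖ := by
    intro z hz
    apply le_antisymm
    · exact Complex.norm_le_norm_of_mapsTo_ball hd hmγ h0 (mem_ball_zero_iff.1 hz)
    · have h1 := Complex.norm_le_norm_of_mapsTo_ball hdδ hmδ hδ0 (mem_ball_zero_iff.1 (hb.mapsTo hz))
      rwa [hleft z hz] at h1
  have hhalf : (1 / 2 : ℂ) ∈ ball (0 : ℂ) 1 := by
    rw [mem_ball_zero_iff]
    norm_num
  have hmγ' : MapsTo γ (ball 0 1) (closedBall (γ 0) 1) := by
    rw [h0]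
    exact hmγ
  obtain ⟨C, hC, hE⟩ := Complex.affine_of_mapsTo_ball_of_exists_norm_dslope_eq_div' hd hmγ'
    ⟨1 / 2, hhalf, by
      have h1 : (1 / 2 : ℂ) ≠ 0 := by norm_num
      rw [dslope_of_ne _ h1, slope_def_field, h0, sub_zero, sub_zero, norm_div, hnorm _ hhalf,
        div_self (norm_ne_zero_iff.2 h1), div_one]⟩
  refine ⟨C, by rw [hC, div_one], fun z hz => ?_⟩
  have h1 := hE hz
  simp only [h0, sub_zero, zero_add, smul_eq_mul] at h1
  rw [h1, mul_comm]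

theorem aut_disc {γ : ℂ → ℂ} (hγ : AutF (ball 0 1) γ) :
    ∃ p q : ℂ, ‖p‖ ^ 2 - ‖q‖ ^ 2 = 1 ∧
      ∀ z ∈ ball (0 : ℂ) 1, γ z = (p * z + q) / (conj q * z + conj p) := by
  have h0b : (0 : ℂ) ∈ ball (0 : ℂ) 1 := mem_ball_self one_pos
  obtain ⟨b, hbe⟩ : ∃ b, b = γ 0 := ⟨_, rfl⟩
  have hb : b ∈ ball (0 : ℂ) 1 := by
    rw [hbe]
    exact hγ.2.mapsTo h0b
  obtain ⟨τ, τ', _, hτ', _, h2, _, h4, h5, _⟩ := exists_tau hb
  have hη : AutF (ball 0 1) (τ' ∘ γ) :=
    ⟨hτ'.1.comp hγ.1 hγ.2.mapsTo, hτ'.2.comp hγ.2⟩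
  obtain ⟨l, hl, hl2⟩ := aut_disc_fix hη (by rw [Function.comp_apply, ← hbe, h2])
  obtain ⟨μ, hμ⟩ := IsAlgClosed.exists_pow_nat_eq l (n := 2) (by norm_num)
  have hμ1 : ‖μ‖ = 1 := by
    have h6 : ‖μ‖ ^ 2 = 1 := by rw [← norm_pow, hμ, hl]
    have h7 := norm_nonneg μ
    nlinarith
  have hμc : μ * conj μ = 1 := by
    rw [Complex.mul_conj, Complex.normSq_eq_norm_sq, hμ1]
    norm_num
  have hb1 : ‖b‖ < 1 := mem_ball_zero_iff.1 hb
  have hpos : 0 < 1 - ‖b‖ ^ 2 := by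
    have := norm_nonneg b
    nlinarith
  obtain ⟨s, hs⟩ : ∃ s : ℝ, s = 1 / √(1 - ‖b‖ ^ 2) := ⟨_, rfl⟩
  have hs0 : 0 < s := by
    rw [hs]
    positivity
  have hs2 : s ^ 2 * (1 - ‖b‖ ^ 2) = 1 := by
    rw [hs, div_pow, Real.sq_sqrt hpos.le, one_pow, one_div_mul_cancel hpos.ne']
  have hsC : (s : ℂ) ≠ 0 := by exact_mod_cast hs0.ne'
  have hμ0 : μ ≠ 0 := by
    intro h
    rw [h, norm_zero] at hμ1
    exact zero_ne_one hμ1
  refine ⟨s * μ, s * (b * conj μ), ?_, ?_⟩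
  · rw [norm_mul, norm_mul, norm_mul, RCLike.norm_conj, hμ1, Complex.norm_real, Real.norm_eq_abs,
      abs_of_pos hs0]
    linear_combination hs2
  · intro z hz
    have hlz : l * z ∈ ball (0 : ℂ) 1 := by
      rw [mem_ball_zero_iff] at hz ⊢
      rw [norm_mul, hl, one_mul]
      exact hz
    have h6 : γ z = (l * z + b) / (1 + conj b * (l * z)) := by
      rw [← h5 _ hlz, ← hl2 z hz, Function.comp_apply, h4 _ (hγ.2.mapsTo hz)]
    have hD := mo_den hb hlz
    have e1 : conj (s * (b * conj μ) : ℂ) = s * (conj b * μ) := by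
      rw [map_mul, map_mul, Complex.conj_ofReal, Complex.conj_conj]
    have e2 : conj (s * μ : ℂ) = s * conj μ := by
      rw [map_mul, Complex.conj_ofReal]
    rw [h6, e1, e2]
    have e3 : (s * μ * z + s * (b * conj μ) : ℂ) = (s * conj μ) * (l * z + b) := by
      rw [← hμ]
      linear_combination (-(s * μ * z : ℂ)) * hμc
    have e4 : (s * (conj b * μ) * z + s * conj μ : ℂ) = (s * conj μ) * (1 + conj b * (l * z)) := by
      rw [← hμ]
      linear_combination (-(s * conj b * μ * z : ℂ)) * hμc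
    have e5 : (s * conj μ : ℂ) ≠ 0 := by
      refine mul_ne_zero hsC ?_
      intro h
      rw [h, mul_zero] at hμc
      exact zero_ne_one hμc
    rw [e3, e4, mul_div_mul_left _ _ e5]

end Pool.Agent.ISY
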