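import Mathlib

/-!
# ISY-Idn: the identity principle on complex manifolds; base facts

Mathlib only, self-contained.

Plan for `eq_of_eqOn`: `S := {x | f =ᶠ[𝓝 x] g}` is open and nonempty. It is closed: let `x ∈ closure S`. By
continuity and `T2Space Y`, `f x = g x`. Let `e := chartAt E x`, `e' := chartAt E' (f x)`; in these charts
`f` and `g` are analytic on a ball `B` around `e x` (`ContMDiff` of class `ω`, `ContDiffOn.analyticOn`..,
`B ⊆ e.target ∩ e.symm ⁻¹' (f ⁻¹' e'.source ∩ g ⁻¹' e'.source)`), `B` is convex so preconnected, and `B`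
contains a point near which they agree (`x ∈ closure S`); so they agree on `B`
(`AnalyticOnNhd.eqOn_of_preconnected_of_eventuallyEq`), and `x ∈ S`. So `S = univ` (`IsClopen.eq_univ`).

`locallyConnectedSpace_of_chart`: `ChartedSpace.locallyConnectedSpace E X` (`E` is locally convex).
`nontrivial_of_chart`: the source of a chart is in bijection with a nonempty open set of `E`, which has
two points (`E` is nontrivial).
-/

set_option autoImplicit false

open Set Topology Filter
open scoped Manifold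

namespace Pool.Agent.ISY

theorem eq_of_eqOn {E E' X Y : Type} [NormedAddCommGroup E] [NormedSpace ℂ E]
    [NormedAddCommGroup E'] [NormedSpace ℂ E'] [CompleteSpace E'] [TopologicalSpace X]
    [PreconnectedSpace X] [ChartedSpace E X] [IsManifold 𝓘(ℂ, E) (⊤ : WithTop ℕ∞) X]
    [TopologicalSpace Y] [T2Space Y] [ChartedSpace E' Y]
    [IsManifold 𝓘(ℂ, E') (⊤ : WithTop ℕ∞) Y] {f g : X → Y}
    (hf : ContMDiff 𝓘(ℂ, E) 𝓘(ℂ, E') (⊤ : WithTop ℕ∞) f)
    (hg : ContMDiff 𝓘(ℂ, E) 𝓘(ℂ, E') (⊤ : WithTop ℕ∞) g) {U : Set X} (hU : IsOpen U)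
    (hne : U.Nonempty) (h : EqOn f g U) : f = g := by
  let S : Set X := {x | f =ᶠ[𝓝 x] g}
  have hSo : IsOpen S := isOpen_setOf_eventually_nhds
  have hSn : S.Nonempty := by
    obtain ⟨x, hx⟩ := hne
    exact ⟨x, Filter.eventually_of_mem (hU.mem_nhds hx) h⟩
  have hfc : Continuous f := hf.continuous
  have hgc : Continuous g := hg.continuous
  have hSc : IsClosed S := by
    refine isClosed_of_closure_subset fun x hx => ?_
    have hfg : f x = g x :=
      closure_minimal (fun y (hy : f =ᶠ[𝓝 y] g) => hy.self_of_nhds) (isClosed_eq hfc hgc) hx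
    let e := chartAt E x
    let e' := chartAt E' (f x)
    let W : Set E := e.target ∩ e.symm ⁻¹' (f ⁻¹' e'.source ∩ g ⁻¹' e'.source)
    have hWo : IsOpen W := e.continuousOn_symm.isOpen_inter_preimage e.open_target
      ((e'.open_source.preimage hfc).inter (e'.open_source.preimage hgc))
    have hxs : x ∈ e.source := mem_chart_source E x
    have hxW : e x ∈ W := by
      refine ⟨e.map_source hxs, ?_⟩
      rw [mem_preimage, e.left_inv hxs]
      refine ⟨mem_chart_source E' (f x), ?_⟩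
      rw [mem_preimage, ← hfg]
      exact mem_chart_source E' (f x)
    obtain ⟨r, hr, hrW⟩ := Metric.isOpen_iff.1 hWo (e x) hxW
    have key : ∀ k : X → Y, ContMDiff 𝓘(ℂ, E) 𝓘(ℂ, E') (⊤ : WithTop ℕ∞) k →
        (∀ z ∈ W, k (e.symm z) ∈ e'.source) →
        AnalyticOnNhd ℂ (fun z => e' (k (e.symm z))) W := by
      intro k hk hkW
      have h1 : ContMDiffOn 𝓘(ℂ, E) 𝓘(ℂ, E) (⊤ : WithTop ℕ∞) e.symm W :=
        (contMDiffOn_chart_symm (I := 𝓘(ℂ, E)) (n := (⊤ : WithTop ℕ∞)) (x := x)).mono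
          inter_subset_left
      have h2 : ContMDiffOn 𝓘(ℂ, E) 𝓘(ℂ, E') (⊤ : WithTop ℕ∞) (k ∘ e.symm) W :=
        hk.comp_contMDiffOn h1
      have h3 : ContMDiffOn 𝓘(ℂ, E) 𝓘(ℂ, E') (⊤ : WithTop ℕ∞) (e' ∘ (k ∘ e.symm)) W :=
        (contMDiffOn_chart (I := 𝓘(ℂ, E')) (n := (⊤ : WithTop ℕ∞)) (x := f x)).comp h2
          (fun z hz => hkW z hz)
      have h4 : ContDiffOn ℂ (⊤ : WithTop ℕ∞) (e' ∘ (k ∘ e.symm)) W :=
        contMDiffOn_iff_contDiffOn.1 h3
      have h5 : AnalyticOn ℂ (e' ∘ (k ∘ e.symm)) W :=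
        (contDiffOn_omega_iff_analyticOn hWo.uniqueDiffOn).1 h4
      exact (hWo.analyticOn_iff_analyticOnNhd).1 h5
    have hF := (key f hf (fun z hz => hz.2.1)).mono hrW
    have hG := (key g hg (fun z hz => hz.2.2)).mono hrW
    have hpre : IsPreconnected (Metric.ball (e x) r) := by
      letI : NormedSpace ℝ E := NormedSpace.restrictScalars ℝ ℂ E
      exact (convex_ball (e x) r).isPreconnected
    -- a neighbourhood of `x` mapped into the ball
    have hN : e.source ∩ e ⁻¹' Metric.ball (e x) r ∈ 𝓝 x :=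
      (e.continuousOn.isOpen_inter_preimage e.open_source Metric.isOpen_ball).mem_nhds
        ⟨hxs, Metric.mem_ball_self hr⟩
    obtain ⟨y, hyN, hyS⟩ := mem_closure_iff_nhds.1 hx _ hN
    have hyt : e y ∈ e.target := e.map_source hyN.1
    have hcont : Tendsto e.symm (𝓝 (e y)) (𝓝 y) := by
      have := (e.continuousAt_symm hyt).tendsto
      rwa [e.left_inv hyN.1] at this
    have hev : (fun z => e' (f (e.symm z))) =ᶠ[𝓝 (e y)] (fun z => e' (g (e.symm z))) := by
      have h6 : ∀ᶠ z in 𝓝 (e y), f (e.symm z) = g (e.symm z) := hcont.eventually hyS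
      filter_upwards [h6] with z hz
      rw [hz]
    have heq := hF.eqOn_of_preconnected_of_eventuallyEq hG hpre hyN.2 hev
    show f =ᶠ[𝓝 x] g
    filter_upwards [hN] with z hz
    have hzW := hrW hz.2
    have h7 := heq hz.2
    simp only [e.left_inv hz.1] at h7
    have h8 := hzW.2
    rw [mem_preimage, e.left_inv hz.1] at h8
    exact e'.injOn h8.1 h8.2 h7
  have hSu : S = univ := IsClopen.eq_univ ⟨hSc, hSo⟩ hSn
  funext x
  have hx : x ∈ S := by rw [hSu]; trivial
  exact (show f =ᶠ[𝓝 x] g from hx).self_of_nhds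

theorem locallyConnectedSpace_of_chart (E X : Type) [NormedAddCommGroup E] [NormedSpace ℂ E]
    [TopologicalSpace X] [ChartedSpace E X] : LocallyConnectedSpace X := by
  letI : NormedSpace ℝ E := NormedSpace.restrictScalars ℝ ℂ E
  exact ChartedSpace.locallyConnectedSpace E X

theorem nontrivial_of_chart (E X : Type) [NormedAddCommGroup E] [NormedSpace ℂ E] [Nontrivial E]
    [TopologicalSpace X] [Nonempty X] [ChartedSpace E X] : Nontrivial X := by
  obtain ⟨x⟩ := (inferInstance : Nonempty X)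
  let e := chartAt E x
  have hxs : x ∈ e.source := mem_chart_source E x
  haveI : NeBot (𝓝[≠] (e x)) := Module.punctured_nhds_neBot ℂ E (e x)
  have h1 : e.target ∈ 𝓝[≠] (e x) :=
    mem_nhdsWithin_of_mem_nhds (e.open_target.mem_nhds (e.map_source hxs))
  obtain ⟨y, hy, hne⟩ := Filter.nonempty_of_mem (Filter.inter_mem h1 self_mem_nhdsWithin)
  refine ⟨e.symm y, x, fun h => hne ?_⟩
  rw [mem_singleton_iff, ← e.right_inv hy, h]

end Pool.Agent.ISY
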