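import Pool.Agent.ISY.OsgC

/-!
# ISY-ManW: limits of holomorphic maps between complex manifolds are holomorphic

In the charts at a point the convergence is locally uniform; `analyticOnNhd_of_tendsto` (ISY-OsgC).
-/

set_option autoImplicit false

open Set Topology Filter
open scoped Manifold

namespace Pool.Agent.ISY

theorem contMDiff_of_tendsto {E E' X Y : Type} [NormedAddCommGroup E] [NormedSpace ℂ E]
    [FiniteDimensional ℂ E] [NormedAddCommGroup E'] [NormedSpace ℂ E'] [FiniteDimensional ℂ E']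
    [TopologicalSpace X] [ChartedSpace E X] [IsManifold 𝓘(ℂ, E) (⊤ : WithTop ℕ∞) X]
    [TopologicalSpace Y] [ChartedSpace E' Y] [IsManifold 𝓘(ℂ, E') (⊤ : WithTop ℕ∞) Y]
    {ι : Type} {l : Filter ι} [l.NeBot] {F : ι → C(X, Y)} {f : C(X, Y)}
    (hF : ∀ᶠ i in l, ContMDiff 𝓘(ℂ, E) 𝓘(ℂ, E') (⊤ : WithTop ℕ∞) (F i))
    (h : Tendsto F l (𝓝 f)) : ContMDiff 𝓘(ℂ, E) 𝓘(ℂ, E') (⊤ : WithTop ℕ∞) f := by
  have : LocallyCompactSpace X := Manifold.locallyCompact_of_finiteDimensional 𝓘(ℂ, E)
  have : CompleteSpace E' := FiniteDimensional.complete ℂ E'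
  intro x₀
  -- a compact neighbourhood
  have hO : (chartAt E x₀).source ∩ f ⁻¹' (chartAt E' (f x₀)).source ∈ 𝓝 x₀ :=
    inter_mem ((chartAt E x₀).open_source.mem_nhds (mem_chart_source E x₀))
      (f.continuous.continuousAt.preimage_mem_nhds
        ((chartAt E' (f x₀)).open_source.mem_nhds (mem_chart_source E' (f x₀))))
  obtain ⟨K, hK, hKO, hKc⟩ := local_compact_nhds hO
  have hVs : interior K ⊆ (chartAt E x₀).source := fun z hz => (hKO (interior_subset hz)).1
  have hVf : MapsTo f K (chartAt E' (f x₀)).source := fun z hz => (hKO hz).2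
  have hx₀V : x₀ ∈ interior K := mem_interior_iff_mem_nhds.2 hK
  have hU : IsOpen (chartAt E x₀ '' interior K) :=
    (chartAt E x₀).isOpen_image_of_subset_source isOpen_interior hVs
  have hev : ∀ᶠ i in l, MapsTo (F i) K (chartAt E' (f x₀)).source :=
    h.eventually (ContinuousMap.eventually_mapsTo hKc (chartAt E' (f x₀)).open_source hVf)
  -- analyticity of the approximations
  have han : ∀ᶠ i in l, AnalyticOnNhd ℂ (fun y => chartAt E' (f x₀) (F i ((chartAt E x₀).symm y)))
      (chartAt E x₀ '' interior K) := by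
    filter_upwards [hF, hev] with i hi1 hi2
    have h1 : ContMDiffOn 𝓘(ℂ, E) 𝓘(ℂ, E') (⊤ : WithTop ℕ∞) (F i) (interior K) := hi1.contMDiffOn
    rw [contMDiffOn_iff_of_subset_source' (x := x₀) (y := f x₀)
      (by rw [extChartAt_source]; exact hVs)
      (by rw [extChartAt_source]; exact hi2.mono_left interior_subset)] at h1
    have h2 : ContDiffOn ℂ (⊤ : WithTop ℕ∞)
        (fun y => chartAt E' (f x₀) (F i ((chartAt E x₀).symm y)))
        (chartAt E x₀ '' interior K) := h1
    exact hU.analyticOn_iff_analyticOnNhd.1 (h2.analyticOn)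
  -- locally uniform convergence
  have hlu : TendstoLocallyUniformlyOn
      (fun i y => chartAt E' (f x₀) (F i ((chartAt E x₀).symm y)))
      (fun y => chartAt E' (f x₀) (f ((chartAt E x₀).symm y))) l
      (chartAt E x₀ '' interior K) := by
    rw [Metric.tendstoLocallyUniformlyOn_iff]
    rintro ε hε x ⟨v, hv, rfl⟩
    have hvs : v ∈ (chartAt E x₀).source := hVs hv
    have hOo : IsOpen ((chartAt E' (f x₀)).source ∩
        chartAt E' (f x₀) ⁻¹' Metric.ball (chartAt E' (f x₀) (f v)) (ε / 2)) :=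
      (chartAt E' (f x₀)).isOpen_inter_preimage Metric.isOpen_ball
    have hfv : f v ∈ (chartAt E' (f x₀)).source ∩
        chartAt E' (f x₀) ⁻¹' Metric.ball (chartAt E' (f x₀) (f v)) (ε / 2) :=
      ⟨hVf (interior_subset hv), Metric.mem_ball_self (half_pos hε)⟩
    obtain ⟨L, hL, hLO, hLc⟩ := local_compact_nhds
      (f.continuous.continuousAt.preimage_mem_nhds (hOo.mem_nhds hfv))
    refine ⟨(chartAt E x₀).symm ⁻¹' L, ?_, ?_⟩
    · apply mem_nhdsWithin_of_mem_nhds
      have hc : ContinuousAt (chartAt E x₀).symm (chartAt E x₀ v) :=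
        (chartAt E x₀).continuousAt_symm ((chartAt E x₀).map_source hvs)
      apply hc.preimage_mem_nhds
      rw [(chartAt E x₀).left_inv hvs]
      exact hL
    · have hLf : MapsTo f L ((chartAt E' (f x₀)).source ∩
          chartAt E' (f x₀) ⁻¹' Metric.ball (chartAt E' (f x₀) (f v)) (ε / 2)) := hLO
      filter_upwards [h.eventually (ContinuousMap.eventually_mapsTo hLc hOo hLf)] with i hi y hy
      have h1 := (hLf hy).2
      have h2 := (hi hy).2
      rw [mem_preimage, Metric.mem_ball] at h1 h2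
      have h3 := dist_triangle_right (chartAt E' (f x₀) (f ((chartAt E x₀).symm y)))
        (chartAt E' (f x₀) (F i ((chartAt E x₀).symm y))) (chartAt E' (f x₀) (f v))
      linarith
  have hg := analyticOnNhd_of_tendsto hU han hlu
  have hgx := hg (chartAt E x₀ x₀) (mem_image_of_mem _ hx₀V)
  rw [contMDiffAt_iff]
  refine ⟨f.continuous.continuousAt, ?_⟩
  have h4 : ContDiffAt ℂ (⊤ : WithTop ℕ∞)
      (fun y => chartAt E' (f x₀) (f ((chartAt E x₀).symm y))) (chartAt E x₀ x₀) :=
    hgx.contDiffAt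
  exact h4.contDiffWithinAt

end Pool.Agent.ISY
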