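import Mathlib

/-!
# ISY-XPol: locally compact second countable Hausdorff spaces and their mapping spaces are Polish

A locally compact space is open in its completion; `C(X, X)` is complete for the uniformity of compact
convergence.
-/

set_option autoImplicit false

open Set Topology Filter

namespace Pool.Agent.ISY

private theorem isOpen_range_of_lc {X Y : Type} [TopologicalSpace X] [LocallyCompactSpace X]
    [TopologicalSpace Y] [T2Space Y] {f : X → Y} (hf : IsEmbedding f) (hd : DenseRange f) :
    IsOpen (range f) := by
  rw [isOpen_iff_mem_nhds]
  rintro _ ⟨x, rfl⟩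
  obtain ⟨K, hK, hx⟩ := exists_compact_mem_nhds x
  rw [hf.isInducing.nhds_eq_comap, mem_comap] at hx
  obtain ⟨V, hV, hVK⟩ := hx
  obtain ⟨W, hWV, hW, hxW⟩ := mem_nhds_iff.1 hV
  refine mem_of_superset (hW.mem_nhds hxW) fun y hy => ?_
  have hc : IsClosed (f '' K) := (hK.image hf.continuous).isClosed
  have h1 : y ∈ closure (W ∩ range f) := hd.open_subset_closure_inter hW hy
  have h2 : W ∩ range f ⊆ f '' K := by
    rintro _ ⟨h3, z, rfl⟩
    exact ⟨z, hVK (hWV h3), rfl⟩
  exact image_subset_range f K (closure_minimal h2 hc h1)

theorem polishSpace_of_locallyCompact (X : Type) [TopologicalSpace X] [T2Space X]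
    [LocallyCompactSpace X] [SecondCountableTopology X] : PolishSpace X := by
  let _ : MetricSpace X := TopologicalSpace.metrizableSpaceMetric X
  have he : IsEmbedding ((↑) : X → UniformSpace.Completion X) :=
    (UniformSpace.Completion.isUniformEmbedding_coe X).isEmbedding
  have ho : IsOpen (range ((↑) : X → UniformSpace.Completion X)) :=
    isOpen_range_of_lc he UniformSpace.Completion.denseRange_coe
  have : PolishSpace (UniformSpace.Completion X) := inferInstance
  have := ho.polishSpace
  exact he.toHomeomorph.isClosedEmbedding.polishSpace

theorem polishSpace_continuousMap (X : Type) [TopologicalSpace X] [T2Space X]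
    [LocallyCompactSpace X] [SecondCountableTopology X] : PolishSpace C(X, X) := by
  haveI := polishSpace_of_locallyCompact X
  let _ := TopologicalSpace.upgradeIsCompletelyMetrizable X
  have : TopologicalSpace.IsCompletelyMetrizableSpace C(X, X) := inferInstance
  have : SecondCountableTopology C(X, X) := inferInstance
  exact { }

end Pool.Agent.ISY
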