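import Pool.Agent.ISY.Defs
import Pool.Agent.ISY.Arens
import Pool.Agent.ISY.XPol
import Pool.Agent.ISY.ManW
import Pool.Agent.ISY.Idn

/-!
# ISY-AutP: the automorphism group is a Polish topological group acting continuously

Composition and inversion are continuous; pairs of inverse holomorphic maps form a closed set.
-/

set_option autoImplicit false

open Set Topology Filter
open scoped Manifold

namespace Pool.Agent.ISY

private theorem ap_lc (E X : Type) [NormedAddCommGroup E] [NormedSpace ℂ E] [FiniteDimensional ℂ E]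
    [TopologicalSpace X] [ChartedSpace E X] : LocallyCompactSpace X :=
  Manifold.locallyCompact_of_finiteDimensional 𝓘(ℂ, E)

variable (E X : Type) [NormedAddCommGroup E] [NormedSpace ℂ E] [FiniteDimensional ℂ E]
  [TopologicalSpace X] [T2Space X] [SecondCountableTopology X] [ChartedSpace E X]
  [IsManifold 𝓘(ℂ, E) (⊤ : WithTop ℕ∞) X]

theorem isTopologicalGroup_autM : IsTopologicalGroup (AutM E X) := by
  have hlc : LocallyCompactSpace X := ap_lc E X
  have hlcn : LocallyConnectedSpace X := locallyConnectedSpace_of_chart E X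
  refine { continuous_mul := ?_, continuous_inv := ?_ }
  · rw [AutM.isInducing_toCM.continuous_iff]
    exact (AutM.continuous_toCM.comp continuous_fst).compCM (AutM.continuous_toCM.comp continuous_snd)
  · rw [continuous_iff_continuousAt]
    intro f
    rw [ContinuousAt, AutM.isInducing_toCM.tendsto_nhds_iff]
    exact tendsto_inverse (F := fun g : AutM E X => g.toCM) (f := f.toCM) (f' := f⁻¹.toCM)
      (fun g x => AutM.inv_apply_self g x) (fun g x => AutM.apply_inv_self g x)
      (fun x => AutM.inv_apply_self f x) (fun x => AutM.apply_inv_self f x)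
      AutM.continuous_toCM.continuousAt

private theorem ap_closed : IsClosed {f : C(X, X) | ContMDiff 𝓘(ℂ, E) 𝓘(ℂ, E) (⊤ : WithTop ℕ∞) f} := by
  refine isClosed_of_closure_subset fun f hf => ?_
  have hn : (𝓝[{f : C(X, X) | ContMDiff 𝓘(ℂ, E) 𝓘(ℂ, E) (⊤ : WithTop ℕ∞) f}] f).NeBot :=
    mem_closure_iff_nhdsWithin_neBot.1 hf
  exact contMDiff_of_tendsto (F := fun i : C(X, X) => i) self_mem_nhdsWithin nhdsWithin_le_nhds

/-- the pairs of mutually inverse holomorphic maps -/
private def ap_S : Set (C(X, X) × C(X, X)) :=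
  ({p | p.1.comp p.2 = ContinuousMap.id X} ∩ {p | p.2.comp p.1 = ContinuousMap.id X}) ∩
    (Prod.fst ⁻¹' {f : C(X, X) | ContMDiff 𝓘(ℂ, E) 𝓘(ℂ, E) (⊤ : WithTop ℕ∞) f} ∩
      Prod.snd ⁻¹' {f : C(X, X) | ContMDiff 𝓘(ℂ, E) 𝓘(ℂ, E) (⊤ : WithTop ℕ∞) f})

private theorem ap_Sc : IsClosed (ap_S E X) := by
  have hlc : LocallyCompactSpace X := ap_lc E X
  exact ((isClosed_eq (continuous_fst.compCM continuous_snd) continuous_const).inter
    (isClosed_eq (continuous_snd.compCM continuous_fst) continuous_const)).inter
    (((ap_closed E X).preimage continuous_fst).inter ((ap_closed E X).preimage continuous_snd))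

private theorem ap_range : range (fun f : AutM E X => (f.toCM, f⁻¹.toCM)) = ap_S E X := by
  ext p
  constructor
  · rintro ⟨f, rfl⟩
    refine ⟨⟨?_, ?_⟩, f.contMDiff, f⁻¹.contMDiff⟩
    · exact ContinuousMap.ext fun x => AutM.apply_inv_self f x
    · exact ContinuousMap.ext fun x => AutM.inv_apply_self f x
  · rintro ⟨⟨h1, h2⟩, h3, h4⟩
    refine ⟨AutM.ofDiff
      { toFun := p.1
        invFun := p.2
        left_inv := fun x => congrArg (fun k : C(X, X) => k x) h2
        right_inv := fun x => congrArg (fun k : C(X, X) => k x) h1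
        contMDiff_toFun := h3
        contMDiff_invFun := h4 }, ?_⟩
    exact Prod.ext (ContinuousMap.ext fun x => rfl) (ContinuousMap.ext fun x => rfl)

theorem polishSpace_autM : PolishSpace (AutM E X) := by
  have hlc : LocallyCompactSpace X := ap_lc E X
  have hP : PolishSpace C(X, X) := polishSpace_continuousMap X
  have hG : IsTopologicalGroup (AutM E X) := isTopologicalGroup_autM E X
  have hc : Continuous (fun f : AutM E X => (f.toCM, f⁻¹.toCM)) :=
    AutM.continuous_toCM.prodMk (AutM.continuous_toCM.comp continuous_inv)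
  have hi : IsInducing (fun f : AutM E X => (f.toCM, f⁻¹.toCM)) :=
    IsInducing.of_comp hc continuous_fst AutM.isInducing_toCM
  have hj : IsClosedEmbedding (fun f : AutM E X => (f.toCM, f⁻¹.toCM)) := by
    refine ⟨⟨hi, fun f g h => AutM.toCM_injective (congrArg Prod.fst h)⟩, ?_⟩
    rw [ap_range]
    exact ap_Sc E X
  exact hj.polishSpace

theorem continuousSMul_autM : ContinuousSMul (AutM E X) X := by
  have hlc : LocallyCompactSpace X := ap_lc E X
  refine ⟨?_⟩
  have h1 : Continuous fun p : AutM E X × X => p.1.toCM := AutM.continuous_toCM.comp continuous_fst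
  exact h1.eval continuous_snd

theorem t2Space_autM : T2Space (AutM E X) :=
  AutM.isEmbedding_toCM.t2Space

theorem eq_one_of_eqOn [ConnectedSpace X] (f : AutM E X) (U : Set X) (hU : IsOpen U)
    (hne : U.Nonempty) (h : ∀ x ∈ U, f x = x) : f = 1 := by
  have hcE : CompleteSpace E := FiniteDimensional.complete ℂ E
  have h1 : (f : X → X) = id := eq_of_eqOn (E := E) (E' := E) f.contMDiff contMDiff_id hU hne h
  exact AutM.ext fun x => congrFun h1 x

end Pool.Agent.ISY
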