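import Pool.Agent.ISY.Mul

/-!
# ISY-Cn1: fibres `ℂ`: there are nontrivial translations

Uses the statements of ISY-Mul (take them as given).

Plan. Suppose every element of `Trans` is `1`. (a) Two vertical elements `f, f'` commute: `f * f' * f⁻¹ * f'⁻¹` is
vertical with all multipliers `m * m' * m⁻¹ * m'⁻¹ = 1` (`isMul_mul`, `isMul_inv`, `exists_isMul`), so it is `1`.
(b) Let `f` be vertical, `f ≠ 1` (`hN`). As `f ∉ Trans`, there are `y` and `m ≠ 1` with `IsMul π U f y m`
(`exists_isMul`, else all the multipliers are `1`). The affine map of the fibre over `y` has exactly one fixed point: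
there is `x₀` over `y` with `f • x₀ = x₀` (surjectivity of `U y`), and any `x` over `y` with `f • x = x` is `x₀`
(`U y x - U y x₀ = m * (U y x - U y x₀)`). (c) every vertical `f'` fixes `x₀`: `f • f' • x₀ = f' • f • x₀ = f' • x₀` and
`f' • x₀` lies over `y`. (d) for `x : X` choose `g` with `g • x₀ = x` (`htr`): `g⁻¹ * f * g` is vertical so fixes `x₀`,
so `f • x = x`. By `hfaith`, `f = 1`, contradiction.
-/

set_option autoImplicit false

open Set Topology Filter

namespace Pool.Agent.ISY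

theorem exists_trans_ne_one {G X Y : Type} [Group G] [TopologicalSpace X] [MulAction G X]
    [MulAction G Y] {π : X → Y} {U : Y → X → ℂ}
    (hequi : ∀ (g : G) (x : X), π (g • x) = g • π x) (hU : FibC G π U)
    (hfaith : ∀ g : G, (∀ x : X, g • x = x) → g = 1) (htr : ∀ x x' : X, ∃ g : G, g • x = x')
    (hN : ∃ f : G, Vert Y f ∧ f ≠ 1) : ∃ β ∈ Trans hequi U, β ≠ 1 := by
  by_contra hcon
  push Not at hcon
  have hinv : ∀ f : G, Vert Y f → Vert Y f⁻¹ := fun f hf y => by rw [inv_smul_eq_iff, hf]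
  have hmul : ∀ f f' : G, Vert Y f → Vert Y f' → Vert Y (f * f') := fun f f' hf hf' y => by
    rw [mul_smul, hf', hf]
  -- vertical elements commute
  have hcomm : ∀ f f' : G, Vert Y f → Vert Y f' → f * f' = f' * f := by
    intro f f' hf hf'
    have h1 : (f * f') * (f⁻¹ * f'⁻¹) = 1 := by
      refine hcon _ ⟨hmul _ _ (hmul _ _ hf hf') (hmul _ _ (hinv _ hf) (hinv _ hf')), fun y => ?_⟩
      obtain ⟨m, hm, h⟩ := exists_isMul hU hf y
      obtain ⟨m', hm', h'⟩ := exists_isMul hU hf' y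
      have h2 := isMul_mul hequi (hmul _ _ hf hf') (hmul _ _ (hinv _ hf) (hinv _ hf'))
        (isMul_mul hequi hf hf' h h')
        (isMul_mul hequi (hinv _ hf) (hinv _ hf') (isMul_inv hequi hf hm h)
          (isMul_inv hequi hf' hm' h'))
      have h3 : m * m' * (m⁻¹ * m'⁻¹) = 1 := by field_simp
      rwa [h3] at h2
    have h4 : f * f' = (f⁻¹ * f'⁻¹)⁻¹ := eq_inv_of_mul_eq_one_left h1
    rw [h4]
    group
  obtain ⟨f, hf, hf1⟩ := hN
  have hnot : ∃ y m, m ≠ 1 ∧ IsMul π U f y m := by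
    by_contra hno
    push Not at hno
    refine hf1 (hcon f ⟨hf, fun y => ?_⟩)
    obtain ⟨m, _, h⟩ := exists_isMul hU hf y
    by_cases hm : m = 1
    · rw [← hm]; exact h
    · exact absurd h (hno y m hm)
  obtain ⟨y, m, hm1, hm⟩ := hnot
  -- the fixed point
  obtain ⟨p, hp, -⟩ := (hU.bij y).surjOn (mem_univ (0 : ℂ))
  have hp : π p = y := hp
  have hfp : π (f • p) = y := by rw [hequi, hp, hf y]
  have hm1' : 1 - m ≠ 0 := sub_ne_zero.2 (Ne.symm hm1)
  obtain ⟨x₀, hx₀, hUx₀⟩ := (hU.bij y).surjOn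
    (mem_univ (U y p + (U y (f • p) - U y p) / (1 - m)))
  have hx₀ : π x₀ = y := hx₀
  have hfx₀ : π (f • x₀) = y := by rw [hequi, hx₀, hf y]
  have hfix : f • x₀ = x₀ := by
    refine (hU.bij y).injOn hfx₀ hx₀ ?_
    have e1 := hm p x₀ hp hx₀
    rw [hUx₀] at e1 ⊢
    have e2 : U y (f • x₀) = U y (f • p) + m * ((U y (f • p) - U y p) / (1 - m)) := by
      linear_combination e1
    rw [e2]
    field_simp
    ring
  have huniq : ∀ x, π x = y → f • x = x → x = x₀ := by
    intro x hx hfx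
    refine (hU.bij y).injOn hx hx₀ ?_
    have e1 := hm x₀ x hx₀ hx
    rw [hfix, hfx] at e1
    have e2 : (1 - m) * (U y x - U y x₀) = 0 := by linear_combination e1
    exact sub_eq_zero.1 ((mul_eq_zero.1 e2).resolve_left hm1')
  have hall : ∀ f' : G, Vert Y f' → f' • x₀ = x₀ := by
    intro f' hf'
    refine huniq _ ?_ ?_
    · rw [hequi, hx₀, hf' y]
    · rw [← mul_smul, hcomm f f' hf hf', mul_smul, hfix]
  apply hf1
  refine hfaith f fun x => ?_
  obtain ⟨g, rfl⟩ := htr x₀ x
  have h5 : (g⁻¹ * f * g) • x₀ = x₀ := by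
    refine hall _ fun y => ?_
    rw [mul_smul, mul_smul, hf, inv_smul_smul]
  rw [mul_smul, mul_smul, inv_smul_eq_iff] at h5
  exact h5

end Pool.Agent.ISY
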