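import Mathlib

/-!
# ISY-CstO: constancy along an open map; lifting filters
-/

set_option autoImplicit false

open Set Topology Filter

namespace Pool.Agent.ISY

theorem const_of_open {G Y Z : Type} [TopologicalSpace G] [TopologicalSpace Y]
    [TopologicalSpace Z] [TotallyDisconnectedSpace Z] {o : G → Y} {Ψ : G → Z} {W : Set G}
    (hop : IsOpenMap o) (hW : IsOpen W) (hΨ : ContinuousOn Ψ W)
    (hwd : ∀ g ∈ W, ∀ g' ∈ W, o g = o g' → Ψ g = Ψ g') {U : Set Y} (hU : IsPreconnected U)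
    (hUW : U ⊆ o '' W) : ∀ g ∈ W, ∀ g' ∈ W, o g ∈ U → o g' ∈ U → Ψ g = Ψ g' := by
  intro g hg g' hg' hgU hg'U
  have hT : IsPreconnected (Ψ '' (W ∩ o ⁻¹' U)) := by
    intro u v hu hv hsub hTu hTv
    have ou : IsOpen (o '' (W ∩ Ψ ⁻¹' u)) := hop _ (hΨ.isOpen_inter_preimage hW hu)
    have ov : IsOpen (o '' (W ∩ Ψ ⁻¹' v)) := hop _ (hΨ.isOpen_inter_preimage hW hv)
    have hcov : U ⊆ o '' (W ∩ Ψ ⁻¹' u) ∪ o '' (W ∩ Ψ ⁻¹' v) := by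
      intro y hy
      obtain ⟨a, haW, rfl⟩ := hUW hy
      have ha : Ψ a ∈ u ∪ v := hsub ⟨a, ⟨haW, hy⟩, rfl⟩
      rcases ha with ha | ha
      · exact Or.inl ⟨a, ⟨haW, ha⟩, rfl⟩
      · exact Or.inr ⟨a, ⟨haW, ha⟩, rfl⟩
    have h1 : (U ∩ o '' (W ∩ Ψ ⁻¹' u)).Nonempty := by
      obtain ⟨z, ⟨a, ⟨haW, haU⟩, rfl⟩, hz⟩ := hTu
      exact ⟨o a, haU, a, ⟨haW, hz⟩, rfl⟩
    have h2 : (U ∩ o '' (W ∩ Ψ ⁻¹' v)).Nonempty := by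
      obtain ⟨z, ⟨a, ⟨haW, haU⟩, rfl⟩, hz⟩ := hTv
      exact ⟨o a, haU, a, ⟨haW, hz⟩, rfl⟩
    obtain ⟨y, hyU, ⟨a, ⟨haW, hau⟩, hay⟩, ⟨b, ⟨hbW, hbv⟩, hby⟩⟩ := hU _ _ ou ov hcov h1 h2
    have hab : Ψ a = Ψ b := hwd a haW b hbW (hay.trans hby.symm)
    refine ⟨Ψ a, ⟨a, ⟨haW, ?_⟩, rfl⟩, hau, ?_⟩
    · change o a ∈ U
      rw [hay]; exact hyU
    · rw [hab]; exact hbv
  exact hT.subsingleton ⟨g, ⟨hg, hgU⟩, rfl⟩ ⟨g', ⟨hg', hg'U⟩, rfl⟩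

theorem lift_neBot {G Y ι : Type} [TopologicalSpace G] [TopologicalSpace Y] {o : G → Y} {g₀ : G}
    (hop : IsOpenMap o) {L : Filter ι} [L.NeBot] {z : ι → Y} (hz : Tendsto z L (𝓝 (o g₀))) :
    ((𝓝 g₀ ×ˢ L) ⊓ 𝓟 {q : G × ι | o q.1 = z q.2}).NeBot := by
  rw [Filter.inf_principal_neBot_iff]
  intro V hV
  obtain ⟨A, hA, S, hS, hAS⟩ := Filter.mem_prod_iff.1 hV
  have hoA : o '' A ∈ 𝓝 (o g₀) := hop.image_mem_nhds hA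
  have hS' : S ∩ z ⁻¹' (o '' A) ∈ L := Filter.inter_mem hS (hz hoA)
  obtain ⟨i, hiS, hi⟩ := Filter.nonempty_of_mem hS'
  obtain ⟨a, haA, hai⟩ := hi
  exact ⟨(a, i), hAS ⟨haA, hiS⟩, hai⟩

end Pool.Agent.ISY
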