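import Pool.Agent.ISY.Mul
import Pool.Agent.ISY.CstO

/-!
# ISY-Cn2: fibres `ℂ`: the multipliers are constant along the base

Uses the statements of ISY-Mul and `const_of_open` (ISY-CstO); take them as given.

Plan. `β ≠ 1`, so there is `x₁` with `β • x₁ ≠ x₁` (`hF.faithful`); let `b := π x₁`; then
`U b (β • x₁) ≠ U b x₁`. Fact (*): if `F, F'` are vertical and have the same multipliers at every `y` then
`F * β * F⁻¹ = F' * β * F'⁻¹` (`U_conj_trans`, injectivity, faithful), and if `F * β * F⁻¹ = F' * β * F'⁻¹` then the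
multipliers of `F`, `F'` at `b` agree (evaluate `U_conj_trans` at `x₁`). Let `f` be vertical. It is enough to
show that the multiplier of `f` at every `y` equals its multiplier `m₀` at `b`.
Apply `const_of_open` with `W = univ`, `U = univ`, `Z = G`, `o g = g • b` (`hF.hopY b`).
Case II: every `r` with `r • b = b` is vertical. `Ψ g := (g * f * g⁻¹) * β * (g * f * g⁻¹)⁻¹`. If
`g • b = g' • b` then `h := g⁻¹ * g'` is vertical; `g' * f * g'⁻¹ = g * (h * f * h⁻¹) * g⁻¹` and `h * f * h⁻¹` has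
the multipliers of `f` (`isMul_conj` for `h`, `h • y = y`), so `g' * f * g'⁻¹` and `g * f * g⁻¹` have the same multipliers
(`isMul_conj` for `g`), so `Ψ g = Ψ g'` by (*). So `Ψ g = Ψ 1` for all `g`, so the multiplier of `g * f * g⁻¹` at `b`
is `m₀`; by `isMul_conj` it is the multiplier of `f` at `g⁻¹ • b`. Every `y` is `g⁻¹ • b` for some `g`
(`hF.trX`, `hF.surj`, `hF.equi`).
Case I: there is `r` with `r • b = b`, not vertical. Let `F g := (g * r * g⁻¹) * f * (g * r * g⁻¹)⁻¹` and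
`Ψ g := F g * β * (F g)⁻¹`. If `g • b = g' • b` then `g * r * g⁻¹` and `g' * r * g'⁻¹` act in the same way on `Y`
(`hB.ab b` for `h = g⁻¹ * g'` and `r`), so `F g` and `F g'` have the same multipliers and `Ψ g = Ψ g'`. So
`Ψ g = Ψ 1` for all `g`: the multiplier of `f` at `(g * r * g⁻¹)⁻¹ • b` is that at `r⁻¹ • b = b`, that is `m₀`. By
`hB.conj b r⁻¹` (`r⁻¹` is not vertical) every `v : Y` is `(g * r⁻¹ * g⁻¹) • b` for some `g`.
-/

set_option autoImplicit false

open Set Topology Filter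

namespace Pool.Agent.ISY

section
variable {G X Y : Type} [Group G] [TopologicalSpace G] [IsTopologicalGroup G]
    [TotallyDisconnectedSpace G] [TopologicalSpace X] [TopologicalSpace Y] [PreconnectedSpace Y]
    [MulAction G X] [MulAction G Y] {π : X → Y}

omit [TopologicalSpace G] [IsTopologicalGroup G] [TotallyDisconnectedSpace G] [TopologicalSpace X]
  [TopologicalSpace Y] [PreconnectedSpace Y] [MulAction G X] in
private theorem vert_conj (g : G) {f : G} (hf : Vert Y f) : Vert Y (g * f * g⁻¹) := by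
  intro y
  rw [mul_smul, mul_smul, hf, smul_inv_smul]

omit [TopologicalSpace G] [IsTopologicalGroup G] [TotallyDisconnectedSpace G]
  [TopologicalSpace Y] [PreconnectedSpace Y] in
/-- conjugation by elements which act in the same way on `Y` -/
private theorem same_mul (hequi : ∀ (g : G) (x : X), π (g • x) = g • π x) {U : Y → X → ℂ}
    (hU : FibC G π U) {f : G} (hf : Vert Y f)
    {h h' : G} (hh : ∀ y : Y, h • y = h' • y) {y : Y} {m : ℂ}
    (hm : IsMul π U (h * f * h⁻¹) y m) : IsMul π U (h' * f * h'⁻¹) y m := by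
  have h1 := isMul_conj hequi hU h⁻¹ (vert_conj h hf) hm
  have h2 : h⁻¹ * (h * f * h⁻¹) * h⁻¹⁻¹ = f := by group
  rw [h2] at h1
  have h3 := isMul_conj hequi hU h' hf h1
  rwa [← hh, smul_inv_smul] at h3

omit [IsTopologicalGroup G] [TotallyDisconnectedSpace G] [PreconnectedSpace Y] in
private theorem conj_eq (hF : Fibr G π) {U : Y → X → ℂ} (hU : FibC G π U) {β : G}
    (hβ : β ∈ Trans hF.equi U) {F F' : G} (h1 : Vert Y F) (h2 : Vert Y F')
    (h : ∀ y m, IsMul π U F y m → IsMul π U F' y m) : F * β * F⁻¹ = F' * β * F'⁻¹ := by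
  have hx : ∀ x : X, (F * β * F⁻¹) • x = (F' * β * F'⁻¹) • x := by
    intro x
    obtain ⟨m, -, hm⟩ := exists_isMul hU h1 (π x)
    have e1 := U_conj_trans hF.equi hU h1 hβ hm rfl
    have e2 := U_conj_trans hF.equi hU h2 hβ (h _ _ hm) rfl
    refine (hU.bij (π x)).injOn ?_ ?_ (e1.trans e2.symm)
    · change π ((F * β * F⁻¹) • x) = π x
      rw [hF.equi, vert_conj F hβ.1]
    · change π ((F' * β * F'⁻¹) • x) = π x
      rw [hF.equi, vert_conj F' hβ.1]
  have h3 := hF.faithful ((F' * β * F'⁻¹)⁻¹ * (F * β * F⁻¹)) (fun x => by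
    rw [mul_smul, hx, inv_smul_smul])
  rw [inv_mul_eq_one] at h3
  exact h3.symm

omit [IsTopologicalGroup G] [TotallyDisconnectedSpace G] [PreconnectedSpace Y] in
private theorem mul_of_conj_eq (hF : Fibr G π) {U : Y → X → ℂ} (hU : FibC G π U) {β : G}
    (hβ : β ∈ Trans hF.equi U) {x₁ : X} (hx₁ : β • x₁ ≠ x₁) {F F' : G} (h1 : Vert Y F)
    (h2 : Vert Y F') (h : F * β * F⁻¹ = F' * β * F'⁻¹) {m : ℂ} (hm : IsMul π U F (π x₁) m) :
    IsMul π U F' (π x₁) m := by
  obtain ⟨m', -, hm'⟩ := exists_isMul hU h2 (π x₁)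
  have e1 := U_conj_trans hF.equi hU h1 hβ hm rfl
  have e2 := U_conj_trans hF.equi hU h2 hβ hm' rfl
  rw [h, e2] at e1
  have hne : U (π x₁) (β • x₁) - U (π x₁) x₁ ≠ 0 := by
    rw [sub_ne_zero]
    intro h0
    refine hx₁ ((hU.bij (π x₁)).injOn ?_ rfl h0)
    change π (β • x₁) = π x₁
    rw [hF.equi, hβ.1]
  have h3 : m' = m := mul_right_cancel₀ hne (add_left_cancel e1)
  rw [← h3]
  exact hm'

private theorem core (hF : Fibr G π) {U : Y → X → ℂ} (hU : FibC G π U) {β : G}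
    (hβ : β ∈ Trans hF.equi U) {x₁ : X} (hx₁ : β • x₁ ≠ x₁) {f : G} (hf : Vert Y f)
    (k : G → G) (hk : Continuous k)
    (hk1 : ∀ g g' : G, g • π x₁ = g' • π x₁ → ∀ y : Y, k g • y = k g' • y)
    (hk2 : k 1 • π x₁ = π x₁) (hk3 : ∀ v : Y, ∃ g : G, (k g)⁻¹ • π x₁ = v) {y : Y} {m : ℂ}
    (h : IsMul π U f y m) : IsMul π U f (π x₁) m := by
  have hΨ : Continuous fun g => (k g * f * (k g)⁻¹) * β * (k g * f * (k g)⁻¹)⁻¹ := by
    fun_prop
  have hsurj : (univ : Set Y) ⊆ (fun g : G => g • π x₁) '' univ := by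
    intro v _
    obtain ⟨x, hx⟩ := hF.surj v
    obtain ⟨g, hg⟩ := hF.trX x₁ x
    refine ⟨g, mem_univ _, ?_⟩
    change g • π x₁ = v
    rw [← hF.equi, hg, hx]
  have hconst := const_of_open (hF.hopY (π x₁)) isOpen_univ hΨ.continuousOn (fun g _ g' _ hgg =>
    conj_eq hF hU hβ (vert_conj _ hf) (vert_conj _ hf) fun z n hn =>
      same_mul hF.equi hU hf (hk1 g g' hgg) hn) isPreconnected_univ hsurj
  obtain ⟨g, hg⟩ := hk3 y
  have h1 : IsMul π U (k g * f * (k g)⁻¹) (π x₁) m := by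
    have h2 := isMul_conj hF.equi hU (k g) hf h
    rwa [← hg, smul_inv_smul] at h2
  have h3 := mul_of_conj_eq hF hU hβ hx₁ (vert_conj _ hf) (vert_conj _ hf)
    (hconst g (mem_univ _) 1 (mem_univ _) (mem_univ _) (mem_univ _)) h1
  have h4 := isMul_conj hF.equi hU (k 1)⁻¹ (vert_conj (k 1) hf) h3
  have h5 : (k 1)⁻¹ * (k 1 * f * (k 1)⁻¹) * (k 1)⁻¹⁻¹ = f := by group
  have h6 : (k 1)⁻¹ • π x₁ = π x₁ := by rw [inv_smul_eq_iff, hk2]
  rwa [h5, h6] at h4

end

theorem isMul_const {G X Y : Type} [Group G] [TopologicalSpace G] [IsTopologicalGroup G]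
    [TotallyDisconnectedSpace G] [TopologicalSpace X] [TopologicalSpace Y] [PreconnectedSpace Y]
    [MulAction G X] [MulAction G Y] {π : X → Y} (hF : Fibr G π) (hB : BaseOK G Y)
    {U : Y → X → ℂ} (hU : FibC G π U) {β : G} (hβ : β ∈ Trans hF.equi U) (hβ1 : β ≠ 1) {f : G}
    (hf : Vert Y f) {y y' : Y} {m : ℂ} (h : IsMul π U f y m) : IsMul π U f y' m := by
  obtain ⟨x₁, hx₁⟩ : ∃ x : X, β • x ≠ x := by
    by_contra hcon
    push Not at hcon
    exact hβ1 (hF.faithful β hcon)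
  have key : ∀ (z : Y) (n : ℂ), IsMul π U f z n → IsMul π U f (π x₁) n := by
    intro z n hn
    by_cases hcase : ∀ r : G, r • π x₁ = π x₁ → Vert Y r
    · refine core hF hU hβ hx₁ hf id continuous_id ?_ (one_smul _ _) ?_ hn
      · intro g g' hgg v
        have h1 : Vert Y (g⁻¹ * g') := hcase _ (by rw [mul_smul, ← hgg, inv_smul_smul])
        have h2 := h1 v
        rw [mul_smul, inv_smul_eq_iff] at h2
        exact h2.symm
      · intro v
        obtain ⟨x, hx⟩ := hF.surj v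
        obtain ⟨g, hg⟩ := hF.trX x₁ x
        refine ⟨g⁻¹, ?_⟩
        change (g⁻¹)⁻¹ • π x₁ = v
        rw [inv_inv, ← hF.equi, hg, hx]
    · push Not at hcase
      obtain ⟨r, hr, hrv⟩ := hcase
      refine core hF hU hβ hx₁ hf (fun g => g * r * g⁻¹) (by fun_prop) ?_ ?_ ?_ hn
      · intro g g' hgg v
        have h1 : (g⁻¹ * g') • π x₁ = π x₁ := by rw [mul_smul, ← hgg, inv_smul_smul]
        have h2 := hB.ab (π x₁) (g⁻¹ * g') r h1 hr ((g⁻¹ * g')⁻¹ • g⁻¹ • v)
        rw [smul_inv_smul, mul_smul, inv_smul_eq_iff, mul_inv_rev, inv_inv, mul_smul,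
          smul_inv_smul] at h2
        change (g * r * g⁻¹) • v = (g' * r * g'⁻¹) • v
        rw [mul_smul, mul_smul, mul_smul, mul_smul, ← h2]
      · change ((1 : G) * r * 1⁻¹) • π x₁ = π x₁
        rw [one_mul, inv_one, mul_one, hr]
      · intro v
        obtain ⟨g, hg⟩ := hB.conj (π x₁) r⁻¹ (by rw [inv_smul_eq_iff, hr]) (fun hv => hrv (by
          intro z
          have := hv z
          rw [inv_smul_eq_iff] at this
          exact this.symm)) v
        refine ⟨g, ?_⟩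
        change (g * r * g⁻¹)⁻¹ • π x₁ = v
        rw [← hg]
        congr 1
        group
  obtain ⟨m', -, hm'⟩ := exists_isMul hU hf y'
  have h1 := key _ _ hm'
  have h2 := key _ _ h
  rw [isMul_unique hU h2 h1]
  exact hm'

end Pool.Agent.ISY
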