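import Pool.Agent.ISY.Ab

/-! # ISY-Lam: fibres `ℂ`: the affine structure of the fibres (helper2) -/

set_option autoImplicit false

open Set Topology Filter

namespace Pool.Agent.ISY

/-- the point `x + s (x' - x)` of the fibre -/
noncomputable def Lam {X Y : Type} [Nonempty X] (π : X → Y) (U : Y → X → ℂ) (x x' : X) (s : ℂ) : X :=
  Function.invFunOn (U (π x)) (π ⁻¹' {π x}) (U (π x) x + s * (U (π x) x' - U (π x) x))

section
variable {G X Y : Type} [Group G] [Nonempty X] [TopologicalSpace X] [MulAction G X] [MulAction G Y]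
  {π : X → Y} {U : Y → X → ℂ}

theorem pi_Lam (hU : FibC G π U) (x x' : X) (s : ℂ) : π (Lam π U x x' s) = π x := by
  have h : ∃ a ∈ π ⁻¹' {π x}, U (π x) a = U (π x) x + s * (U (π x) x' - U (π x) x) :=
    (hU.bij (π x)).surjOn (mem_univ _)
  exact Function.invFunOn_mem h

theorem U_Lam (hU : FibC G π U) (x x' : X) (s : ℂ) :
    U (π x) (Lam π U x x' s) = U (π x) x + s * (U (π x) x' - U (π x) x) := by
  have h : ∃ a ∈ π ⁻¹' {π x}, U (π x) a = U (π x) x + s * (U (π x) x' - U (π x) x) :=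
    (hU.bij (π x)).surjOn (mem_univ _)
  exact Function.invFunOn_eq h

theorem eq_of_U (hU : FibC G π U) {x x' : X} (h : π x = π x') (h' : U (π x) x = U (π x) x') :
    x = x' :=
  (hU.bij (π x)).injOn (show x ∈ π ⁻¹' {π x} from rfl) (show x' ∈ π ⁻¹' {π x} from h.symm) h'

theorem smul_Lam (hequi : ∀ (g : G) (x : X), π (g • x) = g • π x) (hU : FibC G π U) (g : G)
    {x x' : X} (h : π x = π x') (s : ℂ) :
    g • Lam π U x x' s = Lam π U (g • x) (g • x') s := by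
  have h1 : π (g • Lam π U x x' s) = g • π x := by rw [hequi, pi_Lam hU]
  have h2 : π (Lam π U (g • x) (g • x') s) = g • π x := by rw [pi_Lam hU, hequi]
  refine eq_of_U hU (h1.trans h2.symm) ?_
  obtain ⟨α, β, _, hab⟩ := hU.act g (π x)
  rw [h1]
  have e1 := hab (Lam π U x x' s) (pi_Lam hU x x' s)
  have e2 := hab x rfl
  have e3 := hab x' h.symm
  have e4 := U_Lam hU (g • x) (g • x') s
  rw [hequi] at e4
  rw [e1, e4, e2, e3, U_Lam hU]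
  ring

end

theorem continuousOn_Lam {G X Y : Type} [Group G] [TopologicalSpace G] [IsTopologicalGroup G]
    [Nonempty X] [TopologicalSpace X] [TopologicalSpace Y] [MulAction G X] [MulAction G Y]
    [ContinuousSMul G X] {π : X → Y} (hF : Fibr G π) {U : Y → X → ℂ} (hU : FibC G π U) :
    ContinuousOn (fun z : X × X × ℂ => Lam π U z.1 z.2.1 z.2.2) {z | π z.1 = π z.2.1} := by
  rintro ⟨x₀, x₀', s₀⟩ hz₀
  have hz : π x₀ = π x₀' := hz₀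
  rw [ContinuousWithinAt, tendsto_def]
  intro O hO
  change O ∈ 𝓝 (Lam π U x₀ x₀' s₀) at hO
  -- the action near 1
  have hV : ∃ V ∈ 𝓝 (1 : G), ∃ O' ∈ 𝓝 (Lam π U x₀ x₀' s₀), ∀ g ∈ V, ∀ p ∈ O', g • p ∈ O := by
    have h1 : Tendsto (fun q : G × X => q.1 • q.2) (𝓝 ((1 : G), Lam π U x₀ x₀' s₀))
        (𝓝 (Lam π U x₀ x₀' s₀)) := by
      have := (continuous_smul : Continuous fun q : G × X => q.1 • q.2).tendsto
        ((1 : G), Lam π U x₀ x₀' s₀)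
      simpa using this
    have h2 := h1 hO
    rw [mem_map, mem_nhds_prod_iff] at h2
    obtain ⟨V, hV, O', hO', hVO⟩ := h2
    exact ⟨V, hV, O', hO', fun g hg p hp => hVO (mk_mem_prod hg hp)⟩
  obtain ⟨V, hV, O', hO', hVO⟩ := hV
  -- the fibre over b
  have hfib : ∃ P ∈ 𝓝 x₀, ∃ P' ∈ 𝓝 x₀', ∃ R ∈ 𝓝 s₀, ∀ x ∈ P, π x = π x₀ → ∀ x' ∈ P', π x' = π x₀ →
      ∀ s ∈ R, Lam π U x x' s ∈ O' := by
    have hemb := hU.emb (π x₀)
    have hT : ∃ T ∈ 𝓝 (U (π x₀) (Lam π U x₀ x₀' s₀)), ∀ x, π x = π x₀ → U (π x₀) x ∈ T → x ∈ O' := by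
      have h1 : (Subtype.val ⁻¹' O' : Set (π ⁻¹' {π x₀} : Set X)) ∈
          𝓝 (⟨Lam π U x₀ x₀' s₀, pi_Lam hU x₀ x₀' s₀⟩ : (π ⁻¹' {π x₀} : Set X)) :=
        continuous_subtype_val.continuousAt.preimage_mem_nhds hO'
      rw [hemb.isInducing.nhds_eq_comap, mem_comap] at h1
      obtain ⟨T, hT, hTO⟩ := h1
      refine ⟨T, hT, fun x hx hxT => ?_⟩
      have h2 : (⟨x, hx⟩ : (π ⁻¹' {π x₀} : Set X)) ∈ (Subtype.val ⁻¹' O' : Set (π ⁻¹' {π x₀} : Set X)) :=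
        hTO hxT
      exact h2
    obtain ⟨T, hT, hTO⟩ := hT
    rw [U_Lam hU] at hT
    have h3 : Tendsto (fun q : ℂ × ℂ × ℂ => q.1 + q.2.2 * (q.2.1 - q.1))
        (𝓝 (U (π x₀) x₀, U (π x₀) x₀', s₀))
        (𝓝 (U (π x₀) x₀ + s₀ * (U (π x₀) x₀' - U (π x₀) x₀))) := by
      have hc : Continuous (fun q : ℂ × ℂ × ℂ => q.1 + q.2.2 * (q.2.1 - q.1)) := by fun_prop
      exact hc.tendsto (U (π x₀) x₀, U (π x₀) x₀', s₀)
    have h4 := h3 hT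
    rw [mem_map, mem_nhds_prod_iff] at h4
    obtain ⟨A, hA, B, hB, hAB⟩ := h4
    rw [mem_nhds_prod_iff] at hB
    obtain ⟨A', hA', R, hR, hAR⟩ := hB
    have hcont : Continuous (fun x : (π ⁻¹' {π x₀} : Set X) => U (π x₀) x) := hemb.continuous
    have hP : ∃ P ∈ 𝓝 x₀, ∀ x ∈ P, π x = π x₀ → U (π x₀) x ∈ A := by
      have h5 : (fun x : (π ⁻¹' {π x₀} : Set X) => U (π x₀) x) ⁻¹' A ∈
          𝓝 (⟨x₀, rfl⟩ : (π ⁻¹' {π x₀} : Set X)) :=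
        hcont.continuousAt.preimage_mem_nhds hA
      rw [mem_nhds_subtype] at h5
      obtain ⟨P, hP, hPA⟩ := h5
      refine ⟨P, hP, fun x hx hxb => ?_⟩
      exact hPA (show (⟨x, hxb⟩ : (π ⁻¹' {π x₀} : Set X)) ∈ Subtype.val ⁻¹' P from hx)
    have hP' : ∃ P ∈ 𝓝 x₀', ∀ x ∈ P, π x = π x₀ → U (π x₀) x ∈ A' := by
      have h5 : (fun x : (π ⁻¹' {π x₀} : Set X) => U (π x₀) x) ⁻¹' A' ∈
          𝓝 (⟨x₀', hz.symm⟩ : (π ⁻¹' {π x₀} : Set X)) :=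
        hcont.continuousAt.preimage_mem_nhds hA'
      rw [mem_nhds_subtype] at h5
      obtain ⟨P, hP, hPA⟩ := h5
      refine ⟨P, hP, fun x hx hxb => ?_⟩
      exact hPA (show (⟨x, hxb⟩ : (π ⁻¹' {π x₀} : Set X)) ∈ Subtype.val ⁻¹' P from hx)
    obtain ⟨P, hP, hPA⟩ := hP
    obtain ⟨P', hP', hPA'⟩ := hP'
    refine ⟨P, hP, P', hP', R, hR, fun x hx hxb x' hx' hxb' s hs => ?_⟩
    refine hTO _ ((pi_Lam hU x x' s).trans hxb) ?_
    have h6 := U_Lam hU x x' s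
    rw [hxb] at h6
    rw [h6]
    exact hAB (mk_mem_prod (hPA x hx hxb) (hAR (mk_mem_prod (hPA' x' hx' hxb') hs)))
  obtain ⟨P, hP, P', hP', R, hR, hPR⟩ := hfib
  -- g⁻¹ near 1
  have hinv : ∀ (y : X) (Q : Set X), Q ∈ 𝓝 y → ∃ W ∈ 𝓝 (1 : G), ∃ M ∈ 𝓝 y, ∀ g ∈ W, ∀ x ∈ M,
      g⁻¹ • x ∈ Q := by
    intro y Q hQ
    have h1 : Tendsto (fun q : G × X => q.1⁻¹ • q.2) (𝓝 ((1 : G), y)) (𝓝 y) := by
      have hc : Continuous (fun q : G × X => q.1⁻¹ • q.2) :=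
        (continuous_fst.inv).smul continuous_snd
      have := hc.tendsto ((1 : G), y)
      simpa using this
    have h2 := h1 hQ
    rw [mem_map, mem_nhds_prod_iff] at h2
    obtain ⟨W, hW, M, hM, hWM⟩ := h2
    exact ⟨W, hW, M, hM, fun g hg x hx => hWM (mk_mem_prod hg hx)⟩
  obtain ⟨W, hW, M, hM, hWM⟩ := hinv x₀ P hP
  obtain ⟨W', hW', M', hM', hWM'⟩ := hinv x₀' P' hP'
  have hV3 : V ∩ (W ∩ W') ∈ 𝓝 (1 : G) := inter_mem hV (inter_mem hW hW')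
  have hN : (fun g : G => g • π x₀) '' (V ∩ (W ∩ W')) ∈ 𝓝 (π x₀) := by
    have := (hF.hopY (π x₀)).image_mem_nhds hV3
    rwa [one_smul] at this
  have hN1 : π ⁻¹' ((fun g : G => g • π x₀) '' (V ∩ (W ∩ W'))) ∈ 𝓝 x₀ :=
    hF.cont.continuousAt.preimage_mem_nhds hN
  have hmem : (M ∩ π ⁻¹' ((fun g : G => g • π x₀) '' (V ∩ (W ∩ W')))) ×ˢ (M' ×ˢ R) ∈
      𝓝 ((x₀, x₀', s₀) : X × X × ℂ) :=
    prod_mem_nhds (inter_mem hM hN1) (prod_mem_nhds hM' hR)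
  filter_upwards [mem_nhdsWithin_of_mem_nhds hmem, self_mem_nhdsWithin] with z hz1 hz2
  obtain ⟨x, x', s⟩ := z
  obtain ⟨⟨hx, hxN⟩, hx', hs⟩ := hz1
  have hxx' : π x = π x' := hz2
  obtain ⟨g, ⟨hgV, hgW, hgW'⟩, hg⟩ := hxN
  have hg' : g • π x₀ = π x := hg
  have hb : π (g⁻¹ • x) = π x₀ := by rw [hF.equi, ← hg', inv_smul_smul]
  have hb' : π (g⁻¹ • x') = π x₀ := by rw [hF.equi, ← hxx', ← hg', inv_smul_smul]
  have hL := hPR (g⁻¹ • x) (hWM g hgW x hx) hb (g⁻¹ • x') (hWM' g hgW' x' hx') hb' s hs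
  have h7 := hVO g hgV _ hL
  rw [smul_Lam hF.equi hU g (hb.trans hb'.symm) s, smul_inv_smul, smul_inv_smul] at h7
  exact h7

end Pool.Agent.ISY
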