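import Mathlib

/-!
# ISY-Sgp: a closed subgroup of `ℂ` with arbitrarily small nonzero elements contains a real line

Mathlib only, self-contained. Plan: choose `s n ∈ S`, `s n ≠ 0`, `‖s n‖ < 1/(n+1)`. The unit vectors
`s n / ‖s n‖` lie in the compact unit sphere (`isCompact_sphere`), so along a subsequence they converge to some
`ζ`, `‖ζ‖ = 1`. For `t : ℝ` let `k n := ⌊t / ‖s n‖⌋ : ℤ`; then `k n * ‖s n‖ → t`
(`|k n * ‖s n‖ - t| ≤ ‖s n‖`), so `(k n : ℂ) * s n = (k n * ‖s n‖) * (s n / ‖s n‖) → t * ζ`, and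
`(k n : ℂ) * s n = k n • s n ∈ S`; `S` is closed.
-/

set_option autoImplicit false

open Set Topology Filter

namespace Pool.Agent.ISY

theorem exists_line {S : AddSubgroup ℂ} (hS : IsClosed (S : Set ℂ))
    (h : ∀ ε : ℝ, 0 < ε → ∃ s ∈ S, s ≠ 0 ∧ ‖s‖ < ε) : ∃ ζ : ℂ, ζ ≠ 0 ∧ ∀ t : ℝ, (t : ℂ) * ζ ∈ S := by
  have h1 : ∀ n : ℕ, ∃ s ∈ S, s ≠ 0 ∧ ‖s‖ < 1 / ((n : ℝ) + 1) := fun n =>
    h _ Nat.one_div_pos_of_nat
  choose s hs hs0 hsn using h1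
  have hpos : ∀ n, 0 < ‖s n‖ := fun n => norm_pos_iff.mpr (hs0 n)
  have hunit : ∀ n, s n / (‖s n‖ : ℂ) ∈ Metric.sphere (0 : ℂ) 1 := by
    intro n
    rw [mem_sphere_zero_iff_norm, norm_div, Complex.norm_real, norm_norm, div_self (hpos n).ne']
  obtain ⟨ζ, hζ, φ, hφ, hlim⟩ := (isCompact_sphere (0 : ℂ) 1).tendsto_subseq hunit
  refine ⟨ζ, ?_, fun t => ?_⟩
  · rintro rfl
    simp at hζ
  · have hsmall : Tendsto (fun n => ‖s (φ n)‖) atTop (𝓝 0) := by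
      refine squeeze_zero (fun n => norm_nonneg _) (fun n => (hsn (φ n)).le) ?_
      exact (tendsto_one_div_add_atTop_nhds_zero_nat (𝕜 := ℝ)).comp hφ.tendsto_atTop
    have hk : Tendsto (fun n => ((⌊t / ‖s (φ n)‖⌋ : ℤ) : ℝ) * ‖s (φ n)‖) atTop (𝓝 t) := by
      rw [tendsto_iff_norm_sub_tendsto_zero]
      refine squeeze_zero (fun n => norm_nonneg _) (fun n => ?_) hsmall
      have hp := hpos (φ n)
      have h2 := Int.floor_le (t / ‖s (φ n)‖)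
      have h3 := Int.lt_floor_add_one (t / ‖s (φ n)‖)
      rw [le_div_iff₀ hp] at h2
      rw [div_lt_iff₀ hp] at h3
      rw [Real.norm_eq_abs, abs_le]
      constructor <;> nlinarith
    have hk' : Tendsto (fun n => ((((⌊t / ‖s (φ n)‖⌋ : ℤ) : ℝ) * ‖s (φ n)‖ : ℝ) : ℂ) *
        (s (φ n) / (‖s (φ n)‖ : ℂ))) atTop (𝓝 ((t : ℂ) * ζ)) :=
      ((Complex.continuous_ofReal.tendsto t).comp hk).mul hlim
    refine hS.mem_of_tendsto hk' (Eventually.of_forall fun n => ?_)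
    have h4 : ((((⌊t / ‖s (φ n)‖⌋ : ℤ) : ℝ) * ‖s (φ n)‖ : ℝ) : ℂ) *
        (s (φ n) / (‖s (φ n)‖ : ℂ)) = (⌊t / ‖s (φ n)‖⌋ : ℤ) • s (φ n) := by
      have h5 : ((‖s (φ n)‖ : ℝ) : ℂ) ≠ 0 := by exact_mod_cast (hpos (φ n)).ne'
      rw [zsmul_eq_mul]
      push_cast
      field_simp
    rw [h4]
    exact S.zsmul_mem (hs (φ n)) _

end Pool.Agent.ISY
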