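import Pool.Agent.ISY.Mul
import Pool.Agent.ISY.Lam
import Pool.Agent.ISY.Sgp

/-!
# ISY-Cn3: fibres `ℂ`: the translations are open in the group of vertical elements

Uses the statements of ISY-Mul, ISY-Lam, ISY-Sgp (take them as given).

Plan. For `s : ℂ` let `Φ s : C(X, X)`, `Φ s x = Lam π U x (β • x) s`; `(s, x) ↦ Φ s x` is continuous
(`continuousOn_Lam`, `π (β • x) = π x`, `β` vertical), so `s ↦ Φ s` is continuous (`ContinuousMap.curry`).
`S := {s | ∃ a : G, ∀ x, a • x = Lam π U x (β • x) s}` is an additive subgroup of `ℂ`: with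
`τ := U y (β • x) - U y x` independent of `x` in the fibre over `y` (`β ∈ Trans`), `a • x` has coordinate
`U y x + s * τ` (`U_Lam`), so `a * a'` works for `s + s'`, `a⁻¹` for `-s`, `1` for `0` (`eq_of_U`). `S` is closed: the map
`s ↦ (Φ s, Φ (-s))` is continuous and maps `S` into `range (fun g => (toC g, toC g⁻¹))`, so `closure S` into its
closure; `hL.lim` gives `g` with `toC g = Φ s`.
Suppose the conclusion fails: `∀ W ∈ 𝓝 1, ∃ f ∈ W, Vert Y f ∧ f ∉ Trans`. The multiplier `m` of such an `f` is constant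
(`hconst`) and `≠ 1` (else `f ∈ Trans`). `m ∈ S` (take `a = f * β * f⁻¹`, `U_conj_trans`), `1 ∈ S` (`a = β`), so
`m - 1 ∈ S`, `≠ 0`. It is small when `W` is: with `x₁, x₂` over a fixed `b` with coordinates `0, 1`,
`m = U b (f • x₂) - U b (f • x₁)`, and `U b (f • x_j)` is close to `U b x_j` for `f` close to `1`, `f` vertical
(`hU.emb b`, continuity of `f ↦ f • x_j`). So `exists_line` gives `ζ ≠ 0` with `t * ζ ∈ S` for all real `t`.
Choose `a t : G` with `a t • x = Lam π U x (β • x) (t * ζ)`; `toC (a t) = Φ (t * ζ)` is continuous in `t`, so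
`a : ℝ → G` is continuous (`hL.ind.continuous_iff`), so constant (`ℝ` connected, `G` totally disconnected):
`a 1 = a 0 `, `a 0 • x = x`. So `Lam π U x (β • x) ζ = x`, `ζ * (U y (β • x) - U y x) = 0`, so `β • x = x` for all
`x` (`eq_of_U`), `β = 1` (`hF.faithful`): contradiction.
-/

set_option autoImplicit false

open Set Topology Filter

namespace Pool.Agent.ISY

section
variable {G X Y : Type} [Group G] [Nonempty X] [TopologicalSpace X] [TopologicalSpace Y]
    [MulAction G X] [MulAction G Y] {π : X → Y}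

omit [TopologicalSpace Y] [Nonempty X] in
private theorem pi_beta (hequi : ∀ (g : G) (x : X), π (g • x) = g • π x) {U : Y → X → ℂ} {β : G}
    (hβ : β ∈ Trans hequi U) (x : X) : π (β • x) = π x := by
  rw [hequi, hβ.1]

omit [TopologicalSpace Y] in
private theorem L_zero {U : Y → X → ℂ} (hU : FibC G π U) (β : G) (x : X) :
    Lam π U x (β • x) 0 = x := by
  refine eq_of_U hU (pi_Lam hU _ _ _) ?_
  rw [pi_Lam hU, U_Lam hU, zero_mul, add_zero]

omit [TopologicalSpace Y] in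
private theorem L_one (hequi : ∀ (g : G) (x : X), π (g • x) = g • π x) {U : Y → X → ℂ}
    (hU : FibC G π U) {β : G} (hβ : β ∈ Trans hequi U) (x : X) :
    Lam π U x (β • x) 1 = β • x := by
  refine eq_of_U hU ((pi_Lam hU _ _ _).trans (pi_beta hequi hβ x).symm) ?_
  rw [pi_Lam hU, U_Lam hU]
  ring

omit [TopologicalSpace Y] in
private theorem L_add (hequi : ∀ (g : G) (x : X), π (g • x) = g • π x) {U : Y → X → ℂ}
    (hU : FibC G π U) {β : G} (hβ : β ∈ Trans hequi U) (x : X) (s s' : ℂ) :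
    Lam π U (Lam π U x (β • x) s') (β • Lam π U x (β • x) s') s = Lam π U x (β • x) (s + s') := by
  have e0 : π (Lam π U x (β • x) s') = π x := pi_Lam hU _ _ _
  have e1 := U_Lam hU (Lam π U x (β • x) s') (β • Lam π U x (β • x) s') s
  have e2 := hβ.2 (π x) x (Lam π U x (β • x) s') rfl e0
  have e3 := U_Lam hU x (β • x) s'
  rw [e0] at e1
  refine eq_of_U hU ((pi_Lam hU _ _ _).trans (e0.trans (pi_Lam hU _ _ _).symm)) ?_
  rw [pi_Lam hU, e0, U_Lam hU, e1]
  linear_combination s * e2 + e3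
end

theorem trans_nhd {G X Y : Type} [Group G] [TopologicalSpace G] [IsTopologicalGroup G]
    [TotallyDisconnectedSpace G] [Nonempty X] [TopologicalSpace X] [TopologicalSpace Y]
    [LocallyCompactSpace X] [MulAction G X] [MulAction G Y] [ContinuousSMul G X] {π : X → Y}
    (hF : Fibr G π) (hL : LimOK G X) {U : Y → X → ℂ} (hU : FibC G π U) {β : G}
    (hβ : β ∈ Trans hF.equi U) (hβ1 : β ≠ 1)
    (hconst : ∀ f : G, Vert Y f → ∀ (y y' : Y) (m : ℂ), IsMul π U f y m → IsMul π U f y' m) :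
    ∃ W ∈ 𝓝 (1 : G), ∀ f ∈ W, Vert Y f → f ∈ Trans hF.equi U := by
  have hΦc : Continuous (fun p : ℂ × X => Lam π U p.2 (β • p.2) p.1) := by
    refine (continuousOn_Lam hF hU).comp_continuous (f := fun p : ℂ × X => (p.2, β • p.2, p.1))
      ?_ ?_
    · exact continuous_snd.prodMk ((continuous_snd.const_smul β).prodMk continuous_fst)
    · intro p
      exact (pi_beta hF.equi hβ p.2).symm
  obtain ⟨Φ, hΦ⟩ : ∃ Φ : C(ℂ, C(X, X)), ∀ s x, Φ s x = Lam π U x (β • x) s :=
    ⟨ContinuousMap.curry ⟨fun p : ℂ × X => Lam π U p.2 (β • p.2) p.1, hΦc⟩, fun s x => rfl⟩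
  -- the parameters realised by group elements
  have hneg : ∀ (s : ℂ) (a : G), (∀ x : X, a • x = Lam π U x (β • x) s) →
      ∀ x : X, a⁻¹ • x = Lam π U x (β • x) (-s) := by
    intro s a ha x
    rw [inv_smul_eq_iff, ha, L_add hF.equi hU hβ, add_neg_cancel, L_zero hU]
  obtain ⟨S, hS⟩ : ∃ S : AddSubgroup ℂ, ∀ s, s ∈ S ↔ ∃ a : G, ∀ x : X,
      a • x = Lam π U x (β • x) s :=
    ⟨{ carrier := {s | ∃ a : G, ∀ x : X, a • x = Lam π U x (β • x) s}
       add_mem' := by
         rintro s s' ⟨a, ha⟩ ⟨a', ha'⟩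
         refine ⟨a * a', fun x => ?_⟩
         rw [mul_smul, ha', ha, L_add hF.equi hU hβ]
       zero_mem' := ⟨1, fun x => by rw [one_smul, L_zero hU]⟩
       neg_mem' := by
         rintro s ⟨a, ha⟩
         exact ⟨a⁻¹, hneg s a ha⟩ }, fun s => Iff.rfl⟩
  have hclosed : IsClosed (S : Set ℂ) := by
    rw [← closure_subset_iff_isClosed]
    intro s hs
    have hcont : Continuous (fun s : ℂ => ((Φ s, Φ (-s)) : C(X, X) × C(X, X))) := by fun_prop
    have hmaps : MapsTo (fun s : ℂ => ((Φ s, Φ (-s)) : C(X, X) × C(X, X))) (S : Set ℂ)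
        (range (fun g : G => ((toC g, toC g⁻¹) : C(X, X) × C(X, X)))) := by
      intro s hs
      obtain ⟨a, ha⟩ := (hS s).1 hs
      refine ⟨a, Prod.ext ?_ ?_⟩
      · ext x
        exact (ha x).trans (hΦ s x).symm
      · ext x
        exact (hneg s a ha x).trans (hΦ (-s) x).symm
    have hcl : ((Φ s, Φ (-s)) : C(X, X) × C(X, X)) ∈ closure (range
        (fun g : G => ((toC g, toC g⁻¹) : C(X, X) × C(X, X)))) :=
      map_mem_closure (f := fun s : ℂ => ((Φ s, Φ (-s)) : C(X, X) × C(X, X))) hcont hs hmaps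
    obtain ⟨g, hg⟩ := hL.lim _ _ hcl
    refine (hS s).2 ⟨g, fun x => ?_⟩
    rw [← hΦ, ← hg]
    rfl
  by_contra hcon
  push Not at hcon
  have hnear : ∀ (x : X) (ε : ℝ), 0 < ε → ∃ W ∈ 𝓝 (1 : G), ∀ f ∈ W, Vert Y f →
      ‖U (π x) (f • x) - U (π x) x‖ < ε := by
    intro x ε hε
    have hc : Continuous (fun f : {f : G | Vert Y f} => U (π x) (f.1 • x)) := by
      have h1 : Continuous (fun f : {f : G | Vert Y f} => (⟨f.1 • x, by
          change π (f.1 • x) = π x
          rw [hF.equi, f.2]⟩ : (π ⁻¹' {π x} : Set X))) :=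
        Continuous.subtype_mk (continuous_subtype_val.smul continuous_const) _
      exact (hU.emb (π x)).continuous.comp h1
    have h2 := hc.tendsto ⟨1, fun y => one_smul _ y⟩ (Metric.ball_mem_nhds _ hε)
    rw [Filter.mem_map, mem_nhds_subtype] at h2
    obtain ⟨W, hW, hW'⟩ := h2
    refine ⟨W, hW, fun f hf hv => ?_⟩
    have h3 := hW' (show (⟨f, hv⟩ : {f : G | Vert Y f}) ∈ Subtype.val ⁻¹' W from hf)
    rw [mem_preimage, mem_ball_iff_norm] at h3
    simpa using h3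
  obtain ⟨x₀⟩ := (inferInstance : Nonempty X)
  obtain ⟨x₁, hx₁, hx₁'⟩ := (hU.bij (π x₀)).surjOn (mem_univ (0 : ℂ))
  obtain ⟨x₂, hx₂, hx₂'⟩ := (hU.bij (π x₀)).surjOn (mem_univ (1 : ℂ))
  have hx₁b : π x₁ = π x₀ := hx₁
  have hx₂b : π x₂ = π x₀ := hx₂
  obtain ⟨ζ, hζ0, hζ⟩ := exists_line hclosed (fun ε hε => by
    obtain ⟨W₁, hW₁, h1⟩ := hnear x₁ (ε / 2) (by positivity)
    obtain ⟨W₂, hW₂, h2⟩ := hnear x₂ (ε / 2) (by positivity)
    obtain ⟨f, hfW, hfv, hft⟩ := hcon _ (inter_mem hW₁ hW₂)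
    obtain ⟨m, -, hm⟩ := exists_isMul hU hfv (π x₀)
    have h3 := h1 f hfW.1 hfv
    have h4 := h2 f hfW.2 hfv
    rw [hx₁b, hx₁'] at h3
    rw [hx₂b, hx₂'] at h4
    have h5 := hm x₁ x₂ hx₁b hx₂b
    rw [hx₁', hx₂', sub_zero, mul_one] at h5
    refine ⟨m - 1, S.sub_mem ?_ ?_, ?_, ?_⟩
    · refine (hS m).2 ⟨f * β * f⁻¹, fun x => ?_⟩
      have h6 := U_conj_trans hF.equi hU hfv hβ (hconst f hfv _ (π x) m hm) rfl
      have h7 : π ((f * β * f⁻¹) • x) = π x := by
        rw [hF.equi, mul_smul, mul_smul, hβ.1, smul_inv_smul]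
      refine eq_of_U hU (h7.trans (pi_Lam hU _ _ _).symm) ?_
      rw [h7, h6, U_Lam hU]
    · exact (hS 1).2 ⟨β, fun x => (L_one hF.equi hU hβ x).symm⟩
    · intro h0
      rw [sub_eq_zero] at h0
      subst h0
      exact hft ⟨hfv, fun y => hconst f hfv _ y 1 hm⟩
    · have h8 : m - 1 = (U (π x₀) (f • x₂) - 1) - (U (π x₀) (f • x₁) - 0) := by
        rw [← h5]
        ring
      rw [h8]
      calc ‖(U (π x₀) (f • x₂) - 1) - (U (π x₀) (f • x₁) - 0)‖
          ≤ ‖U (π x₀) (f • x₂) - 1‖ + ‖U (π x₀) (f • x₁) - 0‖ := norm_sub_le _ _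
        _ < ε / 2 + ε / 2 := add_lt_add h4 h3
        _ = ε := by ring)
  have h1 : ∀ t : ℝ, ∃ a : G, ∀ x : X, a • x = Lam π U x (β • x) ((t : ℂ) * ζ) := fun t =>
    (hS _).1 (hζ t)
  choose a ha using h1
  have hac : Continuous a := by
    rw [hL.ind.continuous_iff]
    have h2 : (toC : G → C(X, X)) ∘ a = fun t : ℝ => Φ ((t : ℂ) * ζ) := by
      funext t
      ext x
      exact (ha t x).trans (hΦ _ x).symm
    rw [h2]
    exact Φ.continuous.comp (Complex.continuous_ofReal.mul continuous_const)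
  have h01 : a 1 = a 0 := (isPreconnected_univ.image a hac.continuousOn).subsingleton
    (mem_image_of_mem a (mem_univ _)) (mem_image_of_mem a (mem_univ _))
  refine hβ1 (hF.faithful β fun x => ?_)
  have h2 := ha 1 x
  rw [h01, ha 0 x] at h2
  have h3 : U (π x) (Lam π U x (β • x) (((0 : ℝ) : ℂ) * ζ)) =
      U (π x) (Lam π U x (β • x) (((1 : ℝ) : ℂ) * ζ)) := by rw [h2]
  rw [U_Lam hU, U_Lam hU] at h3
  have h4 : ζ * (U (π x) (β • x) - U (π x) x) = 0 := by
    have h5 : ((0 : ℝ) : ℂ) = 0 := Complex.ofReal_zero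
    have h6 : ((1 : ℝ) : ℂ) = 1 := Complex.ofReal_one
    rw [h5, h6] at h3
    linear_combination -h3
  rcases mul_eq_zero.1 h4 with h5 | h5
  · exact absurd h5 hζ0
  · refine eq_of_U hU (pi_beta hF.equi hβ x) ?_
    rw [pi_beta hF.equi hβ x]
    exact sub_eq_zero.1 h5

end Pool.Agent.ISY
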