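import Pool.Agent.ISY.Mas

/-!
# ISY-CorA: an element of the stabilizer with a countable class is trivial

Baire category in the stabilizer: its centralizer of `s` is open.
-/

set_option autoImplicit false

open Set Topology Filter

namespace Pool.Agent.ISY

private theorem corA_baire (P : Type) [TopologicalSpace P] [PolishSpace P] : BaireSpace P := by
  let _ := TopologicalSpace.upgradeIsCompletelyMetrizable P
  infer_instance

theorem eq_one_of_countable_cls {G X : Type} [Group G] [TopologicalSpace G] [IsTopologicalGroup G]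
    [PolishSpace G] [TopologicalSpace X] [T2Space X] [MulAction G X] [ContinuousSMul G X] {p : X}
    (hmas : Mas G X p) {s : G} (hs : s • p = p) (hc : (cls p s).Countable) : s = 1 := by
  have hcl : IsClosed ((MulAction.stabilizer G p : Subgroup G) : Set G) := by
    have h1 : ((MulAction.stabilizer G p : Subgroup G) : Set G) = {g : G | g • p = p} := by
      ext g
      exact MulAction.mem_stabilizer_iff
    rw [h1]
    exact isClosed_eq (continuous_id.smul continuous_const) continuous_const
  have : PolishSpace (MulAction.stabilizer G p) := hcl.polishSpace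
  have : BaireSpace (MulAction.stabilizer G p) := corA_baire _
  have : Countable (cls p s) := hc.to_subtype
  have hφ : Continuous (fun h : MulAction.stabilizer G p => (h : G) * s * (h : G)⁻¹) :=
    (continuous_subtype_val.mul continuous_const).mul continuous_subtype_val.inv
  obtain ⟨t, h0, ht⟩ := nonempty_interior_of_iUnion_of_closed
    (f := fun t : cls p s => (fun h : MulAction.stabilizer G p => (h : G) * s * (h : G)⁻¹) ⁻¹' {(t : G)})
    (fun t => isClosed_singleton.preimage hφ) (by
      refine eq_univ_of_forall fun h => mem_iUnion.2 ⟨⟨(h : G) * s * (h : G)⁻¹, h, ?_, rfl⟩, ?_⟩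
      · exact MulAction.mem_stabilizer_iff.1 h.2
      · exact mem_singleton _)
  have h1 : (fun h : MulAction.stabilizer G p => h0 * h) ⁻¹'
      ((fun h : MulAction.stabilizer G p => (h : G) * s * (h : G)⁻¹) ⁻¹' {(t : G)}) ∈
      𝓝 (1 : MulAction.stabilizer G p) := by
    have h2 : Continuous (fun h : MulAction.stabilizer G p => h0 * h) := continuous_const.mul continuous_id
    refine h2.continuousAt.preimage_mem_nhds ?_
    rw [mul_one]
    exact mem_interior_iff_mem_nhds.1 ht
  rw [nhds_subtype_eq_comap] at h1
  obtain ⟨V, hV, hV2⟩ := mem_comap.1 h1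
  refine hmas {s} isCompact_singleton (fun s' hs' => by rw [mem_singleton_iff.1 hs']; exact hs)
    ⟨V, hV, fun h hh hp s' hs' => ?_⟩ s rfl
  rw [mem_singleton_iff.1 hs', mem_singleton_iff]
  have h3 : (⟨h, MulAction.mem_stabilizer_iff.2 hp⟩ : MulAction.stabilizer G p) ∈
      (fun h : MulAction.stabilizer G p => h0 * h) ⁻¹'
      ((fun h : MulAction.stabilizer G p => (h : G) * s * (h : G)⁻¹) ⁻¹' {(t : G)}) := hV2 hh
  have h4 : ((h0 : G) * h) * s * ((h0 : G) * h)⁻¹ = t := h3
  have h5' : h0 ∈ (fun h : MulAction.stabilizer G p => (h : G) * s * (h : G)⁻¹) ⁻¹' {(t : G)} :=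
    interior_subset ht
  have h5 : (h0 : G) * s * (h0 : G)⁻¹ = t := h5'
  rw [← h5, mul_inv_rev] at h4
  have h6 : (h0 : G) * (h * s * h⁻¹) * (h0 : G)⁻¹ = (h0 : G) * s * (h0 : G)⁻¹ := by
    rw [← h4]
    group
  exact mul_left_cancel (mul_right_cancel h6)

end Pool.Agent.ISY
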