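import Pool.Agent.ISY.Mas

/-!
# ISY-CorB: a locally compact subgroup normalised by the stabilizer is trivial
-/

set_option autoImplicit false

open Set Topology Filter

namespace Pool.Agent.ISY

theorem eq_bot_of_locallyCompact {G X : Type} [Group G] [TopologicalSpace G]
    [IsTopologicalGroup G] [T2Space G] [TotallyDisconnectedSpace G] [MulAction G X] {p : X}
    (hmas : Mas G X p) (L : Subgroup G) (hLp : ∀ l ∈ L, l • p = p)
    (hn : ∀ h : G, h • p = p → ∀ l ∈ L, h * l * h⁻¹ ∈ L) (hlc : LocallyCompactSpace L) :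
    L = ⊥ := by
  rw [Subgroup.eq_bot_iff_forall]
  intro l hl
  -- a compact open neighbourhood
  obtain ⟨K, hK, hlK⟩ := exists_compact_mem_nhds (⟨l, hl⟩ : L)
  have hb := loc_compact_Haus_tot_disc_of_zero_dim (H := L)
  obtain ⟨S₀, hS, hlS, hSK⟩ := hb.exists_subset_of_mem_open (mem_interior_iff_mem_nhds.2 hlK)
    isOpen_interior
  have hS' : IsClopen S₀ := hS
  have hSc : IsCompact S₀ := hK.of_isClosed_subset hS'.1 (hSK.trans interior_subset)
  obtain ⟨O, hO, hOS⟩ := isOpen_induced_iff.1 hS'.2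
  have hSG : IsCompact ((Subtype.val : L → G) '' S₀) := hSc.image continuous_subtype_val
  refine hmas ((Subtype.val : L → G) '' S₀) hSG ?_ ?_ l ⟨⟨l, hl⟩, hlS, rfl⟩
  · rintro _ ⟨s, _, rfl⟩
    exact hLp _ s.2
  · have h1 : ∀ᶠ h in 𝓝 (1 : G), ∀ s ∈ (Subtype.val : L → G) '' S₀, h * s * h⁻¹ ∈ O := by
      refine hSG.eventually_forall_of_forall_eventually fun s hs => ?_
      have hc : Continuous fun z : G × G => z.1 * z.2 * z.1⁻¹ :=
        (continuous_fst.mul continuous_snd).mul continuous_fst.inv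
      refine hc.continuousAt.eventually_mem ?_
      have h2 : (1 : G) * s * (1 : G)⁻¹ = s := by rw [one_mul, inv_one, mul_one]
      have h3 : s ∈ O := by
        obtain ⟨s', hs', rfl⟩ := hs
        have h4 : s' ∈ (Subtype.val : L → G) ⁻¹' O := by
          rw [hOS]
          exact hs'
        exact h4
      change O ∈ 𝓝 ((1 : G) * s * (1 : G)⁻¹)
      rw [h2]
      exact hO.mem_nhds h3
    refine ⟨{h : G | ∀ s ∈ (Subtype.val : L → G) '' S₀, h * s * h⁻¹ ∈ O}, h1, ?_⟩
    intro h hh hp s hs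
    have h5 : h * s * h⁻¹ ∈ O := hh s hs
    obtain ⟨s', hs', rfl⟩ := hs
    have h6 : h * (s' : G) * h⁻¹ ∈ L := hn h hp _ s'.2
    refine ⟨⟨h * (s' : G) * h⁻¹, h6⟩, ?_, rfl⟩
    rw [← hOS]
    exact h5

end Pool.Agent.ISY
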