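import Mathlib

/-!
# ISY-CorC: the stabilizer is not trivial

Otherwise `g ↦ g • p` is a homeomorphism of a totally disconnected space onto a connected one.
-/

set_option autoImplicit false

open Set Topology Filter

namespace Pool.Agent.ISY

theorem exists_ne_one_stabilizer {G X : Type} [Group G] [TopologicalSpace G]
    [IsTopologicalGroup G] [TotallyDisconnectedSpace G] [TopologicalSpace X] [PreconnectedSpace X]
    [Nontrivial X] [MulAction G X] [ContinuousSMul G X] {p : X}
    (htr : ∀ x y : X, ∃ g : G, g • x = y) (hop : IsOpenMap (fun g : G => g • p)) :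
    ∃ g : G, g • p = p ∧ g ≠ 1 := by
  by_contra hcon
  push Not at hcon
  have hinj : Function.Injective (fun g : G => g • p) := by
    intro g g' h
    have h' : g • p = g' • p := h
    have h1 : (g'⁻¹ * g) • p = p := by
      rw [mul_smul, h', inv_smul_smul]
    have h2 := hcon _ h1
    exact (inv_mul_eq_one.1 h2).symm
  have hsur : Function.Surjective (fun g : G => g • p) := fun y => htr p y
  have hcont : Continuous (fun g : G => g • p) := continuous_id.smul continuous_const
  have hh : IsHomeomorph (fun g : G => g • p) := ⟨hcont, hop, hinj, hsur⟩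
  have h1 : IsPreconnected ((hh.homeomorph).symm '' (univ : Set X)) :=
    isPreconnected_univ.image _ (hh.homeomorph).symm.continuous.continuousOn
  have h2 : ((hh.homeomorph).symm '' (univ : Set X)) = univ :=
    image_univ_of_surjective (hh.homeomorph).symm.surjective
  rw [h2] at h1
  have h3 := h1.subsingleton
  obtain ⟨x, y, hxy⟩ := exists_pair_ne X
  obtain ⟨g, hg⟩ := hsur x
  obtain ⟨g', hg'⟩ := hsur y
  apply hxy
  rw [← hg, ← hg', h3 (mem_univ g) (mem_univ g')]

end Pool.Agent.ISY
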