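import Pool.Agent.ISY.Mas

/-!
# ISY-CorN: the stabilizer is not virtually nilpotent
-/

set_option autoImplicit false

open Set Topology Filter

namespace Pool.Agent.ISY

/-- an element of the stabilizer which commutes with a subgroup of finite index has a finite class -/
private theorem cn_fin {G X : Type} [Group G] [MulAction G X] {p : X}
    (L : Subgroup (MulAction.stabilizer G p)) (hL : L.FiniteIndex) (s : MulAction.stabilizer G p)
    (hs : ∀ l ∈ L, l * s = s * l) : (cls p (s : G)).Countable := by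
  have : Finite (MulAction.stabilizer G p ⧸ L) := Subgroup.finite_quotient_of_finiteIndex
  have h1 : cls p (s : G) ⊆ Set.range (fun q : MulAction.stabilizer G p ⧸ L =>
      ((q.out * s * q.out⁻¹ : MulAction.stabilizer G p) : G)) := by
    rintro t ⟨h, hp, rfl⟩
    obtain ⟨h', hh'⟩ : ∃ h' : MulAction.stabilizer G p, (h' : G) = h := ⟨⟨h, hp⟩, rfl⟩
    refine ⟨(h' : MulAction.stabilizer G p ⧸ L), ?_⟩
    obtain ⟨l, hl⟩ := QuotientGroup.mk_out_eq_mul L h'
    have h2 := hs l l.2
    have h3 : (h' : MulAction.stabilizer G p ⧸ L).out * s *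
        (h' : MulAction.stabilizer G p ⧸ L).out⁻¹ = h' * s * h'⁻¹ := by
      rw [hl, mul_inv_rev, mul_assoc h' (l : MulAction.stabilizer G p) s, h2]
      group
    show (((h' : MulAction.stabilizer G p ⧸ L).out * s *
        (h' : MulAction.stabilizer G p ⧸ L).out⁻¹ : MulAction.stabilizer G p) : G) = h * s * h⁻¹
    rw [h3, ← hh']
    rfl
  exact (Set.finite_range _).subset h1 |>.countable

theorem not_isNilpotent {G X : Type} [Group G] [MulAction G X] {p : X}
    (hclass : ∀ s : G, s • p = p → (cls p s).Countable → s = 1)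
    (hne : ∃ g : G, g • p = p ∧ g ≠ 1) (L : Subgroup (MulAction.stabilizer G p))
    (hL : L.FiniteIndex) : ¬ Group.IsNilpotent L := by
  intro hnil
  obtain ⟨s, hs1, hs2⟩ : ∃ s : MulAction.stabilizer G p, s ≠ 1 ∧ ∀ l ∈ L, l * s = s * l := by
    rcases subsingleton_or_nontrivial L with hsub | hnt
    · obtain ⟨g, hg, hg1⟩ := hne
      refine ⟨⟨g, hg⟩, ?_, ?_⟩
      · intro h
        exact hg1 (congrArg Subtype.val h)
      · intro l hl
        have h1 : (⟨l, hl⟩ : L) = 1 := Subsingleton.elim _ _
        have h2 : l = 1 := congrArg Subtype.val h1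
        rw [h2, one_mul, mul_one]
    · have h1 : Subgroup.center L ≠ ⊥ := Group.IsNilpotent.center_ne_bot L
      obtain ⟨⟨z, hz⟩, hz1⟩ := Subgroup.ne_bot_iff_exists_ne_one.1 h1
      refine ⟨((z : L) : MulAction.stabilizer G p), ?_, ?_⟩
      · intro h
        exact hz1 (Subtype.ext (Subtype.ext h))
      · intro l hl
        have h2 := Subgroup.mem_center_iff.1 hz ⟨l, hl⟩
        exact congrArg Subtype.val h2
  have h1 := hclass (s : G) s.2 (cn_fin L hL s hs2)
  exact hs1 (Subtype.ext h1)

end Pool.Agent.ISY
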