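import Pool.Agent.ISY.Ab

/-!
# ISY-Cs1: fibres `ℂ*`: rotation type and inversion type

`Rot U f y`: the vertical element `f` acts on the fibre over `y` by a rotation `c * ·`.
-/

set_option autoImplicit false

open Set Topology Filter

namespace Pool.Agent.ISY

/-- `f` acts on the fibre over `y` by a rotation -/
def Rot {G X Y : Type} [Group G] [MulAction G X] (π : X → Y) (U : Y → X → ℂ) (f : G) (y : Y) : Prop :=
  ∃ c : ℂ, c ≠ 0 ∧ ∀ x, π x = y → U y (f • x) = c * U y x

private theorem pt {G X Y : Type} [Group G] [TopologicalSpace X] [MulAction G X] [MulAction G Y]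
    {π : X → Y} {U : Y → X → ℂ} (hU : FibCs G π U) (y : Y) {z : ℂ} (hz : z ≠ 0) :
    ∃ x, π x = y ∧ U y x = z := by
  obtain ⟨x, hx, hxz⟩ := (hU.bij y).surjOn (show z ∈ ({0}ᶜ : Set ℂ) from hz)
  exact ⟨x, hx, hxz⟩

theorem rot_or {G X Y : Type} [Group G] [TopologicalSpace X] [MulAction G X] [MulAction G Y]
    {π : X → Y} {U : Y → X → ℂ} (hU : FibCs G π U) {f : G} (hf : Vert Y f) (y : Y) :
    (Rot π U f y ∧ ∀ x₁ x₂, π x₁ = y → π x₂ = y → U y x₁ = 1 → U y x₂ = 2 →
      U y (f • x₂) = U y (f • x₁) * 2) ∨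
    (¬ Rot π U f y ∧ ∀ x₁ x₂, π x₁ = y → π x₂ = y → U y x₁ = 1 → U y x₂ = 2 →
      U y (f • x₂) * 2 = U y (f • x₁)) := by
  have hfy : f • y = y := hf y
  rcases hU.act f y with ⟨c, hc, h⟩ | ⟨c, hc, h⟩
  · rw [hfy] at h
    left
    refine ⟨⟨c, hc, h⟩, ?_⟩
    intro x₁ x₂ h1 h2 h3 h4
    rw [h x₁ h1, h x₂ h2, h3, h4]
    ring
  · rw [hfy] at h
    right
    refine ⟨?_, ?_⟩
    · rintro ⟨c', hc', h'⟩
      obtain ⟨x₁, h1, h3⟩ := pt hU y (z := 1) one_ne_zero
      obtain ⟨x₂, h2, h4⟩ := pt hU y (z := 2) two_ne_zero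
      have e1 := h' x₁ h1
      have e2 := h' x₂ h2
      rw [h x₁ h1, h3] at e1
      rw [h x₂ h2, h4] at e2
      have e3 : c = c' := by
        rw [div_one, mul_one] at e1
        exact e1
      rw [← e3] at e2
      have e5 : c = c * 2 * 2 := by
        field_simp at e2
        linear_combination c * e2
      have e6 : c * 3 = 0 := by linear_combination -e5
      rcases mul_eq_zero.1 e6 with h0 | h0
      · exact hc h0
      · norm_num at h0
    · intro x₁ x₂ h1 h2 h3 h4
      rw [h x₁ h1, h x₂ h2, h3, h4]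
      ring

private theorem rot_conj_aux {G X Y : Type} [Group G] [TopologicalSpace X] [MulAction G X] [MulAction G Y]
    {π : X → Y} (hequi : ∀ (g : G) (x : X), π (g • x) = g • π x) {U : Y → X → ℂ}
    (hU : FibCs G π U) {f : G} (hf : Vert Y f) (g : G) (y : Y) (h : Rot π U f y) :
    Rot π U (g * f * g⁻¹) (g • y) := by
  obtain ⟨c1, hc1, h1⟩ := h
  rcases hU.act g y with ⟨c, hc, hg⟩ | ⟨c, hc, hg⟩
  · refine ⟨c1, hc1, ?_⟩
    intro x hx
    obtain ⟨x', rfl⟩ : ∃ x', x = g • x' := ⟨g⁻¹ • x, by simp⟩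
    have hx' : π x' = y := by
      rw [hequi] at hx
      exact smul_left_cancel g hx
    have e1 : (g * f * g⁻¹) • g • x' = g • f • x' := by
      rw [mul_smul, mul_smul, inv_smul_smul]
    have hfx : π (f • x') = y := by rw [hequi, hx', hf y]
    rw [e1, hg _ hfx, hg _ hx', h1 _ hx']
    ring
  · refine ⟨c1⁻¹, inv_ne_zero hc1, ?_⟩
    intro x hx
    obtain ⟨x', rfl⟩ : ∃ x', x = g • x' := ⟨g⁻¹ • x, by simp⟩
    have hx' : π x' = y := by
      rw [hequi] at hx
      exact smul_left_cancel g hx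
    have e1 : (g * f * g⁻¹) • g • x' = g • f • x' := by
      rw [mul_smul, mul_smul, inv_smul_smul]
    have hfx : π (f • x') = y := by rw [hequi, hx', hf y]
    rw [e1, hg _ hfx, hg _ hx', h1 _ hx', div_mul_eq_div_div_swap, div_eq_inv_mul]

private theorem vert_conj {G Y : Type} [Group G] [MulAction G Y] {f : G} (hf : Vert Y f) (g : G) :
    Vert Y (g * f * g⁻¹) := by
  intro y
  rw [mul_smul, mul_smul, hf, smul_inv_smul]

theorem rot_conj {G X Y : Type} [Group G] [TopologicalSpace X] [MulAction G X] [MulAction G Y]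
    {π : X → Y} (hequi : ∀ (g : G) (x : X), π (g • x) = g • π x) {U : Y → X → ℂ}
    (hU : FibCs G π U) {f : G} (hf : Vert Y f) (g : G) (y : Y) :
    Rot π U (g * f * g⁻¹) (g • y) ↔ Rot π U f y := by
  constructor
  · intro h
    have := rot_conj_aux hequi hU (vert_conj hf g) g⁻¹ (g • y) h
    rw [inv_smul_smul] at this
    have e : g⁻¹ * (g * f * g⁻¹) * g⁻¹⁻¹ = f := by group
    rwa [e] at this
  · exact rot_conj_aux hequi hU hf g y

theorem rot_all {G X Y : Type} [Group G] [TopologicalSpace G] [IsTopologicalGroup G]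
    [TopologicalSpace X] [TopologicalSpace Y] [PreconnectedSpace Y] [MulAction G X]
    [MulAction G Y] [ContinuousSMul G X] {π : X → Y} (hF : Fibr G π) {U : Y → X → ℂ}
    (hU : FibCs G π U) {f : G} (hf : Vert Y f) {y y' : Y} (h : Rot π U f y) : Rot π U f y' := by
  have key : ∀ b : Y, ∀ᶠ z in 𝓝 b, (Rot π U f z ↔ Rot π U f b) := by
    intro b
    obtain ⟨x₁, h1, h3⟩ := pt hU b (z := 1) one_ne_zero
    obtain ⟨x₂, h2, h4⟩ := pt hU b (z := 2) two_ne_zero
    have hv : ∀ g : G, Vert Y (g⁻¹ * f * g) := by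
      intro g
      have := vert_conj hf g⁻¹
      rwa [inv_inv] at this
    have hfib : ∀ (x : X), π x = b → ∀ g : G, π ((g⁻¹ * f * g) • x) = b := by
      intro x hx g
      rw [hF.equi, hx, hv g b]
    have hcont : ∀ (x : X), π x = b → Continuous fun g : G => U b ((g⁻¹ * f * g) • x) := by
      intro x hx
      have hc1 : Continuous fun g : G => (g⁻¹ * f * g) • x := by fun_prop
      have hc2 : Continuous fun g : G => (⟨(g⁻¹ * f * g) • x, hfib x hx g⟩ : (π ⁻¹' {b} : Set X)) :=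
        hc1.subtype_mk _
      exact (hU.emb b).continuous.comp hc2
    have hne : ∀ (x : X), π x = b → ∀ g : G, U b ((g⁻¹ * f * g) • x) ≠ 0 := by
      intro x hx g
      exact (hU.bij b).mapsTo (show (g⁻¹ * f * g) • x ∈ π ⁻¹' {b} from hfib x hx g)
    set R : G → ℂ := fun g => U b ((g⁻¹ * f * g) • x₂) / U b ((g⁻¹ * f * g) • x₁) with hR
    have hRc : Continuous R := (hcont x₂ h2).div₀ (hcont x₁ h1) (hne x₁ h1)
    have hRv : ∀ g : G, (Rot π U (g⁻¹ * f * g) b ∧ R g = 2) ∨
        (¬ Rot π U (g⁻¹ * f * g) b ∧ R g = 1 / 2) := by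
      intro g
      rcases rot_or hU (hv g) b with ⟨ha, hb⟩ | ⟨ha, hb⟩
      · left
        refine ⟨ha, ?_⟩
        have := hb x₁ x₂ h1 h2 h3 h4
        simp only [hR]
        rw [this, mul_comm, mul_div_assoc, div_self (hne x₁ h1 g), mul_one]
      · right
        refine ⟨ha, ?_⟩
        have := hb x₁ x₂ h1 h2 h3 h4
        simp only [hR]
        rw [← this, div_mul_eq_div_div, div_self (hne x₂ h2 g)]
    have hev : ∀ᶠ g in 𝓝 (1 : G), dist (R g) (R 1) < 1 :=
      hRc.continuousAt.eventually (Metric.ball_mem_nhds _ one_pos)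
    have hev2 : ∀ᶠ g in 𝓝 (1 : G), (Rot π U f (g • b) ↔ Rot π U f b) := by
      filter_upwards [hev] with g hg
      have e1 : Rot π U f (g • b) ↔ Rot π U (g⁻¹ * f * g) b := by
        have := rot_conj hF.equi hU (hv g) g b
        have e : g * (g⁻¹ * f * g) * g⁻¹ = f := by group
        rwa [e] at this
      have e2 : Rot π U f b ↔ Rot π U ((1 : G)⁻¹ * f * 1) b := by simp
      rw [e1, e2]
      have hd : dist (2 : ℂ) (1 / 2) = 3 / 2 := by
        rw [Complex.dist_eq]
        have : (2 : ℂ) - 1 / 2 = ((3 / 2 : ℝ) : ℂ) := by push_cast; norm_num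
        rw [this, Complex.norm_real]
        norm_num
      rcases hRv g with ⟨ha, hb⟩ | ⟨ha, hb⟩ <;> rcases hRv 1 with ⟨ha', hb'⟩ | ⟨ha', hb'⟩
      · exact ⟨fun _ => ha', fun _ => ha⟩
      · rw [hb, hb', hd] at hg
        norm_num at hg
      · rw [hb, hb', dist_comm, hd] at hg
        norm_num at hg
      · exact ⟨fun h => absurd h ha, fun h => absurd h ha'⟩
    have := (hF.hopY b).image_mem_nhds hev2
    rw [one_smul] at this
    filter_upwards [this]
    rintro z ⟨g, hg, rfl⟩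
    exact hg
  have hclopen : IsClopen {z : Y | Rot π U f z} := by
    refine ⟨?_, ?_⟩
    · rw [← isOpen_compl_iff, isOpen_iff_mem_nhds]
      intro b hb
      filter_upwards [key b] with z hz
      exact fun hz' => hb (hz.1 hz')
    · rw [isOpen_iff_mem_nhds]
      intro b hb
      filter_upwards [key b] with z hz
      exact hz.2 hb
  have := hclopen.eq_univ ⟨y, h⟩
  have h' : y' ∈ {z : Y | Rot π U f z} := by rw [this]; trivial
  exact h'

end Pool.Agent.ISY
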