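import Pool.Agent.ISY.Cs1

/-!
# ISY-Cs2: fibres `ℂ*`: the good subgroup

Uses `rot_or`, `rot_conj`, `rot_all` (ISY-Cs1, take them as given).

Plan. `A := {f | Vert Y f ∧ ∀ y, Rot π U f y}`, a subgroup (products and inverses of rotations are rotations:
for the inverse, apply the formula at `f⁻¹ • x`). `normal`: conjugates of vertical elements are vertical and
`rot_conj` (every `y` is `g • (g⁻¹ • y)`). `comm`: on every fibre rotations commute and `U y` is injective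
(`hU.bij`), so `(a * a') • x = (a' * a) • x` for all `x`; `hF.faithful` applied to `(a' * a)⁻¹ * (a * a')`.
`vert`: clear. `ker`: if `f` is the identity on the fibre over `b` then `Rot π U f b` (`c = 1`), so everywhere
(`rot_all`). `nhd`: fix `b` and `x₁, x₂` over `b` with coordinates `1, 2`. The set of `f` for which
`f • x₁, f • x₂` ... : by `hU.emb b` there is a neighbourhood `W` of `1` in `G` such that for `f ∈ W` vertical
(then `f • x_j` lies over `b`) `‖U b (f • x₁) - 1‖ < 1/10` and `‖U b (f • x₂) - 2‖ < 1/10` (the map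
`f ↦ f • x_j` is continuous; pull back the neighbourhood of `x_j` in `X` that `hU.emb b` gives:
`IsEmbedding.isInducing.nhds_eq_comap`). Then `U b (f • x₂) * 2 = U b (f • x₁)` is impossible, so `Rot π U f b` by
`rot_or`, and `f ∈ A` by `rot_all`.
-/

set_option autoImplicit false

open Set Topology Filter

namespace Pool.Agent.ISY

private theorem cs2Vmul {G Y : Type} [Group G] [MulAction G Y] {f g : G} (hf : Vert Y f) (hg : Vert Y g) :
    Vert Y (f * g) := fun y => by rw [mul_smul, hg y, hf y]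

private theorem cs2Vinv {G Y : Type} [Group G] [MulAction G Y] {f : G} (hf : Vert Y f) : Vert Y f⁻¹ := fun y => by
  rw [inv_smul_eq_iff, hf y]

private theorem cs2Vone {G Y : Type} [Group G] [MulAction G Y] : Vert Y (1 : G) := fun y => one_smul G y

private theorem cs2Vconj {G Y : Type} [Group G] [MulAction G Y] {f : G} (hf : Vert Y f) (g : G) :
    Vert Y (g * f * g⁻¹) := fun y => by
  rw [mul_smul, mul_smul, hf (g⁻¹ • y), smul_inv_smul]

private theorem cs2pi {G X Y : Type} [Group G] [MulAction G X] [MulAction G Y] {π : X → Y}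
    (hequi : ∀ (g : G) (x : X), π (g • x) = g • π x) {f : G} (hf : Vert Y f) {x : X} {y : Y} (hx : π x = y) :
    π (f • x) = y := by
  rw [hequi, hx, hf y]

private theorem cs2Rmul {G X Y : Type} [Group G] [MulAction G X] [MulAction G Y] {π : X → Y}
    (hequi : ∀ (g : G) (x : X), π (g • x) = g • π x) {U : Y → X → ℂ} {f g : G} (hg : Vert Y g) {y : Y}
    (h1 : Rot π U f y) (h2 : Rot π U g y) : Rot π U (f * g) y := by
  obtain ⟨c, hc, h1⟩ := h1
  obtain ⟨d, hd, h2⟩ := h2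
  refine ⟨c * d, mul_ne_zero hc hd, fun x hx => ?_⟩
  rw [mul_smul, h1 (g • x) (cs2pi hequi hg hx), h2 x hx, mul_assoc]

private theorem cs2Rinv {G X Y : Type} [Group G] [MulAction G X] [MulAction G Y] {π : X → Y}
    (hequi : ∀ (g : G) (x : X), π (g • x) = g • π x) {U : Y → X → ℂ} {f : G} (hf : Vert Y f) {y : Y}
    (h1 : Rot π U f y) : Rot π U f⁻¹ y := by
  obtain ⟨c, hc, h1⟩ := h1
  refine ⟨c⁻¹, inv_ne_zero hc, fun x hx => ?_⟩
  have h2 := h1 (f⁻¹ • x) (cs2pi hequi (cs2Vinv hf) hx)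
  rw [smul_inv_smul] at h2
  rw [h2, inv_mul_cancel_left₀ hc]

private theorem cs2Rone {G X Y : Type} [Group G] [MulAction G X] {π : X → Y} {U : Y → X → ℂ} (y : Y) :
    Rot π U (1 : G) y := ⟨1, one_ne_zero, fun x _ => by rw [one_smul, one_mul]⟩

/-- a neighbourhood of a point of the fibre -/
private theorem cs2nhd {G X Y : Type} [Group G] [TopologicalSpace X] [MulAction G X] [MulAction G Y]
    {π : X → Y} {U : Y → X → ℂ} (hU : FibCs G π U) (b : Y) {x : X} (hx : π x = b) {c : ℂ} (hc : U b x = c) :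
    ∃ O : Set X, IsOpen O ∧ x ∈ O ∧ ∀ z ∈ O, π z = b → ‖U b z - c‖ < 1 / 10 := by
  have h1 : IsOpen ((fun z : (π ⁻¹' {b} : Set X) => U b z) ⁻¹' Metric.ball c (1 / 10)) :=
    Metric.isOpen_ball.preimage (hU.emb b).continuous
  obtain ⟨O, hO, h2⟩ := isOpen_induced_iff.1 h1
  have h3 : ∀ z (hz : π z = b), z ∈ O ↔ U b z ∈ Metric.ball c (1 / 10) := by
    intro z hz
    have h4 : ((⟨z, hz⟩ : (π ⁻¹' {b} : Set X)) ∈ Subtype.val ⁻¹' O) ↔
        ((⟨z, hz⟩ : (π ⁻¹' {b} : Set X)) ∈ (fun z : (π ⁻¹' {b} : Set X) => U b z) ⁻¹' Metric.ball c (1 / 10)) := by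
      rw [h2]
    exact h4
  refine ⟨O, hO, ?_, ?_⟩
  · rw [h3 x hx, hc]
    exact Metric.mem_ball_self (by norm_num)
  · intro z hz hz2
    have h4 := (h3 z hz2).1 hz
    rw [Metric.mem_ball, dist_eq_norm] at h4
    exact h4

private theorem cs2num {p q : ℂ} (hp : ‖p - 2‖ < 1 / 10) (hq : ‖q - 1‖ < 1 / 10) : p * 2 ≠ q := by
  intro h
  have h1 : (3 : ℂ) = -(2 * (p - 2)) + (q - 1) := by
    rw [← h]
    ring
  have h2 : ‖(3 : ℂ)‖ ≤ ‖-(2 * (p - 2))‖ + ‖q - 1‖ := by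
    rw [h1]
    exact norm_add_le _ _
  rw [norm_neg, norm_mul] at h2
  have h3 : ‖(3 : ℂ)‖ = 3 := by norm_num
  have h4 : ‖(2 : ℂ)‖ = 2 := by norm_num
  rw [h3, h4] at h2
  linarith

theorem exists_goodA_Cs {G X Y : Type} [Group G] [TopologicalSpace G] [IsTopologicalGroup G]
    [TopologicalSpace X] [TopologicalSpace Y] [PreconnectedSpace Y] [Nonempty Y] [MulAction G X]
    [MulAction G Y] [ContinuousSMul G X] {π : X → Y} (hF : Fibr G π) {U : Y → X → ℂ}
    (hU : FibCs G π U) : ∃ A : Subgroup G, GoodA π A := by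
  let A : Subgroup G :=
    { carrier := {f | Vert Y f ∧ ∀ y, Rot π U f y}
      mul_mem' := fun {f g} hf hg => ⟨cs2Vmul hf.1 hg.1, fun y => cs2Rmul hF.equi hg.1 (hf.2 y) (hg.2 y)⟩
      one_mem' := ⟨cs2Vone, fun y => cs2Rone y⟩
      inv_mem' := fun {f} hf => ⟨cs2Vinv hf.1, fun y => cs2Rinv hF.equi hf.1 (hf.2 y)⟩ }
  have hA : ∀ f, f ∈ A ↔ (Vert Y f ∧ ∀ y, Rot π U f y) := fun f => Iff.rfl
  refine ⟨A, ?_, ?_, ?_, ?_, ?_⟩
  · intro g a ha
    rw [hA] at ha ⊢
    refine ⟨cs2Vconj ha.1 g, fun y => ?_⟩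
    have h1 := (rot_conj hF.equi hU ha.1 g (g⁻¹ • y)).2 (ha.2 (g⁻¹ • y))
    rw [smul_inv_smul] at h1
    exact h1
  · intro a ha a' ha'
    rw [hA] at ha ha'
    have h1 : ∀ x : X, (a * a') • x = (a' * a) • x := by
      intro x
      obtain ⟨c, _, hc⟩ := ha.2 (π x)
      obtain ⟨d, _, hd⟩ := ha'.2 (π x)
      have e1 : π ((a * a') • x) = π x := cs2pi hF.equi (cs2Vmul ha.1 ha'.1) rfl
      have e2 : π ((a' * a) • x) = π x := cs2pi hF.equi (cs2Vmul ha'.1 ha.1) rfl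
      refine (hU.bij (π x)).injOn e1 e2 ?_
      rw [mul_smul, mul_smul, hc (a' • x) (cs2pi hF.equi ha'.1 rfl), hd (a • x) (cs2pi hF.equi ha.1 rfl),
        hc x rfl, hd x rfl]
      ring
    have h2 : (a' * a)⁻¹ * (a * a') = 1 := by
      apply hF.faithful
      intro x
      rw [mul_smul, h1 x, inv_smul_smul]
    exact (inv_mul_eq_one.1 h2).symm
  · intro a ha
    exact ((hA a).1 ha).1
  · obtain ⟨b⟩ := (inferInstance : Nonempty Y)
    obtain ⟨x₁, hx₁, hu₁⟩ := (hU.bij b).surjOn (show (1 : ℂ) ∈ ({0}ᶜ : Set ℂ) from one_ne_zero)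
    obtain ⟨x₂, hx₂, hu₂⟩ := (hU.bij b).surjOn (show (2 : ℂ) ∈ ({0}ᶜ : Set ℂ) from two_ne_zero)
    obtain ⟨O₁, ho₁, hm₁, hn₁⟩ := cs2nhd hU b hx₁ hu₁
    obtain ⟨O₂, ho₂, hm₂, hn₂⟩ := cs2nhd hU b hx₂ hu₂
    have c₁ : Continuous fun g : G => g • x₁ := continuous_id.smul continuous_const
    have c₂ : Continuous fun g : G => g • x₂ := continuous_id.smul continuous_const
    have w₁ : (fun g : G => g • x₁) ⁻¹' O₁ ∈ 𝓝 (1 : G) :=
      (ho₁.preimage c₁).mem_nhds (by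
        show (1 : G) • x₁ ∈ O₁
        rw [one_smul]
        exact hm₁)
    have w₂ : (fun g : G => g • x₂) ⁻¹' O₂ ∈ 𝓝 (1 : G) :=
      (ho₂.preimage c₂).mem_nhds (by
        show (1 : G) • x₂ ∈ O₂
        rw [one_smul]
        exact hm₂)
    refine ⟨_, Filter.inter_mem w₁ w₂, fun f hf hv => ?_⟩
    have q₁ := hn₁ (f • x₁) hf.1 (cs2pi hF.equi hv hx₁)
    have q₂ := hn₂ (f • x₂) hf.2 (cs2pi hF.equi hv hx₂)
    have hr : Rot π U f b := by
      rcases rot_or hU hv b with h1 | h1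
      · exact h1.1
      · exact absurd (h1.2 x₁ x₂ hx₁ hx₂ hu₁ hu₂) (cs2num q₂ q₁)
    exact (hA f).2 ⟨hv, fun y => rot_all hF hU hv hr⟩
  · intro f b hv hid
    have hr : Rot π U f b := ⟨1, one_ne_zero, fun x hx => by rw [hid x hx, one_mul]⟩
    exact (hA f).2 ⟨hv, fun y => rot_all hF hU hv hr⟩

end Pool.Agent.ISY
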