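import Mathlib

/-!
# ISY-DD2: infinitesimal automorphisms of the disc

Mathlib only, self-contained.

* `vander`: three distinct points `ζ j`: the linear map `(a, b, c) ↦ (a + b ζ j + c ζ j²)_j` is invertible; as a limit
  statement with moving points: if `z j i → z0 j` (distinct limits) and `a i + b i * z j i + c i * (z j i)² → C j` for `j = 0, 1, 2`
  then `a i`, `b i`, `c i` converge (Lagrange interpolation: divided differences; first `c`, then `b`, then `a`; the
  differences `z j i - z k i` tend to nonzero limits).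
* `mobius_limit`: Let `P i z := q i + (p i - conj (p i)) * z - conj (q i) * z²` and `D i z := conj (q i) * z + conj (p i)`. Then
  `(p z + q) / D z - z = P z / D z` when `D z ≠ 0` (true for `‖z‖ < 1` as `‖q‖ < ‖p‖`). `‖p i‖ ≥ 1`. As
  `(γ (z j) - z j) / ε → C j` and `ε → 0`, `γ (z j) - z j → 0`; `‖D / ‖p‖‖ ≤ 2`, so `P i (z j i) / ‖p i‖ → 0` for
  `j = 0, 1, 2`; by `vander`, `q i / ‖p i‖ → 0` and `(p i - conj (p i)) / ‖p i‖ → 0`. From `1 = ‖p‖² - ‖q‖²` get
  `1 / ‖p i‖² = 1 - ‖q i / ‖p i‖‖² → 1`, so `‖p i‖ → 1`, `q i → 0`, `Im (p i) → 0`, `|Re (p i)| → 1`. Let `s i := ±1` be the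
  sign of `Re (p i)`; then `s i * p i → 1`, `s i * D i (z j i) → 1`, and `s i * P i (z j i) / ε i → C j`. By `vander`,
  `s i * q i / ε i → β`, `s i * (p i - conj (p i)) / ε i → a`, `- s i * conj (q i) / ε i → c`; `s i`, `ε i` are real so
  `c = - conj β` and `a = I * α` with `α` real (`p - conj p = 2 i Im p`). The limits of the identities give the claim.
* `lie_zero`: `I * (β + I α ζ - conj β ζ²) = β' + I α' ζ - conj β' ζ²` at three distinct points, so the coefficients
  agree: `β' = I β`, `I α' = - α` so `α = α' = 0`, `- conj β' = - I conj β`; so `conj (I β) = I conj β`, `- I conj β = I conj β`, `β = 0`.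
-/

set_option autoImplicit false

open Set Topology Filter
open scoped ComplexConjugate

namespace Pool.Agent.ISY

private theorem vander {ι : Type} {L : Filter ι} [L.NeBot] {z : Fin 3 → ι → ℂ} {z0 : Fin 3 → ℂ}
    (hz : ∀ j, Tendsto (z j) L (𝓝 (z0 j))) (hinj : Function.Injective z0) {a b c : ι → ℂ}
    {C : Fin 3 → ℂ}
    (hC : ∀ j, Tendsto (fun i => a i + b i * z j i + c i * z j i ^ 2) L (𝓝 (C j))) :
    ∃ a' b' c' : ℂ, Tendsto a L (𝓝 a') ∧ Tendsto b L (𝓝 b') ∧ Tendsto c L (𝓝 c') ∧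
      ∀ j, C j = a' + b' * z0 j + c' * z0 j ^ 2 := by
  have h01 : z0 0 - z0 1 ≠ 0 := sub_ne_zero.2 (fun h => absurd (hinj h) (by decide))
  have h02 : z0 0 - z0 2 ≠ 0 := sub_ne_zero.2 (fun h => absurd (hinj h) (by decide))
  have h12 : z0 1 - z0 2 ≠ 0 := sub_ne_zero.2 (fun h => absurd (hinj h) (by decide))
  have e01 := ((hz 0).sub (hz 1)).eventually_ne h01
  have e02 := ((hz 0).sub (hz 2)).eventually_ne h02
  have e12 := ((hz 1).sub (hz 2)).eventually_ne h12
  have t01 := ((hC 0).sub (hC 1)).div ((hz 0).sub (hz 1)) h01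
  have t02 := ((hC 0).sub (hC 2)).div ((hz 0).sub (hz 2)) h02
  have tc : Tendsto c L (𝓝 (((C 0 - C 1) / (z0 0 - z0 1) - (C 0 - C 2) / (z0 0 - z0 2)) /
      (z0 1 - z0 2))) := by
    refine ((t01.sub t02).div ((hz 1).sub (hz 2)) h12).congr' ?_
    filter_upwards [e01, e02, e12] with i h1 h2 h3
    have k1 : (a i + b i * z 0 i + c i * z 0 i ^ 2 - (a i + b i * z 1 i + c i * z 1 i ^ 2)) /
        (z 0 i - z 1 i) = b i + c i * (z 0 i + z 1 i) := by
      rw [div_eq_iff h1]
      ring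
    have k2 : (a i + b i * z 0 i + c i * z 0 i ^ 2 - (a i + b i * z 2 i + c i * z 2 i ^ 2)) /
        (z 0 i - z 2 i) = b i + c i * (z 0 i + z 2 i) := by
      rw [div_eq_iff h2]
      ring
    simp only [Pi.div_apply]
    rw [k1, k2, div_eq_iff h3]
    ring
  obtain ⟨c', hc'⟩ : ∃ c', Tendsto c L (𝓝 c') := ⟨_, tc⟩
  have tb : Tendsto b L (𝓝 ((C 0 - C 1) / (z0 0 - z0 1) - c' * (z0 0 + z0 1))) := by
    refine (t01.sub (hc'.mul ((hz 0).add (hz 1)))).congr' ?_
    filter_upwards [e01] with i h1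
    have k1 : (a i + b i * z 0 i + c i * z 0 i ^ 2 - (a i + b i * z 1 i + c i * z 1 i ^ 2)) /
        (z 0 i - z 1 i) = b i + c i * (z 0 i + z 1 i) := by
      rw [div_eq_iff h1]
      ring
    simp only [Pi.div_apply]
    rw [k1]
    ring
  obtain ⟨b', hb'⟩ : ∃ b', Tendsto b L (𝓝 b') := ⟨_, tb⟩
  have ta : Tendsto a L (𝓝 (C 0 - b' * z0 0 - c' * z0 0 ^ 2)) := by
    refine (((hC 0).sub (hb'.mul (hz 0))).sub (hc'.mul ((hz 0).pow 2))).congr ?_
    intro i
    ring
  obtain ⟨a', ha'⟩ : ∃ a', Tendsto a L (𝓝 a') := ⟨_, ta⟩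
  refine ⟨a', b', c', ha', hb', hc', fun j => ?_⟩
  exact tendsto_nhds_unique (hC j) ((ha'.add (hb'.mul (hz j))).add (hc'.mul ((hz j).pow 2)))

private theorem vander0 {z0 : Fin 3 → ℂ} (hinj : Function.Injective z0) {a b c : ℂ}
    (h : ∀ j, a + b * z0 j + c * z0 j ^ 2 = 0) : a = 0 ∧ b = 0 ∧ c = 0 := by
  have h01 : z0 0 - z0 1 ≠ 0 := sub_ne_zero.2 (fun h => absurd (hinj h) (by decide))
  have h02 : z0 0 - z0 2 ≠ 0 := sub_ne_zero.2 (fun h => absurd (hinj h) (by decide))
  have h12 : z0 1 - z0 2 ≠ 0 := sub_ne_zero.2 (fun h => absurd (hinj h) (by decide))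
  have k1 : (b + c * (z0 0 + z0 1)) = 0 := by
    have : (z0 0 - z0 1) * (b + c * (z0 0 + z0 1)) = 0 := by
      linear_combination h 0 - h 1
    exact (mul_eq_zero.1 this).resolve_left h01
  have k2 : (b + c * (z0 0 + z0 2)) = 0 := by
    have : (z0 0 - z0 2) * (b + c * (z0 0 + z0 2)) = 0 := by
      linear_combination h 0 - h 2
    exact (mul_eq_zero.1 this).resolve_left h02
  have k3 : c = 0 := by
    have : (z0 1 - z0 2) * c = 0 := by linear_combination k1 - k2
    exact (mul_eq_zero.1 this).resolve_left h12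
  have k4 : b = 0 := by
    rw [k3] at k1
    linear_combination k1
  refine ⟨?_, k4, k3⟩
  have := h 0
  rw [k3, k4] at this
  linear_combination this

theorem mobius_limit {ι : Type} {L : Filter ι} [L.NeBot] {p q : ι → ℂ}
    (hpq : ∀ᶠ i in L, ‖p i‖ ^ 2 - ‖q i‖ ^ 2 = 1) {z : Fin 3 → ι → ℂ} {z0 : Fin 3 → ℂ}
    (hz : ∀ j, Tendsto (z j) L (𝓝 (z0 j))) (hz1 : ∀ j, ‖z0 j‖ < 1)
    (hinj : Function.Injective z0) {ε : ι → ℝ} (hε : ∀ᶠ i in L, 0 < ε i)
    (hε0 : Tendsto ε L (𝓝 0)) {C : Fin 3 → ℂ}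
    (hC : ∀ j, Tendsto (fun i => ((p i * z j i + q i) / (conj (q i) * z j i + conj (p i)) - z j i) /
      (ε i : ℂ)) L (𝓝 (C j))) :
    ∃ (β : ℂ) (α : ℝ), ∀ j, C j = β + Complex.I * (α : ℂ) * z0 j - conj β * z0 j ^ 2 := by
  have hzlt : ∀ j, ∀ᶠ i in L, ‖z j i‖ < 1 := fun j =>
    (hz j).norm.eventually_lt_const (hz1 j)
  have hN : ∀ᶠ i in L, 1 ≤ ‖p i‖ ∧ ‖q i‖ < ‖p i‖ := by
    filter_upwards [hpq] with i hi
    have h1 := norm_nonneg (p i)
    have h2 := norm_nonneg (q i)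
    constructor <;> nlinarith
  have hD : ∀ j, ∀ᶠ i in L, conj (q i) * z j i + conj (p i) ≠ 0 ∧
      ‖conj (q i) * z j i + conj (p i)‖ ≤ 2 * ‖p i‖ := by
    intro j
    filter_upwards [hzlt j, hN] with i h1 h2
    have h3 : ‖conj (q i) * z j i‖ ≤ ‖q i‖ := by
      rw [norm_mul, RCLike.norm_conj]
      nlinarith [norm_nonneg (q i)]
    refine ⟨fun h0 => ?_, ?_⟩
    · have h4 : conj (p i) = -(conj (q i) * z j i) := by linear_combination h0
      have h5 : ‖p i‖ = ‖conj (q i) * z j i‖ := by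
        rw [← RCLike.norm_conj (p i), h4, norm_neg]
      linarith [h2.2]
    · calc ‖conj (q i) * z j i + conj (p i)‖ ≤ ‖conj (q i) * z j i‖ + ‖conj (p i)‖ :=
            norm_add_le _ _
        _ ≤ 2 * ‖p i‖ := by
            rw [RCLike.norm_conj]
            linarith [h2.2]
  have hεc : Tendsto (fun i => (ε i : ℂ)) L (𝓝 0) := by
    have h1 : Tendsto (fun i => (ε i : ℂ)) L (𝓝 ((0 : ℝ) : ℂ)) :=
      (Complex.continuous_ofReal.tendsto 0).comp hε0
    rwa [Complex.ofReal_zero] at h1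
  -- the numerators
  have hnum : ∀ j, ∀ᶠ i in L, (p i * z j i + q i) / (conj (q i) * z j i + conj (p i)) - z j i =
      (q i + (p i - conj (p i)) * z j i + (-conj (q i)) * z j i ^ 2) /
        (conj (q i) * z j i + conj (p i)) := by
    intro j
    filter_upwards [hD j] with i hi
    rw [eq_div_iff hi.1, sub_mul, div_mul_cancel₀ _ hi.1]
    ring
  have hquot : ∀ j, Tendsto (fun i =>
      (q i + (p i - conj (p i)) * z j i + (-conj (q i)) * z j i ^ 2) /
        (conj (q i) * z j i + conj (p i))) L (𝓝 0) := by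
    intro j
    have h1 := (hC j).mul hεc
    rw [mul_zero] at h1
    refine h1.congr' ?_
    filter_upwards [hnum j, hε] with i h2 h3
    have h4 : (ε i : ℂ) ≠ 0 := by exact_mod_cast h3.ne'
    rw [← h2, div_mul_cancel₀ _ h4]
  have hPN : ∀ j, Tendsto (fun i => q i / (‖p i‖ : ℂ) + (p i - conj (p i)) / (‖p i‖ : ℂ) * z j i +
      (-conj (q i)) / (‖p i‖ : ℂ) * z j i ^ 2) L (𝓝 ((fun _ => (0 : ℂ)) j)) := by
    intro j
    have h1 : Tendsto (fun i => 2 * ‖(q i + (p i - conj (p i)) * z j i +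
        (-conj (q i)) * z j i ^ 2) / (conj (q i) * z j i + conj (p i))‖) L (𝓝 0) := by
      have := (hquot j).norm.const_mul 2
      simpa using this
    refine squeeze_zero_norm' ?_ h1
    filter_upwards [hD j, hN] with i h2 h3
    have hp0 : (0 : ℝ) < ‖p i‖ := lt_of_lt_of_le one_pos h3.1
    have h4 : q i / (‖p i‖ : ℂ) + (p i - conj (p i)) / (‖p i‖ : ℂ) * z j i +
      (-conj (q i)) / (‖p i‖ : ℂ) * z j i ^ 2 = ((q i + (p i - conj (p i)) * z j i +
        (-conj (q i)) * z j i ^ 2) / (conj (q i) * z j i + conj (p i))) *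
        ((conj (q i) * z j i + conj (p i)) / (‖p i‖ : ℂ)) := by
      have h5 : ((‖p i‖ : ℝ) : ℂ) ≠ 0 := by exact_mod_cast hp0.ne'
      rw [div_mul_div_cancel₀ h2.1]
      ring
    rw [h4, norm_mul, mul_comm]
    refine mul_le_mul_of_nonneg_right ?_ (norm_nonneg _)
    rw [norm_div, Complex.norm_real, norm_norm, div_le_iff₀ hp0]
    exact h2.2
  obtain ⟨a1, b1, c1, ha1, hb1, hc1, heq1⟩ := vander hz hinj hPN
  obtain ⟨rfl, rfl, rfl⟩ := vander0 hinj (fun j => (heq1 j).symm)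
  -- `‖p‖ → 1`
  have hq2 : Tendsto (fun i => 1 - ‖q i / (‖p i‖ : ℂ)‖ ^ 2) L (𝓝 1) := by
    have := (ha1.norm.pow 2).const_sub 1
    simpa using this
  have hN2 : Tendsto (fun i => ‖p i‖ ^ 2) L (𝓝 1) := by
    have h1 := hq2.inv₀ one_ne_zero
    rw [inv_one] at h1
    refine h1.congr' ?_
    filter_upwards [hpq, hN] with i h2 h3
    have hp0 : (0 : ℝ) < ‖p i‖ := lt_of_lt_of_le one_pos h3.1
    rw [norm_div, Complex.norm_real, norm_norm, div_pow, inv_eq_iff_eq_inv]
    field_simp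
    linarith
  have hN1 : Tendsto (fun i => ‖p i‖) L (𝓝 1) := by
    have h1 := (Real.continuous_sqrt.tendsto 1).comp hN2
    rw [Real.sqrt_one] at h1
    refine h1.congr fun i => ?_
    exact Real.sqrt_sq (norm_nonneg _)
  have hN1c : Tendsto (fun i => ((‖p i‖ : ℝ) : ℂ)) L (𝓝 1) := by
    have h1 : Tendsto (fun i => ((‖p i‖ : ℝ) : ℂ)) L (𝓝 ((1 : ℝ) : ℂ)) :=
      (Complex.continuous_ofReal.tendsto 1).comp hN1
    rwa [Complex.ofReal_one] at h1
  have hq : Tendsto q L (𝓝 0) := by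
    have h1 := ha1.mul hN1c
    rw [zero_mul] at h1
    refine h1.congr' ?_
    filter_upwards [hN] with i h3
    have hp0 : ((‖p i‖ : ℝ) : ℂ) ≠ 0 := by
      exact_mod_cast (lt_of_lt_of_le one_pos h3.1).ne'
    rw [div_mul_cancel₀ _ hp0]
  have hpp : Tendsto (fun i => p i - conj (p i)) L (𝓝 0) := by
    have h1 := hb1.mul hN1c
    rw [zero_mul] at h1
    refine h1.congr' ?_
    filter_upwards [hN] with i h3
    have hp0 : ((‖p i‖ : ℝ) : ℂ) ≠ 0 := by
      exact_mod_cast (lt_of_lt_of_le one_pos h3.1).ne'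
    rw [div_mul_cancel₀ _ hp0]
  have him : Tendsto (fun i => (p i).im) L (𝓝 0) := by
    have h1 := (Complex.continuous_im.tendsto 0).comp hpp
    have h2 := h1.div_const 2
    simp only [Complex.zero_im, zero_div] at h2
    refine h2.congr fun i => ?_
    simp only [Function.comp_apply, Complex.sub_im, Complex.conj_im]
    ring
  have hre2 : Tendsto (fun i => (p i).re ^ 2) L (𝓝 1) := by
    have h1 := hN2.sub (him.pow 2)
    have h2 : (1 : ℝ) - 0 ^ 2 = 1 := by norm_num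
    rw [h2] at h1
    refine h1.congr fun i => ?_
    rw [Complex.sq_norm, Complex.normSq_apply]
    ring
  have hre : Tendsto (fun i => |(p i).re|) L (𝓝 1) := by
    have h1 := (Real.continuous_sqrt.tendsto 1).comp hre2
    rw [Real.sqrt_one] at h1
    refine h1.congr fun i => ?_
    exact Real.sqrt_sq_eq_abs _
  obtain ⟨s, hs⟩ : ∃ s : ι → ℝ, ∀ i, (s i = 1 ∨ s i = -1) ∧ s i * (p i).re = |(p i).re| := by
    refine ⟨fun i => if 0 ≤ (p i).re then 1 else -1, fun i => ?_⟩
    dsimp only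
    split_ifs with h
    · exact ⟨Or.inl rfl, by rw [one_mul, abs_of_nonneg h]⟩
    · exact ⟨Or.inr rfl, by rw [abs_of_neg (not_le.1 h)]; ring⟩
  have hsn : ∀ i, ‖((s i : ℝ) : ℂ)‖ = 1 := by
    intro i
    rcases (hs i).1 with h | h <;> rw [h] <;> simp
  have hsim : Tendsto (fun i => s i * (p i).im) L (𝓝 0) := by
    refine squeeze_zero_norm (fun i => ?_) (by simpa using him.norm)
    rw [norm_mul]
    rcases (hs i).1 with h | h <;> rw [h] <;> simp
  have hsp : Tendsto (fun i => ((s i : ℝ) : ℂ) * conj (p i)) L (𝓝 1) := by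
    have h1 : Tendsto (fun i => (((|(p i).re| : ℝ) : ℂ)) - ((s i * (p i).im : ℝ) : ℂ) * Complex.I)
        L (𝓝 (((1 : ℝ) : ℂ) - ((0 : ℝ) : ℂ) * Complex.I)) :=
      ((Complex.continuous_ofReal.tendsto 1).comp hre).sub
        (((Complex.continuous_ofReal.tendsto 0).comp hsim).mul_const _)
    have h2 : (((1 : ℝ) : ℂ) - ((0 : ℝ) : ℂ) * Complex.I) = 1 := by simp
    rw [h2] at h1
    refine h1.congr fun i => ?_
    rw [← (hs i).2]
    apply Complex.ext <;> simp
  have hsq : Tendsto (fun i => ((s i : ℝ) : ℂ) * conj (q i)) L (𝓝 0) := by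
    refine squeeze_zero_norm (fun i => ?_) (by simpa using hq.norm)
    rw [norm_mul, hsn, one_mul, RCLike.norm_conj]
  have hsD : ∀ j, Tendsto (fun i => ((s i : ℝ) : ℂ) * (conj (q i) * z j i + conj (p i))) L
      (𝓝 1) := by
    intro j
    have h1 := (hsq.mul (hz j)).add hsp
    rw [zero_mul, zero_add] at h1
    refine h1.congr fun i => ?_
    ring
  have hfinal : ∀ j, Tendsto (fun i => ((s i : ℝ) : ℂ) * q i / (ε i : ℂ) +
      ((s i : ℝ) : ℂ) * (p i - conj (p i)) / (ε i : ℂ) * z j i +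
      (-(((s i : ℝ) : ℂ) * conj (q i) / (ε i : ℂ))) * z j i ^ 2) L (𝓝 (C j)) := by
    intro j
    have h1 := (hC j).mul (hsD j)
    rw [mul_one] at h1
    refine h1.congr' ?_
    filter_upwards [hnum j, hD j, hε] with i h2 h3 h4
    have h5 : (ε i : ℂ) ≠ 0 := by exact_mod_cast h4.ne'
    rw [h2]
    have h6 : ∀ x d e t : ℂ, d ≠ 0 → x / d / e * (t * d) = t * x / e := by
      intro x d e t hd
      field_simp
    rw [h6 _ _ _ _ h3.1]
    ring
  obtain ⟨β, a, c, hβ, ha, hc, heq⟩ := vander hz hinj hfinal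
  have hc' : c = -conj β := by
    refine tendsto_nhds_unique hc ?_
    have h1 := ((Complex.continuous_conj.tendsto β).comp hβ).neg
    refine h1.congr fun i => ?_
    simp [map_div₀, map_mul, Complex.conj_ofReal]
  have ha' : a.re = 0 := by
    refine tendsto_nhds_unique ((Complex.continuous_re.tendsto a).comp ha) ?_
    refine tendsto_const_nhds.congr fun i => ?_
    simp only [Function.comp_apply]
    rw [mul_div_right_comm, ← Complex.ofReal_div, Complex.re_ofReal_mul, Complex.sub_re,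
      Complex.conj_re, sub_self, mul_zero]
  refine ⟨β, a.im, fun j => ?_⟩
  rw [heq j, hc']
  have h1 : a = Complex.I * (a.im : ℂ) := by
    apply Complex.ext <;> simp [ha']
  rw [← h1]
  ring

theorem lie_zero {z0 C : Fin 3 → ℂ} (hinj : Function.Injective z0)
    (h1 : ∃ (β : ℂ) (α : ℝ), ∀ j, C j = β + Complex.I * (α : ℂ) * z0 j - conj β * z0 j ^ 2)
    (h2 : ∃ (β : ℂ) (α : ℝ), ∀ j,
      Complex.I * C j = β + Complex.I * (α : ℂ) * z0 j - conj β * z0 j ^ 2) : ∀ j, C j = 0 := by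
  obtain ⟨β, α, h1⟩ := h1
  obtain ⟨β', α', h2⟩ := h2
  obtain ⟨k1, k2, k3⟩ := vander0 (a := Complex.I * β - β') (b := -(α : ℂ) - Complex.I * α')
    (c := -Complex.I * conj β + conj β') hinj (fun j => by
      have h3 := h2 j
      rw [h1 j] at h3
      linear_combination h3 - (α : ℂ) * z0 j * Complex.I_sq)
  have hα : α = 0 := by
    have := congrArg Complex.re k2
    simpa using this
  have hβ : β = 0 := by
    have h4 : β' = Complex.I * β := by linear_combination -k1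
    rw [h4, map_mul, Complex.conj_I] at k3
    have h5 : Complex.I * conj β = 0 := by linear_combination (-1 / 2 : ℂ) * k3
    rcases mul_eq_zero.1 h5 with h6 | h6
    · exact absurd h6 Complex.I_ne_zero
    · exact (map_eq_zero _).1 h6
  intro j
  rw [h1 j, hα, hβ]
  simp

end Pool.Agent.ISY
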