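import Mathlib

/-!
# ISY-DQ: difference quotients of uniformly convergent holomorphic functions

Mathlib only, self-contained. Plan: `dslope (v i) w - dslope V w = dslope (v i - V) w` is differentiable on
`ball w r` (`Complex.differentiableOn_dslope`) and on the sphere `‖ζ - w‖ = r / 2` it is bounded by
`2 * sup_(ball w r) ‖v i - V‖ / (r / 2)` (`dslope_of_ne`, `slope_def_field`). By the maximum modulus principle
(`Complex.norm_le_of_forall_mem_frontier_norm_le`) the same bound holds on `closedBall w (r / 2)`. So
`dslope (v i) w (w' i) - dslope V w (w' i) → 0`, and `dslope V w (w' i) → dslope V w w = deriv V w` (continuity of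
`dslope` at `w`: `continuousAt_dslope_same`).
-/

set_option autoImplicit false

open Set Topology Filter Metric

namespace Pool.Agent.ISY

theorem tendsto_dslope {ι : Type} {L : Filter ι} {v : ι → ℂ → ℂ} {V : ℂ → ℂ} {w : ℂ} {r : ℝ}
    (hr : 0 < r) (hv : ∀ᶠ i in L, DifferentiableOn ℂ (v i) (ball w r))
    (hV : DifferentiableOn ℂ V (ball w r)) (h : TendstoUniformlyOn v V L (ball w r))
    {w' : ι → ℂ} (hw' : Tendsto w' L (𝓝 w)) :
    Tendsto (fun i => dslope (v i) w (w' i)) L (𝓝 (deriv V w)) := by
  have hball : ball w r ∈ 𝓝 w := ball_mem_nhds w hr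
  have hVw : DifferentiableAt ℂ V w := hV.differentiableAt hball
  have h1 : Tendsto (fun i => dslope V w (w' i)) L (𝓝 (deriv V w)) := by
    have h2 : Tendsto (dslope V w) (𝓝 w) (𝓝 (dslope V w w)) := continuousAt_dslope_same.2 hVw
    rw [dslope_same] at h2
    exact h2.comp hw'
  have h3 : Tendsto (fun i => dslope (v i) w (w' i) - dslope V w (w' i)) L (𝓝 0) := by
    rw [Metric.tendsto_nhds]
    intro ε hε
    have hδ : 0 < ε * r / 8 := by positivity
    filter_upwards [hv, (Metric.tendstoUniformlyOn_iff.1 h) _ hδ,
      hw' (ball_mem_nhds w (half_pos hr))] with i hi hu hwi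
    rw [dist_zero_right]
    have hg : DifferentiableOn ℂ (fun z => v i z - V z) (ball w r) := hi.sub hV
    have hgd : DifferentiableOn ℂ (dslope (fun z => v i z - V z) w) (ball w r) :=
      (Complex.differentiableOn_dslope hball).2 hg
    have hsub : closedBall w (r / 2) ⊆ ball w r := closedBall_subset_ball (by linarith)
    have hcl := hgd.diffContOnCl_ball hsub
    have hb : ∀ z ∈ frontier (ball w (r / 2)), ‖dslope (fun z => v i z - V z) w z‖ ≤ ε / 2 := by
      intro z hz
      rw [frontier_ball w (half_pos hr).ne', mem_sphere_iff_norm] at hz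
      have hzw : z ≠ w := by
        rintro rfl
        rw [sub_self, norm_zero] at hz
        linarith
      rw [dslope_of_ne _ hzw, slope_def_field, norm_div, hz]
      rw [div_le_iff₀ (half_pos hr)]
      have h4 := hu z (hsub (by rw [mem_closedBall_iff_norm, hz]))
      have h5 := hu w (mem_ball_self hr)
      rw [dist_eq_norm, norm_sub_rev] at h4 h5
      calc ‖v i z - V z - (v i w - V w)‖ ≤ ‖v i z - V z‖ + ‖v i w - V w‖ := norm_sub_le _ _
        _ ≤ ε * r / 8 + ε * r / 8 := add_le_add h4.le h5.le
        _ = ε / 2 * (r / 2) := by ring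
    have hfin := Complex.norm_le_of_forall_mem_frontier_norm_le isBounded_ball hcl hb
      (subset_closure hwi)
    have heq : dslope (v i) w (w' i) - dslope V w (w' i) =
        dslope (fun z => v i z - V z) w (w' i) := by
      by_cases hw : w' i = w
      · rw [hw, dslope_same, dslope_same, dslope_same]
        exact (deriv_fun_sub (hi.differentiableAt hball) hVw).symm
      · rw [dslope_of_ne _ hw, dslope_of_ne _ hw, dslope_of_ne _ hw, slope_def_field,
          slope_def_field, slope_def_field]
        ring
    rw [heq]
    linarith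
  have h4 := h3.add h1
  simpa using h4

end Pool.Agent.ISY
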