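import Mathlib

/-!
# ISY-Defs: the automorphism group of a complex manifold

`AutM E X` is the group of biholomorphic self-maps of the complex manifold `X` modelled on `E`, with the
compact-open topology (the topology induced from `C(X, X)`).
-/

set_option autoImplicit false

open Set Topology
open scoped Manifold

namespace Pool.Agent.ISY

/-- the biholomorphic self-maps of `X` -/
def AutM (E X : Type) [NormedAddCommGroup E] [NormedSpace ℂ E] [TopologicalSpace X]
    [ChartedSpace E X] : Type :=
  Diffeomorph 𝓘(ℂ, E) 𝓘(ℂ, E) X X (⊤ : WithTop ℕ∞)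

section
variable {E X : Type} [NormedAddCommGroup E] [NormedSpace ℂ E] [TopologicalSpace X]
  [ChartedSpace E X]

namespace AutM

instance : FunLike (AutM E X) X X where
  coe f := f.toEquiv
  coe_injective _ _ h := Diffeomorph.toEquiv_injective (Equiv.coe_fn_injective h)

/-- the underlying diffeomorphism -/
def toDiff (f : AutM E X) : Diffeomorph 𝓘(ℂ, E) 𝓘(ℂ, E) X X (⊤ : WithTop ℕ∞) := f

/-- a diffeomorphism as an automorphism -/
def ofDiff (f : Diffeomorph 𝓘(ℂ, E) 𝓘(ℂ, E) X X (⊤ : WithTop ℕ∞)) : AutM E X := f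

@[simp] theorem toDiff_apply (f : AutM E X) (x : X) : f.toDiff x = f x := rfl

@[simp] theorem ofDiff_apply (f : Diffeomorph 𝓘(ℂ, E) 𝓘(ℂ, E) X X (⊤ : WithTop ℕ∞)) (x : X) :
    (ofDiff f : AutM E X) x = f x := rfl

@[ext] theorem ext {f g : AutM E X} (h : ∀ x, f x = g x) : f = g := DFunLike.ext f g h

noncomputable instance : Group (AutM E X) where
  mul f g := Diffeomorph.trans g f
  one := Diffeomorph.refl 𝓘(ℂ, E) X (⊤ : WithTop ℕ∞)
  inv f := Diffeomorph.symm f
  mul_assoc _ _ _ := rfl
  one_mul _ := rfl
  mul_one _ := rfl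
  inv_mul_cancel f := ext fun x => Equiv.symm_apply_apply f.toDiff.toEquiv x

@[simp] theorem mul_apply (f g : AutM E X) (x : X) : (f * g) x = f (g x) := rfl

@[simp] theorem one_apply (x : X) : (1 : AutM E X) x = x := rfl

@[simp] theorem inv_apply_self (f : AutM E X) (x : X) : f⁻¹ (f x) = x :=
  Equiv.symm_apply_apply f.toDiff.toEquiv x

@[simp] theorem apply_inv_self (f : AutM E X) (x : X) : f (f⁻¹ x) = x :=
  Equiv.apply_symm_apply f.toDiff.toEquiv x

theorem contMDiff (f : AutM E X) : ContMDiff 𝓘(ℂ, E) 𝓘(ℂ, E) (⊤ : WithTop ℕ∞) f :=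
  f.toDiff.contMDiff

theorem continuous (f : AutM E X) : Continuous f := f.toDiff.continuous

/-- the underlying continuous map -/
def toCM (f : AutM E X) : C(X, X) := ⟨f, f.continuous⟩

@[simp] theorem toCM_apply (f : AutM E X) (x : X) : f.toCM x = f x := rfl

theorem toCM_injective : Function.Injective (toCM : AutM E X → C(X, X)) := fun _ _ h =>
  ext fun x => congrArg (fun k : C(X, X) => k x) h

/-- the compact-open topology -/
instance : TopologicalSpace (AutM E X) :=
  TopologicalSpace.induced toCM inferInstance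

theorem isInducing_toCM : IsInducing (toCM : AutM E X → C(X, X)) := ⟨rfl⟩

theorem isEmbedding_toCM : IsEmbedding (toCM : AutM E X → C(X, X)) :=
  ⟨isInducing_toCM, toCM_injective⟩

theorem continuous_toCM : Continuous (toCM : AutM E X → C(X, X)) := continuous_induced_dom

noncomputable instance : MulAction (AutM E X) X where
  smul f x := f x
  one_smul _ := rfl
  mul_smul _ _ _ := rfl

theorem smul_def (f : AutM E X) (x : X) : f • x = f x := rfl

theorem range_toCM : range (toCM : AutM E X → C(X, X)) =
    range (fun ψ : Diffeomorph 𝓘(ℂ, E) 𝓘(ℂ, E) X X (⊤ : WithTop ℕ∞) =>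
      (ContinuousMap.mk ψ ψ.continuous : C(X, X))) := rfl

end AutM

/-- some biholomorphic map other than the identity lies in the identity component of `Aut X` (the
conclusion of Q1, in the form of the frozen statement) -/
def HasFlow (E X : Type) [NormedAddCommGroup E] [NormedSpace ℂ E] [TopologicalSpace X]
    [ChartedSpace E X] : Prop :=
  ∃ φ : Diffeomorph 𝓘(ℂ, E) 𝓘(ℂ, E) X X (⊤ : WithTop ℕ∞),
    (⇑φ ≠ id) ∧
    ContinuousMap.mk (⇑φ) φ.continuous ∈
      connectedComponentIn
        (Set.range (fun ψ : Diffeomorph 𝓘(ℂ, E) 𝓘(ℂ, E) X X (⊤ : WithTop ℕ∞) =>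
          ContinuousMap.mk (⇑ψ) ψ.continuous))
        (ContinuousMap.id X)

/-- the range of `toCM`, cut at the identity -/
private theorem image_cc :
    connectedComponentIn
        (Set.range (fun ψ : Diffeomorph 𝓘(ℂ, E) 𝓘(ℂ, E) X X (⊤ : WithTop ℕ∞) =>
          (ContinuousMap.mk (⇑ψ) ψ.continuous : C(X, X))))
        (ContinuousMap.id X) = AutM.toCM '' connectedComponent (1 : AutM E X) := by
  have h1 := AutM.isInducing_toCM (E := E) (X := X)
  have h2 : (ContinuousMap.id X : C(X, X)) = AutM.toCM (1 : AutM E X) := rfl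
  rw [← AutM.range_toCM, h2]
  apply Subset.antisymm
  · intro y hy
    have hsub := connectedComponentIn_subset (range (AutM.toCM : AutM E X → C(X, X)))
      (AutM.toCM (1 : AutM E X))
    obtain ⟨f, rfl⟩ := hsub hy
    refine ⟨f, ?_, rfl⟩
    have hpre : IsPreconnected ((AutM.toCM : AutM E X → C(X, X)) ⁻¹' connectedComponentIn
        (range (AutM.toCM : AutM E X → C(X, X))) (AutM.toCM (1 : AutM E X))) := by
      rw [← h1.isPreconnected_image, image_preimage_eq_of_subset hsub]
      exact isPreconnected_connectedComponentIn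
    exact hpre.subset_connectedComponent
      (mem_connectedComponentIn (mem_range_self (1 : AutM E X))) hy
  · refine (isPreconnected_connectedComponent.image (AutM.toCM : AutM E X → C(X, X))
      AutM.continuous_toCM.continuousOn).subset_connectedComponentIn ?_ (image_subset_range _ _)
    exact ⟨1, mem_connectedComponent, rfl⟩

theorem hasFlow_iff : HasFlow E X ↔ connectedComponent (1 : AutM E X) ≠ {1} := by
  unfold HasFlow
  rw [image_cc]
  constructor
  · rintro ⟨φ, h1, f, hf, h2⟩ h
    rw [h, mem_singleton_iff] at hf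
    apply h1
    rw [hf] at h2
    funext x
    have h3 : (AutM.toCM (1 : AutM E X)) x = φ x := congrArg (fun k : C(X, X) => k x) h2
    exact h3.symm
  · intro h
    by_contra hcon
    push Not at hcon
    apply h
    refine Subset.antisymm (fun f hf => ?_) (fun f hf => ?_)
    · by_contra hne
      refine hcon f.toDiff ?_ ⟨f, hf, rfl⟩
      intro he
      exact hne (AutM.ext fun x => congrFun he x)
    · rw [mem_singleton_iff.1 hf]
      exact mem_connectedComponent

end

end Pool.Agent.ISY
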