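import Mathlib

/-!
# ISY-Eff: the open mapping principle (Effros) for transitive actions of Polish groups

Mathlib only, self-contained. Plan.

* Fix an open `V ∋ 1`, `V⁻¹ = V`. For a point `x` the orbit map `o_x : G → X`, `g ↦ g • x`, is continuous
  and surjective and `o_x ⁻¹' (V • x) = V · G_x` (`G_x` the stabilizer) is a union of translates
  `V * h`, hence open, hence Borel. So `V • x := o_x '' V` is Borel by
  `Measurable.measurableSet_preimage_iff_of_surjective` (give `G` and `X` their Borel σ-algebras; `G` is a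
  standard Borel space, `X` is second countable T2, hence countably separated), and so Baire measurable
  (`MeasurableSet.baireMeasurableSet`): by `BaireMeasurableSet.residualEq_isOpen` (names in
  `Mathlib/Topology/Baire/BaireMeasurable.lean`) there is an open `O` with `V • x =ᵇ O`.
* `V • x` is not meagre: countably many translates `g_n • V` cover `G` (Lindelöf, `G` is second countable),
  so `X = ⋃ g_n • (V • x)`; if `V • x` were meagre, `X` would be meagre (`g_n •` is a homeomorphism),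
  contradiction with `BaireSpace X`, `X` nonempty. So `O` is nonempty, not meagre and `O ∩ V • x` is
  nonempty. Take `v ∈ V` with `v • x ∈ O` and translate by `v⁻¹`: there is an open `O_x ∋ x` such that
  `O_x \ (V⁻¹ V • x)` is meagre. This holds for every point `x`.
* If `y ∈ O_x` then `O_x ∩ O_y` is a nonempty open set, not meagre, so it contains a point of
  `V⁻¹V • x ∩ V⁻¹V • y`; hence `y ∈ V⁻¹ V V⁻¹ V • x`. So `V⁻¹VV⁻¹V • x` is a neighbourhood of `x`.
* As the sets `V⁻¹VV⁻¹V` are a basis at `1`, `g ↦ g • x` maps neighbourhoods of `1` to neighbourhoods of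
  `x`, for every `x`; by translation (`(W g⁻¹) • (g • p) = W • p`) the map `g ↦ g • p` is open.
-/

set_option autoImplicit false

open Set Topology Filter
open scoped Pointwise

namespace Pool.Agent.ISY

section

variable {G X : Type} [Group G] [TopologicalSpace G] [IsTopologicalGroup G]
    [PolishSpace G] [TopologicalSpace X] [T2Space X] [SecondCountableTopology X] [BaireSpace X]
    [MulAction G X] [ContinuousSMul G X]

private theorem eff_meas (htr : ∀ x y : X, ∃ g : G, g • x = y) (x : X) {V : Set G} (hV : IsOpen V) :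
    ∃ O : Set X, IsOpen O ∧ IsMeagre (((fun g : G => g • x) '' V) \ O) ∧
      IsMeagre (O \ ((fun g : G => g • x) '' V)) := by
  borelize G X
  have hc : Continuous (fun g : G => g • x) := continuous_id.smul continuous_const
  have hs : Function.Surjective (fun g : G => g • x) := fun y => htr x y
  have hopen : IsOpen ((fun g : G => g • x) ⁻¹' ((fun g : G => g • x) '' V)) := by
    rw [isOpen_iff_mem_nhds]
    rintro g ⟨v, hv, hvg⟩
    have hcont : Continuous (fun g' : G => g' * (v⁻¹ * g)⁻¹) := continuous_id.mul continuous_const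
    have h1 : (fun g' : G => g' * (v⁻¹ * g)⁻¹) ⁻¹' V ∈ 𝓝 g := by
      refine (hV.preimage hcont).mem_nhds ?_
      show g * (v⁻¹ * g)⁻¹ ∈ V
      simpa using hv
    filter_upwards [h1] with g' hg'
    refine ⟨g' * (v⁻¹ * g)⁻¹, hg', ?_⟩
    have h2 : (v⁻¹ * g) • x = x := by
      rw [mul_smul]
      have h3 : v • x = g • x := hvg
      rw [← h3, inv_smul_smul]
    have h4 : (v⁻¹ * g)⁻¹ • x = x := by
      rw [inv_smul_eq_iff, h2]
    show (g' * (v⁻¹ * g)⁻¹) • x = g' • x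
    rw [mul_smul, h4]
  have hm : MeasurableSet ((fun g : G => g • x) '' V) :=
    (hc.measurable.measurableSet_preimage_iff_of_surjective hs).1 hopen.measurableSet
  obtain ⟨O, hO, hE⟩ := hm.residualEq_isOpen
  refine ⟨O, hO, ?_, ?_⟩
  · show (((fun g : G => g • x) '' V) \ O)ᶜ ∈ residual X
    filter_upwards [hE] with y hy hy2
    have hy' : (y ∈ (fun g : G => g • x) '' V) = (y ∈ O) := hy
    exact hy2.2 (hy' ▸ hy2.1)
  · show (O \ ((fun g : G => g • x) '' V))ᶜ ∈ residual X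
    filter_upwards [hE] with y hy hy2
    have hy' : (y ∈ (fun g : G => g • x) '' V) = (y ∈ O) := hy
    exact hy2.2 (hy'.symm ▸ hy2.1)

omit [T2Space X] [SecondCountableTopology X] in
private theorem eff_not_meagre (htr : ∀ x y : X, ∃ g : G, g • x = y) (x : X) {V : Set G}
    (hV : IsOpen V) (h1 : (1 : G) ∈ V) : ¬ IsMeagre ((fun g : G => g • x) '' V) := by
  intro hM
  have hf : ∀ g : G, (fun g' : G => g⁻¹ * g') ⁻¹' V ∈ 𝓝 g := by
    intro g
    refine (hV.preimage (continuous_const.mul continuous_id)).mem_nhds ?_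
    show g⁻¹ * g ∈ V
    simpa using h1
  obtain ⟨s, hs, hcov⟩ := TopologicalSpace.countable_cover_nhds hf
  haveI := hs.to_subtype
  have hun : IsMeagre (⋃ g : s, (fun y : X => (g : G)⁻¹ • y) ⁻¹' ((fun g : G => g • x) '' V)) := by
    refine isMeagre_iUnion fun g => ?_
    exact hM.preimage_of_isOpenMap (continuous_const_smul _) (isOpenMap_smul _)
  have hall : (⋃ g : s, (fun y : X => (g : G)⁻¹ • y) ⁻¹' ((fun g : G => g • x) '' V)) =
      (univ : Set X) := by
    rw [eq_univ_iff_forall]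
    intro y
    obtain ⟨g, hg⟩ := htr x y
    have hmem : g ∈ ⋃ x ∈ s, (fun g' : G => x⁻¹ * g') ⁻¹' V := by rw [hcov]; trivial
    rw [mem_iUnion₂] at hmem
    obtain ⟨a, ha, hag⟩ := hmem
    rw [mem_iUnion]
    refine ⟨⟨a, ha⟩, a⁻¹ * g, hag, ?_⟩
    show (a⁻¹ * g) • x = a⁻¹ • y
    rw [mul_smul, hg]
  rw [hall] at hun
  haveI : Nonempty X := ⟨x⟩
  exact not_isMeagre_of_isOpen isOpen_univ univ_nonempty hun

private theorem eff_local (htr : ∀ x y : X, ∃ g : G, g • x = y) (x : X) {V : Set G}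
    (hV : IsOpen V) (h1 : (1 : G) ∈ V) :
    ∃ O : Set X, IsOpen O ∧ x ∈ O ∧
      IsMeagre (O \ {y | ∃ a ∈ V, ∃ b ∈ V, (a⁻¹ * b) • x = y}) := by
  obtain ⟨O, hO, hM1, hM2⟩ := eff_meas htr x hV
  have hne := eff_not_meagre htr x hV h1
  have hex : ∃ v ∈ V, v • x ∈ O := by
    by_contra hcon
    push Not at hcon
    refine hne (hM1.mono ?_)
    rintro y ⟨v, hv, rfl⟩
    exact ⟨⟨v, hv, rfl⟩, hcon v hv⟩
  obtain ⟨v, hv, hvx⟩ := hex
  refine ⟨(fun y : X => v • y) ⁻¹' O, hO.preimage (continuous_const_smul v), hvx, ?_⟩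
  have h2 : IsMeagre ((fun y : X => v • y) ⁻¹' (O \ ((fun g : G => g • x) '' V))) :=
    hM2.preimage_of_isOpenMap (continuous_const_smul v) (isOpenMap_smul v)
  refine h2.mono ?_
  rintro y ⟨hy1, hy2⟩
  refine ⟨hy1, ?_⟩
  rintro ⟨w, hw, hwy⟩
  apply hy2
  refine ⟨v, hv, w, hw, ?_⟩
  have h3 : w • x = v • y := hwy
  rw [mul_smul, h3, inv_smul_smul]

private theorem eff_nhds (htr : ∀ x y : X, ∃ g : G, g • x = y) (x : X) {V : Set G}
    (hV : IsOpen V) (h1 : (1 : G) ∈ V) :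
    {y | ∃ a ∈ V, ∃ b ∈ V, ∃ c ∈ V, ∃ d ∈ V, (a⁻¹ * b * (c⁻¹ * d)) • x = y} ∈ 𝓝 x := by
  obtain ⟨O, hO, hxO, hM⟩ := eff_local htr x hV h1
  refine mem_of_superset (hO.mem_nhds hxO) ?_
  intro y hy
  obtain ⟨O', hO', hyO', hM'⟩ := eff_local htr y hV h1
  have hnm : ¬ IsMeagre (O ∩ O') := by
    haveI : Nonempty X := ⟨x⟩
    exact not_isMeagre_of_isOpen (hO.inter hO') ⟨y, hy, hyO'⟩
  have hex : ∃ z ∈ O ∩ O', (z ∈ {y | ∃ a ∈ V, ∃ b ∈ V, (a⁻¹ * b) • x = y}) ∧
      z ∈ {y' | ∃ a ∈ V, ∃ b ∈ V, (a⁻¹ * b) • y = y'} := by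
    by_contra hcon
    push Not at hcon
    refine hnm ((hM.union hM').mono ?_)
    intro z hz
    by_cases hz1 : z ∈ {y | ∃ a ∈ V, ∃ b ∈ V, (a⁻¹ * b) • x = y}
    · exact Or.inr ⟨hz.2, hcon z hz hz1⟩
    · exact Or.inl ⟨hz.1, hz1⟩
  obtain ⟨z, -, ⟨a, ha, b, hb, hab⟩, ⟨c, hc, d, hd, hcd⟩⟩ := hex
  refine ⟨d, hd, c, hc, a, ha, b, hb, ?_⟩
  rw [mul_smul, hab, ← hcd, ← mul_smul]
  have : d⁻¹ * c * (c⁻¹ * d) = 1 := by group
  rw [this, one_smul]

end

theorem isOpenMap_smul {G X : Type} [Group G] [TopologicalSpace G] [IsTopologicalGroup G]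
    [PolishSpace G] [TopologicalSpace X] [T2Space X] [SecondCountableTopology X] [BaireSpace X]
    [MulAction G X] [ContinuousSMul G X] (htr : ∀ x y : X, ∃ g : G, g • x = y) (p : X) :
    IsOpenMap (fun g : G => g • p) := by
  rw [isOpenMap_iff_nhds_le]
  intro g U hU
  rw [mem_map] at hU
  have hcont : Continuous (fun q : (G × G) × (G × G) =>
      (q.1.1⁻¹ * q.1.2 * (q.2.1⁻¹ * q.2.2)) * g) := by fun_prop
  have h1 : (fun q : (G × G) × (G × G) => (q.1.1⁻¹ * q.1.2 * (q.2.1⁻¹ * q.2.2)) * g) ⁻¹'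
      ((fun g : G => g • p) ⁻¹' U) ∈ 𝓝 (((1 : G), (1 : G)), ((1 : G), (1 : G))) := by
    refine hcont.continuousAt ?_
    simpa using hU
  rw [nhds_prod_eq, mem_prod_self_iff] at h1
  obtain ⟨T, hT, hTU⟩ := h1
  rw [nhds_prod_eq, mem_prod_self_iff] at hT
  obtain ⟨S, hS, hST⟩ := hT
  obtain ⟨V, hVS, hV, hV1⟩ := mem_nhds_iff.1 hS
  refine mem_of_superset (eff_nhds htr (g • p) hV hV1) ?_
  rintro y ⟨a, ha, b, hb, c, hc, d, hd, rfl⟩
  have h2 : (((a, b), (c, d)) : (G × G) × (G × G)) ∈ T ×ˢ T :=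
    ⟨hST ⟨hVS ha, hVS hb⟩, hST ⟨hVS hc, hVS hd⟩⟩
  have h3 := hTU h2
  have h4 : ((a⁻¹ * b * (c⁻¹ * d)) * g) • p ∈ U := h3
  rwa [mul_smul] at h4

end Pool.Agent.ISY
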