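import Mathlib

/-!
# ISY-Mod: the three noncompact homogeneous Riemann surfaces (definitions)
-/

set_option autoImplicit false

open Set Topology Metric

namespace Pool.Agent.ISY

/-- the plane, the punctured plane, the unit disc -/
def IsModel (F : Set ℂ) : Prop := F = univ ∨ F = {0}ᶜ ∨ F = ball 0 1

/-- `γ` is a biholomorphic self-map of `F` -/
def AutF (F : Set ℂ) (γ : ℂ → ℂ) : Prop := DifferentiableOn ℂ γ F ∧ BijOn γ F F

/-- automorphisms of `F` with a common fixed point commute -/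
def CommF (F : Set ℂ) : Prop :=
  ∀ (φ ψ : ℂ → ℂ) (b : ℂ), AutF F φ → AutF F ψ → b ∈ F → φ b = b → ψ b = b →
    ∀ z ∈ F, φ (ψ z) = ψ (φ z)

/-- the conjugates of a nontrivial automorphism `φ` fixing `b` send `b` everywhere: for every `v ∈ F` there
is `y ∈ F` such that `ψ φ ψ⁻¹` sends `b` to `v` for every automorphism `ψ` with `ψ b = y` -/
def ConjF (F : Set ℂ) : Prop :=
  ∀ (φ : ℂ → ℂ) (b v : ℂ), AutF F φ → b ∈ F → φ b = b → (∃ z ∈ F, φ z ≠ z) → v ∈ F →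
    ∃ y ∈ F, ∀ ψ ψ' : ℂ → ℂ, AutF F ψ → AutF F ψ' → (∀ z ∈ F, ψ' (ψ z) = z) →
      (∀ z ∈ F, ψ (ψ' z) = z) → ψ b = y → ψ (φ (ψ' b)) = v

end Pool.Agent.ISY
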