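import Pool.Agent.ISY.Defs
import Pool.Agent.ISY.Mod

/-!
# ISY-Fib: fibrations of complex surfaces (definitions)
-/

set_option autoImplicit false

open Set Topology Metric
open scoped Manifold

namespace Pool.Agent.ISY

section
variable {X : Type} [TopologicalSpace X] [ChartedSpace (ℂ × ℂ) X]

/-- a holomorphic chart of the surface `X` in which `π` is the first coordinate -/
def Adapted (π : X → ℂ) (e : OpenPartialHomeomorph X (ℂ × ℂ)) : Prop :=
  e ∈ IsManifold.maximalAtlas 𝓘(ℂ, ℂ × ℂ) (⊤ : WithTop ℕ∞) X ∧ ∀ y ∈ e.source, (e y).1 = π y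

/-- `π` is a holomorphic submersion: around each point it is the first coordinate of a holomorphic chart -/
def Submersive (π : X → ℂ) : Prop := ∀ x : X, ∃ e, Adapted π e ∧ x ∈ e.source

/-- `u` maps the fibre of `π` over `b` biholomorphically onto `F` -/
def FibreCoord (π : X → ℂ) (b : ℂ) (F : Set ℂ) (u : X → ℂ) : Prop :=
  BijOn u (π ⁻¹' {b}) F ∧ ∀ e, Adapted π e →
    DifferentiableOn ℂ (fun w : ℂ => u (e.symm (b, w))) {w | (b, w) ∈ e.target}

/-- `g` maps fibres into fibres -/
def Pres (π : X → ℂ) (g : AutM (ℂ × ℂ) X) : Prop := ∀ x y, π x = π y → π (g x) = π (g y)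

/-- `g` maps the fibre over `b` onto the fibre over `b'` -/
def MapFib (π : X → ℂ) (g : AutM (ℂ × ℂ) X) (b b' : ℂ) : Prop :=
  (∀ x, π x = b → π (g x) = b') ∧ ∀ x, π x = b' → π (g⁻¹ x) = b

end

end Pool.Agent.ISY
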