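import Pool.Agent.ISY.Hat
import Pool.Agent.ISY.AutP

/-!
# ISY-FibIdn: identity principle along the fibres

Uses the statements of ISY-Hat and `eq_one_of_eqOn` (ISY-AutP, proved).

Plan. Let `x₀` lie over `b`, `e` an adapted chart at `x₀`, `(b, w₀) = e x₀`. By continuity `f x₀ = x₀`: there are points
`e.symm (z, w₀)` with `z → b`, `z ≠ b` fixed by `f` (`X` is T2). So for a small `r > 0` and all
`(z, w) ∈ ball b r ×ˢ ball w₀ r`: `(z, w) ∈ e.target` and `f (e.symm (z, w)) ∈ e.source`. For fixed `w ∈ ball w₀ r` the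
function `h z := (e (f (e.symm (z, w)))).2 - w` is analytic on `ball b r` (`analyticAt_chart`, compose with
`z ↦ (z, w)`), and vanishes for the `z` of `hz` (frequently in `𝓝[≠] b`), so it is `0` on `ball b r`
(`AnalyticOnNhd.eqOn_zero_of_preconnected_of_frequently_eq_zero`). As also
`(e (f (e.symm (z, w)))).1 = π (f (e.symm (z, w))) = z`, `f` is the identity on `e.symm '' (ball b r ×ˢ ball w₀ r)`, an open
nonempty set; `eq_one_of_eqOn`.
`eq_one_of_chart` is the last step alone: if `(e (f (e.symm (z, w)))).2 = w` on a small bidisc then `f = 1`.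
-/

set_option autoImplicit false

open Set Topology Metric Filter
open scoped Manifold

namespace Pool.Agent.ISY

section
variable {X : Type} [TopologicalSpace X] [T2Space X] [SecondCountableTopology X]
  [ConnectedSpace X] [ChartedSpace (ℂ × ℂ) X] [IsManifold 𝓘(ℂ, ℂ × ℂ) (⊤ : WithTop ℕ∞) X]
  {π : X → ℂ}

theorem eq_one_of_chart {f : AutM (ℂ × ℂ) X} (hf : ∀ x, π (f x) = π x)
    {e : OpenPartialHomeomorph X (ℂ × ℂ)} (he : Adapted π e) {b w₀ : ℂ} {r : ℝ} (hr : 0 < r)
    (ht : ball b r ×ˢ ball w₀ r ⊆ e.target)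
    (hs : ∀ z ∈ ball b r, ∀ w ∈ ball w₀ r, f (e.symm (z, w)) ∈ e.source)
    (h : ∀ z ∈ ball b r, ∀ w ∈ ball w₀ r, (e (f (e.symm (z, w)))).2 = w) : f = 1 := by
  refine eq_one_of_eqOn (ℂ × ℂ) X f (e.symm '' (ball b r ×ˢ ball w₀ r)) ?_ ?_ ?_
  · exact e.symm.isOpen_image_of_subset_source (isOpen_ball.prod isOpen_ball) ht
  · exact ⟨_, mem_image_of_mem _ (mk_mem_prod (mem_ball_self hr) (mem_ball_self hr))⟩
  · rintro _ ⟨⟨z, w⟩, ⟨hz, hw⟩, rfl⟩
    have h1 := ht (mk_mem_prod hz hw)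
    have h2 := hs z hz w hw
    have h3 : e (f (e.symm (z, w))) = (z, w) := by
      refine Prod.ext ?_ (h z hz w hw)
      rw [he.2 _ h2, hf, ← he.2 _ (e.map_target h1), e.right_inv h1]
    have h4 := e.left_inv h2
    rw [h3] at h4
    exact h4.symm

theorem eq_one_of_frequently (hπ : Submersive π) {f : AutM (ℂ × ℂ) X}
    (hf : ∀ x, π (f x) = π x) {b : ℂ} (hb : b ∈ range π)
    (hz : ∃ᶠ z in 𝓝[≠] b, ∀ x, π x = z → f x = x) : f = 1 := by
  obtain ⟨x₀, rfl⟩ := hb
  obtain ⟨e, he, hx⟩ := hπ x₀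
  have hpt : ((π x₀, (e x₀).2) : ℂ × ℂ) = e x₀ := by rw [← he.2 x₀ hx]
  have hsym : e.symm (π x₀, (e x₀).2) = x₀ := by rw [hpt]; exact e.left_inv hx
  have htar : ((π x₀, (e x₀).2) : ℂ × ℂ) ∈ e.target := by rw [hpt]; exact e.map_source hx
  have hpi : ∀ z w : ℂ, ((z, w) : ℂ × ℂ) ∈ e.target → π (e.symm (z, w)) = z := by
    intro z w h
    rw [← he.2 _ (e.map_target h), e.right_inv h]
  -- `x₀` is fixed
  have hfix : f x₀ = x₀ := by
    have hcl : IsClosed {y : X | f y = y} := isClosed_eq f.continuous continuous_id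
    have hmem : x₀ ∈ closure {y : X | f y = y} := by
      rw [mem_closure_iff_frequently]
      have hc : ContinuousAt (fun z : ℂ => ((z, (e x₀).2) : ℂ × ℂ)) (π x₀) := by fun_prop
      have hc2 : Tendsto (fun z : ℂ => e.symm (z, (e x₀).2)) (𝓝[≠] (π x₀)) (𝓝 x₀) := by
        have h1 : ContinuousAt (fun z : ℂ => e.symm (z, (e x₀).2)) (π x₀) :=
          ContinuousAt.comp (g := e.symm) (e.symm.continuousAt htar) hc
        have h2 := h1.tendsto
        simp only [hsym] at h2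
        exact h2.mono_left nhdsWithin_le_nhds
      have ht : ∀ᶠ z in 𝓝[≠] (π x₀), ((z, (e x₀).2) : ℂ × ℂ) ∈ e.target :=
        (hc.eventually (e.open_target.mem_nhds htar)).filter_mono nhdsWithin_le_nhds
      exact hc2.frequently ((hz.and_eventually ht).mono fun z hz => hz.1 _ (hpi _ _ hz.2))
    rwa [hcl.closure_eq] at hmem
  -- a small bidisc
  have hΩ : {q : ℂ × ℂ | q ∈ e.target ∧ f (e.symm q) ∈ e.source} ∈
      𝓝 ((π x₀, (e x₀).2) : ℂ × ℂ) := by
    refine inter_mem (e.open_target.mem_nhds htar) ?_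
    have hc : ContinuousAt (fun q : ℂ × ℂ => f (e.symm q)) (π x₀, (e x₀).2) :=
      (f.continuous.continuousAt).comp (e.symm.continuousAt htar)
    refine hc.preimage_mem_nhds (e.open_source.mem_nhds ?_)
    change f (e.symm (π x₀, (e x₀).2)) ∈ e.source
    rw [hsym, hfix]
    exact hx
  obtain ⟨r, hr, hrΩ⟩ := Metric.mem_nhds_iff.1 hΩ
  rw [← ball_prod_same] at hrΩ
  have ht : ball (π x₀) r ×ˢ ball (e x₀).2 r ⊆ e.target := fun q hq => (hrΩ hq).1
  have hs : ∀ z ∈ ball (π x₀) r, ∀ w ∈ ball (e x₀).2 r, f (e.symm (z, w)) ∈ e.source :=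
    fun z hz w hw => (hrΩ (mk_mem_prod hz hw)).2
  refine eq_one_of_chart hf he hr ht hs fun z hzb w hw => ?_
  have han : AnalyticOnNhd ℂ (fun z : ℂ => (e (f (e.symm (z, w)))).2 - w) (ball (π x₀) r) := by
    intro z hz
    have h1 : AnalyticAt ℂ (fun q => e (f (e.symm q))) (z, w) :=
      analyticAt_chart he he f (ht (mk_mem_prod hz hw)) (hs z hz w hw)
    have h2 : AnalyticAt ℂ (fun z : ℂ => ((z, w) : ℂ × ℂ)) z := analyticAt_id.prod analyticAt_const
    have h3 : AnalyticAt ℂ (fun q : ℂ × ℂ => (e (f (e.symm q))).2) (z, w) :=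
      analyticAt_snd.comp h1
    exact (AnalyticAt.comp (g := fun q : ℂ × ℂ => (e (f (e.symm q))).2)
      (f := fun z : ℂ => ((z, w) : ℂ × ℂ)) h3 h2).sub analyticAt_const
  have hzero := han.eqOn_zero_of_preconnected_of_frequently_eq_zero
    (convex_ball _ _).isPreconnected (mem_ball_self hr) ?_
  · have h4 := hzero hzb
    simp only [Pi.zero_apply] at h4
    exact sub_eq_zero.1 h4
  · have hball : ∀ᶠ z in 𝓝[≠] (π x₀), z ∈ ball (π x₀) r :=
      nhdsWithin_le_nhds (ball_mem_nhds _ hr)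
    refine (hz.and_eventually hball).mono fun z hz => ?_
    have h5 := ht (mk_mem_prod hz.2 hw)
    rw [hz.1 _ (hpi _ _ h5), e.right_inv h5, sub_self]

end

end Pool.Agent.ISY
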