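import Pool.Agent.ISY.Hat
import Pool.Agent.EAC.PA.AInj

/-!
# ISY-FibMap: automorphisms in fibre coordinates; the fibre coordinate is an embedding

Uses the statements of ISY-Hat (take them as given) and `Pool.Agent.EAC.PA.deriv_ne_zero_of_injOn` (proved).

* `deriv_ne_zero_coord`: `V w := u (e.symm (b, w))` is holomorphic on the open set `{w | (b, w) ∈ e.target}` and
  injective there (`hu.1.injOn`, `e.symm` is injective on the target, `π (e.symm (b, w)) = b`).
* `isEmbedding_coord`: the map `x ↦ u x` on the fibre is injective, continuous (near `x₀`, `u x = V (e x).2`) and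
  open onto the open set `F` (`V` is open by `deriv_ne_zero_coord` and `HasStrictDerivAt.map_nhds_eq`); so it is
  an embedding (`IsOpenEmbedding` into `ℂ`: `IsOpenEmbedding.of_continuous_injective_isOpenMap`).
* `exists_fibMap`: `γ ζ := u' (g x)` for the `x` over `b` with `u x = ζ` (choice). It is a bijection of `F` onto `F`
  (`hg`: `g` maps the fibre over `b` bijectively onto that over `b'`). It is differentiable at `ζ₀ = u x₀`: with
  adapted charts `e` at `x₀`, `e'` at `g x₀`, `V w = u (e.symm (b, w))`, `V' w = u' (e'.symm (b', w))`, and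
  `k w := (e' (g (e.symm (b, w)))).2` (holomorphic near `w₀ = (e x₀).2`, `analyticAt_chart`), one has
  `γ (V w) = V' (k w)` for `w` near `w₀` (first coordinate of `e' (g (e.symm (b, w)))` is `b'`); `V` has a holomorphic local
  inverse `R` at `w₀` (`deriv V w₀ ≠ 0`: `HasStrictDerivAt.localInverse`, or
  `ContDiffAt.to_localInverse`/`HasDerivAt.of_local_left_inverse`), so `γ = V' ∘ k ∘ R` near `ζ₀`.
-/

set_option autoImplicit false

open Set Topology Metric
open scoped Manifold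

namespace Pool.Agent.ISY

section
variable {X : Type} [TopologicalSpace X] [ChartedSpace (ℂ × ℂ) X]
  [IsManifold 𝓘(ℂ, ℂ × ℂ) (⊤ : WithTop ℕ∞) X] {π : X → ℂ}

omit [ChartedSpace (ℂ × ℂ) X] [IsManifold 𝓘(ℂ, ℂ × ℂ) (⊤ : WithTop ℕ∞) X] in
private theorem isOpen_slice (e : OpenPartialHomeomorph X (ℂ × ℂ)) (b : ℂ) :
    IsOpen {w : ℂ | (b, w) ∈ e.target} :=
  e.open_target.preimage (by fun_prop : Continuous fun w : ℂ => (b, w))

omit [IsManifold 𝓘(ℂ, ℂ × ℂ) (⊤ : WithTop ℕ∞) X] in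
private theorem pi_symm {b w : ℂ} {e : OpenPartialHomeomorph X (ℂ × ℂ)} (he : Adapted π e)
    (hw : (b, w) ∈ e.target) : π (e.symm (b, w)) = b := by
  rw [← he.2 _ (e.map_target hw), e.right_inv hw]

omit [IsManifold 𝓘(ℂ, ℂ × ℂ) (⊤ : WithTop ℕ∞) X] in
private theorem eq_pair {b : ℂ} {e : OpenPartialHomeomorph X (ℂ × ℂ)} (he : Adapted π e)
    {x : X} (hx : x ∈ e.source) (hb : π x = b) : e x = (b, (e x).2) :=
  Prod.ext ((he.2 x hx).trans hb) rfl

omit [IsManifold 𝓘(ℂ, ℂ × ℂ) (⊤ : WithTop ℕ∞) X] in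
private theorem symm_pair {b : ℂ} {e : OpenPartialHomeomorph X (ℂ × ℂ)} (he : Adapted π e)
    {x : X} (hx : x ∈ e.source) (hb : π x = b) : e.symm (b, (e x).2) = x := by
  rw [← eq_pair he hx hb, e.left_inv hx]

omit [IsManifold 𝓘(ℂ, ℂ × ℂ) (⊤ : WithTop ℕ∞) X] in
private theorem mem_pair {b : ℂ} {e : OpenPartialHomeomorph X (ℂ × ℂ)} (he : Adapted π e)
    {x : X} (hx : x ∈ e.source) (hb : π x = b) : (b, (e x).2) ∈ e.target := by
  rw [← eq_pair he hx hb]
  exact e.map_source hx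

omit [ChartedSpace (ℂ × ℂ) X] [IsManifold 𝓘(ℂ, ℂ × ℂ) (⊤ : WithTop ℕ∞) X] in
private theorem tendsto_symm {b w : ℂ} {e : OpenPartialHomeomorph X (ℂ × ℂ)}
    (hw : (b, w) ∈ e.target) :
    Filter.Tendsto (fun w : ℂ => e.symm (b, w)) (𝓝 w) (𝓝 (e.symm (b, w))) := by
  have h1 : ContinuousAt e.symm (b, w) := e.continuousAt_symm hw
  have h2 : ContinuousAt (fun w : ℂ => (b, w)) w := by fun_prop
  exact ContinuousAt.comp (f := fun w : ℂ => (b, w)) (g := e.symm) h1 h2

theorem deriv_ne_zero_coord {b : ℂ} {F : Set ℂ} {u : X → ℂ} (hu : FibreCoord π b F u)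
    {e : OpenPartialHomeomorph X (ℂ × ℂ)} (he : Adapted π e) {w : ℂ} (hw : (b, w) ∈ e.target) :
    deriv (fun w : ℂ => u (e.symm (b, w))) w ≠ 0 := by
  obtain ⟨r, hr, hsub⟩ := Metric.isOpen_iff.1 (isOpen_slice e b) w hw
  refine EAC.PA.deriv_ne_zero_of_injOn hr ((hu.2 e he).mono hsub) ?_
  intro w1 hw1 w2 hw2 h12
  have h1 : (b, w1) ∈ e.target := hsub hw1
  have h2 : (b, w2) ∈ e.target := hsub hw2
  have h3 : e.symm (b, w1) = e.symm (b, w2) :=
    hu.1.injOn (pi_symm he h1) (pi_symm he h2) h12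
  have h4 : (b, w1) = (b, w2) := e.symm.injOn h1 h2 h3
  exact congrArg Prod.snd h4

omit [IsManifold 𝓘(ℂ, ℂ × ℂ) (⊤ : WithTop ℕ∞) X] in
private theorem strict_coord {b : ℂ} {F : Set ℂ} {u : X → ℂ} (hu : FibreCoord π b F u)
    {e : OpenPartialHomeomorph X (ℂ × ℂ)} (he : Adapted π e) {w : ℂ} (hw : (b, w) ∈ e.target) :
    HasStrictDerivAt (fun w : ℂ => u (e.symm (b, w)))
      (deriv (fun w : ℂ => u (e.symm (b, w))) w) w :=
  ((hu.2 e he).analyticAt ((isOpen_slice e b).mem_nhds hw)).hasStrictDerivAt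

theorem isEmbedding_coord (hπ : Submersive π) {b : ℂ} {F : Set ℂ} {u : X → ℂ}
    (hu : FibreCoord π b F u) : IsEmbedding (fun x : (π ⁻¹' {b} : Set X) => u x) := by
  refine IsOpenEmbedding.isEmbedding (IsOpenEmbedding.of_continuous_injective_isOpenMap ?_ ?_ ?_)
  · rw [continuous_iff_continuousAt]
    rintro ⟨x₀, hx₀⟩
    obtain ⟨e, he, hxe⟩ := hπ x₀
    have hw := mem_pair he hxe hx₀
    have hV := (strict_coord hu he hw).hasDerivAt.continuousAt
    have h1 : ContinuousAt (fun x : (π ⁻¹' {b} : Set X) => (e x).2) ⟨x₀, hx₀⟩ := by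
      have h2 : ContinuousAt (fun x : (π ⁻¹' {b} : Set X) => e x) ⟨x₀, hx₀⟩ :=
        ContinuousAt.comp (f := fun x : (π ⁻¹' {b} : Set X) => (x : X)) (g := e)
          (e.continuousAt hxe) continuous_subtype_val.continuousAt
      exact continuous_snd.continuousAt.comp h2
    have h3 := ContinuousAt.comp (f := fun x : (π ⁻¹' {b} : Set X) => (e x).2)
      (g := fun w : ℂ => u (e.symm (b, w))) (x := ⟨x₀, hx₀⟩) hV h1
    refine h3.congr ?_
    have h4 : ∀ᶠ x : (π ⁻¹' {b} : Set X) in 𝓝 ⟨x₀, hx₀⟩, (x : X) ∈ e.source :=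
      continuous_subtype_val.continuousAt.eventually (e.open_source.mem_nhds hxe)
    filter_upwards [h4] with x hx
    simp only [Function.comp_apply]
    rw [symm_pair he hx x.2]
  · intro x y hxy
    exact Subtype.ext (hu.1.injOn x.2 y.2 hxy)
  · rw [isOpenMap_iff_nhds_le]
    rintro ⟨x₀, hx₀⟩ S hS
    obtain ⟨e, he, hxe⟩ := hπ x₀
    have hw := mem_pair he hxe hx₀
    have hmap := (strict_coord hu he hw).map_nhds_eq (deriv_ne_zero_coord hu he hw)
    rw [symm_pair he hxe hx₀] at hmap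
    change S ∈ 𝓝 (u x₀)
    rw [← hmap, Filter.mem_map]
    rw [Filter.mem_map, mem_nhds_subtype] at hS
    obtain ⟨O, hO, hOS⟩ := hS
    have h5 := tendsto_symm hw
    rw [symm_pair he hxe hx₀] at h5
    filter_upwards [h5 hO, (isOpen_slice e b).mem_nhds hw] with w h6 h7
    exact @hOS ⟨e.symm (b, w), pi_symm he h7⟩ h6

theorem exists_fibMap (hπ : Submersive π) {b b' : ℂ} {F : Set ℂ} {u u' : X → ℂ}
    (hu : FibreCoord π b F u) (hu' : FibreCoord π b' F u') (g : AutM (ℂ × ℂ) X)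
    (hg : MapFib π g b b') : ∃ γ : ℂ → ℂ, AutF F γ ∧ ∀ x, π x = b → u' (g x) = γ (u x) := by
  classical
  let γ : ℂ → ℂ := fun ζ =>
    if h : ∃ x, π x = b ∧ u x = ζ then u' (g h.choose) else 0
  have hγ : ∀ x, π x = b → u' (g x) = γ (u x) := by
    intro x hx
    have h : ∃ y, π y = b ∧ u y = u x := ⟨x, hx, rfl⟩
    have h1 : γ (u x) = u' (g h.choose) := dif_pos h
    rw [h1]
    have h2 : h.choose = x := hu.1.injOn h.choose_spec.1 hx h.choose_spec.2
    rw [h2]
  refine ⟨γ, ⟨?_, ?_, ?_, ?_⟩, hγ⟩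
  · intro ζ hζ
    obtain ⟨x₀, hx₀, rfl⟩ := hu.1.surjOn hζ
    obtain ⟨e, he, hxe⟩ := hπ x₀
    obtain ⟨e', he', hxe'⟩ := hπ (g x₀)
    have hw := mem_pair he hxe hx₀
    have hgx : π (g x₀) = b' := hg.1 x₀ hx₀
    have hw' := mem_pair he' hxe' hgx
    have hsV := strict_coord hu he hw
    have hne := deriv_ne_zero_coord hu he hw
    have hV' := (strict_coord hu' he' hw').hasDerivAt.differentiableAt
    have hk0 := analyticAt_chart he he' g hw (by rw [symm_pair he hxe hx₀]; exact hxe')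
    have hk : DifferentiableAt ℂ (fun w : ℂ => (e' (g (e.symm (b, w)))).2) (e x₀).2 := by
      have h1 : DifferentiableAt ℂ (fun q : ℂ × ℂ => (e' (g (e.symm q))).2) (b, (e x₀).2) :=
        hk0.differentiableAt.snd
      exact DifferentiableAt.comp (f := fun w : ℂ => (b, w))
        (g := fun q : ℂ × ℂ => (e' (g (e.symm q))).2) (e x₀).2 h1 (by fun_prop)
    have hcomp : DifferentiableAt ℂ
        (fun w : ℂ => u' (e'.symm (b', (e' (g (e.symm (b, w)))).2))) (e x₀).2 := by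
      refine DifferentiableAt.comp (f := fun w : ℂ => (e' (g (e.symm (b, w)))).2)
        (g := fun w : ℂ => u' (e'.symm (b', w))) (e x₀).2 ?_ hk
      rw [symm_pair he hxe hx₀]
      exact hV'
    -- `γ (V w) = V' (k w)` near `w₀`
    have hnear : ∀ᶠ w in 𝓝 (e x₀).2, γ (u (e.symm (b, w))) =
        u' (e'.symm (b', (e' (g (e.symm (b, w)))).2)) := by
      have h5 := tendsto_symm hw
      rw [symm_pair he hxe hx₀] at h5
      have h6 : ∀ᶠ w in 𝓝 (e x₀).2, g (e.symm (b, w)) ∈ e'.source :=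
        (g.continuous.continuousAt.tendsto.comp h5) (e'.open_source.mem_nhds hxe')
      filter_upwards [h6, (isOpen_slice e b).mem_nhds hw] with w h7 h8
      have h9 := pi_symm he h8
      rw [← hγ _ h9, symm_pair he' h7 (hg.1 _ h9)]
    -- the local inverse of `V`
    have hR := hsV.to_localInverse hne
    have hri := hsV.eventually_right_inverse hne
    set R := hsV.localInverse _ _ _ hne with hRdef
    have hV0 : u (e.symm (b, (e x₀).2)) = u x₀ := by
      rw [symm_pair he hxe hx₀]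
    have hR0 : R (u x₀) = (e x₀).2 := by
      have h := (hsV.eventually_left_inverse hne).self_of_nhds
      rw [hV0] at h
      exact h
    rw [hV0] at hR hri
    have hRc : Filter.Tendsto R (𝓝 (u x₀)) (𝓝 (e x₀).2) := by
      have h := hR.hasDerivAt.continuousAt.tendsto
      rw [hR0] at h
      exact h
    have heq : γ =ᶠ[𝓝 (u x₀)] fun ζ =>
        u' (e'.symm (b', (e' (g (e.symm (b, R ζ)))).2)) := by
      filter_upwards [hri, hRc.eventually hnear] with ζ h1 h2
      rw [← h2]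
      exact congrArg γ h1.symm
    refine DifferentiableAt.differentiableWithinAt ?_
    refine DifferentiableAt.congr_of_eventuallyEq ?_ heq
    refine DifferentiableAt.comp (f := R)
      (g := fun w : ℂ => u' (e'.symm (b', (e' (g (e.symm (b, w)))).2))) (u x₀) ?_
      hR.hasDerivAt.differentiableAt
    rw [hR0]
    exact hcomp
  · intro ζ hζ
    obtain ⟨x, hx, rfl⟩ := hu.1.surjOn hζ
    rw [← hγ x hx]
    exact hu'.1.mapsTo (hg.1 x hx)
  · intro ζ hζ ζ' hζ' h
    obtain ⟨x, hx, rfl⟩ := hu.1.surjOn hζ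
    obtain ⟨y, hy, rfl⟩ := hu.1.surjOn hζ'
    rw [← hγ x hx, ← hγ y hy] at h
    have h1 : g x = g y := hu'.1.injOn (hg.1 x hx) (hg.1 y hy) h
    have h2 : g⁻¹ (g x) = g⁻¹ (g y) := by rw [h1]
    rw [AutM.inv_apply_self, AutM.inv_apply_self] at h2
    rw [h2]
  · intro η hη
    obtain ⟨y, hy, rfl⟩ := hu'.1.surjOn hη
    have h1 : π (g⁻¹ y) = b := hg.2 y hy
    refine ⟨u (g⁻¹ y), hu.1.mapsTo h1, ?_⟩
    rw [← hγ _ h1, AutM.apply_inv_self]

end

end Pool.Agent.ISY
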