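import Pool.Agent.ISY.Gr

/-!
# ISY-MLc: the graph is compact

An ultrafilter on the graph lifts to an ultrafilter on pairs `(w', t)` whose first coordinate converges to a fixed `w`.
-/

set_option autoImplicit false

open Set Topology Filter

namespace Pool.Agent.ISY

theorem isCompact_Gr {G X : Type} [Group G] [TopologicalSpace G] [IsTopologicalGroup G]
    [TopologicalSpace X] [MulAction G X] [ContinuousSMul G X] {p : X}
    (hop : IsOpenMap (fun g : G => g • p)) {W S : Set G} {N : Set X} (hW : IsOpen W)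
    (hN : IsCompact N) (hNW : ∀ x ∈ N, ∃ w ∈ W, w • p = x) (hS : IsCompact S)
    (hind : Indep W S p) : IsCompact (Gr W S N p) := by
  rw [isCompact_iff_ultrafilter_le_nhds]
  intro U hU
  have hU' : ∀ᶠ z in (U : Filter (X × G)), z ∈ Gr W S N p := le_principal_iff.1 hU
  have h1 : ((U.map Prod.fst : Ultrafilter X) : Filter X) ≤ 𝓟 N := by
    rw [Ultrafilter.coe_map, le_principal_iff, mem_map]
    filter_upwards [hU'] with z hz
    exact hz.1
  obtain ⟨x, hx, hx2⟩ := hN.ultrafilter_le_nhds _ h1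
  obtain ⟨w, hw, rfl⟩ := hNW x hx
  have hne : (comap (fun q : G × G => (q.1 • p, q.1 * q.2 * q.1⁻¹)) (U : Filter (X × G)) ⊓
      (comap Prod.fst (𝓝 w) ⊓ 𝓟 (W ×ˢ S))).NeBot := by
    rw [inf_neBot_iff]
    intro s hs s' hs'
    obtain ⟨F, hF, hFs⟩ := mem_comap.1 hs
    rw [mem_inf_principal] at hs'
    obtain ⟨A, hA, hAs⟩ := mem_comap.1 hs'
    have h2 : (fun g : G => g • p) '' (A ∩ W) ∈ 𝓝 (w • p) :=
      hop.image_mem_nhds (inter_mem hA (hW.mem_nhds hw))
    have h3 : ∀ᶠ z in (U : Filter (X × G)), z.1 ∈ (fun g : G => g • p) '' (A ∩ W) := hx2 h2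
    obtain ⟨z, hzF, hzG, hz1⟩ := ((eventually_mem_set.2 hF).and (hU'.and h3)).exists
    obtain ⟨w', ⟨hw'A, hw'W⟩, hw'z⟩ := hz1
    obtain ⟨-, w0, hw0, hw0z, t0, ht0, hz2⟩ := hzG
    have hw'z' : w' • p = z.1 := hw'z
    obtain ⟨t', ht', he⟩ := hind w0 hw0 w' hw'W (hw0z.trans hw'z'.symm) t0 ht0
    refine ⟨(w', t'), hFs ?_, hAs (show (w', t').1 ∈ A from hw'A) (mk_mem_prod hw'W ht')⟩
    have hz : ((w' • p, w' * t' * w'⁻¹) : X × G) = z := by
      refine Prod.ext hw'z' ?_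
      show w' * t' * w'⁻¹ = z.2
      rw [hz2, he]
    show (w' • p, w' * t' * w'⁻¹) ∈ F
    rw [hz]
    exact hzF
  obtain ⟨V, hV⟩ := Ultrafilter.exists_le
    (comap (fun q : G × G => (q.1 • p, q.1 * q.2 * q.1⁻¹)) (U : Filter (X × G)) ⊓
      (comap Prod.fst (𝓝 w) ⊓ 𝓟 (W ×ˢ S)))
  have hV1 := hV.trans inf_le_left
  have hV2 := (hV.trans inf_le_right).trans inf_le_left
  have hV3 := (hV.trans inf_le_right).trans inf_le_right
  have e1 : V.map (fun q : G × G => (q.1 • p, q.1 * q.2 * q.1⁻¹)) = U := by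
    apply Ultrafilter.coe_le_coe.1
    rw [Ultrafilter.coe_map]
    exact map_le_iff_le_comap.2 hV1
  have e2 : Tendsto Prod.fst (V : Filter (G × G)) (𝓝 w) := map_le_iff_le_comap.2 hV2
  have e3 : ((V.map Prod.snd : Ultrafilter G) : Filter G) ≤ 𝓟 S := by
    rw [Ultrafilter.coe_map, le_principal_iff, mem_map]
    filter_upwards [le_principal_iff.1 hV3] with q hq
    exact hq.2
  obtain ⟨t, ht, ht2⟩ := hS.ultrafilter_le_nhds _ e3
  have e4 : Tendsto Prod.snd (V : Filter (G × G)) (𝓝 t) := ht2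
  refine ⟨(w • p, w * t * w⁻¹), ⟨hx, w, hw, rfl, t, ht, rfl⟩, ?_⟩
  rw [← e1, Ultrafilter.coe_map]
  exact (e2.smul_const p).prodMk_nhds ((e2.mul e4).mul e2.inv)

end Pool.Agent.ISY
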