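import Pool.Agent.ISY.Gr

/-!
# ISY-MLo: the projection of the graph is open; small compact connected neighbourhoods

`isOpenMap_Gr`: use `isOpenMap_iff_nhds_le`. Let `z = (x, s) ∈ Gr W S N p`, `x = w • p`, `w ∈ W`,
`s = w * t * w⁻¹`, `t ∈ S`, and let `O` be a neighbourhood of `z`. The map `w' ↦ (w' • p, w' * t * w'⁻¹)` is
continuous with value `z` at `w`, so there is a neighbourhood `A ⊆ W` of `w` with values in `O`;
`A • p` is a neighbourhood of `x` by `hop` and every point `w' • p ∈ N` of it is the projection of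
`(w' • p, w' * t * w'⁻¹) ∈ O ∩ Gr W S N p`.

`exists_compact_connected_nhd`: take a compact neighbourhood `K ⊆ O` of `p`, an open connected
neighbourhood `U ⊆ interior K` of `p` (`locallyConnectedSpace_iff_subsets_isOpen_isConnected` or
`connectedComponentIn (interior K) p`), and `N = closure U` (compact as a closed subset of `K`, connected by
`IsConnected.closure`).
-/

set_option autoImplicit false

open Set Topology Filter

namespace Pool.Agent.ISY

theorem isOpenMap_Gr {G X : Type} [Group G] [TopologicalSpace G] [IsTopologicalGroup G]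
    [TopologicalSpace X] [MulAction G X] [ContinuousSMul G X] {p : X}
    (hop : IsOpenMap (fun g : G => g • p)) {W S : Set G} {N : Set X} (hW : IsOpen W) :
    IsOpenMap (fun z : Gr W S N p => (⟨z.1.1, z.2.1⟩ : N)) := by
  rw [isOpenMap_iff_nhds_le]
  rintro ⟨⟨x, s⟩, hz⟩ A hA
  have hx : x ∈ N := hz.1
  obtain ⟨w, hw, hwx, t, ht, hws⟩ := hz.2
  have hwx' : w • p = x := hwx
  have hws' : s = w * t * w⁻¹ := hws
  rw [mem_map, mem_nhds_subtype] at hA
  obtain ⟨O, hO, hOA⟩ := hA
  have hφ : Continuous fun g : G => ((g • p, g * t * g⁻¹) : X × G) := by fun_prop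
  have hO' : O ∈ 𝓝 ((w • p, w * t * w⁻¹) : X × G) := by
    rw [hwx', ← hws']
    exact hO
  have h1 : (fun g : G => ((g • p, g * t * g⁻¹) : X × G)) ⁻¹' O ∈ 𝓝 w :=
    hφ.continuousAt.preimage_mem_nhds hO'
  have h2 := hop.image_mem_nhds (inter_mem h1 (hW.mem_nhds hw))
  have h3 : (fun g : G => g • p) '' ((fun g : G => ((g • p, g * t * g⁻¹) : X × G)) ⁻¹' O ∩ W) ∈
      𝓝 x := by
    rw [← hwx']
    exact h2
  show A ∈ 𝓝 (⟨x, hx⟩ : N)
  rw [mem_nhds_subtype]
  refine ⟨_, h3, ?_⟩
  rintro ⟨y, hy⟩ ⟨g, ⟨hgO, hgW⟩, hgy⟩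
  have hgy' : g • p = y := hgy
  subst hgy'
  exact hOA (a := ⟨(g • p, g * t * g⁻¹), hy, g, hgW, rfl, t, ht, rfl⟩) hgO

theorem exists_compact_connected_nhd {X : Type} [TopologicalSpace X] [T2Space X]
    [LocallyCompactSpace X] [LocallyConnectedSpace X] {p : X} {O : Set X} (hO : O ∈ 𝓝 p) :
    ∃ N ∈ 𝓝 p, N ⊆ O ∧ IsCompact N ∧ IsConnected N := by
  obtain ⟨K, hK, hKO, hKc⟩ := LocallyCompactSpace.local_compact_nhds p O hO
  obtain ⟨U, hU, hUo, hpU, hUc⟩ :=
    locallyConnectedSpace_iff_subsets_isOpen_isConnected.1 inferInstance p K hK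
  have hcl : closure U ⊆ K := hKc.isClosed.closure_subset_iff.2 hU
  exact ⟨closure U, mem_of_superset (hUo.mem_nhds hpU) subset_closure, hcl.trans hKO,
    hKc.of_isClosed_subset isClosed_closure hcl, hUc.closure⟩

end Pool.Agent.ISY
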