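import Pool.Agent.ISY.TopC
import Pool.Agent.ISY.MLc
import Pool.Agent.ISY.MLo

/-!
# ISY-ML: the master lemma
-/

set_option autoImplicit false

open Set Topology Filter

namespace Pool.Agent.ISY

/-- only the identity is the identity on a nonempty open set -/
def IdPrinc (G X : Type) [Group G] [MulAction G X] [TopologicalSpace X] : Prop :=
  ∀ (g : G) (U : Set X), IsOpen U → U.Nonempty → (∀ x ∈ U, g • x = x) → g = 1

theorem master {G X : Type} [Group G] [TopologicalSpace G] [IsTopologicalGroup G] [T2Space G]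
    [TotallyDisconnectedSpace G] [TopologicalSpace X] [T2Space X] [LocallyCompactSpace X]
    [LocallyConnectedSpace X] [MulAction G X] [ContinuousSMul G X] {p : X}
    (hop : IsOpenMap (fun g : G => g • p)) (hid : IdPrinc G X) {S : Set G} (hS : IsCompact S)
    (hSp : ∀ s ∈ S, s • p = p)
    (hV : ∃ V ∈ 𝓝 (1 : G), ∀ h ∈ V, h • p = p → ∀ s ∈ S, h * s * h⁻¹ ∈ S) : ∀ s ∈ S, s = 1 := by
  obtain ⟨V, hV1, hV⟩ := hV
  -- `W` open, `W⁻¹ W ⊆ V`
  obtain ⟨W, hWo, hW1, hWV⟩ : ∃ W : Set G, IsOpen W ∧ (1 : G) ∈ W ∧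
      ∀ w ∈ W, ∀ w' ∈ W, w⁻¹ * w' ∈ V := by
    have h1 : Tendsto (fun z : G × G => z.1⁻¹ * z.2) (𝓝 (1, 1)) (𝓝 (1 : G)) := by
      have : Continuous (fun z : G × G => z.1⁻¹ * z.2) := by fun_prop
      simpa using this.tendsto ((1 : G), (1 : G))
    have h2 := h1 hV1
    rw [mem_map, nhds_prod_eq, mem_prod_self_iff] at h2
    obtain ⟨T, hT, hTV⟩ := h2
    refine ⟨interior T, isOpen_interior, mem_interior_iff_mem_nhds.2 hT, fun w hw w' hw' => ?_⟩
    exact hTV (mk_mem_prod (interior_subset hw) (interior_subset hw'))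
  have hind : Indep W S p := by
    intro w hw w' hw' he t ht
    refine ⟨(w'⁻¹ * w) * t * (w'⁻¹ * w)⁻¹, ?_, by group⟩
    refine hV _ (hWV w' hw' w hw) ?_ t ht
    rw [mul_smul, he, inv_smul_smul]
  have hO : (fun g : G => g • p) '' W ∈ 𝓝 p := by
    have := hop.image_mem_nhds (hWo.mem_nhds hW1)
    simpa using this
  obtain ⟨N, hNp, hNO, hNc, hNcon⟩ := exists_compact_connected_nhd hO
  have hNW : ∀ x ∈ N, ∃ w ∈ W, w • p = x := fun x hx => hNO hx
  have hcomp : CompactSpace (Gr W S N p) :=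
    isCompact_iff_compactSpace.1 (isCompact_Gr hop hWo hNc hNW hS hind)
  have : PreconnectedSpace N := isPreconnected_iff_preconnectedSpace.1 hNcon.isPreconnected
  intro s hs
  have hpN : p ∈ N := mem_of_mem_nhds hNp
  let c : Gr W S N p := ⟨(p, s), hpN, 1, hW1, one_smul _ _, s, hs, by simp⟩
  have hq : Continuous (fun z : Gr W S N p => (⟨z.1.1, z.2.1⟩ : N)) := by
    apply Continuous.subtype_mk
    fun_prop
  have himg := image_connectedComponent hq (isOpenMap_Gr hop hWo) c
  -- the second coordinate is constant on the component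
  have hconst : ∀ z ∈ connectedComponent c, z.1.2 = s := by
    have hpre : IsPreconnected ((fun z : Gr W S N p => z.1.2) '' connectedComponent c) :=
      isPreconnected_connectedComponent.image _ (by fun_prop)
    intro z hz
    exact hpre.subsingleton (mem_image_of_mem _ hz) (mem_image_of_mem _ mem_connectedComponent)
  refine hid s (interior N) isOpen_interior ⟨p, mem_interior_iff_mem_nhds.2 hNp⟩ fun x hx => ?_
  have hxN : x ∈ N := interior_subset hx
  obtain ⟨z, hz, hzx⟩ : (⟨x, hxN⟩ : N) ∈ (fun z : Gr W S N p => (⟨z.1.1, z.2.1⟩ : N)) ''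
      connectedComponent c := by rw [himg]; exact mem_univ _
  obtain ⟨hz1, w, hw, hwp, t, ht, hzt⟩ := z.2
  have e1 : z.1.1 = x := congrArg Subtype.val hzx
  have e2 : s = w * t * w⁻¹ := by rw [← hconst z hz, hzt]
  rw [e2, ← e1, ← hwp, mul_smul, inv_smul_smul, mul_smul, hSp t ht]

end Pool.Agent.ISY
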