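import Mathlib

/-!
# ISY-Nil: closures of (virtually) nilpotent groups

Mathlib only. Plan for `isNilpotent_topologicalClosure`: let `C := B.topologicalClosure`. Show by induction
on `n` that every element of `lowerCentralSeries C n` (seen in `Γ`) lies in the closure of the image of
`lowerCentralSeries B n`: the commutator of elements of `closure B_n` and `closure B` lies in the closure of
the set of commutators (`map_mem_closure₂`), which lies in `closure B_(n+1)`, a subgroup
(`Subgroup.topologicalClosure`), use `lowerCentralSeries_succ`, `Subgroup.closure_le`. For `n` with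
`lowerCentralSeries B n = ⊥` the closure of `{1}` is `{1}` (T2), so `lowerCentralSeries C n = ⊥`, use
`nilpotent_iff_lowerCentralSeries`. (Images in `Γ`: `(lowerCentralSeries B n).map B.subtype`.)

Plan for `relIndex_topologicalClosure`: `A` is a finite union of cosets `a_i B`, so
`closure A = ⋃ i, a_i • closure B` (closure of a finite union, `closure_smul`/homeomorphism `a_i * ·`); so
`closure B` has finite index in `closure A` (`Subgroup.relIndex`, `Subgroup.index_ne_zero_of_finite`, or
`Subgroup.relIndex_ne_zero`; the quotient map from the finite set of the `a_i` is onto).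
-/

set_option autoImplicit false

open Set Topology Filter

namespace Pool.Agent.ISY

theorem isNilpotent_topologicalClosure {Γ : Type} [Group Γ] [TopologicalSpace Γ]
    [IsTopologicalGroup Γ] [T2Space Γ] (B : Subgroup Γ) (h : Group.IsNilpotent B) :
    Group.IsNilpotent B.topologicalClosure := by
  rw [Subgroup.isNilpotent_iff_lowerCentralSeries] at h ⊢
  obtain ⟨n, hn⟩ := h
  refine ⟨n, ?_⟩
  have key : ∀ n, B.topologicalClosure.lowerCentralSeries n ≤ (B.lowerCentralSeries n).topologicalClosure := by
    intro n
    induction n with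
    | zero => exact le_refl _
    | succ n ih =>
      rw [Subgroup.lowerCentralSeries_succ, Subgroup.lowerCentralSeries_succ, Subgroup.commutator_le]
      intro x hx y hy
      have hx' : x ∈ closure ((B.lowerCentralSeries n : Subgroup Γ) : Set Γ) := ih hx
      have hy' : y ∈ closure (B : Set Γ) := hy
      have hc : Continuous (Function.uncurry (fun a b : Γ => a * b * a⁻¹ * b⁻¹)) := by
        have h1 : Continuous (fun p : Γ × Γ => p.1 * p.2 * p.1⁻¹ * p.2⁻¹) := by fun_prop
        exact h1
      exact map_mem_closure₂ hc hx' hy' fun a ha b hb => Subgroup.commutator_mem_commutator ha hb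
  have h1 := key n
  rw [hn] at h1
  rw [eq_bot_iff]
  intro x hx
  have h2 : x ∈ closure ((⊥ : Subgroup Γ) : Set Γ) := h1 hx
  rw [Subgroup.coe_bot, closure_singleton] at h2
  exact h2

theorem relIndex_topologicalClosure {Γ : Type} [Group Γ] [TopologicalSpace Γ]
    [IsTopologicalGroup Γ] (A B : Subgroup Γ) (hBA : B ≤ A) (h : B.relIndex A ≠ 0) :
    B.topologicalClosure.relIndex A.topologicalClosure ≠ 0 := by
  have hfin : Finite (A ⧸ B.subgroupOf A) := by
    have h1 : Nat.card (A ⧸ B.subgroupOf A) ≠ 0 := h
    exact Nat.finite_of_card_ne_zero h1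
  have hcov : ∀ x ∈ A.topologicalClosure, ∃ q : A ⧸ B.subgroupOf A,
      ((Quotient.out q : A) : Γ)⁻¹ * x ∈ B.topologicalClosure := by
    have hsub : (A : Set Γ) ⊆ ⋃ q : A ⧸ B.subgroupOf A,
        {x : Γ | ((Quotient.out q : A) : Γ)⁻¹ * x ∈ B.topologicalClosure} := by
      intro a ha
      rw [mem_iUnion]
      refine ⟨QuotientGroup.mk (⟨a, ha⟩ : A), ?_⟩
      have h1 : (QuotientGroup.mk (Quotient.out (QuotientGroup.mk (⟨a, ha⟩ : A) : A ⧸ B.subgroupOf A)) : A ⧸ B.subgroupOf A) =
          QuotientGroup.mk (⟨a, ha⟩ : A) := QuotientGroup.out_eq' _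
      have h2 := QuotientGroup.eq.1 h1
      exact B.le_topologicalClosure (Subgroup.mem_subgroupOf.1 h2)
    have hcl : IsClosed (⋃ q : A ⧸ B.subgroupOf A,
        {x : Γ | ((Quotient.out q : A) : Γ)⁻¹ * x ∈ B.topologicalClosure}) := by
      refine isClosed_iUnion_of_finite fun q => ?_
      exact (B.isClosed_topologicalClosure).preimage (continuous_const.mul continuous_id)
    intro x hx
    have h1 := closure_minimal hsub hcl hx
    exact mem_iUnion.1 h1
  have hF : Function.Surjective (fun q : A ⧸ B.subgroupOf A =>
      (QuotientGroup.mk (⟨((Quotient.out q : A) : Γ), A.le_topologicalClosure (Quotient.out q : A).2⟩ : A.topologicalClosure) :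
        A.topologicalClosure ⧸ B.topologicalClosure.subgroupOf A.topologicalClosure)) := by
    intro y
    obtain ⟨⟨x, hx⟩, rfl⟩ := QuotientGroup.mk_surjective y
    obtain ⟨q, hq⟩ := hcov x hx
    refine ⟨q, ?_⟩
    exact QuotientGroup.eq.2 (Subgroup.mem_subgroupOf.2 hq)
  have := Finite.of_surjective _ hF
  exact Subgroup.index_ne_zero_of_finite

end Pool.Agent.ISY
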