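import Pool.Agent.ISY.Eff
import Pool.Agent.ISY.ML
import Pool.Agent.ISY.CorA
import Pool.Agent.ISY.CorB
import Pool.Agent.ISY.CorC
import Pool.Agent.ISY.CorN
import Pool.Agent.ISY.Nil
import Pool.Agent.ISY.AutP

/-!
# ISY-FinA: the isotropy criterion
-/

set_option autoImplicit false

open Set Topology Filter
open scoped Manifold

namespace Pool.Agent.ISY

section Abstract

variable {G X : Type} [Group G] [TopologicalSpace G] [IsTopologicalGroup G] [PolishSpace G]
  [TotallyDisconnectedSpace G] [TopologicalSpace X] [T2Space X] [SecondCountableTopology X]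
  [LocallyCompactSpace X] [LocallyConnectedSpace X] [PreconnectedSpace X] [Nontrivial X]
  [MulAction G X] [ContinuousSMul G X]

theorem mas (htr : ∀ x y : X, ∃ g : G, g • x = y) (hid : IdPrinc G X) (p : X) : Mas G X p :=
  fun _ hS hSp hV => master (isOpenMap_smul htr p) hid hS hSp hV

theorem exists_ne (htr : ∀ x y : X, ∃ g : G, g • x = y) (p : X) : ∃ g : G, g • p = p ∧ g ≠ 1 :=
  exists_ne_one_stabilizer htr (isOpenMap_smul htr p)

end Abstract

section

variable {E X : Type} [NormedAddCommGroup E] [NormedSpace ℂ E] [TopologicalSpace X]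
  [ChartedSpace E X]

/-- `G` acts transitively on `X` -/
def Transitive (G : Subgroup (AutM E X)) : Prop := ∀ x y : X, ∃ g ∈ G, g x = y

/-- the isotropy group of `G` at `p` -/
def isot (G : Subgroup (AutM E X)) (p : X) : Subgroup (AutM E X) where
  carrier := {g | g ∈ G ∧ g p = p}
  mul_mem' := fun {a b} ha hb => ⟨G.mul_mem ha.1 hb.1, by rw [AutM.mul_apply, hb.2, ha.2]⟩
  one_mem' := ⟨G.one_mem, rfl⟩
  inv_mem' := fun {a} ha => ⟨G.inv_mem ha.1, by
    conv_lhs => rw [← ha.2]
    exact AutM.inv_apply_self a p⟩

theorem mem_isot {G : Subgroup (AutM E X)} {p : X} {g : AutM E X} :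
    g ∈ isot G p ↔ g ∈ G ∧ g p = p := Iff.rfl

/-- what the isotropy group at `p` of a closed, transitive, totally disconnected group satisfies -/
structure Criterion (G : Subgroup (AutM E X)) (p : X) : Prop where
  /-- a compact subset of the isotropy group which is invariant under conjugation by an open subgroup of
  the isotropy group contains at most the identity -/
  compact : ∀ S : Set (AutM E X), IsCompact S → S ⊆ isot G p →
    (∃ V ∈ 𝓝 (1 : AutM E X), ∀ h ∈ V, h ∈ isot G p → ∀ s ∈ S, h * s * h⁻¹ ∈ S) → S ⊆ {1}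
  /-- the conjugacy class, in the isotropy group, of an element other than the identity is uncountable -/
  classes : ∀ s ∈ isot G p, s ≠ 1 →
    ¬ {t : AutM E X | ∃ h ∈ isot G p, t = h * s * h⁻¹}.Countable
  /-- a locally compact normal subgroup of the isotropy group is trivial -/
  normal : ∀ L : Subgroup (AutM E X), L ≤ isot G p →
    (∀ h ∈ isot G p, ∀ l ∈ L, h * l * h⁻¹ ∈ L) → LocallyCompactSpace L → L = ⊥
  /-- a locally compact normal subgroup of `G` acts freely on `X` -/
  free : ∀ L : Subgroup (AutM E X), L ≤ G → (∀ g ∈ G, ∀ l ∈ L, g * l * g⁻¹ ∈ L) →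
    LocallyCompactSpace L → ∀ l ∈ L, l ≠ 1 → ∀ x : X, l x ≠ x
  /-- the isotropy group is uncountable -/
  uncountable : ¬ (isot G p : Set (AutM E X)).Countable
  /-- no subgroup of finite index of the isotropy group is nilpotent -/
  nilpotent : ∀ L : Subgroup (AutM E X), L ≤ isot G p → L.relIndex (isot G p) ≠ 0 →
    ¬ Group.IsNilpotent L

/-- no virtually nilpotent subgroup of `G` is transitive -/
def NoNilpotentTransitive (G : Subgroup (AutM E X)) : Prop :=
  ∀ A B : Subgroup (AutM E X), A ≤ G → Transitive A → B ≤ A → B.relIndex A ≠ 0 →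
    ¬ Group.IsNilpotent B

end

section

variable {E X : Type} [NormedAddCommGroup E] [NormedSpace ℂ E] [FiniteDimensional ℂ E]
  [Nontrivial E] [TopologicalSpace X] [T2Space X] [SecondCountableTopology X] [ConnectedSpace X]
  [ChartedSpace E X] [IsManifold 𝓘(ℂ, E) (⊤ : WithTop ℕ∞) X]

/-- a group with an injective homomorphism into a nilpotent group is nilpotent -/
private theorem isNilpotent_of_inj {A B : Type} [Group A] [Group B] [Group.IsNilpotent B]
    (f : A →* B) (hf : Function.Injective f) : Group.IsNilpotent A := by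
  have : Group.IsNilpotent f.range := inferInstance
  exact Group.nilpotent_of_mulEquiv (MonoidHom.ofInjective hf).symm

theorem criterion {G : Subgroup (AutM E X)} (hcl : IsClosed (G : Set (AutM E X)))
    (htr : Transitive G) (htd : IsTotallyDisconnected (G : Set (AutM E X))) (p : X) :
    Criterion G p := by
  have i1 := isTopologicalGroup_autM E X
  have i2 := polishSpace_autM E X
  have i3 := continuousSMul_autM E X
  have i4 := t2Space_autM E X
  have : LocallyCompactSpace X := Manifold.locallyCompact_of_finiteDimensional 𝓘(ℂ, E)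
  have : LocallyConnectedSpace X := locallyConnectedSpace_of_chart E X
  have : Nontrivial X := nontrivial_of_chart E X
  have : PolishSpace G := hcl.polishSpace
  have : TotallyDisconnectedSpace G := totallyDisconnectedSpace_subtype_iff.2 htd
  have htr' : ∀ x y : X, ∃ g : G, g • x = y := fun x y => by
    obtain ⟨g, hg, h⟩ := htr x y
    exact ⟨⟨g, hg⟩, h⟩
  have hid : IdPrinc G X := fun g U hU hne h =>
    Subtype.ext (eq_one_of_eqOn E X g.1 U hU hne h)
  have hmas : ∀ q : X, Mas G X q := fun q => mas htr' hid q
  have hne : ∃ g : G, g • p = p ∧ g ≠ 1 := exists_ne htr' p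
  have hclass : ∀ s : G, s • p = p → (cls p s).Countable → s = 1 := fun s hs hc =>
    eq_one_of_countable_cls (hmas p) hs hc
  -- (a) classes
  have hA : ∀ s ∈ isot G p, s ≠ 1 →
      ¬ {t : AutM E X | ∃ h ∈ isot G p, t = h * s * h⁻¹}.Countable := by
    intro s hs hs1 hc
    have h1 : (cls p (⟨s, hs.1⟩ : G)).Countable := by
      refine (hc.preimage_of_injOn (f := (Subtype.val : G → AutM E X))
        Subtype.val_injective.injOn).mono ?_
      rintro t ⟨h, hh, rfl⟩
      exact ⟨h.1, ⟨h.2, hh⟩, rfl⟩
    have h2 := hclass ⟨s, hs.1⟩ hs.2 h1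
    exact hs1 (congrArg Subtype.val h2)
  -- (b) locally compact subgroups
  have hB : ∀ q : X, ∀ L : Subgroup (AutM E X), L ≤ isot G q →
      (∀ h ∈ isot G q, ∀ l ∈ L, h * l * h⁻¹ ∈ L) → LocallyCompactSpace L → L = ⊥ := by
    intro q L hL hn hlc
    have hLG : L ≤ G := fun l hl => (hL hl).1
    have hemb : (L.subgroupOf G) ≃ₜ L :=
      { toFun := fun l => ⟨l.1.1, l.2⟩
        invFun := fun l => ⟨⟨l.1, hLG l.2⟩, l.2⟩
        left_inv := fun _ => rfl
        right_inv := fun _ => rfl
        continuous_toFun := by fun_prop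
        continuous_invFun := by fun_prop }
    have : LocallyCompactSpace (L.subgroupOf G) :=
      hemb.isClosedEmbedding.locallyCompactSpace
    have h1 : L.subgroupOf G = ⊥ := by
      refine eq_bot_of_locallyCompact (hmas q) _ (fun l hl => (hL hl).2) ?_ inferInstance
      intro h hh l hl
      exact hn h.1 ⟨h.2, hh⟩ l.1 hl
    rw [Subgroup.subgroupOf_eq_bot, disjoint_iff, inf_eq_left.2 hLG] at h1
    exact h1
  refine ⟨?_, hA, hB p, ?_, ?_, ?_⟩
  · rintro S hS hSG ⟨V, hV, hVS⟩ s hs
    have h1 : ∀ s ∈ (Subtype.val ⁻¹' S : Set G), s = 1 := by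
      refine hmas p _ ?_ (fun s hs => (hSG hs).2) ?_
      · refine (Topology.IsEmbedding.subtypeVal.isInducing.isCompact_preimage_iff ?_).2 hS
        intro s hs
        exact ⟨⟨s, (hSG hs).1⟩, rfl⟩
      · refine ⟨Subtype.val ⁻¹' V, ?_, fun h hh hhp s hs => hVS h.1 hh ⟨h.2, hhp⟩ s.1 hs⟩
        exact continuous_subtype_val.continuousAt.preimage_mem_nhds (by simpa using hV)
    have h2 := h1 ⟨s, (hSG hs).1⟩ hs
    exact congrArg Subtype.val h2
  · intro L hLG hn hlc l hl hl1 x hlx
    have hlc' : LocallyCompactSpace (L ⊓ isot G x : Subgroup (AutM E X)) := by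
      have hinc : IsClosedEmbedding (Set.inclusion (s := ((L ⊓ isot G x :
          Subgroup (AutM E X)) : Set (AutM E X))) (t := (L : Set (AutM E X)))
          (inf_le_left : L ⊓ isot G x ≤ L)) := by
        refine ⟨IsEmbedding.inclusion _, ?_⟩
        have h0 : range (Set.inclusion (s := ((L ⊓ isot G x :
            Subgroup (AutM E X)) : Set (AutM E X))) (t := (L : Set (AutM E X)))
            (inf_le_left : L ⊓ isot G x ≤ L)) = {l : (L : Set (AutM E X)) | l.1 • x = x} := by
          ext l
          constructor
          · rintro ⟨k, rfl⟩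
            exact k.2.2.2
          · intro hl
            exact ⟨⟨l.1, l.2, hLG l.2, hl⟩, rfl⟩
        rw [h0]
        exact isClosed_eq (by fun_prop) continuous_const
      exact hinc.locallyCompactSpace
    have h1 : (L ⊓ isot G x : Subgroup (AutM E X)) = ⊥ := by
      refine hB x _ inf_le_right ?_ ?_
      · intro h hh l hl
        exact ⟨hn h hh.1 l hl.1, (isot G x).mul_mem ((isot G x).mul_mem hh hl.2)
          ((isot G x).inv_mem hh)⟩
      · exact hlc'
    have h2 : l ∈ (L ⊓ isot G x : Subgroup (AutM E X)) := ⟨hl, hLG hl, hlx⟩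
    rw [h1] at h2
    exact hl1 h2
  · intro hc
    obtain ⟨g, hg, hg1⟩ := hne
    refine hA g.1 ⟨g.2, hg⟩ (fun h => hg1 (Subtype.ext h)) (hc.mono ?_)
    rintro t ⟨h, hh, rfl⟩
    exact (isot G p).mul_mem ((isot G p).mul_mem hh ⟨g.2, hg⟩) ((isot G p).inv_mem hh)
  · intro L hL hfi hnil
    let φ : MulAction.stabilizer G p →* AutM E X := G.subtype.comp (MulAction.stabilizer G p).subtype
    have hφ : Function.Injective φ := fun a b h => Subtype.ext (Subtype.ext h)
    have hrange : φ.range = isot G p := by
      ext g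
      constructor
      · rintro ⟨h, rfl⟩
        exact ⟨h.1.2, h.2⟩
      · intro hg
        exact ⟨⟨⟨g, hg.1⟩, hg.2⟩, rfl⟩
    refine not_isNilpotent hclass hne (L.comap φ) ⟨?_⟩ ?_
    · rw [Subgroup.index_comap, hrange]
      exact hfi
    · refine isNilpotent_of_inj (φ.subgroupComap L) fun a b h => ?_
      have h3 : (((φ.subgroupComap L) a : L) : AutM E X) = ((φ.subgroupComap L) b : L) := by
        rw [h]
      exact Subtype.ext (hφ h3)

theorem totallyDisconnectedSpace_of_not_hasFlow (h : ¬ HasFlow E X) :
    TotallyDisconnectedSpace (AutM E X) := by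
  have := isTopologicalGroup_autM E X
  rw [hasFlow_iff, not_not] at h
  rw [totallyDisconnectedSpace_iff_connectedComponent_singleton]
  intro f
  refine Subset.antisymm (fun g hg => ?_) (singleton_subset_iff.2 mem_connectedComponent)
  have h1 : IsPreconnected ((fun k : AutM E X => f⁻¹ * k) '' connectedComponent f) :=
    isPreconnected_connectedComponent.image _ (by fun_prop)
  have h2 := h1.subset_connectedComponent (x := (1 : AutM E X))
    ⟨f, mem_connectedComponent, inv_mul_cancel f⟩ (mem_image_of_mem _ hg)
  rw [h, mem_singleton_iff, inv_mul_eq_one] at h2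
  exact h2.symm

/-- a closed, transitive, totally disconnected group has no transitive virtually nilpotent subgroup -/
theorem noNilpotentTransitive {G : Subgroup (AutM E X)} (hcl : IsClosed (G : Set (AutM E X)))
    (htd : IsTotallyDisconnected (G : Set (AutM E X))) : NoNilpotentTransitive G := by
  intro A B hAG htr hBA hfi hB
  have i1 := isTopologicalGroup_autM E X
  have i2 := t2Space_autM E X
  obtain ⟨p⟩ : Nonempty X := inferInstance
  have hAG' : A.topologicalClosure ≤ G := A.topologicalClosure_minimal hAG hcl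
  have h1 : Criterion A.topologicalClosure p := by
    refine criterion A.isClosed_topologicalClosure (fun x y => ?_) ?_ p
    · obtain ⟨a, ha, h⟩ := htr x y
      exact ⟨a, A.le_topologicalClosure ha, h⟩
    · intro t ht ht'
      exact htd t (ht.trans hAG') ht'
  have h2 := relIndex_topologicalClosure A B hBA hfi
  have i3 := isNilpotent_topologicalClosure B hB
  refine h1.nilpotent (B.topologicalClosure ⊓ isot A.topologicalClosure p) inf_le_right ?_ ?_
  · rw [Subgroup.inf_relIndex_right]
    have h3 : isot A.topologicalClosure p ≤ A.topologicalClosure := fun g hg => hg.1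
    exact fun h => h2 (Subgroup.relIndex_eq_zero_of_le_right h3 h)
  · exact isNilpotent_of_inj (Subgroup.inclusion (inf_le_left (a := B.topologicalClosure)
      (b := isot A.topologicalClosure p))) (Subgroup.inclusion_injective _)

end

end Pool.Agent.ISY
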