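import Pool.Agent.ISY.Ab
import Pool.Agent.ISY.CstO

/-!
# ISY-IVb: Lemma IV, second case: some element fixing `b` acts nontrivially on the base
-/

set_option autoImplicit false

open Set Topology Filter

namespace Pool.Agent.ISY

private theorem ib_vert {G Y : Type} [Group G] [TopologicalSpace Y] [MulAction G Y] (hB : BaseOK G Y)
    {b : Y} {r g g' : G} (hr : r • b = b) (h : g • b = g' • b) :
    Vert Y (g' * r * g'⁻¹ * r⁻¹ * (g * r * g⁻¹ * r⁻¹)⁻¹) := by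
  intro y
  have hh : (g⁻¹ * g') • b = b := by
    rw [mul_smul, ← h, inv_smul_smul]
  have key : ∀ z : Y, (g' * r * g'⁻¹) • z = (g * r * g⁻¹) • z := by
    intro z
    obtain ⟨k, hk⟩ : ∃ k : G, k = g⁻¹ * g' := ⟨_, rfl⟩
    rw [← hk] at hh
    have hg' : g' = g * k := by
      rw [hk]
      group
    have e1 : g' * r * g'⁻¹ = g * (k * (r * (k⁻¹ * g⁻¹))) := by
      rw [hg']
      group
    rw [e1, mul_smul, mul_smul, mul_smul, hB.ab b k r hh hr, mul_smul, smul_inv_smul, mul_smul,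
      mul_smul]
  have e2 : g' * r * g'⁻¹ * r⁻¹ * (g * r * g⁻¹ * r⁻¹)⁻¹ = (g' * r * g'⁻¹) * (g * r * g⁻¹)⁻¹ := by
    group
  rw [e2, mul_smul, key, smul_inv_smul]

theorem eq_one_of_idOn_b {G X Y : Type} [Group G] [TopologicalSpace G] [IsTopologicalGroup G]
    [TotallyDisconnectedSpace G] [TopologicalSpace X] [TopologicalSpace Y]
    [LocallyConnectedSpace Y] [MulAction G X] [MulAction G Y] [ContinuousSMul G Y] {π : X → Y}
    (hF : Fibr G π) (hB : BaseOK G Y) (hid : FibId G π) {A : Subgroup G} (hA : GoodA π A) {f : G}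
    {b : Y} (hf : Vert Y f) (hfb : IdOn π f b) {r : G} (hr : r • b = b) (hr' : ¬ Vert Y r) :
    f = 1 := by
  have hfA : f ∈ A := hA.ker f b hf hfb
  obtain ⟨W, hW, hWA⟩ := hA.nhd
  obtain ⟨c, hc⟩ : ∃ c : G → G, c = fun g => g * r * g⁻¹ * r⁻¹ := ⟨_, rfl⟩
  have hcc : Continuous c := by
    rw [hc]
    fun_prop
  have hc1 : c 1 = 1 := by
    rw [hc]
    group
  -- the neighbourhood
  have hq : Continuous (fun p : G × G => c p.2 * (c p.1)⁻¹) := by fun_prop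
  have hW2 : (fun p : G × G => c p.2 * (c p.1)⁻¹) ⁻¹' W ∈ 𝓝 ((1, 1) : G × G) := by
    refine hq.continuousAt.preimage_mem_nhds ?_
    rw [hc1]
    simpa using hW
  rw [nhds_prod_eq] at hW2
  obtain ⟨V, hV, hVW⟩ := Filter.mem_prod_self_iff.1 hW2
  obtain ⟨W', hW'V, hW'o, h1W'⟩ := mem_nhds_iff.1 hV
  have hWW : ∀ g ∈ W', ∀ g' ∈ W', c g' * (c g)⁻¹ ∈ W := by
    intro g hg g' hg'
    exact hVW (show ((g, g') : G × G) ∈ V ×ˢ V from ⟨hW'V hg, hW'V hg'⟩)
  -- the map Psi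
  obtain ⟨Ψ, hΨ⟩ : ∃ Ψ : G → G, Ψ = fun g => c g * f * (c g)⁻¹ := ⟨_, rfl⟩
  have hΨc : Continuous Ψ := by
    rw [hΨ]
    fun_prop
  have hΨ1 : Ψ 1 = f := by
    rw [hΨ]
    show c 1 * f * (c 1)⁻¹ = f
    rw [hc1]
    group
  have hwd : ∀ g ∈ W', ∀ g' ∈ W', (fun g : G => g • b) g = (fun g : G => g • b) g' → Ψ g = Ψ g' := by
    intro g hg g' hg' hgg
    have hgg' : g • b = g' • b := hgg
    have hv : Vert Y (c g' * (c g)⁻¹) := by
      rw [hc]
      exact ib_vert hB hr hgg'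
    have hqA : c g' * (c g)⁻¹ ∈ A := hWA _ (hWW g hg g' hg') hv
    have hΨA : Ψ g ∈ A := by
      rw [hΨ]
      exact hA.normal _ f hfA
    have hcomm := hA.comm _ hqA _ hΨA
    have e1 : Ψ g' = (c g' * (c g)⁻¹) * Ψ g * (c g' * (c g)⁻¹)⁻¹ := by
      rw [hΨ]
      show c g' * f * (c g')⁻¹ = (c g' * (c g)⁻¹) * (c g * f * (c g)⁻¹) * (c g' * (c g)⁻¹)⁻¹
      group
    rw [e1, hcomm, mul_inv_cancel_right]
  -- the connected neighbourhood
  have hoW : IsOpen ((fun g : G => g • b) '' W') := hF.hopY b W' hW'o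
  have hb1 : b ∈ (fun g : G => g • b) '' W' := ⟨1, h1W', one_smul G b⟩
  obtain ⟨U, hUe⟩ : ∃ U : Set Y, U = connectedComponentIn ((fun g : G => g • b) '' W') b := ⟨_, rfl⟩
  have hUo : IsOpen U := by
    rw [hUe]
    exact hoW.connectedComponentIn
  have hUp : IsPreconnected U := by
    rw [hUe]
    exact isPreconnected_connectedComponentIn
  have hbU : b ∈ U := by
    rw [hUe]
    exact mem_connectedComponentIn hb1
  have hUs : U ⊆ (fun g : G => g • b) '' W' := by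
    rw [hUe]
    exact connectedComponentIn_subset _ _
  have hconst : ∀ g ∈ W', g • b ∈ U → Ψ g = f := by
    intro g hg hgU
    have h1 := const_of_open (hF.hopY b) hW'o hΨc.continuousOn hwd hUp hUs g hg 1 h1W' hgU
      (by
        show (1 : G) • b ∈ U
        rw [one_smul]
        exact hbU)
    rw [h1, hΨ1]
  have hidc : ∀ g ∈ W', g • b ∈ U → IdOn π f (c g • b) := by
    intro g hg hgU x hx
    have h1 := hconst g hg hgU
    rw [hΨ] at h1
    have h2 : c g * f * (c g)⁻¹ = f := h1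
    have h3 : π ((c g)⁻¹ • x) = b := by
      rw [hF.equi, hx, inv_smul_smul]
    have h4 := hfb _ h3
    calc f • x = (c g * f * (c g)⁻¹) • x := by rw [h2]
      _ = c g • (f • ((c g)⁻¹ • x)) := by rw [mul_smul, mul_smul]
      _ = x := by rw [h4, smul_inv_smul]
  refine hid b f hf ?_
  rw [Filter.frequently_iff]
  intro U0 hU0
  obtain ⟨O, hOo, hbO, hOU⟩ := mem_nhdsWithin.1 hU0
  have hN : ∀ᶠ g : G in 𝓝 1, g ∈ W' ∧ g • b ∈ U ∧ c g • b ∈ O := by
    have h0 : ∀ᶠ g : G in 𝓝 1, g ∈ W' := hW'o.mem_nhds h1W'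
    refine h0.and (Filter.Eventually.and ?_ ?_)
    · have h1 : ContinuousAt (fun g : G => g • b) 1 := by fun_prop
      refine h1.eventually_mem ?_
      rw [one_smul]
      exact hUo.mem_nhds hbU
    · have h1 : ContinuousAt (fun g : G => c g • b) 1 := by fun_prop
      refine h1.eventually_mem ?_
      rw [hc1, one_smul]
      exact hOo.mem_nhds hbO
  have hM : ∀ᶠ h : G in 𝓝 1, h⁻¹ ∈ W' ∧ h⁻¹ • b ∈ U ∧ c h⁻¹ • b ∈ O := by
    have h1 : Tendsto (fun h : G => h⁻¹) (𝓝 1) (𝓝 1) := by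
      have := (continuous_inv (G := G)).tendsto 1
      rwa [inv_one] at this
    exact h1.eventually hN
  have hoM : (fun g : G => g • b) '' {h : G | h⁻¹ ∈ W' ∧ h⁻¹ • b ∈ U ∧ c h⁻¹ • b ∈ O} ∈ 𝓝 b := by
    have h1 := (hF.hopY b).image_mem_nhds hM
    rwa [one_smul] at h1
  have hnb := hB.noniso b
  have hoM2 : ∀ᶠ y : Y in 𝓝[≠] b,
      y ∈ (fun g : G => g • b) '' {h : G | h⁻¹ ∈ W' ∧ h⁻¹ • b ∈ U ∧ c h⁻¹ • b ∈ O} :=
    mem_nhdsWithin_of_mem_nhds hoM
  obtain ⟨y, ⟨h, hh, hy⟩, hry⟩ := (hoM2.and (hB.iso b r hr hr')).exists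
  have hy' : h • b = y := hy
  have hne : c h⁻¹ • b ≠ b := by
    intro he
    apply hry
    have hrb : r⁻¹ • b = b := by
      rw [inv_smul_eq_iff, hr]
    have e1 : c h⁻¹ • b = h⁻¹ • (r • (h • b)) := by
      rw [hc]
      show (h⁻¹ * r * h⁻¹⁻¹ * r⁻¹) • b = _
      rw [mul_smul, hrb, inv_inv, mul_smul, mul_smul]
    rw [e1, inv_smul_eq_iff] at he
    rw [← hy']
    exact he
  exact ⟨c h⁻¹ • b, hOU ⟨hh.2.2, hne⟩, hidc _ hh.1 hh.2.1⟩

end Pool.Agent.ISY
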