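import Pool.Agent.ISY.IVa
import Pool.Agent.ISY.IVb
import Pool.Agent.ISY.Cs2
import Pool.Agent.ISY.Cn1
import Pool.Agent.ISY.Cn2
import Pool.Agent.ISY.Cn3

/-!
# ISY-GoodB: the abstract conclusions
-/

set_option autoImplicit false

open Set Topology Filter

namespace Pool.Agent.ISY

theorem exists_goodA_C {G X Y : Type} [Group G] [TopologicalSpace G] [IsTopologicalGroup G]
    [TotallyDisconnectedSpace G] [Nonempty X] [TopologicalSpace X] [TopologicalSpace Y]
    [PreconnectedSpace Y] [LocallyCompactSpace X] [MulAction G X] [MulAction G Y]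
    [ContinuousSMul G X] {π : X → Y} (hF : Fibr G π) (hB : BaseOK G Y) (hL : LimOK G X)
    {U : Y → X → ℂ} (hU : FibC G π U) : ∃ A : Subgroup G, GoodA π A := by
  by_cases hN : ∃ f : G, Vert Y f ∧ f ≠ 1
  · obtain ⟨β, hβ, hβ1⟩ := exists_trans_ne_one hF.equi hU hF.faithful hF.trX hN
    have hconst : ∀ f : G, Vert Y f → ∀ (y y' : Y) (m : ℂ), IsMul π U f y m →
        IsMul π U f y' m := fun f hf y y' m h => isMul_const hF hB hU hβ hβ1 hf h
    refine ⟨Trans hF.equi U, fun g a ha => trans_normal hF.equi hU g a ha,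
      fun a ha a' ha' => trans_comm hF.equi hU hF.faithful a a' ha ha', fun a ha => ha.1,
      trans_nhd hF hL hU hβ hβ1 hconst, fun f b hf hfb => ⟨hf, fun y => ?_⟩⟩
    refine hconst f hf b y 1 fun x x' hx hx' => ?_
    rw [hfb x hx, hfb x' hx', one_mul]
  · push Not at hN
    refine ⟨⊥, fun g a ha => ?_, fun a ha a' ha' => ?_, fun a ha y => ?_, ?_, fun f b hf _ => ?_⟩
    · rw [Subgroup.mem_bot] at ha ⊢
      subst ha
      group
    · rw [Subgroup.mem_bot] at ha ha'
      rw [ha, ha']
    · rw [Subgroup.mem_bot] at ha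
      rw [ha, one_smul]
    · exact ⟨univ, univ_mem, fun f _ hf => Subgroup.mem_bot.2 (hN f hf)⟩
    · exact Subgroup.mem_bot.2 (hN f hf)

theorem eq_one_of_idOn {G X Y : Type} [Group G] [TopologicalSpace G] [IsTopologicalGroup G]
    [TotallyDisconnectedSpace G] [TopologicalSpace X] [TopologicalSpace Y]
    [LocallyConnectedSpace Y] [MulAction G X] [MulAction G Y] [ContinuousSMul G Y] {π : X → Y}
    (hF : Fibr G π) (hB : BaseOK G Y) (hid : FibId G π) {A : Subgroup G} (hA : GoodA π A) {f : G}
    {b : Y} (hf : Vert Y f) (hfb : IdOn π f b) : f = 1 := by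
  by_cases h : ∀ r : G, r • b = b → Vert Y r
  · exact eq_one_of_idOn_a hF hB hid hA hf hfb h
  · push Not at h
    obtain ⟨r, hr, hr'⟩ := h
    exact eq_one_of_idOn_b hF hB hid hA hf hfb hr hr'

/-- if no vertical element other than `1` is the identity on a fibre, the stabilizers are abelian -/
theorem stab_comm {G X Y : Type} [Group G] [TopologicalSpace G] [TopologicalSpace X]
    [TopologicalSpace Y] [MulAction G X] [MulAction G Y] {π : X → Y} (hF : Fibr G π)
    (hB : BaseOK G Y)
    (hfib : ∀ (x : X) (g h : G), g • x = x → h • x = x → ∀ x', π x' = π x →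
      g • h • x' = h • g • x')
    (hK : ∀ (f : G) (b : Y), Vert Y f → IdOn π f b → f = 1) (x : X) (g h : G) (hg : g • x = x)
    (hh : h • x = x) : g * h = h * g := by
  have hgb : g • π x = π x := by rw [← hF.equi, hg]
  have hhb : h • π x = π x := by rw [← hF.equi, hh]
  have key : (h * g)⁻¹ * (g * h) = 1 := by
    refine hK _ (π x) (fun y => ?_) (fun x' hx' => ?_)
    · rw [mul_smul, inv_smul_eq_iff, mul_smul, mul_smul, hB.ab (π x) g h hgb hhb y]
    · rw [mul_smul, inv_smul_eq_iff, mul_smul, mul_smul, hfib x g h hg hh x' hx']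
  rw [inv_mul_eq_one] at key
  exact key.symm

end Pool.Agent.ISY
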