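import Pool.Agent.ISY.Hat
import Pool.Agent.ISY.DQ
import Pool.Agent.ISY.AutP

/-!
# ISY-VecL: moving a fibre coordinate by automorphisms tending to the identity

Uses `analyticAt_chart`, `continuous_of_submersive` (ISY-Hat), `tendsto_dslope` (ISY-DQ), and ISY-AutP (proved).

`V w := u (e.symm (b, w))` is holomorphic near `w` (`hu.2 e he`). `v i w' := u ((g i)⁻¹ (e.symm (z i, w')))`.

Plan. (1) Let `x := e.symm (b, w)`. The map `(g, z, w') ↦ g⁻¹ (e.symm (z, w'))` is continuous at `(1, b, w)` with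
value `x` (`isTopologicalGroup_autM`, `continuousSMul_autM`, `e.symm` continuous on the open set `e.target`). So there is
`ρ > 0` such that for all `i` along `L` and all `w' ∈ ball w ρ`: `(z i, w') ∈ e.target`, `(b, w') ∈ e.target` and
`(g i)⁻¹ (e.symm (z i, w')) ∈ e.source` (the condition is open at `(1, b, w)`: product neighbourhoods). Put
`k i w' := (e ((g i)⁻¹ (e.symm (z i, w')))).2`. As `(g i)⁻¹` maps the fibre over `z i` into that over `b` (`hgz`),
`(g i)⁻¹ (e.symm (z i, w')) = e.symm (b, k i w')`, and `v i w' = V (k i w')` there. `k i` is holomorphic on `ball w ρ`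
(`analyticAt_chart` with `e' = e`, composed with `w' ↦ (z i, w')`). (2) `k i → id` uniformly on `ball w ρ`
for `ρ` small: the function `(g, z, w') ↦ (e (g⁻¹ (e.symm (z, w')))).2 - w'` is continuous near `{1} × {b} × closedBall w ρ` and
vanishes at the points `(1, b, w')` (tube lemma / `IsCompact`, uniformity over the compact `closedBall w ρ`:
e.g. `ContinuousOn.tendstoUniformlyOn`-type lemmas or a direct compactness argument). (3) So for
smaller `ρ`, `v i = V ∘ k i → V` uniformly on `ball w ρ` (`V` is uniformly continuous on a closed ball), and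
`v i` is holomorphic on `ball w ρ`. (4) `tendsto_dslope` with `w' i → w`:
`dslope (v i) w (w' i) → deriv V w`; and `v i (w' i) - v i w = (w' i - w) * dslope (v i) w (w' i)`
(`sub_smul_dslope`), divide by `δ i`.
`tendsto_coord` is the pointwise part of (1), (2): `k i w → w`, `V` continuous at `w`.
-/

set_option autoImplicit false

open Set Topology Metric Filter
open scoped Manifold

namespace Pool.Agent.ISY

section
variable {X : Type} [TopologicalSpace X] [T2Space X] [SecondCountableTopology X]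
  [ChartedSpace (ℂ × ℂ) X] [IsManifold 𝓘(ℂ, ℂ × ℂ) (⊤ : WithTop ℕ∞) X] {π : X → ℂ}
  {ι : Type} {L : Filter ι}

/-- the moved point -/
private noncomputable def vlΦ (e : OpenPartialHomeomorph X (ℂ × ℂ)) (p : (AutM (ℂ × ℂ) X × ℂ) × ℂ) : X :=
  (p.1.1)⁻¹ (e.symm (p.1.2, p.2))

private theorem vl_cont (e : OpenPartialHomeomorph X (ℂ × ℂ)) {b w : ℂ} (hw : (b, w) ∈ e.target) :
    ContinuousAt (vlΦ e) (((1 : AutM (ℂ × ℂ) X), b), w) := by
  have hG : IsTopologicalGroup (AutM (ℂ × ℂ) X) := isTopologicalGroup_autM (ℂ × ℂ) X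
  have hS : ContinuousSMul (AutM (ℂ × ℂ) X) X := continuousSMul_autM (ℂ × ℂ) X
  have h1 : ContinuousAt (fun p : (AutM (ℂ × ℂ) X × ℂ) × ℂ => (p.1.1)⁻¹)
      (((1 : AutM (ℂ × ℂ) X), b), w) := (continuous_inv.comp (continuous_fst.comp continuous_fst)).continuousAt
  have h2 : ContinuousAt (fun p : (AutM (ℂ × ℂ) X × ℂ) × ℂ => e.symm (p.1.2, p.2))
      (((1 : AutM (ℂ × ℂ) X), b), w) := by
    have h3 : ContinuousAt e.symm ((fun p : (AutM (ℂ × ℂ) X × ℂ) × ℂ => (p.1.2, p.2))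
        (((1 : AutM (ℂ × ℂ) X), b), w)) := e.continuousAt_symm hw
    exact h3.comp (f := fun p : (AutM (ℂ × ℂ) X × ℂ) × ℂ => (p.1.2, p.2)) (by fun_prop)
  exact h1.smul h2

private theorem vl_val (e : OpenPartialHomeomorph X (ℂ × ℂ)) (b w : ℂ) :
    vlΦ e (((1 : AutM (ℂ × ℂ) X), b), w) = e.symm (b, w) := by
  unfold vlΦ
  simp

private theorem vl_cont2 (e : OpenPartialHomeomorph X (ℂ × ℂ)) {b w : ℂ} (hw : (b, w) ∈ e.target) :
    ContinuousAt (fun p => (e (vlΦ e p)).2) (((1 : AutM (ℂ × ℂ) X), b), w) := by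
  have h1 := vl_cont e hw
  have h2 : ContinuousAt e (vlΦ e (((1 : AutM (ℂ × ℂ) X), b), w)) := by
    rw [vl_val]
    exact e.continuousAt (e.map_target hw)
  exact continuous_snd.continuousAt.comp (h2.comp h1)

private theorem vl_val2 (e : OpenPartialHomeomorph X (ℂ × ℂ)) {b w : ℂ} (hw : (b, w) ∈ e.target) :
    (e (vlΦ e (((1 : AutM (ℂ × ℂ) X), b), w))).2 = w := by
  rw [vl_val, e.right_inv hw]

private theorem vl_open (e : OpenPartialHomeomorph X (ℂ × ℂ)) (b : ℂ) :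
    IsOpen {w : ℂ | (b, w) ∈ e.target} :=
  e.open_target.preimage (by fun_prop : Continuous fun w : ℂ => (b, w))

/-- locally uniform control -/
private theorem vl_ev {b : ℂ} {F : Set ℂ} {u : X → ℂ} (hu : FibreCoord π b F u)
    {e : OpenPartialHomeomorph X (ℂ × ℂ)} (he : Adapted π e) {K : Set ℂ} (hK : IsCompact K)
    (hKt : ∀ w ∈ K, (b, w) ∈ e.target)
    {g : ι → AutM (ℂ × ℂ) X} (hg : Tendsto g L (𝓝 1)) {z : ι → ℂ} (hz : Tendsto z L (𝓝 b))
    {ε : ℝ} (hε : 0 < ε) :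
    ∀ᶠ i in L, ∀ w ∈ K, (z i, w) ∈ e.target ∧ vlΦ e ((g i, z i), w) ∈ e.source ∧
      dist (u (e.symm (b, w))) (u (e.symm (b, (e (vlΦ e ((g i, z i), w))).2))) < ε := by
  have h1 : ∀ᶠ q : AutM (ℂ × ℂ) X × ℂ in 𝓝 (1, b), ∀ w ∈ K, (q.2, w) ∈ e.target ∧
      vlΦ e (q, w) ∈ e.source ∧
      dist (u (e.symm (b, w))) (u (e.symm (b, (e (vlΦ e (q, w))).2))) < ε := by
    refine hK.eventually_forall_of_forall_eventually
      (P := fun (q : AutM (ℂ × ℂ) X × ℂ) (w : ℂ) => (q.2, w) ∈ e.target ∧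
      vlΦ e (q, w) ∈ e.source ∧
      dist (u (e.symm (b, w))) (u (e.symm (b, (e (vlΦ e (q, w))).2))) < ε) ?_
    intro w hw
    have hwt := hKt w hw
    have hc1 : ContinuousAt (fun p : (AutM (ℂ × ℂ) X × ℂ) × ℂ => (p.1.2, p.2))
        (((1 : AutM (ℂ × ℂ) X), b), w) := by fun_prop
    have e1 := hc1.preimage_mem_nhds (e.open_target.mem_nhds hwt)
    have e2 : ∀ᶠ p in 𝓝 (((1 : AutM (ℂ × ℂ) X), b), w), vlΦ e p ∈ e.source := by
      refine (vl_cont e hwt).preimage_mem_nhds (e.open_source.mem_nhds ?_)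
      rw [vl_val]
      exact e.map_target hwt
    have hV : DifferentiableAt ℂ (fun w : ℂ => u (e.symm (b, w))) w :=
      (hu.2 e he).differentiableAt ((vl_open e b).mem_nhds hwt)
    have hV2 : ContinuousAt (fun w : ℂ => u (e.symm (b, w)))
        ((fun p => (e (vlΦ e p)).2) (((1 : AutM (ℂ × ℂ) X), b), w)) := by
      show ContinuousAt (fun w : ℂ => u (e.symm (b, w))) ((e (vlΦ e (((1 : AutM (ℂ × ℂ) X), b), w))).2)
      rw [vl_val2 e hwt]
      exact hV.continuousAt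
    have hV3 : ContinuousAt (fun p : (AutM (ℂ × ℂ) X × ℂ) × ℂ =>
        u (e.symm (b, (e (vlΦ e p)).2))) (((1 : AutM (ℂ × ℂ) X), b), w) :=
      ContinuousAt.comp (g := fun w : ℂ => u (e.symm (b, w)))
        (f := fun p : (AutM (ℂ × ℂ) X × ℂ) × ℂ => (e (vlΦ e p)).2) hV2 (vl_cont2 e hwt)
    have hV4 : ContinuousAt (fun p : (AutM (ℂ × ℂ) X × ℂ) × ℂ => u (e.symm (b, p.2)))
        (((1 : AutM (ℂ × ℂ) X), b), w) :=
      ContinuousAt.comp (g := fun w : ℂ => u (e.symm (b, w))) (f := Prod.snd) hV.continuousAt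
        continuous_snd.continuousAt
    have hd : ContinuousAt (fun p : (AutM (ℂ × ℂ) X × ℂ) × ℂ =>
        dist (u (e.symm (b, p.2))) (u (e.symm (b, (e (vlΦ e p)).2))))
        (((1 : AutM (ℂ × ℂ) X), b), w) := hV4.dist hV3
    have hd0 : (dist (u (e.symm (b, w)))
        (u (e.symm (b, (e (vlΦ e (((1 : AutM (ℂ × ℂ) X), b), w))).2)))) < ε := by
      rw [vl_val2 e hwt, dist_self]
      exact hε
    have e3 : ∀ᶠ p : (AutM (ℂ × ℂ) X × ℂ) × ℂ in 𝓝 (((1 : AutM (ℂ × ℂ) X), b), w),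
        dist (u (e.symm (b, p.2))) (u (e.symm (b, (e (vlΦ e p)).2))) < ε :=
      hd.tendsto.eventually (gt_mem_nhds hd0)
    filter_upwards [e1, e2, e3] with p h1 h2 h3
    exact ⟨h1, h2, h3⟩
  exact (hg.prodMk_nhds hz).eventually h1

private theorem vl_eq {b : ℂ} {e : OpenPartialHomeomorph X (ℂ × ℂ)} (he : Adapted π e)
    {g : AutM (ℂ × ℂ) X} {z w : ℂ} (hgz : MapFib π g b z) (h1 : (z, w) ∈ e.target)
    (h2 : vlΦ e ((g, z), w) ∈ e.source) :
    vlΦ e ((g, z), w) = e.symm (b, (e (vlΦ e ((g, z), w))).2) ∧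
      (b, (e (vlΦ e ((g, z), w))).2) ∈ e.target := by
  have h3 : π (e.symm (z, w)) = z := by
    rw [← he.2 _ (e.map_target h1), e.right_inv h1]
  have h4 : π (vlΦ e ((g, z), w)) = b := hgz.2 _ h3
  have h5 : (e (vlΦ e ((g, z), w))).1 = b := by
    rw [he.2 _ h2]; exact h4
  have h6 : e (vlΦ e ((g, z), w)) = (b, (e (vlΦ e ((g, z), w))).2) := Prod.ext h5 rfl
  constructor
  · rw [← h6, e.left_inv h2]
  · rw [← h6]
    exact e.map_source h2

theorem tendsto_coord {b : ℂ} {F : Set ℂ} {u : X → ℂ} (hu : FibreCoord π b F u)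
    {e : OpenPartialHomeomorph X (ℂ × ℂ)} (he : Adapted π e) {w : ℂ} (hw : (b, w) ∈ e.target)
    {g : ι → AutM (ℂ × ℂ) X} (hg : Tendsto g L (𝓝 1)) {z : ι → ℂ} (hz : Tendsto z L (𝓝 b))
    (hgz : ∀ᶠ i in L, MapFib π (g i) b (z i)) :
    Tendsto (fun i => u ((g i)⁻¹ (e.symm (z i, w)))) L (𝓝 (u (e.symm (b, w)))) := by
  rw [Metric.tendsto_nhds]
  intro ε hε
  have h1 := vl_ev hu he (isCompact_singleton (x := w))
    (fun w' hw' => by rw [mem_singleton_iff.1 hw']; exact hw) hg hz hε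
  filter_upwards [h1, hgz] with i h2 h3
  obtain ⟨a1, a2, a3⟩ := h2 w (mem_singleton w)
  have h4 := (vl_eq he h3 a1 a2).1
  have h5 : (g i)⁻¹ (e.symm (z i, w)) = vlΦ e ((g i, z i), w) := rfl
  rw [dist_comm, h5, h4]
  exact a3

theorem tendsto_quot {b : ℂ} {F : Set ℂ} {u : X → ℂ} (hu : FibreCoord π b F u)
    {e : OpenPartialHomeomorph X (ℂ × ℂ)} (he : Adapted π e) {w : ℂ} (hw : (b, w) ∈ e.target)
    {g : ι → AutM (ℂ × ℂ) X} (hg : Tendsto g L (𝓝 1)) {z : ι → ℂ} (hz : Tendsto z L (𝓝 b))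
    (hgz : ∀ᶠ i in L, MapFib π (g i) b (z i)) {w' δ : ι → ℂ} (hw' : Tendsto w' L (𝓝 w))
    {c : ℂ} (hc : Tendsto (fun i => (w' i - w) / δ i) L (𝓝 c)) :
    Tendsto (fun i => (u ((g i)⁻¹ (e.symm (z i, w' i))) - u ((g i)⁻¹ (e.symm (z i, w)))) / δ i) L
      (𝓝 (deriv (fun w : ℂ => u (e.symm (b, w))) w * c)) := by
  obtain ⟨r, hr, hrt⟩ := Metric.isOpen_iff.1 (vl_open e b) w hw
  have hr2 : 0 < r / 2 := by positivity
  have hKt : ∀ w' ∈ closedBall w (r / 2), (b, w') ∈ e.target := fun w' hw'' =>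
    hrt (closedBall_subset_ball (by linarith) hw'')
  have hev := fun (ε : ℝ) (hε : 0 < ε) => vl_ev hu he (isCompact_closedBall w (r / 2)) hKt hg hz hε
  have hVd : DifferentiableOn ℂ (fun w : ℂ => u (e.symm (b, w))) {w | (b, w) ∈ e.target} := hu.2 e he
  have hlim : Tendsto (fun i => dslope (fun w'' : ℂ =>
      u (e.symm (b, (e (vlΦ e ((g i, z i), w''))).2))) w (w' i)) L
      (𝓝 (deriv (fun w : ℂ => u (e.symm (b, w))) w)) := by
    refine tendsto_dslope (r := r / 2) hr2 ?_ ?_ ?_ hw'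
    · filter_upwards [hev 1 one_pos, hgz] with i h2 h3
      intro w'' hw''
      obtain ⟨a1, a2, -⟩ := h2 w'' (ball_subset_closedBall hw'')
      have h4 := (vl_eq he h3 a1 a2).2
      have h5 : DifferentiableAt ℂ (fun w : ℂ => u (e.symm (b, w)))
          ((e (vlΦ e ((g i, z i), w''))).2) := hVd.differentiableAt ((vl_open e b).mem_nhds h4)
      have h6 : DifferentiableAt ℂ (fun q => e ((g i)⁻¹ (e.symm q))) (z i, w'') :=
        (analyticAt_chart he he (g i)⁻¹ a1 a2).differentiableAt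
      have h7 : DifferentiableAt ℂ (fun w'' : ℂ => e ((g i)⁻¹ (e.symm (z i, w'')))) w'' :=
        DifferentiableAt.comp (g := fun q => e ((g i)⁻¹ (e.symm q))) (f := fun w'' : ℂ => (z i, w''))
          w'' h6 ((differentiableAt_const _).prodMk differentiableAt_id)
      have h8 : DifferentiableAt ℂ (fun w'' : ℂ => (e (vlΦ e ((g i, z i), w''))).2) w'' := h7.snd
      exact (DifferentiableAt.comp (g := fun w : ℂ => u (e.symm (b, w)))
        (f := fun w'' : ℂ => (e (vlΦ e ((g i, z i), w''))).2) w'' h5 h8).differentiableWithinAt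
    · exact hVd.mono fun w'' hw'' => hKt w'' (ball_subset_closedBall hw'')
    · rw [Metric.tendstoUniformlyOn_iff]
      intro ε hε
      filter_upwards [hev ε hε] with i h2
      intro w'' hw''
      exact (h2 w'' (ball_subset_closedBall hw'')).2.2
  have hmul := hlim.mul hc
  refine hmul.congr' ?_
  have hwb : ∀ᶠ i in L, w' i ∈ ball w (r / 2) := hw'.eventually (ball_mem_nhds w hr2)
  filter_upwards [hev 1 one_pos, hgz, hwb] with i h2 h3 h4
  obtain ⟨a1, a2, -⟩ := h2 (w' i) (ball_subset_closedBall h4)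
  obtain ⟨c1, c2, -⟩ := h2 w (mem_closedBall_self hr2.le)
  have h5 := (vl_eq he h3 a1 a2).1
  have h6 := (vl_eq he h3 c1 c2).1
  have h7 : (g i)⁻¹ (e.symm (z i, w' i)) = vlΦ e ((g i, z i), w' i) := rfl
  have h8 : (g i)⁻¹ (e.symm (z i, w)) = vlΦ e ((g i, z i), w) := rfl
  have h9 := sub_smul_dslope (fun w'' : ℂ => u (e.symm (b, (e (vlΦ e ((g i, z i), w''))).2))) w (w' i)
  rw [smul_eq_mul] at h9
  have h10 : u (vlΦ e ((g i, z i), w' i)) = u (e.symm (b, (e (vlΦ e ((g i, z i), w' i))).2)) :=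
    congrArg u h5
  have h11 : u (vlΦ e ((g i, z i), w)) = u (e.symm (b, (e (vlΦ e ((g i, z i), w))).2)) :=
    congrArg u h6
  rw [h7, h8, h10, h11, ← h9]
  ring

end

end Pool.Agent.ISY
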