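import Pool.Agent.ISY.FibMap
import Pool.Agent.ISY.VecL
import Pool.Agent.ISY.DD2
import Pool.Agent.ISY.AutD
import Pool.Agent.ISY.CstO

/-!
# ISY-KDa: fibres discs: the limit vector field is an infinitesimal automorphism

Uses `exists_fibMap` (ISY-FibMap), `tendsto_coord`, `tendsto_quot` (ISY-VecL), `mobius_limit` (ISY-DD2), `aut_disc`
(ISY-AutD); take them as given.

`V w := u (e.symm (b, w))`. `hlift`: every point `z` near `b` is reached by an automorphism close to `1` mapping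
the fibre over `b` onto the fibre over `z`.

The pairs `(g, ρ)` with `g` close to `1`, `ρ > 0` small and `g` mapping the fibre over `b` onto that over
`b + ρ ω` form a filter; along it the conjugates `g⁻¹ f g` are automorphisms of the fibre over `b` tending to the
identity, and `mobius_limit` applies.
-/

set_option autoImplicit false

open Set Topology Metric Filter
open scoped Manifold ComplexConjugate

namespace Pool.Agent.ISY

private theorem kd_L {X : Type} [TopologicalSpace X] [ChartedSpace (ℂ × ℂ) X] {π : X → ℂ} {b : ℂ} (ω : ℂ)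
    (hlift : ∀ V ∈ 𝓝 (1 : AutM (ℂ × ℂ) X), ∀ᶠ z in 𝓝 b, ∃ g ∈ V, MapFib π g b z) :
    ((𝓝 (1 : AutM (ℂ × ℂ) X) ×ˢ 𝓝[>] (0 : ℝ)) ⊓
      𝓟 {q : AutM (ℂ × ℂ) X × ℝ | MapFib π q.1 b (b + (q.2 : ℂ) * ω)}).NeBot := by
  rw [Filter.inf_principal_neBot_iff]
  intro U hU
  obtain ⟨A, hA, S, hS, hAS⟩ := Filter.mem_prod_iff.1 hU
  have h1 : Tendsto (fun ρ : ℝ => b + (ρ : ℂ) * ω) (𝓝[>] (0 : ℝ)) (𝓝 b) := by
    have h2 : Continuous (fun ρ : ℝ => b + (ρ : ℂ) * ω) := by fun_prop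
    have h3 := h2.tendsto 0
    simp only [Complex.ofReal_zero, zero_mul, add_zero] at h3
    exact h3.mono_left nhdsWithin_le_nhds
  have h2 := h1.eventually (hlift A hA)
  have hS' : ∀ᶠ ρ in 𝓝[>] (0 : ℝ), ρ ∈ S := hS
  obtain ⟨ρ, hρS, g, hgA, hg⟩ := (hS'.and h2).exists
  exact ⟨(g, ρ), hAS ⟨hgA, hρS⟩, hg⟩

private theorem kd_fib {X : Type} [TopologicalSpace X] [ChartedSpace (ℂ × ℂ) X] {π : X → ℂ} {b z : ℂ}
    {g f : AutM (ℂ × ℂ) X} (hf : ∀ x, π (f x) = π x) (hg : MapFib π g b z) :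
    MapFib π (g⁻¹ * f * g) b b := by
  have hf' : ∀ x, π (f⁻¹ x) = π x := fun x => by rw [← hf (f⁻¹ x), AutM.apply_inv_self]
  refine ⟨fun x hx => ?_, fun x hx => ?_⟩
  · show π (g⁻¹ (f (g x))) = b
    refine hg.2 _ ?_
    rw [hf]
    exact hg.1 x hx
  · have e1 : (g⁻¹ * f * g)⁻¹ x = g⁻¹ (f⁻¹ (g x)) := by
      rw [mul_inv_rev, mul_inv_rev, inv_inv]
      rfl
    rw [e1]
    refine hg.2 _ ?_
    rw [hf']
    exact hg.1 x hx

private theorem kd_pi {X : Type} [TopologicalSpace X] [ChartedSpace (ℂ × ℂ) X] {π : X → ℂ}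
    {e : OpenPartialHomeomorph X (ℂ × ℂ)} (he : Adapted π e) {z w : ℂ} (h : (z, w) ∈ e.target) :
    π (e.symm (z, w)) = z := by
  rw [← he.2 _ (e.map_target h), e.right_inv h]

theorem killing {X : Type} [TopologicalSpace X] [T2Space X] [SecondCountableTopology X]
    [ConnectedSpace X] [ChartedSpace (ℂ × ℂ) X] [IsManifold 𝓘(ℂ, ℂ × ℂ) (⊤ : WithTop ℕ∞) X]
    {π : X → ℂ} (hπ : Submersive π) {b : ℂ} {u : X → ℂ} (hu : FibreCoord π b (ball 0 1) u)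
    (hlift : ∀ V ∈ 𝓝 (1 : AutM (ℂ × ℂ) X), ∀ᶠ z in 𝓝 b, ∃ g ∈ V, MapFib π g b z)
    {f : AutM (ℂ × ℂ) X} (hf : ∀ x, π (f x) = π x) {e : OpenPartialHomeomorph X (ℂ × ℂ)}
    (he : Adapted π e) {w₀ : ℂ} {m : ℕ} (hm : 0 < m) {r : ℝ} (hr : 0 < r) {c : ℂ → ℂ}
    (hdom : ∀ z ∈ ball b r, ∀ w ∈ ball w₀ r, (z, w) ∈ e.target ∧
      f (e.symm (z, w)) ∈ e.source)
    (hord : ∀ w ∈ ball w₀ r,
      Tendsto (fun z => ((e (f (e.symm (z, w)))).2 - w) / (z - b) ^ m) (𝓝[≠] b) (𝓝 (c w)))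
    {ω : ℂ} (hω : ω ≠ 0) {w : Fin 3 → ℂ} (hw : ∀ j, w j ∈ ball w₀ r)
    (hinj : Function.Injective w) :
    ∃ (β : ℂ) (α : ℝ), ∀ j, ω ^ m * (deriv (fun w : ℂ => u (e.symm (b, w))) (w j) * c (w j)) =
      β + Complex.I * (α : ℂ) * u (e.symm (b, w j)) - conj β * u (e.symm (b, w j)) ^ 2 := by
  obtain ⟨L, hL⟩ : ∃ L : Filter (AutM (ℂ × ℂ) X × ℝ), L = (𝓝 (1 : AutM (ℂ × ℂ) X) ×ˢ 𝓝[>] (0 : ℝ)) ⊓
      𝓟 {q : AutM (ℂ × ℂ) X × ℝ | MapFib π q.1 b (b + (q.2 : ℂ) * ω)} := ⟨_, rfl⟩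
  have hne : L.NeBot := by
    rw [hL]
    exact kd_L ω hlift
  have hLfib : ∀ᶠ i in L, MapFib π i.1 b (b + (i.2 : ℂ) * ω) := by
    rw [hL]
    exact Filter.mem_inf_of_right (Filter.mem_principal_self _)
  have hLle : L ≤ 𝓝 (1 : AutM (ℂ × ℂ) X) ×ˢ 𝓝[>] (0 : ℝ) := by
    rw [hL]
    exact inf_le_left
  have hLg : Tendsto (fun i : AutM (ℂ × ℂ) X × ℝ => i.1) L (𝓝 1) := Filter.tendsto_fst.mono_left hLle
  have hLr : Tendsto (fun i : AutM (ℂ × ℂ) X × ℝ => i.2) L (𝓝[>] (0 : ℝ)) :=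
    Filter.tendsto_snd.mono_left hLle
  have hLr0 : Tendsto (fun i : AutM (ℂ × ℂ) X × ℝ => i.2) L (𝓝 (0 : ℝ)) :=
    hLr.mono_right nhdsWithin_le_nhds
  have hLpos : ∀ᶠ i in L, 0 < i.2 := hLr.eventually self_mem_nhdsWithin
  have hLz : Tendsto (fun i : AutM (ℂ × ℂ) X × ℝ => b + (i.2 : ℂ) * ω) L (𝓝 b) := by
    have h2 : Continuous (fun ρ : ℝ => b + (ρ : ℂ) * ω) := by fun_prop
    have h3 := h2.tendsto 0
    simp only [Complex.ofReal_zero, zero_mul, add_zero] at h3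
    exact h3.comp hLr0
  have hLz' : Tendsto (fun i : AutM (ℂ × ℂ) X × ℝ => b + (i.2 : ℂ) * ω) L (𝓝[≠] b) := by
    refine tendsto_nhdsWithin_iff.2 ⟨hLz, ?_⟩
    refine hLpos.mono fun i hi => ?_
    rw [mem_compl_iff, mem_singleton_iff]
    intro h
    have h1 : (i.2 : ℂ) * ω = 0 := by linear_combination h
    rcases mul_eq_zero.1 h1 with h2 | h2
    · exact hi.ne' (Complex.ofReal_eq_zero.1 h2)
    · exact hω h2
  have key : ∀ i : AutM (ℂ × ℂ) X × ℝ, ∃ pq : ℂ × ℂ, MapFib π i.1 b (b + (i.2 : ℂ) * ω) →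
      (‖pq.1‖ ^ 2 - ‖pq.2‖ ^ 2 = 1 ∧ ∀ x, π x = b → u ((i.1)⁻¹ (f (i.1 x))) =
        (pq.1 * u x + pq.2) / (conj pq.2 * u x + conj pq.1)) := by
    intro i
    by_cases h : MapFib π i.1 b (b + (i.2 : ℂ) * ω)
    · obtain ⟨γ, hγ, hγ2⟩ := exists_fibMap hπ hu hu (i.1⁻¹ * f * i.1) (kd_fib hf h)
      obtain ⟨p, q, h1, h2⟩ := aut_disc hγ
      refine ⟨(p, q), fun _ => ⟨h1, fun x hx => ?_⟩⟩
      rw [← h2 (u x) (hu.1.mapsTo hx), ← hγ2 x hx]
      rfl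
    · exact ⟨(1, 0), fun h' => absurd h' h⟩
  choose pq hpq using key
  have hb : b ∈ ball b r := mem_ball_self hr
  have hLball : ∀ᶠ i in L, b + ((i : AutM (ℂ × ℂ) X × ℝ).2 : ℂ) * ω ∈ ball b r :=
    hLz.eventually (ball_mem_nhds b hr)
  refine mobius_limit (L := L) (p := fun i => (pq i).1) (q := fun i => (pq i).2) ?_
    (z := fun j i => u ((i.1)⁻¹ (e.symm (b + (i.2 : ℂ) * ω, w j)))) (z0 := fun j => u (e.symm (b, w j)))
    ?_ ?_ ?_ (ε := fun i => i.2 ^ m) ?_ ?_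
    (C := fun j => ω ^ m * (deriv (fun w : ℂ => u (e.symm (b, w))) (w j) * c (w j))) ?_
  · exact hLfib.mono fun i hi => (hpq i hi).1
  · intro j
    exact tendsto_coord hu he (hdom b hb (w j) (hw j)).1 hLg hLz hLfib
  · intro j
    have h1 := hu.1.mapsTo (show e.symm (b, w j) ∈ π ⁻¹' {b} from kd_pi he (hdom b hb (w j) (hw j)).1)
    rw [mem_ball_zero_iff] at h1
    exact h1
  · intro j k hjk
    have hj := (hdom b hb (w j) (hw j)).1
    have hk := (hdom b hb (w k) (hw k)).1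
    have h1 : e.symm (b, w j) = e.symm (b, w k) := hu.1.injOn (kd_pi he hj) (kd_pi he hk) hjk
    have h2 : (b, w j) = (b, w k) := by
      rw [← e.right_inv hj, h1, e.right_inv hk]
    exact hinj (congrArg Prod.snd h2)
  · exact hLpos.mono fun i hi => pow_pos hi m
  · have h1 := hLr0.pow m
    rw [zero_pow hm.ne'] at h1
    exact h1
  · intro j
    have hc := (hord (w j) (hw j)).comp hLz'
    have hδ0 : Tendsto (fun i : AutM (ℂ × ℂ) X × ℝ => (b + (i.2 : ℂ) * ω - b) ^ m) L (𝓝 0) := by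
      have h1 := (hLz.sub_const b).pow m
      rw [sub_self, zero_pow hm.ne'] at h1
      exact h1
    have hW : Tendsto (fun i : AutM (ℂ × ℂ) X × ℝ => (e (f (e.symm (b + (i.2 : ℂ) * ω, w j)))).2) L
        (𝓝 (w j)) := by
      have h1 := (hc.mul hδ0).add_const (w j)
      rw [mul_zero, zero_add] at h1
      refine h1.congr' ?_
      refine (hLz'.eventually self_mem_nhdsWithin).mono fun i hi => ?_
      have hi' : (b + (i.2 : ℂ) * ω - b) ^ m ≠ 0 := pow_ne_zero m (sub_ne_zero.2 hi)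
      show ((e (f (e.symm (b + (i.2 : ℂ) * ω, w j)))).2 - w j) / (b + (i.2 : ℂ) * ω - b) ^ m *
        (b + (i.2 : ℂ) * ω - b) ^ m + w j = _
      rw [div_mul_cancel₀ _ hi', sub_add_cancel]
    have hq := tendsto_quot hu he (hdom b hb (w j) (hw j)).1 hLg hLz hLfib hW hc
    have hq2 := hq.const_mul (ω ^ m)
    refine hq2.congr' ?_
    filter_upwards [hLfib, hLpos, hLball] with i h1 h2 h3
    obtain ⟨h4, h5⟩ := hdom _ h3 (w j) (hw j)
    have h6 : π (e.symm (b + (i.2 : ℂ) * ω, w j)) = b + (i.2 : ℂ) * ω := kd_pi he h4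
    have h7 : π ((i.1)⁻¹ (e.symm (b + (i.2 : ℂ) * ω, w j))) = b := h1.2 _ h6
    have h8 := (hpq i h1).2 _ h7
    rw [AutM.apply_inv_self] at h8
    have h9 : f (e.symm (b + (i.2 : ℂ) * ω, w j)) = e.symm (b + (i.2 : ℂ) * ω,
        (e (f (e.symm (b + (i.2 : ℂ) * ω, w j)))).2) := by
      rw [← e.left_inv h5]
      refine congrArg e.symm (Prod.ext ?_ ?_)
      · rw [e.left_inv h5]
        show (e (f (e.symm (b + (i.2 : ℂ) * ω, w j)))).1 = b + (i.2 : ℂ) * ω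
        rw [he.2 _ h5, hf, h6]
      · rw [e.left_inv h5]
    rw [h9] at h8
    show ω ^ m * ((u ((i.1)⁻¹ (e.symm (b + (i.2 : ℂ) * ω, (e (f (e.symm (b + (i.2 : ℂ) * ω, w j)))).2))) -
      u ((i.1)⁻¹ (e.symm (b + (i.2 : ℂ) * ω, w j)))) / (b + (i.2 : ℂ) * ω - b) ^ m) =
      (((pq i).1 * u ((i.1)⁻¹ (e.symm (b + (i.2 : ℂ) * ω, w j))) + (pq i).2) /
        (conj (pq i).2 * u ((i.1)⁻¹ (e.symm (b + (i.2 : ℂ) * ω, w j))) + conj (pq i).1) -
        u ((i.1)⁻¹ (e.symm (b + (i.2 : ℂ) * ω, w j)))) / ((i.2 ^ m : ℝ) : ℂ)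
    rw [← h8]
    have hi0 : (i.2 : ℂ) ^ m ≠ 0 := pow_ne_zero m (Complex.ofReal_ne_zero.2 h2.ne')
    have hω0 : ω ^ m ≠ 0 := pow_ne_zero m hω
    rw [add_sub_cancel_left, mul_pow, Complex.ofReal_pow]
    field_simp

end Pool.Agent.ISY
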