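import Pool.Agent.ISY.OrdM
import Pool.Agent.ISY.KDa

/-!
# ISY-KDb: fibres discs: a vertical automorphism which is the identity on a fibre is the identity

Uses `exists_order` (ISY-OrdM), `killing` (ISY-KDa), `lie_zero` (ISY-DD2), `deriv_ne_zero_coord` (ISY-FibMap); take them as
given.

Plan. Suppose `f ≠ 1`. Take `x₀` over `b`, an adapted chart `e` at `x₀`, and `m, r, c, w₁` from `exists_order`. Choose
`w : Fin 3 → ℂ` injective with values in `ball (e x₀).2 r`, `w 0 = w₁` (e.g. `w₁`, `w₁ + t`, `w₁ + 2 t`, `t > 0` small). Put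
`C j := deriv (fun w => u (e.symm (b, w))) (w j) * c (w j)`. `killing` with `ω = 1` and with `ω` such that
`ω ^ m = Complex.I` (`IsAlgClosed.exists_pow_nat_eq`) give the two hypotheses of `lie_zero` for `z0 j = u (e.symm (b, w j))`
(injective). So `C 0 = 0`, but `deriv .. (w 0) ≠ 0` (`deriv_ne_zero_coord`) and `c w₁ ≠ 0`.
-/

set_option autoImplicit false

open Set Topology Metric Filter
open scoped Manifold ComplexConjugate

namespace Pool.Agent.ISY

theorem eq_one_of_idOn_disc {X : Type} [TopologicalSpace X] [T2Space X]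
    [SecondCountableTopology X] [ConnectedSpace X] [ChartedSpace (ℂ × ℂ) X]
    [IsManifold 𝓘(ℂ, ℂ × ℂ) (⊤ : WithTop ℕ∞) X] {π : X → ℂ} (hπ : Submersive π) {b : ℂ}
    (hb : b ∈ range π) {u : X → ℂ} (hu : FibreCoord π b (ball 0 1) u)
    (hlift : ∀ V ∈ 𝓝 (1 : AutM (ℂ × ℂ) X), ∀ᶠ z in 𝓝 b, ∃ g ∈ V, MapFib π g b z)
    {f : AutM (ℂ × ℂ) X} (hf : ∀ x, π (f x) = π x) (hfb : ∀ x, π x = b → f x = x) : f = 1 := by
  by_contra hf1
  obtain ⟨x₀, hx₀⟩ := hb
  obtain ⟨e, he, hx₀e⟩ := hπ x₀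
  obtain ⟨m, r, c, w₁, hm, hr, hdom, hord, hw₁, hc⟩ := exists_order hf hfb hf1 he hx₀e hx₀
  obtain ⟨t, ht, hball⟩ := Metric.isOpen_iff.1 (isOpen_ball (x := (e x₀).2) (ε := r)) w₁ hw₁
  obtain ⟨w, hwdef⟩ : ∃ w : Fin 3 → ℂ, ∀ j, w j = w₁ + ((j : ℕ) : ℂ) * ((t / 3 : ℝ) : ℂ) :=
    ⟨_, fun j => rfl⟩
  have hw : ∀ j, w j ∈ ball (e x₀).2 r := by
    intro j
    apply hball
    rw [mem_ball_iff_norm, hwdef, add_sub_cancel_left, norm_mul, Complex.norm_natCast,
      Complex.norm_real, Real.norm_of_nonneg (by positivity)]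
    have h1 : ((j : ℕ) : ℝ) ≤ 2 := by exact_mod_cast (show (j : ℕ) ≤ 2 by omega)
    nlinarith
  have hinj : Function.Injective w := by
    intro i j hij
    rw [hwdef, hwdef, add_right_inj] at hij
    have h1 : ((t / 3 : ℝ) : ℂ) ≠ 0 := by
      have : (t / 3 : ℝ) ≠ 0 := by positivity
      exact_mod_cast this
    have h2 := mul_right_cancel₀ h1 hij
    exact Fin.ext (by exact_mod_cast h2)
  have htgt : ∀ j, (b, w j) ∈ e.target := fun j => (hdom b (mem_ball_self hr) _ (hw j)).1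
  have hfib : ∀ j, π (e.symm (b, w j)) = b := by
    intro j
    rw [← he.2 _ (e.map_target (htgt j)), e.right_inv (htgt j)]
  have hinj0 : Function.Injective (fun j => u (e.symm (b, w j))) := by
    intro i j hij
    have h1 : e.symm (b, w i) = e.symm (b, w j) := hu.1.injOn (hfib i) (hfib j) hij
    have h2 : e (e.symm (b, w i)) = e (e.symm (b, w j)) := by rw [h1]
    rw [e.right_inv (htgt i), e.right_inv (htgt j)] at h2
    exact hinj (congrArg Prod.snd h2)
  obtain ⟨ω, hω⟩ := IsAlgClosed.exists_pow_nat_eq Complex.I hm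
  have hω0 : ω ≠ 0 := by
    rintro rfl
    rw [zero_pow hm.ne'] at hω
    exact Complex.I_ne_zero hω.symm
  have k1 := killing hπ hu hlift hf he hm hr hdom hord one_ne_zero hw hinj
  have k2 := killing hπ hu hlift hf he hm hr hdom hord hω0 hw hinj
  rw [hω] at k2
  simp only [one_pow, one_mul] at k1
  have h3 := lie_zero hinj0 k1 k2 0
  rcases mul_eq_zero.1 h3 with h4 | h4
  · exact deriv_ne_zero_coord hu he (htgt 0) h4
  · apply hc
    have h5 : w 0 = w₁ := by
      rw [hwdef]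
      simp
    rwa [h5] at h4

end Pool.Agent.ISY
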