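import Pool.Agent.ISY.Ab
import Pool.Agent.ISY.AutP

/-!
# ISY-LimG: a closed group of automorphisms is closed among pairs of mutually inverse homeomorphisms

Plan (compare the proof of `polishSpace_autM` in ISY-AutP). `ind`: `toC g = AutM.toCM g.1` and
`IsInducing.comp AutM.isInducing_toCM IsInducing.subtypeVal`. `lim`: let `(φ, ψ)` be in the closure of
`R := range (fun g : G => (toC g, toC g⁻¹))`. The filter `L := 𝓝 (φ, ψ) ⊓ 𝓟 R` on `C(X, X) × C(X, X)` is `NeBot`; along `L` the two
components tend to `φ` and `ψ`, and are automorphisms, inverse to each other; so `φ`, `ψ` are holomorphic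
(`contMDiff_of_tendsto`, `ι = C(X, X) × C(X, X)`) and `φ.comp ψ = id`, `ψ.comp φ = id` (limits; composition is continuous,
`X` is locally compact). So `φ = AutM.toCM h` for an `h : AutM E X`. `h ∈ G`: `G` is closed in `AutM E X`, and
every neighbourhood of `h` (pulled back from `C(X, X)`) contains some `g ∈ G`.
-/

set_option autoImplicit false

open Set Topology Filter
open scoped Manifold

namespace Pool.Agent.ISY

private theorem lg_lc (E X : Type) [NormedAddCommGroup E] [NormedSpace ℂ E] [FiniteDimensional ℂ E]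
    [TopologicalSpace X] [ChartedSpace E X] : LocallyCompactSpace X :=
  Manifold.locallyCompact_of_finiteDimensional 𝓘(ℂ, E)

section
variable (E X : Type) [NormedAddCommGroup E] [NormedSpace ℂ E] [FiniteDimensional ℂ E]
  [TopologicalSpace X] [T2Space X] [SecondCountableTopology X] [ChartedSpace E X]
  [IsManifold 𝓘(ℂ, E) (⊤ : WithTop ℕ∞) X]

private theorem lg_closed :
    IsClosed {f : C(X, X) | ContMDiff 𝓘(ℂ, E) 𝓘(ℂ, E) (⊤ : WithTop ℕ∞) f} := by
  refine isClosed_of_closure_subset fun f hf => ?_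
  have hn : (𝓝[{f : C(X, X) | ContMDiff 𝓘(ℂ, E) 𝓘(ℂ, E) (⊤ : WithTop ℕ∞) f}] f).NeBot :=
    mem_closure_iff_nhdsWithin_neBot.1 hf
  exact contMDiff_of_tendsto (F := fun i : C(X, X) => i) self_mem_nhdsWithin nhdsWithin_le_nhds

private theorem lg_embed :
    IsClosedEmbedding (fun f : AutM E X => ((f.toCM, f⁻¹.toCM) : C(X, X) × C(X, X))) := by
  have hlc : LocallyCompactSpace X := lg_lc E X
  have hG : IsTopologicalGroup (AutM E X) := isTopologicalGroup_autM E X
  have hc : Continuous (fun f : AutM E X => ((f.toCM, f⁻¹.toCM) : C(X, X) × C(X, X))) :=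
    AutM.continuous_toCM.prodMk (AutM.continuous_toCM.comp continuous_inv)
  have hi : IsInducing (fun f : AutM E X => ((f.toCM, f⁻¹.toCM) : C(X, X) × C(X, X))) :=
    IsInducing.of_comp hc continuous_fst AutM.isInducing_toCM
  have hT : T2Space (C(X, X)) := inferInstance
  have hS : IsClosed (({p : C(X, X) × C(X, X) | p.1.comp p.2 = ContinuousMap.id X} ∩
      {p | p.2.comp p.1 = ContinuousMap.id X}) ∩
      (Prod.fst ⁻¹' {f : C(X, X) | ContMDiff 𝓘(ℂ, E) 𝓘(ℂ, E) (⊤ : WithTop ℕ∞) f} ∩
      Prod.snd ⁻¹' {f : C(X, X) | ContMDiff 𝓘(ℂ, E) 𝓘(ℂ, E) (⊤ : WithTop ℕ∞) f})) :=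
    ((isClosed_eq (continuous_fst.compCM continuous_snd) continuous_const).inter
      (isClosed_eq (continuous_snd.compCM continuous_fst) continuous_const)).inter
      (((lg_closed E X).preimage continuous_fst).inter ((lg_closed E X).preimage continuous_snd))
  have hr : range (fun f : AutM E X => ((f.toCM, f⁻¹.toCM) : C(X, X) × C(X, X))) =
      ({p : C(X, X) × C(X, X) | p.1.comp p.2 = ContinuousMap.id X} ∩
      {p | p.2.comp p.1 = ContinuousMap.id X}) ∩
      (Prod.fst ⁻¹' {f : C(X, X) | ContMDiff 𝓘(ℂ, E) 𝓘(ℂ, E) (⊤ : WithTop ℕ∞) f} ∩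
      Prod.snd ⁻¹' {f : C(X, X) | ContMDiff 𝓘(ℂ, E) 𝓘(ℂ, E) (⊤ : WithTop ℕ∞) f}) := by
    ext p
    constructor
    · rintro ⟨f, rfl⟩
      refine ⟨⟨?_, ?_⟩, f.contMDiff, f⁻¹.contMDiff⟩
      · exact ContinuousMap.ext fun x => AutM.apply_inv_self f x
      · exact ContinuousMap.ext fun x => AutM.inv_apply_self f x
    · rintro ⟨⟨h1, h2⟩, h3, h4⟩
      refine ⟨AutM.ofDiff
        { toFun := p.1
          invFun := p.2
          left_inv := fun x => congrArg (fun k : C(X, X) => k x) h2
          right_inv := fun x => congrArg (fun k : C(X, X) => k x) h1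
          contMDiff_toFun := h3
          contMDiff_invFun := h4 }, ?_⟩
      exact Prod.ext (ContinuousMap.ext fun x => rfl) (ContinuousMap.ext fun x => rfl)
  refine ⟨⟨hi, fun f g h => AutM.toCM_injective (congrArg Prod.fst h)⟩, ?_⟩
  rw [hr]
  exact hS

end

theorem limOK_of_isClosed (E X : Type) [NormedAddCommGroup E] [NormedSpace ℂ E]
    [FiniteDimensional ℂ E] [TopologicalSpace X] [T2Space X] [SecondCountableTopology X]
    [ChartedSpace E X] [IsManifold 𝓘(ℂ, E) (⊤ : WithTop ℕ∞) X] (G : Subgroup (AutM E X))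
    (hcl : IsClosed (G : Set (AutM E X))) [ContinuousConstSMul G X] : LimOK G X := by
  refine ⟨?_, fun φ ψ h => ?_⟩
  · exact AutM.isInducing_toCM.comp IsInducing.subtypeVal
  · have h1 : range (fun g : G => ((toC g, toC g⁻¹) : C(X, X) × C(X, X))) =
        (fun f : AutM E X => ((f.toCM, f⁻¹.toCM) : C(X, X) × C(X, X))) '' (G : Set (AutM E X)) := by
      ext p
      constructor
      · rintro ⟨g, rfl⟩
        exact ⟨g, g.2, Prod.ext (ContinuousMap.ext fun x => rfl) (ContinuousMap.ext fun x => rfl)⟩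
      · rintro ⟨g, hg, rfl⟩
        exact ⟨⟨g, hg⟩, Prod.ext (ContinuousMap.ext fun x => rfl)
          (ContinuousMap.ext fun x => rfl)⟩
    rw [h1, ((lg_embed E X).isClosedMap _ hcl).closure_eq, ← h1] at h
    obtain ⟨g, hg⟩ := h
    exact ⟨g, congrArg Prod.fst hg⟩

end Pool.Agent.ISY
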