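import Pool.Agent.ISY.AutD

/-!
# ISY-ModD: commutation and conjugation for the disc

Uses the statements of ISY-AutD (take them as given).

* `commF_disc`: with `τ, τ'` from `exists_tau` for `b`, the maps `τ' ∘ φ ∘ τ` and `τ' ∘ ψ ∘ τ` are automorphisms fixing
  `0`, so rotations (`aut_disc_fix`), which commute; transport back.
* `exists_y`: for `‖l‖ = 1`, `l ≠ 1`, `‖v‖ < 1` there is `y`, `‖y‖ < 1`, with `y * (1 - l) = v * (1 - l * ‖y‖²)`: the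
  function `ρ s = s * ‖1 - l‖ / ‖1 - l * s²‖` is continuous on `[0, 1]` (`1 - l s² ≠ 0`), `ρ 0 = 0`, `ρ 1 = 1`; by the
  intermediate value theorem there is `s ∈ [0, 1)` with `ρ s = ‖v‖`; put `y = v * (1 - l * s²) / (1 - l)`, then
  `‖y‖ = s`.
* `conjF_disc`: `τ, τ'` for `b`; `φ₀ := τ' ∘ φ ∘ τ` is the rotation by `l`, `l ≠ 1`. For `v` let `v₀ := τ' v`, `y₀` from
  `exists_y` for `l`, `v₀`, and `y := τ y₀`. If `ψ b = y` then `ψ₀ := τ' ∘ ψ ∘ τ` sends `0` to `y₀`; with `σ, σ'` from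
  `exists_tau` for `y₀`, `σ' ∘ ψ₀` fixes `0`, so `ψ₀ z = σ (k z)`, `‖k‖ = 1`, and
  `ψ₀ (l * ψ₀⁻¹ 0) = σ (l * σ' 0) = σ (- l y₀) = (y₀ - l y₀) / (1 - l ‖y₀‖²) = v₀`. Here
  `ψ₀⁻¹ = τ' ∘ ψ' ∘ τ`. So `ψ (φ (ψ' b)) = τ (ψ₀ (φ₀ (ψ₀⁻¹ 0))) = τ v₀ = v`.
-/

set_option autoImplicit false

open Set Topology Metric

namespace Pool.Agent.ISY

private theorem AutF.comp' {F : Set ℂ} {f g : ℂ → ℂ} (hf : AutF F f) (hg : AutF F g) :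
    AutF F (f ∘ g) :=
  ⟨hf.1.comp hg.1 hg.2.mapsTo, hf.2.comp hg.2⟩

theorem commF_disc : CommF (ball 0 1) := by
  intro φ ψ b hφ hψ hb hφb hψb z hz
  obtain ⟨τ, τ', hτ, hτ', h0, h0', h1, h2, -, -⟩ := exists_tau hb
  have hα : AutF (ball 0 1) (τ' ∘ φ ∘ τ) := AutF.comp' hτ' (AutF.comp' hφ hτ)
  have hβ : AutF (ball 0 1) (τ' ∘ ψ ∘ τ) := AutF.comp' hτ' (AutF.comp' hψ hτ)
  obtain ⟨l, -, hl⟩ := aut_disc_fix hα (by simp [h0, hφb, h0'])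
  obtain ⟨m, -, hm⟩ := aut_disc_fix hβ (by simp [h0, hψb, h0'])
  have hwF : τ' z ∈ ball (0 : ℂ) 1 := hτ'.2.mapsTo hz
  set w := τ' z with hw
  have hzw : τ w = z := h2 z hz
  have hφe : ∀ x ∈ ball (0 : ℂ) 1, φ (τ x) = τ (l * x) := by
    intro x hx
    rw [← hl x hx]
    exact (h2 _ (hφ.2.mapsTo (hτ.2.mapsTo hx))).symm
  have hψe : ∀ x ∈ ball (0 : ℂ) 1, ψ (τ x) = τ (m * x) := by
    intro x hx
    rw [← hm x hx]
    exact (h2 _ (hψ.2.mapsTo (hτ.2.mapsTo hx))).symm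
  have hlw : l * w ∈ ball (0 : ℂ) 1 := by
    rw [← hl w hwF]; exact hα.2.mapsTo hwF
  have hmw : m * w ∈ ball (0 : ℂ) 1 := by
    rw [← hm w hwF]; exact hβ.2.mapsTo hwF
  rw [← hzw, hψe w hwF, hφe w hwF, hφe _ hmw, hψe _ hlw]
  congr 1
  ring

theorem exists_y {l v : ℂ} (hl : ‖l‖ = 1) (hl1 : l ≠ 1) (hv : ‖v‖ < 1) :
    ∃ y : ℂ, ‖y‖ < 1 ∧ y * (1 - l) = v * (1 - l * (‖y‖ : ℂ) ^ 2) := by
  have hne : ∀ s ∈ Icc (0 : ℝ) 1, (1 : ℂ) - l * (s : ℂ) ^ 2 ≠ 0 := by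
    intro s hs h
    have h1 : l * (s : ℂ) ^ 2 = 1 := (sub_eq_zero.mp h).symm
    have h2 : ‖l * (s : ℂ) ^ 2‖ = 1 := by rw [h1]; simp
    rw [norm_mul, hl, one_mul, norm_pow, Complex.norm_real, Real.norm_eq_abs, abs_of_nonneg hs.1] at h2
    have h3 : s = 1 := by nlinarith [hs.1, hs.2]
    apply hl1
    rw [h3] at h1
    simpa using h1
  have hl0 : (1 : ℂ) - l ≠ 0 := sub_ne_zero.mpr (Ne.symm hl1)
  let ρ : ℝ → ℝ := fun s => s * ‖1 - l‖ / ‖(1 : ℂ) - l * (s : ℂ) ^ 2‖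
  have hρ : ContinuousOn ρ (Icc 0 1) := by
    apply ContinuousOn.div
    · fun_prop
    · fun_prop
    · intro s hs
      exact norm_ne_zero_iff.mpr (hne s hs)
  have hρ0 : ρ 0 = 0 := by simp [ρ]
  have hρ1 : ρ 1 = 1 := by
    simp only [ρ, Complex.ofReal_one, one_pow, mul_one, one_mul]
    exact div_self (norm_ne_zero_iff.mpr hl0)
  have hmem : ‖v‖ ∈ Icc (ρ 0) (ρ 1) := by
    rw [hρ0, hρ1]; exact ⟨norm_nonneg v, hv.le⟩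
  obtain ⟨s, hs, hsv⟩ := intermediate_value_Icc (zero_le_one) hρ hmem
  have hs1 : s < 1 := by
    rcases lt_or_eq_of_le hs.2 with h | h
    · exact h
    · exfalso
      rw [h, hρ1] at hsv
      linarith
  have hsv' : s * ‖1 - l‖ / ‖(1 : ℂ) - l * (s : ℂ) ^ 2‖ = ‖v‖ := hsv
  have hny : ‖v * (1 - l * (s : ℂ) ^ 2) / (1 - l)‖ = s := by
    rw [norm_div, norm_mul, ← hsv']
    have ha : ‖(1 : ℂ) - l * (s : ℂ) ^ 2‖ ≠ 0 := norm_ne_zero_iff.mpr (hne s hs)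
    have hb : ‖(1 : ℂ) - l‖ ≠ 0 := norm_ne_zero_iff.mpr hl0
    field_simp
  refine ⟨v * (1 - l * (s : ℂ) ^ 2) / (1 - l), by rw [hny]; exact hs1, ?_⟩
  rw [hny]
  field_simp

theorem conjF_disc : ConjF (ball 0 1) := by
  intro φ b v hφ hb hφb hnt hv
  obtain ⟨τ, τ', hτ, hτ', h0, h0', h1, h2, -, -⟩ := exists_tau hb
  have hα : AutF (ball 0 1) (τ' ∘ φ ∘ τ) := AutF.comp' hτ' (AutF.comp' hφ hτ)
  obtain ⟨l, hl, hlz⟩ := aut_disc_fix hα (by simp [h0, hφb, h0'])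
  have hφe : ∀ x ∈ ball (0 : ℂ) 1, φ (τ x) = τ (l * x) := by
    intro x hx
    rw [← hlz x hx]
    exact (h2 _ (hφ.2.mapsTo (hτ.2.mapsTo hx))).symm
  have hl1 : l ≠ 1 := by
    rintro rfl
    obtain ⟨z, hz, hne⟩ := hnt
    apply hne
    have := hφe (τ' z) (hτ'.2.mapsTo hz)
    rw [one_mul, h2 z hz] at this
    exact this
  have hv0 : τ' v ∈ ball (0 : ℂ) 1 := hτ'.2.mapsTo hv
  obtain ⟨y₀, hy₀, hy₀e⟩ := exists_y hl hl1 (mem_ball_zero_iff.mp hv0)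
  have hy₀m : y₀ ∈ ball (0 : ℂ) 1 := mem_ball_zero_iff.mpr hy₀
  refine ⟨τ y₀, hτ.2.mapsTo hy₀m, ?_⟩
  intro ψ ψ' hψ hψ' hl' hr' hψb
  obtain ⟨σ, σ', hσ, hσ', g0, g0', g1, g2, gf, gf'⟩ := exists_tau hy₀m
  have h0m : (0 : ℂ) ∈ ball (0 : ℂ) 1 := mem_ball_self one_pos
  -- `ψ₀ = τ' ∘ ψ ∘ τ`
  have hψ₀ : AutF (ball 0 1) (σ' ∘ (τ' ∘ ψ ∘ τ)) :=
    AutF.comp' hσ' (AutF.comp' hτ' (AutF.comp' hψ hτ))
  obtain ⟨k, hk, hkz⟩ := aut_disc_fix hψ₀ (by simp [h0, hψb, h1 y₀ hy₀m, g0'])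
  have hk0 : k ≠ 0 := by
    intro h; rw [h, norm_zero] at hk; exact zero_ne_one hk
  have hψe : ∀ x ∈ ball (0 : ℂ) 1, ψ (τ x) = τ (σ (k * x)) := by
    intro x hx
    rw [← hkz x hx]
    have hm : (τ' ∘ ψ ∘ τ) x ∈ ball (0 : ℂ) 1 := hτ'.2.mapsTo (hψ.2.mapsTo (hτ.2.mapsTo hx))
    have : σ ((σ' ∘ (τ' ∘ ψ ∘ τ)) x) = (τ' ∘ ψ ∘ τ) x := g2 _ hm
    rw [this]
    exact (h2 _ (hψ.2.mapsTo (hτ.2.mapsTo hx))).symm
  -- the preimage of `b` under `ψ`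
  have hw : ψ' b ∈ ball (0 : ℂ) 1 := hψ'.2.mapsTo hb
  set w := τ' (ψ' b) with hwdef
  have hwm : w ∈ ball (0 : ℂ) 1 := hτ'.2.mapsTo hw
  have hτw : τ w = ψ' b := h2 _ hw
  have hkw : k * w ∈ ball (0 : ℂ) 1 := by
    rw [mem_ball_zero_iff, norm_mul, hk, one_mul]
    exact mem_ball_zero_iff.mp hwm
  have hσkw : σ (k * w) = 0 := by
    have e1 : τ (σ (k * w)) = b := by
      rw [← hψe w hwm, hτw, hr' b hb]
    have e2 : τ' (τ (σ (k * w))) = σ (k * w) := h1 _ (hσ.2.mapsTo hkw)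
    rw [← e2, e1, h0']
  have hkw' : k * w = - y₀ := by
    have e : σ' (σ (k * w)) = k * w := g1 _ hkw
    rw [← e, hσkw, gf' 0 h0m]
    simp
  have hlw : l * w ∈ ball (0 : ℂ) 1 := by
    rw [mem_ball_zero_iff, norm_mul, hl, one_mul]
    exact mem_ball_zero_iff.mp hwm
  have hlk : k * (l * w) ∈ ball (0 : ℂ) 1 := by
    rw [mem_ball_zero_iff, norm_mul, hk, one_mul]
    exact mem_ball_zero_iff.mp hlw
  rw [← hτw, hφe w hwm, hψe _ hlw, gf _ hlk]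
  have e3 : k * (l * w) = - (l * y₀) := by
    have : k * (l * w) = l * (k * w) := by ring
    rw [this, hkw']; ring
  rw [e3]
  have hconj : (starRingEnd ℂ) y₀ * y₀ = ((‖y₀‖ : ℝ) : ℂ) ^ 2 := by
    rw [mul_comm, Complex.mul_conj, Complex.normSq_eq_norm_sq]
    push_cast
    rfl
  have hden : (1 : ℂ) - l * ((‖y₀‖ : ℝ) : ℂ) ^ 2 ≠ 0 := by
    intro h
    have h1 : l * ((‖y₀‖ : ℝ) : ℂ) ^ 2 = 1 := (sub_eq_zero.mp h).symm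
    have h2 : ‖l * ((‖y₀‖ : ℝ) : ℂ) ^ 2‖ = 1 := by rw [h1]; simp
    rw [norm_mul, hl, one_mul, norm_pow, Complex.norm_real, Real.norm_eq_abs,
      abs_of_nonneg (norm_nonneg _)] at h2
    nlinarith [norm_nonneg y₀]
  have e4 : (- (l * y₀) + y₀) / (1 + (starRingEnd ℂ) y₀ * (- (l * y₀))) = τ' v := by
    have : (1 : ℂ) + (starRingEnd ℂ) y₀ * (- (l * y₀)) = 1 - l * ((‖y₀‖ : ℝ) : ℂ) ^ 2 := by
      rw [← hconj]; ring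
    rw [this, div_eq_iff hden, ← hy₀e]
    ring
  rw [e4, h2 v hv]

end Pool.Agent.ISY
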