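import Pool.Agent.ISY.AutCs

/-!
# ISY-ModPl: commutation and conjugation for the plane and the punctured plane; isolated fixed points

Uses `aut_plane`, `aut_punctured` and the identity theorem.
-/

set_option autoImplicit false

open Set Topology Metric Filter

namespace Pool.Agent.ISY

theorem commF_univ : CommF univ := by
  intro φ ψ b hφ hψ _ h1 h2 z _
  obtain ⟨α, β, -, h3⟩ := aut_plane hφ
  obtain ⟨α', β', -, h4⟩ := aut_plane hψ
  rw [h3] at h1
  rw [h4] at h2
  rw [h3, h4, h4, h3]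
  linear_combination (α - 1) * h2 + (1 - α') * h1

/-- an automorphism fixing `b` -/
private theorem punc_fix {φ : ℂ → ℂ} (hφ : AutF {0}ᶜ φ) {b : ℂ} (hb : b ≠ 0) (h : φ b = b) :
    (∀ z, z ≠ 0 → φ z = z) ∨ ∀ z, z ≠ 0 → φ z = b ^ 2 / z := by
  rcases aut_punctured hφ with ⟨c, -, h1⟩ | ⟨c, -, h1⟩
  · left
    intro z hz
    have h2 := h1 b hb
    rw [h] at h2
    have h3 : c = 1 := by
      have : c * b = 1 * b := by rw [← h2, one_mul]
      exact mul_right_cancel₀ hb this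
    rw [h1 z hz, h3, one_mul]
  · right
    intro z hz
    have h2 := h1 b hb
    rw [h, eq_div_iff hb] at h2
    rw [h1 z hz, ← h2, sq]

theorem commF_punctured : CommF {0}ᶜ := by
  intro φ ψ b hφ hψ hb h1 h2 z hz
  have hb' : b ≠ 0 := hb
  have hz' : z ≠ 0 := hz
  have hφz : φ z ≠ 0 := hφ.2.mapsTo hz
  have hψz : ψ z ≠ 0 := hψ.2.mapsTo hz
  rcases punc_fix hφ hb' h1 with h3 | h3
  · rw [h3 (ψ z) hψz, h3 z hz']
  · rcases punc_fix hψ hb' h2 with h4 | h4
    · rw [h4 z hz', h4 (φ z) hφz]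
    · rw [h3 (ψ z) hψz, h4 (φ z) hφz, h3 z hz', h4 z hz']

theorem conjF_univ : ConjF univ := by
  intro φ b v hφ _ h1 hne _
  obtain ⟨α, β, -, h3⟩ := aut_plane hφ
  rw [h3] at h1
  have hα : 1 - α ≠ 0 := by
    intro h
    have h4 : α = 1 := (sub_eq_zero.1 h).symm
    obtain ⟨z, -, hz⟩ := hne
    apply hz
    rw [h3, h4]
    rw [h4] at h1
    linear_combination h1
  refine ⟨(v - α * b) / (1 - α), mem_univ _, ?_⟩
  intro ψ ψ' hψ _ _ h5 h6
  obtain ⟨s, t, -, h7⟩ := aut_plane hψ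
  have h8 := h5 b (mem_univ b)
  rw [h7] at h8
  rw [h7, eq_div_iff hα] at h6
  rw [h7, h3]
  linear_combination α * h8 + s * h1 + h6

theorem conjF_punctured : ConjF {0}ᶜ := by
  intro φ b v hφ hb h1 hne hv
  have hb' : b ≠ 0 := hb
  have hv' : v ≠ 0 := hv
  have h3 : ∀ z, z ≠ 0 → φ z = b ^ 2 / z := by
    rcases punc_fix hφ hb' h1 with h | h
    · obtain ⟨z, hz, hz2⟩ := hne
      exact absurd (h z hz) hz2
    · exact h
  obtain ⟨y, hy⟩ := IsAlgClosed.exists_pow_nat_eq (b * v) (n := 2) (by norm_num)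
  have hy0 : y ≠ 0 := by
    intro h
    rw [h] at hy
    have : b * v ≠ 0 := mul_ne_zero hb' hv'
    exact this (by rw [← hy]; norm_num)
  refine ⟨y, hy0, ?_⟩
  intro ψ ψ' hψ hψ' _ h5 h6
  have hu : ψ' b ≠ 0 := hψ'.2.mapsTo hb
  have h8 := h5 b hb
  have h9 := h3 (ψ' b) hu
  have hφu : φ (ψ' b) ≠ 0 := by
    rw [h9]
    exact div_ne_zero (pow_ne_zero 2 hb') hu
  rcases aut_punctured hψ with ⟨c, hc, h7⟩ | ⟨c, hc, h7⟩
  · rw [h7 _ hφu, h9]
    rw [h7 _ hu] at h8
    rw [h7 _ hb'] at h6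
    have e1 : ψ' b = b / c := by
      rw [eq_div_iff hc, mul_comm]
      exact h8
    rw [e1]
    rw [← h6] at hy
    have e2 : c ^ 2 * b = v := by
      have : b * (c ^ 2 * b) = b * v := by
        rw [← hy]
        ring
      exact mul_left_cancel₀ hb' this
    rw [← e2]
    field_simp
  · rw [h7 _ hφu, h9]
    rw [h7 _ hu] at h8
    rw [h7 _ hb'] at h6
    have e1 : ψ' b = c / b := by
      rw [eq_div_iff hb', mul_comm]
      rw [div_eq_iff hu] at h8
      exact h8.symm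
    rw [e1]
    rw [← h6] at hy
    have e2 : c ^ 2 / b ^ 3 = v := by
      have : b * (c ^ 2 / b ^ 3) = b * v := by
        rw [← hy]
        field_simp
      exact mul_left_cancel₀ hb' this
    rw [← e2]
    field_simp

theorem isOpen_model {F : Set ℂ} (hF : IsModel F) : IsOpen F := by
  rcases hF with h | h | h
  · rw [h]
    exact isOpen_univ
  · rw [h]
    exact isOpen_compl_singleton
  · rw [h]
    exact isOpen_ball

private theorem preconn_model {F : Set ℂ} (hF : IsModel F) : IsPreconnected F := by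
  rcases hF with h | h | h
  · rw [h]
    exact isPreconnected_univ
  · rw [h]
    refine (isConnected_compl_singleton_of_one_lt_rank ?_ (0 : ℂ)).isPreconnected
    rw [Complex.rank_real_complex]
    exact Nat.one_lt_ofNat
  · rw [h]
    exact (convex_ball (0 : ℂ) 1).isPreconnected

theorem model_iso {F : Set ℂ} (hF : IsModel F) {φ : ℂ → ℂ} (hφ : AutF F φ) {b : ℂ} (hb : b ∈ F)
    (hne : ∃ z ∈ F, φ z ≠ z) : ∀ᶠ z in 𝓝[≠] b, φ z ≠ z := by
  have h1 : AnalyticOnNhd ℂ (fun z => φ z - z) F :=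
    (hφ.1.sub differentiableOn_id).analyticOnNhd (isOpen_model hF)
  by_contra hcon
  have h2 : ∃ᶠ z in 𝓝[≠] b, (fun z => φ z - z) z = 0 := by
    intro h3
    apply hcon
    filter_upwards [h3] with z hz hz2
    exact hz (sub_eq_zero.2 hz2)
  have h4 := h1.eqOn_zero_of_preconnected_of_frequently_eq_zero (preconn_model hF) hb h2
  obtain ⟨z, hz, hz2⟩ := hne
  exact hz2 (sub_eq_zero.1 (h4 hz))

end Pool.Agent.ISY
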