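import Pool.Agent.ISY.FinA
import Pool.Agent.ISY.GoodB
import Pool.Agent.ISY.ModPl
import Pool.Agent.ISY.ModD
import Pool.Agent.ISY.FibMap
import Pool.Agent.ISY.FibIdn
import Pool.Agent.ISY.LimG
import Pool.Agent.ISY.KDb

/-!
# ISY-FinB: homogeneous surfaces with an invariant fibration
-/

set_option autoImplicit false

open Set Topology Filter Metric
open scoped Manifold

namespace Pool.Agent.ISY

section Defs

variable {X : Type} [TopologicalSpace X] [ChartedSpace (ℂ × ℂ) X]

/-- `π` is a holomorphic submersion of the surface `X` onto the plane, the punctured plane or the disc, all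
of whose fibres are biholomorphic to `F`, again one of these three -/
structure FibredSurface (π : X → ℂ) (F : Set ℂ) : Prop where
  sub : Submersive π
  base : IsModel (range π)
  fib : IsModel F
  coord : ∀ b ∈ range π, ∃ u : X → ℂ, FibreCoord π b F u

end Defs

section

variable {X : Type} [TopologicalSpace X] [ChartedSpace (ℂ × ℂ) X]
  [IsManifold 𝓘(ℂ, ℂ × ℂ) (⊤ : WithTop ℕ∞) X] {π : X → ℂ}

/-- the induced action on the base -/
noncomputable def baseAction (hπ : Submersive π) (G : Subgroup (AutM (ℂ × ℂ) X))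
    (hG : ∀ g ∈ G, Pres π g) : MulAction G (range π) where
  smul g y := ⟨(exists_hat hπ g.1 (hG g.1 g.2)).choose y.1, by
    obtain ⟨_, x, rfl⟩ := y
    exact ⟨g.1 x, (exists_hat hπ g.1 (hG g.1 g.2)).choose_spec.2 x⟩⟩
  one_smul y := by
    obtain ⟨_, x, rfl⟩ := y
    exact Subtype.ext ((exists_hat hπ 1 (hG 1 G.one_mem)).choose_spec.2 x).symm
  mul_smul g h y := by
    obtain ⟨_, x, rfl⟩ := y
    apply Subtype.ext
    change (exists_hat hπ (g * h).1 (hG (g * h).1 (g * h).2)).choose (π x) =
      (exists_hat hπ g.1 (hG g.1 g.2)).choose ((exists_hat hπ h.1 (hG h.1 h.2)).choose (π x))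
    rw [← (exists_hat hπ (g * h).1 (hG (g * h).1 (g * h).2)).choose_spec.2 x,
      ← (exists_hat hπ h.1 (hG h.1 h.2)).choose_spec.2 x,
      ← (exists_hat hπ g.1 (hG g.1 g.2)).choose_spec.2 (h.1 x)]
    rfl

/-- the projection onto the base -/
def proj (π : X → ℂ) (x : X) : range π := ⟨π x, mem_range_self x⟩

end

section

variable {X : Type} [TopologicalSpace X] [T2Space X] [SecondCountableTopology X]
  [ConnectedSpace X] [ChartedSpace (ℂ × ℂ) X] [IsManifold 𝓘(ℂ, ℂ × ℂ) (⊤ : WithTop ℕ∞) X]
  {π : X → ℂ} {F : Set ℂ}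

theorem not_isTotallyDisconnected_of_closed (hS : FibredSurface π F)
    {G : Subgroup (AutM (ℂ × ℂ) X)} (hcl : IsClosed (G : Set (AutM (ℂ × ℂ) X)))
    (htr : Transitive G) (hG : ∀ g ∈ G, Pres π g) :
    ¬ IsTotallyDisconnected (G : Set (AutM (ℂ × ℂ) X)) := by
  intro htd
  have i1 := isTopologicalGroup_autM (ℂ × ℂ) X
  have i2 := polishSpace_autM (ℂ × ℂ) X
  have i3 := continuousSMul_autM (ℂ × ℂ) X
  have i4 := t2Space_autM (ℂ × ℂ) X
  have i5 : LocallyCompactSpace X := Manifold.locallyCompact_of_finiteDimensional 𝓘(ℂ, ℂ × ℂ)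
  have i6 : LocallyConnectedSpace X := locallyConnectedSpace_of_chart (ℂ × ℂ) X
  have i7 : Nontrivial X := nontrivial_of_chart (ℂ × ℂ) X
  have i8 : PolishSpace G := hcl.polishSpace
  have i9 : TotallyDisconnectedSpace G := totallyDisconnectedSpace_subtype_iff.2 htd
  have hπ := hS.sub
  have hcont := continuous_of_submersive hπ
  have hopen := isOpenMap_of_submersive hπ
  have hBo : IsOpen (range π) := hopen.isOpen_range
  letI := baseAction hπ G hG
  have equi : ∀ (g : G) (x : X), proj π (g • x) = g • proj π x := fun g x =>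
    Subtype.ext ((exists_hat hπ g.1 (hG g.1 g.2)).choose_spec.2 x)
  have htr' : ∀ x y : X, ∃ g : G, g • x = y := fun x y => by
    obtain ⟨g, hg, h⟩ := htr x y
    exact ⟨⟨g, hg⟩, h⟩
  have pcont : Continuous (proj π) := hcont.subtype_mk _
  have popen : IsOpenMap (proj π) := by
    intro O hO
    have h1 : proj π '' O = Subtype.val ⁻¹' (π '' O) := by
      ext y
      constructor
      · rintro ⟨x, hx, rfl⟩
        exact ⟨x, hx, rfl⟩
      · rintro ⟨x, hx, h⟩
        exact ⟨x, hx, Subtype.ext h⟩
    rw [h1]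
    exact (hopen O hO).preimage continuous_subtype_val
  have psurj : Function.Surjective (proj π) := by
    rintro ⟨_, x, rfl⟩
    exact ⟨x, rfl⟩
  have hopX : ∀ x : X, IsOpenMap (fun g : G => g • x) := fun x => isOpenMap_smul htr' x
  have hopY : ∀ y : range π, IsOpenMap (fun g : G => g • y) := by
    intro y
    obtain ⟨x, rfl⟩ := psurj y
    have : (fun g : G => g • proj π x) = proj π ∘ fun g : G => g • x := by
      funext g
      exact (equi g x).symm
    rw [this]
    exact popen.comp (hopX x)
  have hF : Fibr G (proj π) :=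
    { cont := pcont
      surj := psurj
      equi := equi
      hopX := hopX
      hopY := hopY
      trX := htr'
      faithful := fun g h => Subtype.ext (AutM.ext h) }
  have trY : ∀ y y' : range π, ∃ g : G, g • y = y' := fun y y' => by
    obtain ⟨x, rfl⟩ := psurj y
    obtain ⟨x', rfl⟩ := psurj y'
    obtain ⟨g, hg⟩ := htr' x x'
    exact ⟨g, by rw [← equi, hg]⟩
  -- continuity of the action on the base
  have i10 : ContinuousSMul G (range π) := by
    refine ⟨?_⟩
    have hq : IsOpenQuotientMap (Prod.map (id : G → G) (proj π)) :=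
      IsOpenQuotientMap.id.prodMap ⟨psurj, pcont, popen⟩
    rw [hq.isQuotientMap.continuous_iff]
    have h1 : ((fun q : G × range π => q.1 • q.2) ∘ Prod.map (id : G → G) (proj π)) =
        fun q : G × X => proj π (q.1 • q.2) := by
      funext q
      exact (equi q.1 q.2).symm
    rw [h1]
    exact pcont.comp continuous_smul
  have i11 : ConnectedSpace (range π) := by
    exact isConnected_iff_connectedSpace.1 (isConnected_range hcont)
  have i12 : LocallyConnectedSpace (range π) :=
    hBo.isOpenEmbedding_subtypeVal.locallyConnectedSpace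
  have i13 : Nontrivial (range π) := by
    rcases hS.base with h | h | h
    · rw [h]
      exact ⟨⟨0, mem_univ _⟩, ⟨1, mem_univ _⟩, fun h => zero_ne_one (congrArg Subtype.val h)⟩
    · rw [h]
      refine ⟨⟨1, by simp⟩, ⟨2, by simp⟩, fun h => ?_⟩
      have := congrArg Subtype.val h
      norm_num at this
    · rw [h]
      refine ⟨⟨0, by simp⟩, ⟨1 / 2, by norm_num⟩, fun h => ?_⟩
      have := congrArg Subtype.val h
      norm_num at this
  -- facts on the base
  have hat : ∀ g : G, ∃ φ : ℂ → ℂ, AutF (range π) φ ∧ ∀ y : range π, φ y.1 = (g • y).1 := by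
    intro g
    have hs : ∀ g : G, ∀ y : range π, (exists_hat hπ g.1 (hG g.1 g.2)).choose y.1 = (g • y).1 :=
      fun g y => rfl
    refine ⟨(exists_hat hπ g.1 (hG g.1 g.2)).choose,
      ⟨(exists_hat hπ g.1 (hG g.1 g.2)).choose_spec.1, ?_, ?_, ?_⟩, hs g⟩
    · intro z hz
      have := hs g ⟨z, hz⟩
      simp only at this
      rw [this]
      exact (g • (⟨z, hz⟩ : range π)).2
    · intro z hz z' hz' h
      have h1 := hs g ⟨z, hz⟩
      have h2 := hs g ⟨z', hz'⟩
      simp only at h1 h2
      rw [h1, h2] at h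
      have h3 : (⟨z, hz⟩ : range π) = ⟨z', hz'⟩ := smul_left_cancel g (Subtype.ext h)
      exact congrArg Subtype.val h3
    · intro z hz
      refine ⟨(g⁻¹ • (⟨z, hz⟩ : range π)).1, (g⁻¹ • (⟨z, hz⟩ : range π)).2, ?_⟩
      have h1 := hs g (g⁻¹ • (⟨z, hz⟩ : range π))
      rw [smul_inv_smul] at h1
      exact h1
  have hcomm : CommF (range π) := by
    rcases hS.base with h | h | h
    · rw [h]; exact commF_univ
    · rw [h]; exact commF_punctured
    · rw [h]; exact commF_disc
  have hconj : ConjF (range π) := by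
    rcases hS.base with h | h | h
    · rw [h]; exact conjF_univ
    · rw [h]; exact conjF_punctured
    · rw [h]; exact conjF_disc
  have hB : BaseOK G (range π) := by
    refine ⟨?_, ?_, ?_, ?_⟩
    · intro b g h hg hh y
      obtain ⟨φ, hφ, hφ'⟩ := hat g
      obtain ⟨ψ, hψ, hψ'⟩ := hat h
      apply Subtype.ext
      rw [← hφ', ← hψ', ← hψ', ← hφ']
      exact hcomm φ ψ b.1 hφ hψ b.2 (by rw [hφ', hg]) (by rw [hψ', hh]) y.1 y.2
    · intro b r hr hr'
      obtain ⟨φ, hφ, hφ'⟩ := hat r
      have hne : ∃ z ∈ range π, φ z ≠ z := by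
        unfold Vert at hr'
        push Not at hr'
        obtain ⟨y, hy⟩ := hr'
        exact ⟨y.1, y.2, fun h => hy (Subtype.ext (by rw [← hφ', h]))⟩
      have h1 := model_iso hS.base hφ b.2 hne
      have h2 : Tendsto (Subtype.val : range π → ℂ) (𝓝[≠] b) (𝓝[≠] b.1) := by
        refine tendsto_nhdsWithin_iff.2 ⟨(continuous_subtype_val.tendsto b).mono_left
          nhdsWithin_le_nhds, ?_⟩
        filter_upwards [self_mem_nhdsWithin] with y hy h
        exact hy (Subtype.ext h)
      filter_upwards [h2.eventually h1] with y hy h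
      exact hy (by rw [hφ', h])
    · intro b r hr hr' v
      obtain ⟨φ, hφ, hφ'⟩ := hat r
      have hne : ∃ z ∈ range π, φ z ≠ z := by
        unfold Vert at hr'
        push Not at hr'
        obtain ⟨y, hy⟩ := hr'
        exact ⟨y.1, y.2, fun h => hy (Subtype.ext (by rw [← hφ', h]))⟩
      obtain ⟨y, hy, h1⟩ := hconj φ b.1 v.1 hφ b.2 (by rw [hφ', hr]) hne v.2
      obtain ⟨g, hg⟩ := trY b ⟨y, hy⟩
      obtain ⟨ψ, hψ, hψ1⟩ := hat g
      obtain ⟨ψ', hψ', hψ'1⟩ := hat g⁻¹
      refine ⟨g, Subtype.ext ?_⟩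
      rw [mul_smul, mul_smul, ← hψ1, ← hφ', ← hψ'1]
      refine h1 ψ ψ' hψ hψ' (fun z hz => ?_) (fun z hz => ?_) ?_
      · have h2 := hψ1 ⟨z, hz⟩
        have h3 := hψ'1 (g • (⟨z, hz⟩ : range π))
        rw [inv_smul_smul] at h3
        simp only at h2 h3
        rw [h2, h3]
      · have h2 := hψ'1 ⟨z, hz⟩
        have h3 := hψ1 (g⁻¹ • (⟨z, hz⟩ : range π))
        rw [smul_inv_smul] at h3
        simp only at h2 h3
        rw [h2, h3]
      · rw [hψ1, hg]
    · intro b
      exact ConnectedSpace.neBot_nhdsWithin_compl_of_nontrivial_of_t1space b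
  have vert_iff : ∀ {f : G}, Vert (range π) f → ∀ x, π (f.1 x) = π x := by
    intro f hf x
    have h := hf (proj π x)
    rw [← equi] at h
    exact congrArg Subtype.val h
  have hid : FibId G (proj π) := by
    intro b f hf hz
    refine Subtype.ext (eq_one_of_frequently hπ (vert_iff hf) b.2 ?_)
    have h2 : Tendsto (Subtype.val : range π → ℂ) (𝓝[≠] b) (𝓝[≠] b.1) := by
      refine tendsto_nhdsWithin_iff.2 ⟨(continuous_subtype_val.tendsto b).mono_left
        nhdsWithin_le_nhds, ?_⟩
      filter_upwards [self_mem_nhdsWithin] with y hy h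
      exact hy (Subtype.ext h)
    refine h2.frequently (hz.mono fun y hy x hx => hy x (Subtype.ext hx))
  have hL : LimOK G X := limOK_of_isClosed (ℂ × ℂ) X G hcl
  -- fibre coordinates
  choose! u hu using hS.coord
  have mapFib : ∀ (g : G) (y : range π), MapFib π g.1 y.1 (g • y).1 := by
    intro g y
    refine ⟨fun x hx => ?_, fun x hx => ?_⟩
    · have h1 : proj π x = y := Subtype.ext hx
      have h2 := equi g x
      rw [h1] at h2
      exact congrArg Subtype.val h2
    · have h1 : proj π x = g • y := Subtype.ext hx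
      have h2 := equi g⁻¹ x
      rw [h1, inv_smul_smul] at h2
      exact congrArg Subtype.val h2
  have hfibmap : ∀ (g : G) (y : range π), ∃ γ : ℂ → ℂ, AutF F γ ∧
      ∀ x, π x = y.1 → u (g • y).1 (g.1 x) = γ (u y.1 x) := fun g y =>
    exists_fibMap hπ (hu y.1 y.2) (hu _ (g • y).2) g.1 (mapFib g y)
  have hpre : ∀ y : range π, proj π ⁻¹' {y} = π ⁻¹' {y.1} := by
    intro y
    ext x
    constructor
    · intro h
      exact congrArg Subtype.val h
    · intro h
      exact Subtype.ext h
  have hemb : ∀ y : range π, IsEmbedding (fun x : (proj π ⁻¹' {y} : Set X) => u y.1 x) := by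
    intro y
    rw [hpre y]
    exact isEmbedding_coord hπ (hu y.1 y.2)
  -- vertical maps which are the identity on a fibre are trivial
  have hK : ∀ (f : G) (b : range π), Vert (range π) f → IdOn (proj π) f b → f = 1 := by
    intro f b hf hfb
    rcases hS.fib with hF' | hF' | hF'
    · subst hF'
      have hU : FibC G (proj π) (fun y => u y.1) := by
        refine ⟨hemb, fun y => ?_, fun g y => ?_⟩
        · rw [hpre y]
          exact (hu y.1 y.2).1
        · obtain ⟨γ, hγ, h⟩ := hfibmap g y
          obtain ⟨α, β, hα, h'⟩ := aut_plane hγ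
          exact ⟨α, β, hα, fun x hx => by rw [← h']; exact h x (congrArg Subtype.val hx)⟩
      obtain ⟨A, hA⟩ := exists_goodA_C hF hB hL hU
      exact eq_one_of_idOn hF hB hid hA hf hfb
    · subst hF'
      have hU : FibCs G (proj π) (fun y => u y.1) := by
        refine ⟨hemb, fun y => ?_, fun g y => ?_⟩
        · rw [hpre y]
          exact (hu y.1 y.2).1
        · obtain ⟨γ, hγ, h⟩ := hfibmap g y
          have hne : ∀ x, π x = y.1 → u y.1 x ≠ 0 := fun x hx => (hu y.1 y.2).1.mapsTo hx
          rcases aut_punctured hγ with ⟨c, hc, h'⟩ | ⟨c, hc, h'⟩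
          · left
            exact ⟨c, hc, fun x hx => by
              rw [← h' _ (hne x (congrArg Subtype.val hx))]; exact h x (congrArg Subtype.val hx)⟩
          · right
            exact ⟨c, hc, fun x hx => by
              rw [← h' _ (hne x (congrArg Subtype.val hx))]; exact h x (congrArg Subtype.val hx)⟩
      obtain ⟨A, hA⟩ := exists_goodA_Cs hF hU
      exact eq_one_of_idOn hF hB hid hA hf hfb
    · subst hF'
      refine Subtype.ext (eq_one_of_idOn_disc hπ b.2 (hu b.1 b.2) ?_ (vert_iff hf)
        (fun x hx => hfb x (Subtype.ext hx)))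
      intro V hV
      have h1 : (Subtype.val ⁻¹' V : Set G) ∈ 𝓝 (1 : G) :=
        continuous_subtype_val.continuousAt.preimage_mem_nhds (by simpa using hV)
      have h2 := (hopY b).image_mem_nhds h1
      rw [one_smul] at h2
      have h3 : Subtype.val '' ((fun g : G => g • b) '' (Subtype.val ⁻¹' V)) ∈ 𝓝 b.1 :=
        hBo.isOpenMap_subtype_val.image_mem_nhds h2
      filter_upwards [h3] with z hz
      obtain ⟨_, ⟨g, hg, rfl⟩, rfl⟩ := hz
      exact ⟨g.1, hg, mapFib g b⟩
  have hcommF : CommF F := by
    rcases hS.fib with h | h | h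
    · rw [h]; exact commF_univ
    · rw [h]; exact commF_punctured
    · rw [h]; exact commF_disc
  have hfib : ∀ (x : X) (g h : G), g • x = x → h • x = x → ∀ x', proj π x' = proj π x →
      g • h • x' = h • g • x' := by
    intro x g h hg hh x' hx'
    have hgb : g • proj π x = proj π x := by rw [← equi, hg]
    have hhb : h • proj π x = proj π x := by rw [← equi, hh]
    obtain ⟨γ, hγ, h1⟩ := hfibmap g (proj π x)
    obtain ⟨δ, hδ, h2⟩ := hfibmap h (proj π x)
    rw [hgb] at h1
    rw [hhb] at h2
    have hbij := (hu (proj π x).1 (proj π x).2).1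
    have e1 : π x' = π x := congrArg Subtype.val hx'
    have e2 : π (g.1 x') = π x := by
      have := (mapFib g (proj π x)).1 x' e1
      rw [hgb] at this
      exact this
    have e3 : π (h.1 x') = π x := by
      have := (mapFib h (proj π x)).1 x' e1
      rw [hhb] at this
      exact this
    have e4 : π (g.1 (h.1 x')) = π x := by
      have := (mapFib g (proj π x)).1 _ e3
      rw [hgb] at this
      exact this
    have e5 : π (h.1 (g.1 x')) = π x := by
      have := (mapFib h (proj π x)).1 _ e2
      rw [hhb] at this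
      exact this
    refine hbij.injOn e4 e5 ?_
    change u (π x) (g.1 (h.1 x')) = u (π x) (h.1 (g.1 x'))
    have h1' : ∀ x', π x' = π x → u (π x) (g.1 x') = γ (u (π x) x') := h1
    have h2' : ∀ x', π x' = π x → u (π x) (h.1 x') = δ (u (π x) x') := h2
    rw [h1' _ e3, h2' _ e1, h2' _ e2, h1' _ e1]
    refine hcommF γ δ (u (π x) x) hγ hδ (hbij.mapsTo rfl) ?_ ?_ _ (hbij.mapsTo e1)
    · rw [← h1' x rfl]
      exact congrArg (u (π x)) hg
    · rw [← h2' x rfl]
      exact congrArg (u (π x)) hh
  obtain ⟨x⟩ : Nonempty X := inferInstance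
  have habel : ∀ g ∈ isot G x, ∀ h ∈ isot G x, g * h = h * g := by
    intro g hg h hh
    exact congrArg Subtype.val
      (stab_comm hF hB hfib hK x ⟨g, hg.1⟩ ⟨h, hh.1⟩ hg.2 hh.2)
  refine (criterion hcl htr htd x).nilpotent (isot G x) le_rfl (by simp) ?_
  letI : CommGroup (isot G x) :=
    { (inferInstance : Group (isot G x)) with
      mul_comm := fun a b => Subtype.ext (habel a.1 a.2 b.1 b.2) }
  exact CommGroup.isNilpotent

/-- the automorphisms mapping fibres into fibres form a closed set -/
theorem isClosed_pres (hπ : Submersive π) : IsClosed {g : AutM (ℂ × ℂ) X | Pres π g} := by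
  have i3 := continuousSMul_autM (ℂ × ℂ) X
  have hcont := continuous_of_submersive hπ
  have h1 : {g : AutM (ℂ × ℂ) X | Pres π g} =
      ⋂ (x : X) (y : X) (_ : π x = π y), {g : AutM (ℂ × ℂ) X | π (g • x) = π (g • y)} := by
    ext g
    simp only [mem_setOf_eq, mem_iInter]
    exact Iff.rfl
  rw [h1]
  refine isClosed_iInter fun x => isClosed_iInter fun y => isClosed_iInter fun _ => ?_
  exact isClosed_eq (by fun_prop) (by fun_prop)

/-- if a transitive group of automorphisms, closed or not, preserves a fibration, then the identity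
component of `Aut X` is not trivial -/
theorem hasFlow_of_fibred (hS : FibredSurface π F) {G : Subgroup (AutM (ℂ × ℂ) X)}
    (htr : Transitive G) (hG : ∀ g ∈ G, Pres π g) : HasFlow (ℂ × ℂ) X := by
  by_contra hcon
  have i0 := totallyDisconnectedSpace_of_not_hasFlow hcon
  have i1 := isTopologicalGroup_autM (ℂ × ℂ) X
  refine not_isTotallyDisconnected_of_closed hS (G := G.topologicalClosure)
    G.isClosed_topologicalClosure (fun x y => ?_) ?_
    (isTotallyDisconnected_of_totallyDisconnectedSpace _)
  · obtain ⟨a, ha, h⟩ := htr x y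
    exact ⟨a, G.le_topologicalClosure ha, h⟩
  · intro g hg
    exact closure_minimal hG (isClosed_pres hS.sub) hg

end

end Pool.Agent.ISY
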