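import Mathlib

/-!
# ISY-Gr: the graph of a family of conjugates (definitions)
-/

set_option autoImplicit false

open Set Topology

namespace Pool.Agent.ISY

/-- the graph of the family of sets `w S w⁻¹`, `w ∈ W`, over the points `w • p` of `N` -/
def Gr {G X : Type} [Group G] [MulAction G X] (W S : Set G) (N : Set X) (p : X) : Set (X × G) :=
  {z | z.1 ∈ N ∧ ∃ w ∈ W, w • p = z.1 ∧ ∃ t ∈ S, z.2 = w * t * w⁻¹}

/-- the set `w S w⁻¹` depends only on the point `w • p` -/
def Indep {G X : Type} [Group G] [MulAction G X] (W S : Set G) (p : X) : Prop :=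
  ∀ w ∈ W, ∀ w' ∈ W, w • p = w' • p → ∀ t ∈ S, ∃ t' ∈ S, w * t * w⁻¹ = w' * t' * w'⁻¹

end Pool.Agent.ISY
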