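import Pool.Agent.ISY.Fib

/-!
# ISY-Hat: the induced map on the base

* `continuous_of_submersive`: near `x`, `π = Prod.fst ∘ e`. `isOpenMap_of_submersive`: near `x`, `π = Prod.fst ∘ e`, `e`
  is open on its source, `Prod.fst` is open (`IsOpenMap.of_nhds_le` or `isOpenMap_iff_nhds_le`).
* `exists_hat`: define `φ z := π (g x)` for any `x` over `z` (choice). Near `z₀ = π x₀`, with an adapted chart `e` at
  `x₀` and `w₀ = (e x₀).2`: `φ z = π (g (e.symm (z, w₀)))` for `z` close to `z₀` (`π (e.symm (z, w₀)) = z`), and with an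
  adapted chart `e'` at `g x₀` this is `(e' (g (e.symm (z, w₀)))).1`, differentiable in `z`: `e' ∘ g ∘ e.symm` is
  `ContDiffOn` of class `ω` (maximal atlas: `contMDiffOn_of_mem_maximalAtlas`,
  `contMDiffOn_symm_of_mem_maximalAtlas`, `AutM.contMDiff`, compose; `contMDiffOn_iff_contDiffOn`).
* `differentiableAt_chart`: the same remark: `(z, w) ↦ e' (g (e.symm (z, w)))` is differentiable at every
  point of `e.target` mapped by `g ∘ e.symm` into `e'.source`.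
-/

set_option autoImplicit false

open Set Topology Metric
open scoped Manifold

namespace Pool.Agent.ISY

section
variable {X : Type} [TopologicalSpace X] [ChartedSpace (ℂ × ℂ) X]
  [IsManifold 𝓘(ℂ, ℂ × ℂ) (⊤ : WithTop ℕ∞) X] {π : X → ℂ}

omit [IsManifold 𝓘(ℂ, ℂ × ℂ) (⊤ : WithTop ℕ∞) X] in
private theorem eventuallyEq_pi {e : OpenPartialHomeomorph X (ℂ × ℂ)} (he : Adapted π e) {x : X}
    (hx : x ∈ e.source) : (fun y => (e y).1) =ᶠ[𝓝 x] π := by
  filter_upwards [e.open_source.mem_nhds hx] with y hy using he.2 y hy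

omit [IsManifold 𝓘(ℂ, ℂ × ℂ) (⊤ : WithTop ℕ∞) X] in
theorem continuous_of_submersive (hπ : Submersive π) : Continuous π := by
  rw [continuous_iff_continuousAt]
  intro x
  obtain ⟨e, he, hx⟩ := hπ x
  exact ((continuous_fst.continuousAt).comp (e.continuousAt hx)).congr (eventuallyEq_pi he hx)

omit [IsManifold 𝓘(ℂ, ℂ × ℂ) (⊤ : WithTop ℕ∞) X] in
theorem isOpenMap_of_submersive (hπ : Submersive π) : IsOpenMap π := by
  rw [isOpenMap_iff_nhds_le]
  intro x
  obtain ⟨e, he, hx⟩ := hπ x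
  rw [← Filter.map_congr (eventuallyEq_pi he hx)]
  have h1 : Filter.map (fun y => (e y).1) (𝓝 x) = Filter.map Prod.fst (Filter.map e (𝓝 x)) := by
    rw [Filter.map_map]
    rfl
  rw [h1, e.map_nhds_eq hx, ← he.2 x hx, nhds_prod_eq (x := (e x).1) (y := (e x).2)]
  exact (Filter.map_fst_prod _ _).ge

theorem analyticAt_chart {e e' : OpenPartialHomeomorph X (ℂ × ℂ)} (he : Adapted π e)
    (he' : Adapted π e') (g : AutM (ℂ × ℂ) X) {q : ℂ × ℂ} (hq : q ∈ e.target)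
    (hq' : g (e.symm q) ∈ e'.source) : AnalyticAt ℂ (fun q => e' (g (e.symm q))) q := by
  have h1 : ContMDiffAt 𝓘(ℂ, ℂ × ℂ) 𝓘(ℂ, ℂ × ℂ) (⊤ : WithTop ℕ∞) e.symm q :=
    (contMDiffOn_symm_of_mem_maximalAtlas he.1).contMDiffAt (e.open_target.mem_nhds hq)
  have h2 : ContMDiffAt 𝓘(ℂ, ℂ × ℂ) 𝓘(ℂ, ℂ × ℂ) (⊤ : WithTop ℕ∞) e' (g (e.symm q)) :=
    (contMDiffOn_of_mem_maximalAtlas he'.1).contMDiffAt (e'.open_source.mem_nhds hq')
  have h3 : ContMDiffAt 𝓘(ℂ, ℂ × ℂ) 𝓘(ℂ, ℂ × ℂ) (⊤ : WithTop ℕ∞)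
      (fun q => e' (g (e.symm q))) q := h2.comp q ((g.contMDiff.contMDiffAt).comp q h1)
  exact (contMDiffAt_iff_contDiffAt.1 h3).analyticAt

theorem exists_hat (hπ : Submersive π) (g : AutM (ℂ × ℂ) X) (hg : Pres π g) :
    ∃ φ : ℂ → ℂ, DifferentiableOn ℂ φ (range π) ∧ ∀ x, π (g x) = φ (π x) := by
  classical
  let φ : ℂ → ℂ := fun z => if h : ∃ x, π x = z then π (g h.choose) else 0
  have hφ : ∀ x, π (g x) = φ (π x) := by
    intro x
    have h : ∃ y, π y = π x := ⟨x, rfl⟩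
    have h1 : φ (π x) = π (g h.choose) := dif_pos h
    rw [h1]
    exact hg _ _ h.choose_spec.symm
  refine ⟨φ, ?_, hφ⟩
  rintro _ ⟨x₀, rfl⟩
  apply DifferentiableAt.differentiableWithinAt
  obtain ⟨e, he, hx⟩ := hπ x₀
  obtain ⟨e', he', hx'⟩ := hπ (g x₀)
  have hpt : ((π x₀, (e x₀).2) : ℂ × ℂ) = e x₀ := by rw [← he.2 x₀ hx]
  have hsym : e.symm (π x₀, (e x₀).2) = x₀ := by rw [hpt]; exact e.left_inv hx
  have htar : ((π x₀, (e x₀).2) : ℂ × ℂ) ∈ e.target := by rw [hpt]; exact e.map_source hx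
  have h1 : AnalyticAt ℂ (fun q => e' (g (e.symm q))) (π x₀, (e x₀).2) :=
    analyticAt_chart he he' g htar (by rw [hsym]; exact hx')
  have h2 : DifferentiableAt ℂ (fun z : ℂ => (e' (g (e.symm (z, (e x₀).2)))).1) (π x₀) := by
    have h3 : DifferentiableAt ℂ (fun z : ℂ => ((z, (e x₀).2) : ℂ × ℂ)) (π x₀) := by fun_prop
    have h4 : DifferentiableAt ℂ (fun q : ℂ × ℂ => (e' (g (e.symm q))).1)
        (π x₀, (e x₀).2) := h1.differentiableAt.fst
    exact DifferentiableAt.comp (g := fun q : ℂ × ℂ => (e' (g (e.symm q))).1)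
      (f := fun z : ℂ => ((z, (e x₀).2) : ℂ × ℂ)) (π x₀) h4 h3
  refine h2.congr_of_eventuallyEq ?_
  have hc : ContinuousAt (fun z : ℂ => ((z, (e x₀).2) : ℂ × ℂ)) (π x₀) := by fun_prop
  have ht : ∀ᶠ z in 𝓝 (π x₀), ((z, (e x₀).2) : ℂ × ℂ) ∈ e.target :=
    hc.eventually (e.open_target.mem_nhds htar)
  have hc2 : ContinuousAt (fun z : ℂ => g (e.symm (z, (e x₀).2))) (π x₀) := by
    refine (g.continuous.continuousAt).comp (ContinuousAt.comp (g := e.symm) ?_ hc)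
    exact e.symm.continuousAt htar
  have hs : ∀ᶠ z in 𝓝 (π x₀), g (e.symm (z, (e x₀).2)) ∈ e'.source :=
    hc2.eventually (e'.open_source.mem_nhds (by
      change g (e.symm (π x₀, (e x₀).2)) ∈ e'.source
      rw [hsym]; exact hx'))
  filter_upwards [ht, hs] with z hz1 hz2
  have h5 : π (e.symm (z, (e x₀).2)) = z := by
    rw [← he.2 _ (e.map_target hz1), e.right_inv hz1]
  rw [he'.2 _ hz2, hφ, h5]

end

end Pool.Agent.ISY
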