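import Pool.Agent.ISY.Ab
import Pool.Agent.ISY.CstO

/-!
# ISY-IVa: Lemma IV, first case: the stabilizer of `b` acts trivially on the base
-/

set_option autoImplicit false

open Set Topology Filter

namespace Pool.Agent.ISY

private theorem iva_nhd {G : Type} [Group G] [TopologicalSpace G] [IsTopologicalGroup G]
    {W : Set G} (hW : W ∈ 𝓝 (1 : G)) : ∃ V : Set G, IsOpen V ∧ (1 : G) ∈ V ∧
      ∀ g ∈ V, ∀ g' ∈ V, g⁻¹ * g' ∈ W := by
  have h1 : Continuous (fun p : G × G => p.1⁻¹ * p.2) := by fun_prop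
  have h2 : (fun p : G × G => p.1⁻¹ * p.2) ⁻¹' W ∈ 𝓝 ((1 : G), (1 : G)) := by
    apply h1.continuousAt
    simpa using hW
  rw [mem_nhds_prod_iff'] at h2
  obtain ⟨u, v, hu, h1u, hv, h1v, huv⟩ := h2
  refine ⟨u ∩ v, hu.inter hv, ⟨h1u, h1v⟩, fun g hg g' hg' => ?_⟩
  exact huv (show (g, g') ∈ u ×ˢ v from ⟨hg.1, hg'.2⟩)

theorem eq_one_of_idOn_a {G X Y : Type} [Group G] [TopologicalSpace G] [IsTopologicalGroup G]
    [TotallyDisconnectedSpace G] [TopologicalSpace X] [TopologicalSpace Y]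
    [LocallyConnectedSpace Y] [MulAction G X] [MulAction G Y] {π : X → Y} (hF : Fibr G π)
    (hB : BaseOK G Y) (hid : FibId G π) {A : Subgroup G} (hA : GoodA π A) {f : G} {b : Y}
    (hf : Vert Y f) (hfb : IdOn π f b) (hst : ∀ r : G, r • b = b → Vert Y r) : f = 1 := by
  have hfA : f ∈ A := hA.ker f b hf hfb
  obtain ⟨W, hW, hWA⟩ := hA.nhd
  obtain ⟨V, hVo, hV1, hVW⟩ := iva_nhd hW
  have hop := hF.hopY b
  have hbV : (fun g : G => g • b) '' V ∈ 𝓝 b := by
    apply (hop V hVo).mem_nhds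
    exact ⟨1, hV1, one_smul G b⟩
  obtain ⟨U, hUV, hUo, hbU, hUc⟩ :=
    locallyConnectedSpace_iff_subsets_isOpen_isConnected.1 inferInstance b _ hbV
  have hwd : ∀ g ∈ V, ∀ g' ∈ V, g • b = g' • b → g * f * g⁻¹ = g' * f * g'⁻¹ := by
    intro g hg g' hg' h
    have h1 : (g⁻¹ * g') • b = b := by
      rw [mul_smul, ← h, inv_smul_smul]
    have h2 : g⁻¹ * g' ∈ A := hWA _ (hVW g hg g' hg') (hst _ h1)
    have h3 := hA.comm _ h2 f hfA
    have h4 : g' * f = g * f * (g⁻¹ * g') := by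
      calc g' * f = g * ((g⁻¹ * g') * f) := by group
        _ = g * (f * (g⁻¹ * g')) := by rw [h3]
        _ = g * f * (g⁻¹ * g') := by group
    rw [h4]
    group
  have hcst := const_of_open (o := fun g : G => g • b) (Ψ := fun g : G => g * f * g⁻¹) hop hVo
    (by fun_prop) hwd hUc.isPreconnected hUV
  have hIdU : ∀ y ∈ U, IdOn π f y := by
    intro y hy x hx
    obtain ⟨g, hg, hgy⟩ := hUV hy
    have hgy' : g • b = y := hgy
    have h1 : g * f * g⁻¹ = 1 * f * (1 : G)⁻¹ :=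
      hcst g hg 1 hV1 (by rw [hgy']; exact hy) (by
        show (1 : G) • b ∈ U
        rw [one_smul]
        exact hbU)
    rw [one_mul, inv_one, mul_one] at h1
    have h2 : π (g⁻¹ • x) = b := by
      rw [hF.equi, hx, ← hgy', inv_smul_smul]
    have h3 := hfb _ h2
    calc f • x = (g * f * g⁻¹) • x := by rw [h1]
      _ = g • f • g⁻¹ • x := by rw [mul_smul, mul_smul]
      _ = x := by rw [h3, smul_inv_smul]
  apply hid b f hf
  have := hB.noniso b
  apply Eventually.frequently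
  apply eventually_nhdsWithin_of_eventually_nhds
  exact Filter.mem_of_superset (hUo.mem_nhds hbU) hIdU

end Pool.Agent.ISY
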