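import Mathlib

/-!
# ISY-Mas: the conclusion of the master lemma, as a predicate (definitions)
-/

set_option autoImplicit false

open Set Topology

namespace Pool.Agent.ISY

/-- a compact subset of the stabilizer of `p` that is invariant under conjugation by the elements of the
stabilizer close to `1` contains no element other than `1` -/
def Mas (G X : Type) [Group G] [TopologicalSpace G] [MulAction G X] (p : X) : Prop :=
  ∀ S : Set G, IsCompact S → (∀ s ∈ S, s • p = p) →
    (∃ V ∈ 𝓝 (1 : G), ∀ h ∈ V, h • p = p → ∀ s ∈ S, h * s * h⁻¹ ∈ S) → ∀ s ∈ S, s = 1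

/-- the conjugacy class of `s` under the stabilizer of `p` -/
def cls {G X : Type} [Group G] [MulAction G X] (p : X) (s : G) : Set G :=
  {t | ∃ h : G, h • p = p ∧ t = h * s * h⁻¹}

end Pool.Agent.ISY
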