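import Pool.Agent.ISY.Ab

/-!
# ISY-Mul: fibres `ℂ`: multipliers of vertical elements; the translations

`IsMul π U f y m`: the vertical element `f` acts on the fibre over `y` as an affine map with multiplier `m`.

Plans (all with `hU.act`, `hU.bij`): `exists_isMul` from `hU.act f y`, `f • y = y`. `isMul_unique`: take two points
of the fibre with coordinates `0` and `1`. `isMul_conj`: `hU.act g y` gives `α`, `β`; a point over `g • y` is
`g • x` with `π x = y`, `(g * f * g⁻¹) • g • x = g • f • x`, multiply out and cancel `α`. `isMul_mul`, `isMul_inv`: the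
composition of affine maps. `Trans`: the subgroup of the vertical elements with all multipliers `1`;
`trans_normal`: by `isMul_conj` (every `y` is `g • (g⁻¹ • y)`); `trans_comm`: translations of a fibre commute,
`U y` is injective on the fibre, so `(a * a') • x = (a' * a) • x` for all `x`, and `hfaith`.
`U_conj_trans`: `(F * β * F⁻¹) • x`, `β` acts on the fibre over `y` by `U y (β • x) = U y x + τ` with `τ` independent of
`x`; so `U y ((F * β * F⁻¹) • x) = U y x + m * τ`.
-/

set_option autoImplicit false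

open Set Topology Filter

namespace Pool.Agent.ISY

/-- `f` acts on the fibre over `y` as an affine map with multiplier `m` -/
def IsMul {G X Y : Type} [Group G] [MulAction G X] (π : X → Y) (U : Y → X → ℂ) (f : G) (y : Y)
    (m : ℂ) : Prop :=
  ∀ x x', π x = y → π x' = y → U y (f • x') - U y (f • x) = m * (U y x' - U y x)

section
variable {G X Y : Type} [Group G] [TopologicalSpace X] [MulAction G X] [MulAction G Y]
  {π : X → Y} {U : Y → X → ℂ}

theorem exists_isMul (hU : FibC G π U) {f : G} (hf : Vert Y f) (y : Y) :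
    ∃ m : ℂ, m ≠ 0 ∧ IsMul π U f y m := by
  obtain ⟨α, β, hα, h⟩ := hU.act f y
  rw [hf y] at h
  refine ⟨α, hα, ?_⟩
  intro x x' hx hx'
  rw [h x hx, h x' hx']
  ring

theorem isMul_unique (hU : FibC G π U) {f : G} {y : Y} {m m' : ℂ} (h : IsMul π U f y m)
    (h' : IsMul π U f y m') : m = m' := by
  obtain ⟨x, hx, hx0⟩ := (hU.bij y).surjOn (mem_univ (0 : ℂ))
  obtain ⟨x', hx', hx1⟩ := (hU.bij y).surjOn (mem_univ (1 : ℂ))
  have e1 := h x x' hx hx'
  have e2 := h' x x' hx hx'
  rw [hx0, hx1, sub_zero, mul_one] at e1 e2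
  rw [← e1, ← e2]

theorem isMul_conj (hequi : ∀ (g : G) (x : X), π (g • x) = g • π x) (hU : FibC G π U) (g : G)
    {f : G} (hf : Vert Y f) {y : Y} {m : ℂ} (h : IsMul π U f y m) :
    IsMul π U (g * f * g⁻¹) (g • y) m := by
  obtain ⟨α, β, hα, hg⟩ := hU.act g y
  have hkey : ∀ z, π z = g • y → π (g⁻¹ • z) = y ∧ g • g⁻¹ • z = z ∧
      (g * f * g⁻¹) • z = g • f • g⁻¹ • z ∧ π (f • g⁻¹ • z) = y := by
    intro z hz
    have h1 : π (g⁻¹ • z) = y := by rw [hequi, hz, inv_smul_smul]
    refine ⟨h1, smul_inv_smul g z, ?_, ?_⟩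
    · rw [mul_smul, mul_smul]
    · rw [hequi, h1, hf y]
  intro z z' hz hz'
  obtain ⟨a1, a2, a3, a4⟩ := hkey z hz
  obtain ⟨b1, b2, b3, b4⟩ := hkey z' hz'
  have e1 := hg _ a1
  have e2 := hg _ b1
  rw [a2] at e1
  rw [b2] at e2
  rw [a3, b3, hg _ a4, hg _ b4, e1, e2]
  have e3 := h _ _ a1 b1
  linear_combination α * e3

theorem isMul_mul (hequi : ∀ (g : G) (x : X), π (g • x) = g • π x) {f f' : G} (hf : Vert Y f)
    (hf' : Vert Y f') {y : Y} {m m' : ℂ} (h : IsMul π U f y m) (h' : IsMul π U f' y m') :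
    IsMul π U (f * f') y (m * m') := by
  intro x x' hx hx'
  have e1 : π (f' • x) = y := by rw [hequi, hx, hf' y]
  have e2 : π (f' • x') = y := by rw [hequi, hx', hf' y]
  have e3 := h _ _ e1 e2
  have e4 := h' _ _ hx hx'
  rw [mul_smul, mul_smul, e3, e4]
  ring

theorem isMul_inv (hequi : ∀ (g : G) (x : X), π (g • x) = g • π x) {f : G} (hf : Vert Y f)
    {y : Y} {m : ℂ} (hm : m ≠ 0) (h : IsMul π U f y m) : IsMul π U f⁻¹ y m⁻¹ := by
  intro x x' hx hx'
  have hv : f⁻¹ • y = y := by rw [inv_smul_eq_iff, hf y]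
  have e1 : π (f⁻¹ • x) = y := by rw [hequi, hx, hv]
  have e2 : π (f⁻¹ • x') = y := by rw [hequi, hx', hv]
  have e3 := h _ _ e1 e2
  rw [smul_inv_smul, smul_inv_smul] at e3
  rw [e3, ← mul_assoc, inv_mul_cancel₀ hm, one_mul]

/-- the vertical elements acting as translations on all the fibres -/
def Trans (hequi : ∀ (g : G) (x : X), π (g • x) = g • π x) (U : Y → X → ℂ) : Subgroup G where
  carrier := {f | Vert Y f ∧ ∀ y, IsMul π U f y 1}
  mul_mem' := fun {a b} ha hb => ⟨fun y => by rw [mul_smul, hb.1, ha.1], fun y => by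
    simpa using isMul_mul hequi ha.1 hb.1 (ha.2 y) (hb.2 y)⟩
  one_mem' := ⟨fun y => one_smul _ y, fun y x x' _ _ => by simp⟩
  inv_mem' := fun {a} ha => ⟨fun y => by rw [inv_smul_eq_iff, ha.1], fun y => by
    simpa using isMul_inv hequi ha.1 one_ne_zero (ha.2 y)⟩

theorem trans_normal (hequi : ∀ (g : G) (x : X), π (g • x) = g • π x) (hU : FibC G π U) (g a : G)
    (ha : a ∈ Trans hequi U) : g * a * g⁻¹ ∈ Trans hequi U := by
  refine ⟨?_, ?_⟩
  · intro y
    rw [mul_smul, mul_smul, ha.1, smul_inv_smul]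
  · intro y
    have h := isMul_conj hequi hU g ha.1 (ha.2 (g⁻¹ • y))
    rwa [smul_inv_smul] at h

theorem trans_comm (hequi : ∀ (g : G) (x : X), π (g • x) = g • π x) (hU : FibC G π U)
    (hfaith : ∀ g : G, (∀ x : X, g • x = x) → g = 1) (a a' : G) (ha : a ∈ Trans hequi U)
    (ha' : a' ∈ Trans hequi U) : a * a' = a' * a := by
  have key : ∀ x : X, (a * a') • x = (a' * a) • x := by
    intro x
    obtain ⟨y, hy⟩ : ∃ y, y = π x := ⟨_, rfl⟩
    have p1 : π (a • x) = y := by rw [hequi, ← hy, ha.1]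
    have p2 : π (a' • x) = y := by rw [hequi, ← hy, ha'.1]
    have p3 : π ((a * a') • x) = y := by rw [mul_smul, hequi, p2, ha.1]
    have p4 : π ((a' * a) • x) = y := by rw [mul_smul, hequi, p1, ha'.1]
    have e1 := ha.2 y _ _ hy.symm p2
    have e2 := ha'.2 y _ _ hy.symm p1
    refine (hU.bij y).injOn p3 p4 ?_
    rw [mul_smul, mul_smul]
    linear_combination e1 - e2
  have h1 : (a' * a)⁻¹ * (a * a') = 1 := by
    refine hfaith _ fun x => ?_
    rw [mul_smul, key x, inv_smul_smul]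
  exact (inv_mul_eq_one.1 h1).symm

theorem U_conj_trans (hequi : ∀ (g : G) (x : X), π (g • x) = g • π x) (hU : FibC G π U)
    {F β : G} (hF : Vert Y F) (hβ : β ∈ Trans hequi U) {y : Y} {m : ℂ} (hm : IsMul π U F y m)
    {x : X} (hx : π x = y) :
    U y ((F * β * F⁻¹) • x) = U y x + m * (U y (β • x) - U y x) := by
  have hv : F⁻¹ • y = y := by rw [inv_smul_eq_iff, hF y]
  have p1 : π (F⁻¹ • x) = y := by rw [hequi, hx, hv]
  have p2 : π (β • F⁻¹ • x) = y := by rw [hequi, p1, hβ.1]
  have e1 := hm _ _ p1 p2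
  have e2 := hβ.2 y _ _ p1 hx
  rw [smul_inv_smul] at e1
  rw [mul_smul, mul_smul]
  linear_combination e1 - m * e2

end

end Pool.Agent.ISY
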