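import Pool.Agent.ISY.Hat
import Pool.Agent.ISY.FibIdn

/-!
# ISY-OrdM: vanishing order along a fibre

Uses `analyticAt_chart` (ISY-Hat), `eq_one_of_chart` (ISY-FibIdn); take them as given.

`f` is vertical (`hf`), the identity on the fibre over `b` (`hfb`), `f ≠ 1`; `e` is an adapted chart at `x₀`,
`π x₀ = b`; `w₀ = (e x₀).2`, so `e x₀ = (b, w₀) ∈ e.target`.

Plan. The set `Ω := {(z, w) ∈ e.target | f (e.symm (z, w)) ∈ e.source}` is open and contains `(b, w₀)`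
(`f x₀ = x₀`); let `r > 0` with `ball b r ×ˢ ball w₀ r ⊆ Ω`. For `w ∈ ball w₀ r` let
`h w z := (e (f (e.symm (z, w)))).2 - w`, analytic on `ball b r` as a function of `z`, and `h w b = 0`
(`e.symm (b, w)` lies over `b`, so is fixed by `f`). Not all the functions `h w`, `w ∈ ball w₀ r`, vanish identically
on `ball b r`, by `eq_one_of_chart` and `f ≠ 1`. So the orders `n w := analyticOrderAt (h w) b : ℕ∞` are not all `⊤`
(an analytic function on the connected `ball b r` which vanishes near `b` vanishes on the ball), all `≥ 1`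
(`h w b = 0`). Let `m` be their minimum, attained at `w₁` (well-foundedness, `Nat.find` or `WellFounded.min`), a natural
number `≥ 1`. For every `w ∈ ball w₀ r`, `m ≤ n w`, so `h w z = (z - b)^m * k w z` near `b` with `k w` analytic at `b`
(`natCast_le_analyticOrderAt`), `c w := k w b`, and `c w₁ ≠ 0` (`AnalyticAt.analyticOrderAt_eq_natCast`).
-/

set_option autoImplicit false

open Set Topology Metric Filter
open scoped Manifold

namespace Pool.Agent.ISY

theorem exists_order {X : Type} [TopologicalSpace X] [T2Space X] [SecondCountableTopology X]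
    [ConnectedSpace X] [ChartedSpace (ℂ × ℂ) X] [IsManifold 𝓘(ℂ, ℂ × ℂ) (⊤ : WithTop ℕ∞) X]
    {π : X → ℂ} {f : AutM (ℂ × ℂ) X} (hf : ∀ x, π (f x) = π x) {b : ℂ}
    (hfb : ∀ x, π x = b → f x = x) (hf1 : f ≠ 1) {e : OpenPartialHomeomorph X (ℂ × ℂ)}
    (he : Adapted π e) {x₀ : X} (hx₀ : x₀ ∈ e.source) (hb : π x₀ = b) :
    ∃ (m : ℕ) (r : ℝ) (c : ℂ → ℂ) (w₁ : ℂ), 0 < m ∧ 0 < r ∧
      (∀ z ∈ ball b r, ∀ w ∈ ball (e x₀).2 r, (z, w) ∈ e.target ∧
        f (e.symm (z, w)) ∈ e.source) ∧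
      (∀ w ∈ ball (e x₀).2 r,
        Tendsto (fun z => ((e (f (e.symm (z, w)))).2 - w) / (z - b) ^ m) (𝓝[≠] b) (𝓝 (c w))) ∧
      w₁ ∈ ball (e x₀).2 r ∧ c w₁ ≠ 0 := by
  obtain ⟨w₀, hw₀⟩ : ∃ w₀, w₀ = (e x₀).2 := ⟨_, rfl⟩
  rw [← hw₀]
  have hex : e x₀ = (b, w₀) := Prod.ext ((he.2 x₀ hx₀).trans hb) hw₀.symm
  -- a small bidisc
  have hcont : ContinuousOn (fun q => f (e.symm q)) e.target :=
    f.continuous.comp_continuousOn e.continuousOn_symm
  have hΩ : IsOpen (e.target ∩ (fun q => f (e.symm q)) ⁻¹' e.source) :=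
    hcont.isOpen_inter_preimage e.open_target e.open_source
  have hmem : (b, w₀) ∈ e.target ∩ (fun q => f (e.symm q)) ⁻¹' e.source := by
    refine ⟨hex ▸ e.map_source hx₀, ?_⟩
    rw [mem_preimage, ← hex, e.left_inv hx₀, hfb x₀ hb]
    exact hx₀
  obtain ⟨r, hr, hball⟩ := Metric.isOpen_iff.1 hΩ _ hmem
  rw [← ball_prod_same] at hball
  have hdom : ∀ z ∈ ball b r, ∀ w ∈ ball w₀ r, (z, w) ∈ e.target ∧
      f (e.symm (z, w)) ∈ e.source := fun z hz w hw => hball (mk_mem_prod hz hw)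
  -- the functions
  have hana : ∀ w ∈ ball w₀ r, ∀ z ∈ ball b r,
      AnalyticAt ℂ (fun z => (e (f (e.symm (z, w)))).2 - w) z := by
    intro w hw z hz
    have h1 := analyticAt_chart he he f (hdom z hz w hw).1 (hdom z hz w hw).2
    have h2 : AnalyticAt ℂ (fun z : ℂ => (z, w)) z := analyticAt_id.prod analyticAt_const
    have h3 : AnalyticAt ℂ (fun z => e (f (e.symm (z, w)))) z := h1.comp_of_eq h2 rfl
    have h4 : AnalyticAt ℂ (fun z => (e (f (e.symm (z, w)))).2) z := analyticAt_snd.comp h3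
    exact h4.sub analyticAt_const
  have hzero : ∀ w ∈ ball w₀ r, (e (f (e.symm (b, w)))).2 - w = 0 := by
    intro w hw
    have h1 := hdom b (mem_ball_self hr) w hw
    have h2 : π (e.symm (b, w)) = b := by
      rw [← he.2 _ (e.map_target h1.1), e.right_inv h1.1]
    rw [hfb _ h2, e.right_inv h1.1, sub_self]
  have hbr : b ∈ ball b r := mem_ball_self hr
  -- some order is finite
  obtain ⟨w₂, hw₂, hord₂⟩ : ∃ w ∈ ball w₀ r,
      analyticOrderAt (fun z => (e (f (e.symm (z, w)))).2 - w) b ≠ ⊤ := by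
    by_contra hcon
    push Not at hcon
    refine hf1 (eq_one_of_chart hf he hr (fun q hq => (hball hq).1)
      (fun z hz w hw => (hdom z hz w hw).2) fun z hz w hw => ?_)
    have h1 := analyticOrderAt_eq_top.1 (hcon w hw)
    have h2 := AnalyticOnNhd.eqOn_zero_of_preconnected_of_eventuallyEq_zero
      (fun z hz => hana w hw z hz) (convex_ball b r).isPreconnected hbr h1 hz
    exact sub_eq_zero.1 h2
  have hne : ∃ k : ℕ, ∃ w ∈ ball w₀ r,
      analyticOrderAt (fun z => (e (f (e.symm (z, w)))).2 - w) b = (k : ℕ∞) := by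
    obtain ⟨k, hk⟩ := ENat.ne_top_iff_exists.1 hord₂
    exact ⟨k, w₂, hw₂, hk.symm⟩
  classical
  obtain ⟨w₁, hw₁, hord₁⟩ := Nat.find_spec hne
  obtain ⟨m, hm⟩ : ∃ m, m = Nat.find hne := ⟨_, rfl⟩
  rw [← hm] at hord₁
  have hmin : ∀ w ∈ ball w₀ r,
      (m : ℕ∞) ≤ analyticOrderAt (fun z => (e (f (e.symm (z, w)))).2 - w) b := by
    intro w hw
    by_cases h : analyticOrderAt (fun z => (e (f (e.symm (z, w)))).2 - w) b = ⊤
    · rw [h]
      exact le_top
    · obtain ⟨k, hk⟩ := ENat.ne_top_iff_exists.1 h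
      rw [← hk]
      have := Nat.find_min' hne ⟨w, hw, hk.symm⟩
      rw [hm]
      exact_mod_cast this
  have hlimg : ∀ (h g : ℂ → ℂ), AnalyticAt ℂ g b → (∀ᶠ z in 𝓝 b, h z = (z - b) ^ m • g z) →
      Tendsto (fun z => h z / (z - b) ^ m) (𝓝[≠] b) (𝓝 (g b)) := by
    intro h g hg hgh
    have h1 : Tendsto g (𝓝[≠] b) (𝓝 (g b)) := hg.continuousAt.tendsto.mono_left nhdsWithin_le_nhds
    refine h1.congr' ?_
    filter_upwards [hgh.filter_mono nhdsWithin_le_nhds, self_mem_nhdsWithin] with z hz hzb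
    have h2 : (z - b) ^ m ≠ 0 := pow_ne_zero _ (sub_ne_zero.2 hzb)
    rw [hz, smul_eq_mul, mul_div_cancel_left₀ _ h2]
  have hlim : ∀ w ∈ ball w₀ r, ∃ c : ℂ,
      Tendsto (fun z => ((e (f (e.symm (z, w)))).2 - w) / (z - b) ^ m) (𝓝[≠] b) (𝓝 c) := by
    intro w hw
    obtain ⟨g, hg, hgh⟩ := (natCast_le_analyticOrderAt (hana w hw b hbr)).1 (hmin w hw)
    exact ⟨g b, hlimg _ g hg hgh⟩
  choose! c hc using hlim
  refine ⟨m, r, c, w₁, ?_, hr, hdom, hc, hw₁, ?_⟩
  · rw [Nat.pos_iff_ne_zero]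
    rintro rfl
    rw [Nat.cast_zero, (hana w₁ hw₁ b hbr).analyticOrderAt_eq_zero] at hord₁
    exact hord₁ (hzero w₁ hw₁)
  · obtain ⟨g, hg, hg0, hgh⟩ := (hana w₁ hw₁ b hbr).analyticOrderAt_eq_natCast.1 hord₁
    rw [tendsto_nhds_unique (hc w₁ hw₁) (hlimg _ g hg hgh)]
    exact hg0

end Pool.Agent.ISY
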