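import Mathlib

/-!
# ISY-Osg: Osgood's lemma, as a predicate (definitions)
-/

set_option autoImplicit false

open Set Topology

namespace Pool.Agent.ISY

/-- Osgood's lemma on `E`: a continuous map on an open set of `E`, with values in a complex Banach space,
which is holomorphic along complex lines is analytic -/
def Osg (E : Type) [NormedAddCommGroup E] [NormedSpace ℂ E] : Prop :=
  ∀ (F : Type) [NormedAddCommGroup F] [NormedSpace ℂ F] [CompleteSpace F] (U : Set E) (f : E → F),
    IsOpen U → ContinuousOn f U →
    (∀ x ∈ U, ∀ h : E, DifferentiableAt ℂ (fun t : ℂ => f (x + t • h)) 0) → AnalyticOnNhd ℂ f U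

end Pool.Agent.ISY
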