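import Mathlib

/-!
# ISY-TopC: open maps of compact spaces and connected components
-/

set_option autoImplicit false

open Set Topology

namespace Pool.Agent.ISY

theorem image_connectedComponent {K N : Type} [TopologicalSpace K] [CompactSpace K] [T2Space K]
    [TopologicalSpace N] [T2Space N] [PreconnectedSpace N] {q : K → N} (hq : Continuous q)
    (hop : IsOpenMap q) (c : K) : q '' connectedComponent c = univ := by
  refine eq_univ_of_forall fun y => ?_
  have himg : ∀ Z : {s : Set K // IsClopen s ∧ c ∈ s}, q '' (Z : Set K) = univ := by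
    rintro ⟨Z, hZ, hc⟩
    have h1 : IsClopen (q '' Z) :=
      ⟨(hZ.isClosed.isCompact.image hq).isClosed, hop Z hZ.isOpen⟩
    exact h1.eq_univ ⟨q c, c, hc, rfl⟩
  have : Nonempty {s : Set K // IsClopen s ∧ c ∈ s} := ⟨⟨univ, isClopen_univ, mem_univ c⟩⟩
  have hne := IsCompact.nonempty_iInter_of_directed_nonempty_isCompact_isClosed
    (fun Z : {s : Set K // IsClopen s ∧ c ∈ s} => q ⁻¹' {y} ∩ (Z : Set K))
    (by
      rintro ⟨Z, hZ, hZc⟩ ⟨Z', hZ', hZc'⟩
      refine ⟨⟨Z ∩ Z', hZ.inter hZ', hZc, hZc'⟩, ?_, ?_⟩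
      · rintro x ⟨h1, h2, h3⟩
        exact ⟨h1, h2⟩
      · rintro x ⟨h1, h2, h3⟩
        exact ⟨h1, h3⟩)
    (by
      intro Z
      have h1 : y ∈ q '' (Z : Set K) := by
        rw [himg Z]
        exact mem_univ y
      obtain ⟨x, hx, hxy⟩ := h1
      exact ⟨x, hxy, hx⟩)
    (fun Z => ((isClosed_singleton.preimage hq).inter Z.2.1.isClosed).isCompact)
    (fun Z => (isClosed_singleton.preimage hq).inter Z.2.1.isClosed)
  obtain ⟨x, hx⟩ := hne
  rw [mem_iInter] at hx
  refine ⟨x, ?_, (hx (Classical.arbitrary _)).1⟩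
  rw [connectedComponent_eq_iInter_isClopen, mem_iInter]
  exact fun Z => (hx Z).2

end Pool.Agent.ISY
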